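import Mathlib

/-!
# The Peierls argument in a square
-/

open MeasureTheory Finset

namespace Pool.Agent.H991.DC

noncomputable section

/-- the function `f` is constant along the bonds of the square which do not touch `S` -/
def Sepf (M : ℕ) (S : Set (ℕ × ℕ)) (f : ℕ × ℕ → ZMod 2) : Prop :=
  (∀ a b, a + 1 < M → b < M → (a, b) ∉ S → (a + 1, b) ∉ S → f (a + 1, b) = f (a, b)) ∧
  ∀ a b, a < M → b + 1 < M → (a, b) ∉ S → (a, b + 1) ∉ S → f (a, b + 1) = f (a, b)

/-- `S` separates `x` and `y` -/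
def Sep (M : ℕ) (S : Set (ℕ × ℕ)) (x y : ℕ × ℕ) : Prop := ∃ f, Sepf M S f ∧ f x ≠ f y

/-- Poincare's lemma: a function is decomposed -/
lemma decomp (M : ℕ) (S S1 S2 : Set (ℕ × ℕ)) (hS : ∀ u, u ∈ S → u ∈ S1 ∨ u ∈ S2)
    (hsq : ∀ a b, a + 1 < M → b + 1 < M → ∀ u v, u ∈ S1 → v ∈ S2 →
      (u = (a, b) ∨ u = (a + 1, b) ∨ u = (a, b + 1) ∨ u = (a + 1, b + 1)) →
      ¬ (v = (a, b) ∨ v = (a + 1, b) ∨ v = (a, b + 1) ∨ v = (a + 1, b + 1)))
    (f : ℕ × ℕ → ZMod 2) (hf : Sepf M S f) :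
    ∃ g, Sepf M S1 g ∧ Sepf M S2 (fun u => f u - g u) := by
  classical
  obtain ⟨fh, fv⟩ := hf
  set wh : ℕ → ℕ → ZMod 2 := fun a b =>
    if (a, b) ∈ S1 ∨ (a + 1, b) ∈ S1 then f (a + 1, b) - f (a, b) else 0 with hwh
  set wv : ℕ → ℕ → ZMod 2 := fun a b =>
    if (a, b) ∈ S1 ∨ (a, b + 1) ∈ S1 then f (a, b + 1) - f (a, b) else 0 with hwv
  have closed : ∀ a b, a + 1 < M → b + 1 < M →
      wh a b + wv (a + 1) b = wh a (b + 1) + wv a b := by
    intro a b ha hb
    by_cases h1 : (a, b) ∈ S1 ∨ (a + 1, b) ∈ S1 ∨ (a, b + 1) ∈ S1 ∨ (a + 1, b + 1) ∈ S1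
    · have h2 : (a, b) ∉ S2 ∧ (a + 1, b) ∉ S2 ∧ (a, b + 1) ∉ S2 ∧ (a + 1, b + 1) ∉ S2 := by
        have key : ∀ u, u ∈ S1 → (u = (a, b) ∨ u = (a + 1, b) ∨ u = (a, b + 1) ∨
            u = (a + 1, b + 1)) →
            (a, b) ∉ S2 ∧ (a + 1, b) ∉ S2 ∧ (a, b + 1) ∉ S2 ∧ (a + 1, b + 1) ∉ S2 := by
          intro u hu hu'
          refine ⟨fun hv => ?_, fun hv => ?_, fun hv => ?_, fun hv => ?_⟩
          · exact hsq a b ha hb u _ hu hv hu' (Or.inl rfl)
          · exact hsq a b ha hb u _ hu hv hu' (Or.inr (Or.inl rfl))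
          · exact hsq a b ha hb u _ hu hv hu' (Or.inr (Or.inr (Or.inl rfl)))
          · exact hsq a b ha hb u _ hu hv hu' (Or.inr (Or.inr (Or.inr rfl)))
        rcases h1 with h1 | h1 | h1 | h1
        · exact key _ h1 (Or.inl rfl)
        · exact key _ h1 (Or.inr (Or.inl rfl))
        · exact key _ h1 (Or.inr (Or.inr (Or.inl rfl)))
        · exact key _ h1 (Or.inr (Or.inr (Or.inr rfl)))
      obtain ⟨n1, n2, n3, n4⟩ := h2
      have e1 : wh a b = f (a + 1, b) - f (a, b) := by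
        simp only [hwh]
        split_ifs with h
        · rfl
        · push Not at h
          rw [fh a b ha (by omega) (fun hc => (hS _ hc).elim h.1 n1)
            (fun hc => (hS _ hc).elim h.2 n2), sub_self]
      have e2 : wv (a + 1) b = f (a + 1, b + 1) - f (a + 1, b) := by
        simp only [hwv]
        split_ifs with h
        · rfl
        · push Not at h
          rw [fv (a + 1) b ha hb (fun hc => (hS _ hc).elim h.1 n2)
            (fun hc => (hS _ hc).elim h.2 n4), sub_self]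
      have e3 : wh a (b + 1) = f (a + 1, b + 1) - f (a, b + 1) := by
        simp only [hwh]
        split_ifs with h
        · rfl
        · push Not at h
          rw [fh a (b + 1) ha hb (fun hc => (hS _ hc).elim h.1 n3)
            (fun hc => (hS _ hc).elim h.2 n4), sub_self]
      have e4 : wv a b = f (a, b + 1) - f (a, b) := by
        simp only [hwv]
        split_ifs with h
        · rfl
        · push Not at h
          rw [fv a b (by omega) hb (fun hc => (hS _ hc).elim h.1 n1)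
            (fun hc => (hS _ hc).elim h.2 n3), sub_self]
      rw [e1, e2, e3, e4]
      ring
    · push Not at h1
      obtain ⟨n1, n2, n3, n4⟩ := h1
      have e1 : wh a b = 0 := by simp only [hwh]; rw [if_neg]; tauto
      have e2 : wv (a + 1) b = 0 := by simp only [hwv]; rw [if_neg]; tauto
      have e3 : wh a (b + 1) = 0 := by simp only [hwh]; rw [if_neg]; tauto
      have e4 : wv a b = 0 := by simp only [hwv]; rw [if_neg]; tauto
      rw [e1, e2, e3, e4]
  set g : ℕ × ℕ → ZMod 2 := fun u => ∑ a ∈ range u.1, wh a 0 + ∑ b ∈ range u.2, wv u.1 b with hg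
  have gv : ∀ a b, g (a, b + 1) - g (a, b) = wv a b := by
    intro a b
    simp only [hg]
    rw [Finset.sum_range_succ]
    ring
  have gh : ∀ b a, a + 1 < M → b < M → g (a + 1, b) - g (a, b) = wh a b := by
    intro b
    induction b with
    | zero =>
      intro a ha hb
      simp only [hg, Finset.range_zero, Finset.sum_empty]
      rw [Finset.sum_range_succ]
      ring
    | succ b ih =>
      intro a ha hb
      have h1 := ih a ha (by omega)
      have h2 := closed a b ha hb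
      have h3 := gv a b
      have h4 := gv (a + 1) b
      linear_combination h1 + h4 - h3 + h2
  refine ⟨g, ⟨?_, ?_⟩, ⟨?_, ?_⟩⟩
  · intro a b ha hb h1 h2
    have h3 := gh b a ha hb
    have h4 : wh a b = 0 := by simp only [hwh]; rw [if_neg]; tauto
    rw [h4] at h3
    exact sub_eq_zero.1 h3
  · intro a b ha hb h1 h2
    have h3 := gv a b
    have h4 : wv a b = 0 := by simp only [hwv]; rw [if_neg]; tauto
    rw [h4] at h3
    exact sub_eq_zero.1 h3
  · intro a b ha hb h1 h2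
    have h3 := gh b a ha hb
    change f (a + 1, b) - g (a + 1, b) = f (a, b) - g (a, b)
    by_cases h4 : (a, b) ∈ S1 ∨ (a + 1, b) ∈ S1
    · have h5 : wh a b = f (a + 1, b) - f (a, b) := by simp only [hwh]; rw [if_pos h4]
      linear_combination (-1) * h5 - h3
    · have h5 : wh a b = 0 := by simp only [hwh]; rw [if_neg h4]
      push Not at h4
      have h6 := fh a b ha hb (fun hc => (hS _ hc).elim h4.1 h1) (fun hc => (hS _ hc).elim h4.2 h2)
      linear_combination h6 - h3 - h5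
  · intro a b ha hb h1 h2
    have h3 := gv a b
    change f (a, b + 1) - g (a, b + 1) = f (a, b) - g (a, b)
    by_cases h4 : (a, b) ∈ S1 ∨ (a, b + 1) ∈ S1
    · have h5 : wv a b = f (a, b + 1) - f (a, b) := by simp only [hwv]; rw [if_pos h4]
      linear_combination (-1) * h5 - h3
    · have h5 : wv a b = 0 := by simp only [hwv]; rw [if_neg h4]
      push Not at h4
      have h6 := fv a b ha hb (fun hc => (hS _ hc).elim h4.1 h1) (fun hc => (hS _ hc).elim h4.2 h2)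
      linear_combination h6 - h3 - h5

/-- neighbours including the diagonal ones -/
def Nr (u v : ℕ × ℕ) : Prop :=
  u.1 ≤ v.1 + 1 ∧ v.1 ≤ u.1 + 1 ∧ u.2 ≤ v.2 + 1 ∧ v.2 ≤ u.2 + 1

/-- the graph of the points of `S` -/
def gr (S : Finset (ℕ × ℕ)) : SimpleGraph (ℕ × ℕ) where
  Adj u v := u ≠ v ∧ u ∈ S ∧ v ∈ S ∧ Nr u v
  symm := ⟨fun u v h => ⟨h.1.symm, h.2.2.1, h.2.1, h.2.2.2.2.1, h.2.2.2.1, h.2.2.2.2.2.2,
    h.2.2.2.2.2.1⟩⟩
  loopless := ⟨fun u h => h.1 rfl⟩

lemma sub_mono {M : ℕ} {S T : Set (ℕ × ℕ)} (h : S ⊆ T) {x y : ℕ × ℕ} (hs : Sep M S x y) :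
    Sep M T x y := by
  obtain ⟨f, ⟨f1, f2⟩, f3⟩ := hs
  exact ⟨f, ⟨fun a b ha hb h1 h2 => f1 a b ha hb (fun hc => h1 (h hc)) (fun hc => h2 (h hc)),
    fun a b ha hb h1 h2 => f2 a b ha hb (fun hc => h1 (h hc)) (fun hc => h2 (h hc))⟩, f3⟩

/-- a minimal separating set is connected -/
lemma connected (M : ℕ) (S : Finset (ℕ × ℕ)) (x y : ℕ × ℕ) (hS : Sep M (S : Set (ℕ × ℕ)) x y)
    (hmin : ∀ T : Finset (ℕ × ℕ), T ⊂ S → ¬ Sep M (T : Set (ℕ × ℕ)) x y) (p q : ℕ × ℕ)
    (hp : p ∈ S) (hq : q ∈ S) : (gr S).Reachable p q := by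
  classical
  set S1 : Finset (ℕ × ℕ) := S.filter fun u => (gr S).Reachable p u with hS1
  set S2 : Finset (ℕ × ℕ) := S.filter fun u => ¬ (gr S).Reachable p u with hS2
  obtain ⟨f, hf, hxy⟩ := hS
  have hsq : ∀ a b, a + 1 < M → b + 1 < M → ∀ u v, u ∈ (S1 : Set (ℕ × ℕ)) →
      v ∈ (S2 : Set (ℕ × ℕ)) →
      (u = (a, b) ∨ u = (a + 1, b) ∨ u = (a, b + 1) ∨ u = (a + 1, b + 1)) →
      ¬ (v = (a, b) ∨ v = (a + 1, b) ∨ v = (a, b + 1) ∨ v = (a + 1, b + 1)) := by
    intro a b _ _ u v hu hv hu' hv'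
    have h1 := Finset.mem_filter.1 (Finset.mem_coe.1 hu)
    have h2 := Finset.mem_filter.1 (Finset.mem_coe.1 hv)
    apply h2.2
    have hne : u ≠ v := by
      rintro rfl
      exact h2.2 h1.2
    refine h1.2.trans (SimpleGraph.Adj.reachable ?_)
    refine ⟨hne, h1.1, h2.1, ?_⟩
    rcases hu' with rfl | rfl | rfl | rfl <;> rcases hv' with rfl | rfl | rfl | rfl <;>
      (unfold Nr; dsimp only; omega)
  obtain ⟨g, g1, g2⟩ := decomp M S S1 S2 (fun u hu => by
    by_cases h : (gr S).Reachable p u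
    · left
      exact Finset.mem_coe.2 (Finset.mem_filter.2 ⟨Finset.mem_coe.1 hu, h⟩)
    · right
      exact Finset.mem_coe.2 (Finset.mem_filter.2 ⟨Finset.mem_coe.1 hu, h⟩)) hsq f hf
  have hp1 : p ∈ S1 := Finset.mem_filter.2 ⟨hp, SimpleGraph.Reachable.refl _⟩
  have hn2 : ¬ Sep M (S2 : Set (ℕ × ℕ)) x y := by
    refine hmin S2 ?_
    refine Finset.ssubset_iff_subset_ne.2 ⟨Finset.filter_subset _ _, fun hc => ?_⟩
    have : p ∈ S2 := hc ▸ hp
    exact (Finset.mem_filter.1 this).2 (SimpleGraph.Reachable.refl _)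
  have hg : g x ≠ g y := by
    intro hc
    refine hn2 ⟨_, g2, fun hc2 => hxy ?_⟩
    linear_combination hc2 + hc
  by_contra hq2
  refine hmin S1 ?_ ⟨g, g1, hg⟩
  refine Finset.ssubset_iff_subset_ne.2 ⟨Finset.filter_subset _ _, fun hc => ?_⟩
  have : q ∈ S1 := hc ▸ hq
  exact hq2 (Finset.mem_filter.1 this).2

/-! ### Paths -/

/-- the neighbours -/
def nb (p : ℕ × ℕ) : Finset (ℕ × ℕ) :=
  (Finset.Icc (p.1 - 1) (p.1 + 1)) ×ˢ (Finset.Icc (p.2 - 1) (p.2 + 1))

lemma nb_card (p : ℕ × ℕ) : (nb p).card ≤ 9 := by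
  unfold nb
  rw [Finset.card_product, Nat.card_Icc, Nat.card_Icc]
  have h1 : p.1 + 1 + 1 - (p.1 - 1) ≤ 3 := by omega
  have h2 : p.2 + 1 + 1 - (p.2 - 1) ≤ 3 := by omega
  calc _ ≤ 3 * 3 := Nat.mul_le_mul h1 h2
    _ = 9 := by norm_num

/-- the paths -/
def pths : ℕ → ℕ × ℕ → Finset (List (ℕ × ℕ))
  | 0, p => {[p]}
  | n + 1, p => (nb p).biUnion fun q => (pths n q).image fun l => p :: l

lemma pths_card : ∀ (n : ℕ) (p : ℕ × ℕ), (pths n p).card ≤ 9 ^ n
  | 0, p => by simp [pths]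
  | n + 1, p => by
    have ih := pths_card n
    unfold pths
    refine Finset.card_biUnion_le.trans ?_
    calc ∑ q ∈ nb p, ((pths n q).image fun l => p :: l).card
        ≤ ∑ _q ∈ nb p, 9 ^ n := Finset.sum_le_sum fun q _ => Finset.card_image_le.trans (ih q)
      _ = (nb p).card * 9 ^ n := by rw [Finset.sum_const, smul_eq_mul]
      _ ≤ 9 * 9 ^ n := Nat.mul_le_mul_right _ (nb_card p)
      _ = 9 ^ (n + 1) := by ring

lemma mem_pths : ∀ (n : ℕ) (s : ℕ → ℕ × ℕ), (∀ i < n, Nr (s i) (s (i + 1))) →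
    (List.range (n + 1)).map s ∈ pths n (s 0)
  | 0, s, _ => by simp [pths]
  | n + 1, s, h => by
    have ih := mem_pths n (fun i => s (i + 1)) (fun i hi => h (i + 1) (by omega))
    unfold pths
    rw [Finset.mem_biUnion]
    refine ⟨s 1, ?_, ?_⟩
    · have h0 := h 0 (by omega)
      unfold Nr at h0
      unfold nb
      simp only [Finset.mem_product, Finset.mem_Icc]
      simp only [zero_add] at h0
      omega
    · rw [Finset.mem_image]
      refine ⟨_, ih, ?_⟩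
      rw [List.range_succ_eq_map (n := n + 1), List.map_cons, List.map_map]
      rfl

section prob

variable {Ω : Type*} [MeasurableSpace Ω] (P : Measure Ω) [IsFiniteMeasure P]

/-- there is a path of bad points -/
def Ev (M : ℕ) (B : ℕ × ℕ → Set Ω) (p : ℕ × ℕ) (n : ℕ) : Set Ω :=
  {ω | ∃ s : ℕ → ℕ × ℕ, s 0 = p ∧ (∀ i < n, Nr (s i) (s (i + 1))) ∧
    (∀ i ≤ n, ∀ j ≤ n, s i = s j → i = j) ∧ ∀ i ≤ n, (s i).1 < M ∧ (s i).2 < M ∧ ω ∈ B (s i)}

lemma Ev_le (M : ℕ) (B : ℕ × ℕ → Set Ω) {ε : ℝ} (h0 : 0 ≤ ε)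
    (hB : ∀ T : Finset (ℕ × ℕ), (∀ u ∈ T, u.1 < M ∧ u.2 < M) → P.real (⋂ u ∈ T, B u) ≤ ε ^ T.card)
    (p : ℕ × ℕ) (n : ℕ) : P.real (Ev M B p n) ≤ 9 ^ n * ε ^ (n + 1) := by
  classical
  set L : Finset (List (ℕ × ℕ)) := (pths n p).filter fun l =>
    l.Nodup ∧ l.length = n + 1 ∧ ∀ u ∈ l, u.1 < M ∧ u.2 < M with hL
  have h1 : Ev M B p n ⊆ ⋃ l ∈ L, ⋂ u ∈ l.toFinset, B u := by
    rintro ω ⟨s, s0, s1, s2, s3⟩
    rw [Set.mem_iUnion₂]
    refine ⟨(List.range (n + 1)).map s, ?_, ?_⟩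
    · rw [hL, Finset.mem_filter]
      refine ⟨s0 ▸ mem_pths n s s1, ?_, by simp, ?_⟩
      · refine List.Nodup.map_on (fun i hi j hj hij => ?_) List.nodup_range
        rw [List.mem_range] at hi hj
        exact s2 i (by omega) j (by omega) hij
      · intro u hu
        obtain ⟨i, hi, rfl⟩ := List.mem_map.1 hu
        rw [List.mem_range] at hi
        exact ⟨(s3 i (by omega)).1, (s3 i (by omega)).2.1⟩
    · rw [Set.mem_iInter₂]
      intro u hu
      rw [List.mem_toFinset] at hu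
      obtain ⟨i, hi, rfl⟩ := List.mem_map.1 hu
      rw [List.mem_range] at hi
      exact (s3 i (by omega)).2.2
  refine (measureReal_mono h1 (measure_ne_top _ _)).trans ?_
  refine (measureReal_biUnion_finset_le _ _).trans ?_
  calc ∑ l ∈ L, P.real (⋂ u ∈ l.toFinset, B u) ≤ ∑ _l ∈ L, ε ^ (n + 1) := by
        refine Finset.sum_le_sum fun l hl => ?_
        obtain ⟨-, l1, l2, l3⟩ := Finset.mem_filter.1 hl
        have := hB l.toFinset (fun u hu => l3 u (List.mem_toFinset.1 hu))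
        rwa [List.toFinset_card_of_nodup l1, l2] at this
    _ = L.card * ε ^ (n + 1) := by rw [Finset.sum_const, nsmul_eq_mul]
    _ ≤ 9 ^ n * ε ^ (n + 1) := by
        refine mul_le_mul_of_nonneg_right ?_ (pow_nonneg h0 _)
        have : L.card ≤ 9 ^ n := (Finset.card_filter_le _ _).trans (pths_card n p)
        exact_mod_cast this

end prob

/-- the walk in the graph -/
lemma walk_seq (S : Finset (ℕ × ℕ)) (p q : ℕ × ℕ) (hp : p ∈ S) (h : (gr S).Reachable p q) (n : ℕ)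
    (hn : p.1 + n ≤ q.1 ∨ q.1 + n ≤ p.1 ∨ p.2 + n ≤ q.2 ∨ q.2 + n ≤ p.2) :
    ∃ s : ℕ → ℕ × ℕ, s 0 = p ∧ (∀ i < n, Nr (s i) (s (i + 1))) ∧
      (∀ i ≤ n, ∀ j ≤ n, s i = s j → i = j) ∧ ∀ i ≤ n, s i ∈ S := by
  classical
  obtain ⟨w⟩ := h
  set v := w.toPath with hv
  obtain ⟨v, hpath⟩ := v
  have hlen : ∀ {a b : ℕ × ℕ} (w : (gr S).Walk a b), b.1 ≤ a.1 + w.length ∧
      a.1 ≤ b.1 + w.length ∧ b.2 ≤ a.2 + w.length ∧ a.2 ≤ b.2 + w.length := by
    intro a b w
    induction w with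
    | nil => simp
    | cons h w ih =>
      have hh := h
      obtain ⟨-, -, -, n1, n2, n3, n4⟩ := hh
      rw [SimpleGraph.Walk.length_cons]
      omega
  have hl : n ≤ v.length := by
    have := hlen v
    omega
  refine ⟨v.getVert, v.getVert_zero, fun i hi => ?_, fun i hi j hj hij => ?_, fun i hi => ?_⟩
  · exact (v.adj_getVert_succ (i := i) (by omega)).2.2.2
  · exact hpath.getVert_injOn (by simp; omega) (by simp; omega) hij
  · rcases Nat.eq_zero_or_pos i with rfl | h0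
    · rw [v.getVert_zero]; exact hp
    · obtain ⟨j, rfl⟩ : ∃ j, i = j + 1 := ⟨i - 1, by omega⟩
      exact (v.adj_getVert_succ (i := j) (by omega)).2.2.1

/-- constancy along free rows and columns -/
lemma row_const {M : ℕ} {S : Set (ℕ × ℕ)} {f : ℕ × ℕ → ZMod 2} (hf : Sepf M S f) {b : ℕ}
    (hb : b < M) (hr : ∀ a < M, (a, b) ∉ S) : ∀ a < M, f (a, b) = f (0, b) := by
  intro a
  induction a with
  | zero => intro _; rfl
  | succ a ih =>
    intro ha
    rw [hf.1 a b ha hb (hr a (by omega)) (hr _ ha), ih (by omega)]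

lemma col_const {M : ℕ} {S : Set (ℕ × ℕ)} {f : ℕ × ℕ → ZMod 2} (hf : Sepf M S f) {a : ℕ}
    (ha : a < M) (hr : ∀ b < M, (a, b) ∉ S) : ∀ b < M, f (a, b) = f (a, 0) := by
  intro b
  induction b with
  | zero => intro _; rfl
  | succ b ih =>
    intro hb
    rw [hf.2 a b ha hb (hr b (by omega)) (hr _ hb), ih (by omega)]

/-- the alternatives -/
lemma alt (M : ℕ) (S : Finset (ℕ × ℕ)) (x y : ℕ × ℕ) (hx1 : x.1 < M) (hx2 : x.2 < M)
    (hy1 : y.1 < M) (hy2 : y.2 < M) (hS : Sep M (S : Set (ℕ × ℕ)) x y) :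
    (∀ b < M, ∃ a < M, (a, b) ∈ S) ∨ (∀ a < M, ∃ b < M, (a, b) ∈ S) ∨
    (∃ a < M, ∃ b < M, (a, x.2) ∈ S ∧ (x.1, b) ∈ S) ∨
    (∃ a < M, ∃ b < M, (a, y.2) ∈ S ∧ (y.1, b) ∈ S) := by
  by_contra hc
  push Not at hc
  obtain ⟨⟨r, hr, h1⟩, ⟨c, hc', h2⟩, h3, h4⟩ := hc
  obtain ⟨f, hf, hxy⟩ := hS
  have key : ∀ u : ℕ × ℕ, u.1 < M → u.2 < M →
      (∀ a < M, ∀ b < M, (a, u.2) ∈ S → (u.1, b) ∉ S) → f u = f (0, r) := by
    intro u hu1 hu2 hu
    by_cases hrow : ∃ a < M, (a, u.2) ∈ S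
    · obtain ⟨a, ha, ha'⟩ := hrow
      have hcol : ∀ b < M, (u.1, b) ∉ (S : Set (ℕ × ℕ)) := fun b hb hm => hu a ha b hb ha' hm
      have e1 := col_const hf hu1 hcol u.2 hu2
      have e2 := col_const hf hu1 hcol r hr
      have e3 := row_const hf hr (fun a ha => h1 a ha) u.1 hu1
      calc f u = f (u.1, u.2) := rfl
        _ = f (u.1, r) := by rw [e1, e2]
        _ = f (0, r) := e3
    · push Not at hrow
      have e1 := row_const hf hu2 (fun a ha => hrow a ha) u.1 hu1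
      have e2 := row_const hf hu2 (fun a ha => hrow a ha) c hc'
      have e3 := col_const hf hc' (fun b hb => h2 b hb) u.2 hu2
      have e4 := col_const hf hc' (fun b hb => h2 b hb) r hr
      have e5 := row_const hf hr (fun a ha => h1 a ha) c hc'
      calc f u = f (u.1, u.2) := rfl
        _ = f (c, u.2) := by rw [e1, e2]
        _ = f (c, r) := by rw [e3, e4]
        _ = f (0, r) := e5
  exact hxy ((key x hx1 hx2 h3).trans (key y hy1 hy2 h4).symm)

section prob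

variable {Ω : Type*} [MeasurableSpace Ω] (P : Measure Ω) [IsFiniteMeasure P]

lemma geo (M x : ℕ) : ∑ b ∈ range M, ((1 : ℝ) / 2) ^ (if b ≤ x then x - b else b - x) ≤ 4 := by
  have h1 : ∀ b, ((1 : ℝ) / 2) ^ (if b ≤ x then x - b else b - x) ≤
      (if b ≤ x then (1 / 2) ^ (x - b) else 0) + (if x ≤ b then (1 / 2) ^ (b - x) else 0) := by
    intro b
    rcases le_total b x with h | h
    · rw [if_pos h, if_pos h]
      have : (0 : ℝ) ≤ if x ≤ b then (1 / 2) ^ (b - x) else 0 := by split_ifs <;> positivity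
      linarith
    · rw [if_pos h]
      have h3 : (0 : ℝ) ≤ if b ≤ x then (1 / 2) ^ (x - b) else 0 := by split_ifs <;> positivity
      by_cases h4 : b ≤ x
      · have : b = x := le_antisymm h4 h
        subst this
        simp
      · rw [if_neg h4, if_neg h4, zero_add]
  refine (Finset.sum_le_sum fun b _ => h1 b).trans ?_
  rw [Finset.sum_add_distrib]
  have h2 : ∑ b ∈ range M, (if b ≤ x then ((1 : ℝ) / 2) ^ (x - b) else 0) ≤ 2 := by
    calc ∑ b ∈ range M, (if b ≤ x then ((1 : ℝ) / 2) ^ (x - b) else 0)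
        ≤ ∑ b ∈ range (max M (x + 1)), (if b ≤ x then ((1 : ℝ) / 2) ^ (x - b) else 0) := by
          refine Finset.sum_le_sum_of_subset_of_nonneg ?_ fun b _ _ => ?_
          · exact Finset.range_subset_range.2 (le_max_left _ _)
          · split_ifs <;> positivity
      _ = ∑ b ∈ range (x + 1), ((1 : ℝ) / 2) ^ (x - b) := by
          rw [← Finset.sum_filter]
          refine Finset.sum_congr ?_ fun _ _ => rfl
          ext b
          simp only [Finset.mem_filter, Finset.mem_range, lt_max_iff]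
          omega
      _ = ∑ b ∈ range (x + 1), ((1 : ℝ) / 2) ^ b := by
          rw [← Finset.sum_range_reflect (fun b => ((1 : ℝ) / 2) ^ b) (x + 1)]
          refine Finset.sum_congr rfl fun b hb => ?_
          rfl
      _ ≤ 2 := by
          have := sum_geometric_two_le (x + 1)
          simpa using this
  have h3 : ∑ b ∈ range M, (if x ≤ b then ((1 : ℝ) / 2) ^ (b - x) else 0) ≤ 2 := by
    rw [← Finset.sum_filter]
    calc ∑ b ∈ (range M).filter (fun b => x ≤ b), ((1 : ℝ) / 2) ^ (b - x)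
        = ∑ c ∈ range (M - x), ((1 : ℝ) / 2) ^ c := by
          refine Finset.sum_nbij' (fun b => b - x) (fun c => c + x) ?_ ?_ ?_ ?_ ?_
          · intro b hb
            simp only [Finset.mem_filter, Finset.mem_range] at hb ⊢
            omega
          · intro b hb
            simp only [Finset.mem_filter, Finset.mem_range] at hb ⊢
            omega
          · intro b hb
            simp only [Finset.mem_filter, Finset.mem_range] at hb
            omega
          · intro b hb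
            omega
          · intro b hb
            rfl
      _ ≤ 2 := by
          have := sum_geometric_two_le (M - x)
          simpa using this
  linarith

lemma half_pow (M : ℕ) (hM : 1 ≤ M) : (M : ℝ) * (1 / 2) ^ (M - 1) ≤ 1 := by
  obtain ⟨k, rfl⟩ : ∃ k, M = k + 1 := ⟨M - 1, by omega⟩
  rw [Nat.add_sub_cancel]
  have h : ((k + 1 : ℕ) : ℝ) ≤ 2 ^ k := by
    have : k + 1 ≤ 2 ^ k := Nat.lt_two_pow_self
    exact_mod_cast this
  rw [one_div, inv_pow]
  rw [mul_inv_le_iff₀ (by positivity)]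
  simpa using h

/-- the Peierls argument -/
theorem peierls (M : ℕ) (hM : 2 ≤ M) (B : ℕ × ℕ → Set Ω) {ε : ℝ} (h0 : 0 ≤ ε) (hε : 9 * ε ≤ 1 / 2)
    (hB : ∀ T : Finset (ℕ × ℕ), (∀ u ∈ T, u.1 < M ∧ u.2 < M) → P.real (⋂ u ∈ T, B u) ≤ ε ^ T.card)
    (x y : ℕ × ℕ) (hx1 : x.1 < M) (hx2 : x.2 < M) (hy1 : y.1 < M) (hy2 : y.2 < M) :
    P.real {ω | ω ∉ B x ∧ ω ∉ B y ∧ Sep M {u | u.1 < M ∧ u.2 < M ∧ ω ∈ B u} x y} ≤ 10 * ε := by
  classical
  set A := {ω | ω ∉ B x ∧ ω ∉ B y ∧ Sep M {u | u.1 < M ∧ u.2 < M ∧ ω ∈ B u} x y} with hA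
  set dd : ℕ → ℕ → ℕ := fun b x => if b ≤ x then x - b else b - x with hdd
  -- the cover
  have hcov : A ⊆ ((⋃ a ∈ range M, Ev M B (a, 0) (M - 1)) ∪ (⋃ b ∈ range M, Ev M B (0, b) (M - 1))) ∪
      ((⋃ b ∈ range M, Ev M B (x.1, b) (dd b x.2)) ∪ (⋃ b ∈ range M, Ev M B (y.1, b) (dd b y.2))) := by
    rintro ω ⟨hxB, hyB, hsep⟩
    set S0 : Finset (ℕ × ℕ) := ((range M) ×ˢ (range M)).filter fun u => ω ∈ B u with hS0
    have hS0c : (S0 : Set (ℕ × ℕ)) = {u | u.1 < M ∧ u.2 < M ∧ ω ∈ B u} := by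
      ext u
      simp only [hS0, Finset.coe_filter, Finset.mem_product, Finset.mem_range, Set.mem_ofPred_eq]
      tauto
    rw [← hS0c] at hsep
    -- the minimal set
    set TT : Finset (Finset (ℕ × ℕ)) :=
      S0.powerset.filter fun T : Finset (ℕ × ℕ) => Sep M (T : Set (ℕ × ℕ)) x y with hTT
    obtain ⟨S, hSm⟩ := TT.exists_minimal ⟨S0, by
      rw [hTT, Finset.mem_filter]
      exact ⟨Finset.mem_powerset_self _, hsep⟩⟩
    have hSmem := Finset.mem_filter.1 hSm.1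
    have hSsub : S ⊆ S0 := by
      have := Finset.mem_powerset.1 hSmem.1
      exact this
    have hmin : ∀ T : Finset (ℕ × ℕ), T ⊂ S → ¬ Sep M (T : Set (ℕ × ℕ)) x y := by
      intro T hT hTs
      have h1 : T ∈ TT :=
        Finset.mem_filter.2 ⟨Finset.mem_powerset.2 (hT.1.trans hSsub), hTs⟩
      exact hT.2 (hSm.2 h1 hT.1)
    have hcon := connected M S x y hSmem.2 hmin
    have hin : ∀ u ∈ S, u.1 < M ∧ u.2 < M ∧ ω ∈ B u := by
      intro u hu
      have : u ∈ (S0 : Set (ℕ × ℕ)) := hSsub hu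
      rwa [hS0c] at this
    have mk : ∀ (p q : ℕ × ℕ) (n : ℕ), p ∈ S → q ∈ S →
        (p.1 + n ≤ q.1 ∨ q.1 + n ≤ p.1 ∨ p.2 + n ≤ q.2 ∨ q.2 + n ≤ p.2) → ω ∈ Ev M B p n := by
      intro p q n hp hq hn
      obtain ⟨s, s0, s1, s2, s3⟩ := walk_seq S p q hp (hcon p q hp hq) n hn
      exact ⟨s, s0, s1, s2, fun i hi => hin _ (s3 i hi)⟩
    rcases alt M S x y hx1 hx2 hy1 hy2 hSmem.2 with h | h | h | h
    · obtain ⟨a, ha, ha'⟩ := h 0 (by omega)
      obtain ⟨c, hc, hc'⟩ := h (M - 1) (by omega)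
      left; left
      rw [Set.mem_iUnion₂]
      exact ⟨a, Finset.mem_range.2 ha, mk _ _ _ ha' hc' (by simp)⟩
    · obtain ⟨a, ha, ha'⟩ := h 0 (by omega)
      obtain ⟨c, hc, hc'⟩ := h (M - 1) (by omega)
      left; right
      rw [Set.mem_iUnion₂]
      exact ⟨a, Finset.mem_range.2 ha, mk _ _ _ ha' hc' (by simp)⟩
    · obtain ⟨a, ha, b, hb, h1, h2⟩ := h
      right; left
      rw [Set.mem_iUnion₂]
      refine ⟨b, Finset.mem_range.2 hb, mk _ _ _ h2 h1 ?_⟩
      simp only [hdd]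
      split_ifs <;> omega
    · obtain ⟨a, ha, b, hb, h1, h2⟩ := h
      right; right
      rw [Set.mem_iUnion₂]
      refine ⟨b, Finset.mem_range.2 hb, mk _ _ _ h2 h1 ?_⟩
      simp only [hdd]
      split_ifs <;> omega
  have hE : ∀ p n, P.real (Ev M B p n) ≤ ε * (1 / 2) ^ n := by
    intro p n
    refine (Ev_le P M B h0 hB p n).trans ?_
    have : (9 : ℝ) ^ n * ε ^ (n + 1) = ε * (9 * ε) ^ n := by rw [mul_pow]; ring
    rw [this]
    exact mul_le_mul_of_nonneg_left (pow_le_pow_left₀ (by positivity) hε n) h0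
  have hU : ∀ (g : ℕ → ℕ × ℕ) (k : ℕ → ℕ), P.real (⋃ b ∈ range M, Ev M B (g b) (k b)) ≤
      ε * ∑ b ∈ range M, ((1 : ℝ) / 2) ^ k b := by
    intro g k
    refine (measureReal_biUnion_finset_le _ _).trans ?_
    rw [Finset.mul_sum]
    exact Finset.sum_le_sum fun b _ => hE _ _
  have hc1 : ∑ _b ∈ range M, ((1 : ℝ) / 2) ^ (M - 1) ≤ 1 := by
    rw [Finset.sum_const, Finset.card_range, nsmul_eq_mul]
    exact half_pow M (by omega)
  refine (measureReal_mono hcov (measure_ne_top _ _)).trans ?_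
  refine (measureReal_union_le _ _).trans ?_
  have k1 := measureReal_union_le (μ := P) (⋃ a ∈ range M, Ev M B (a, 0) (M - 1))
    (⋃ b ∈ range M, Ev M B (0, b) (M - 1))
  have k2 := measureReal_union_le (μ := P) (⋃ b ∈ range M, Ev M B (x.1, b) (dd b x.2))
    (⋃ b ∈ range M, Ev M B (y.1, b) (dd b y.2))
  have k3 := hU (fun a => (a, 0)) (fun _ => M - 1)
  have k4 := hU (fun b => (0, b)) (fun _ => M - 1)
  have k5 := hU (fun b => (x.1, b)) (fun b => dd b x.2)
  have k6 := hU (fun b => (y.1, b)) (fun b => dd b y.2)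
  have g5 : ∑ b ∈ range M, ((1 : ℝ) / 2) ^ dd b x.2 ≤ 4 := geo M x.2
  have g6 : ∑ b ∈ range M, ((1 : ℝ) / 2) ^ dd b y.2 ≤ 4 := geo M y.2
  have m1 := mul_le_mul_of_nonneg_left hc1 h0
  have m5 := mul_le_mul_of_nonneg_left g5 h0
  have m6 := mul_le_mul_of_nonneg_left g6 h0
  linarith

end prob

end

end Pool.Agent.H991.DC
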