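import Mathlib

/-!
# Chessboard estimates: abstract version
-/

open Finset Filter Topology

namespace Pool.Agent.H991.DC

noncomputable section

section one

variable {A : Type*} {h : ℕ}

/-- the word reflected from the left half -/
def vp (v : ZMod (2 * h) → A) : ZMod (2 * h) → A :=
  fun j => if j.val < h then v j else v (-1 - j)

/-- the word reflected from the right half -/
def vm (v : ZMod (2 * h) → A) : ZMod (2 * h) → A :=
  fun j => if j.val < h then v (-1 - j) else v j

lemma val_refl [NeZero h] (j : ZMod (2 * h)) : (-1 - j).val = 2 * h - 1 - j.val := by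
  have hh : 0 < h := Nat.pos_of_ne_zero (NeZero.ne h)
  haveI : NeZero (2 * h) := ⟨by omega⟩
  have h1 : j.val < 2 * h := ZMod.val_lt j
  have h2 : (((2 * h - 1 - j.val : ℕ)) : ZMod (2 * h)) = -1 - j := by
    rw [Nat.cast_sub (by omega), Nat.cast_sub (by omega), ZMod.natCast_self,
      ZMod.natCast_zmod_val]
    simp
  rw [← h2, ZMod.val_natCast, Nat.mod_eq_of_lt (by omega)]

lemma val_succ [NeZero h] (j : ZMod (2 * h)) :
    (j + 1).val = if j.val + 1 < 2 * h then j.val + 1 else 0 := by
  have hh : 0 < h := Nat.pos_of_ne_zero (NeZero.ne h)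
  haveI : NeZero (2 * h) := ⟨by omega⟩
  have h1 : j.val < 2 * h := ZMod.val_lt j
  have h2 : (((j.val + 1 : ℕ)) : ZMod (2 * h)) = j + 1 := by
    rw [Nat.cast_add, ZMod.natCast_zmod_val, Nat.cast_one]
  rw [← h2, ZMod.val_natCast]
  split_ifs with h3
  · exact Nat.mod_eq_of_lt h3
  · have : j.val + 1 = 2 * h := by omega
    rw [this, Nat.mod_self]

lemma val_inj' [NeZero h] {a b : ZMod (2 * h)} (hab : a.val = b.val) : a = b := by
  have hh : 0 < h := Nat.pos_of_ne_zero (NeZero.ne h)
  haveI : NeZero (2 * h) := ⟨by omega⟩
  exact ZMod.val_injective _ hab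

/-- the number of walls -/
def W [DecidableEq A] [NeZero (2 * h)] (v : ZMod (2 * h) → A) : ℕ :=
  ∑ j, if v j = v (j + 1) then 0 else 1

lemma walls_aux [DecidableEq A] [NeZero h] (v : ZMod (2 * h) → A) (j : ZMod (2 * h)) :
    (if vp v j = vp v (j + 1) then 0 else 1) + (if vm v j = vm v (j + 1) then 0 else 1) +
      (if j = -1 then (if v j = v (j + 1) then 0 else 2) else 0) ≤
    (if v j = v (j + 1) then 0 else 1) + (if v (-2 - j) = v (-2 - j + 1) then 0 else 1) := by
  have hh : 0 < h := Nat.pos_of_ne_zero (NeZero.ne h)
  haveI : NeZero (2 * h) := ⟨by omega⟩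
  have h1 : j.val < 2 * h := ZMod.val_lt j
  have e1 : -2 - j + 1 = -1 - j := by ring
  have e2 : -1 - (j + 1) = -2 - j := by ring
  by_cases hj : j = -1
  · subst hj
    have v1 : ((-1 : ZMod (2 * h))).val = 2 * h - 1 := by
      have := val_refl (0 : ZMod (2 * h))
      simpa using this
    have v2 : ((-1 : ZMod (2 * h)) + 1).val = 0 := by simp
    have k1 : vp v (-1) = v 0 := by
      unfold vp
      rw [if_neg (by omega)]
      congr 1
      ring
    have k2 : vp v (-1 + 1) = v 0 := by
      unfold vp
      rw [if_pos (by omega)]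
      simp
    have k3 : vm v (-1) = v (-1) := by
      unfold vm
      rw [if_neg (by omega)]
    have k4 : vm v (-1 + 1) = v (-1) := by
      unfold vm
      rw [if_pos (by omega)]
      simp
    rw [k1, k2, k3, k4, if_pos rfl, if_pos rfl, if_pos rfl]
    have e3 : (-2 : ZMod (2 * h)) - -1 = -1 := by ring
    rw [e3]
    split_ifs <;> omega
  · rw [if_neg hj, e1]
    have v2 := val_succ j
    have hlt : j.val + 1 < 2 * h := by
      by_contra hc
      apply hj
      apply val_inj'
      have := val_refl (0 : ZMod (2 * h))
      simp only [sub_zero, ZMod.val_zero] at this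
      rw [this]
      omega
    rw [if_pos hlt] at v2
    rcases lt_trichotomy (j.val + 1) h with hc | hc | hc
    · have k1 : vp v j = v j := by unfold vp; rw [if_pos (by omega)]
      have k2 : vp v (j + 1) = v (j + 1) := by unfold vp; rw [if_pos (by omega)]
      have k3 : vm v j = v (-1 - j) := by unfold vm; rw [if_pos (by omega)]
      have k4 : vm v (j + 1) = v (-2 - j) := by unfold vm; rw [if_pos (by omega), e2]
      rw [k1, k2, k3, k4]
      by_cases a : v j = v (j + 1) <;> by_cases b : v (-2 - j) = v (-1 - j)
      · rw [if_pos a, if_pos b, if_pos b.symm]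
      · rw [if_pos a, if_neg b, if_neg (fun h => b h.symm)]
      · rw [if_neg a, if_pos b, if_pos b.symm]
      · rw [if_neg a, if_neg b, if_neg (fun h => b h.symm)]
    · have k1 : vp v j = v j := by unfold vp; rw [if_pos (by omega)]
      have k2 : vp v (j + 1) = v (-2 - j) := by unfold vp; rw [if_neg (by omega), e2]
      have k3 : vm v j = v (-1 - j) := by unfold vm; rw [if_pos (by omega)]
      have k4 : vm v (j + 1) = v (j + 1) := by unfold vm; rw [if_neg (by omega)]
      have e5 : -2 - j = j := by
        apply val_inj'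
        have := val_refl (j + 1)
        rw [e2] at this
        omega
      have e6 : -1 - j = j + 1 := by
        apply val_inj'
        have := val_refl j
        omega
      rw [k1, k2, k3, k4, e5, e6, if_pos rfl, if_pos rfl]
      omega
    · have k1 : vp v j = v (-1 - j) := by unfold vp; rw [if_neg (by omega)]
      have k2 : vp v (j + 1) = v (-2 - j) := by unfold vp; rw [if_neg (by omega), e2]
      have k3 : vm v j = v j := by unfold vm; rw [if_neg (by omega)]
      have k4 : vm v (j + 1) = v (j + 1) := by unfold vm; rw [if_neg (by omega)]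
      rw [k1, k2, k3, k4]
      by_cases a : v j = v (j + 1) <;> by_cases b : v (-2 - j) = v (-1 - j)
      · rw [if_pos a, if_pos b, if_pos b.symm]
      · rw [if_pos a, if_neg b, if_neg (fun h => b h.symm)]
      · rw [if_neg a, if_pos b, if_pos b.symm]
      · rw [if_neg a, if_neg b, if_neg (fun h => b h.symm)]

lemma walls [DecidableEq A] [NeZero h] [NeZero (2 * h)] (v : ZMod (2 * h) → A)
    (hv : v (-1) ≠ v (-1 + 1)) : W (vp v) + W (vm v) + 2 ≤ W v + W v := by
  have h1 : ∑ j : ZMod (2 * h), ((if vp v j = vp v (j + 1) then 0 else 1) +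
      (if vm v j = vm v (j + 1) then 0 else 1) +
      (if j = -1 then (if v j = v (j + 1) then 0 else 2) else 0)) ≤
    ∑ j : ZMod (2 * h), ((if v j = v (j + 1) then 0 else 1) +
      (if v (-2 - j) = v (-2 - j + 1) then 0 else 1)) :=
    Finset.sum_le_sum fun j _ => walls_aux v j
  rw [Finset.sum_add_distrib, Finset.sum_add_distrib, Finset.sum_add_distrib,
    Finset.sum_ite_eq' Finset.univ (-1 : ZMod (2 * h)), if_pos (Finset.mem_univ _), if_neg hv] at h1
  have h2 : ∑ j : ZMod (2 * h), (if v (-2 - j) = v (-2 - j + 1) then 0 else 1) = W v :=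
    Equiv.sum_comp (Equiv.subLeft (-2 : ZMod (2 * h))) (fun j => if v j = v (j + 1) then 0 else 1)
  rw [h2] at h1
  exact h1

lemma W_shift [DecidableEq A] [NeZero (2 * h)] (v : ZMod (2 * h) → A) (c : ZMod (2 * h)) :
    W (fun j => v (j + c)) = W v := by
  unfold W
  rw [← Equiv.sum_comp (Equiv.addRight c) (fun j => if v j = v (j + 1) then 0 else 1)]
  refine Finset.sum_congr rfl fun j _ => ?_
  have e : j + 1 + c = j + c + 1 := by ring
  show (if v (j + c) = v (j + 1 + c) then 0 else 1) = if v (j + c) = v (j + c + 1) then 0 else 1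
  simp only [e]

lemma const_of_W [DecidableEq A] [NeZero (2 * h)] (v : ZMod (2 * h) → A) (hW : W v = 0) :
    ∀ j, v j = v 0 := by
  have h1 : ∀ j, v j = v (j + 1) := by
    intro j
    have := (Finset.sum_eq_zero_iff.1 hW) j (Finset.mem_univ _)
    by_contra hc
    rw [if_neg hc] at this
    exact one_ne_zero this
  have h2 : ∀ k : ℕ, v (k : ZMod (2 * h)) = v 0 := by
    intro k
    induction k with
    | zero => simp
    | succ k ih => rw [Nat.cast_succ, ← h1, ih]
  intro j
  rw [← ZMod.natCast_zmod_val j]
  exact h2 _

/-- the chessboard estimate in one dimension, positive case -/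
lemma chess1_pos [Fintype A] [NeZero h] [NeZero (2 * h)] (g : (ZMod (2 * h) → A) → ℝ)
    (g0 : ∀ v, 0 ≤ g v) (gs : ∀ v c, g (fun j => v (j + c)) = g v)
    (gr : ∀ v, g v ^ 2 ≤ g (vp v) * g (vm v)) (gp : ∀ a, 0 < g fun _ => a)
    (v : ZMod (2 * h) → A) : g v ^ (2 * h) ≤ ∏ j, g fun _ => v j := by
  classical
  -- the ratio
  set c : A → ℝ := fun a => g fun _ => a with hc
  set Q : (ZMod (2 * h) → A) → ℝ := fun v => ∏ j, c (v j) with hQ
  have Qp : ∀ v, 0 < Q v := fun v => Finset.prod_pos fun j _ => gp _
  set ρ : (ZMod (2 * h) → A) → ℝ := fun v => g v ^ (2 * h) / Q v with hρ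
  have r0 : ∀ v, 0 ≤ ρ v := fun v => div_nonneg (pow_nonneg (g0 v) _) (Qp v).le
  have Qs : ∀ v d, Q (fun j => v (j + d)) = Q v := by
    intro v d
    exact Equiv.prod_comp (Equiv.addRight d) (fun j => c (v j))
  have rs : ∀ v d, ρ (fun j => v (j + d)) = ρ v := by
    intro v d
    simp only [hρ]
    rw [gs, Qs]
  have Qr : ∀ v, Q (vp v) * Q (vm v) = Q v * Q v := by
    intro v
    have e1 : Q v = ∏ j, c (v (-1 - j)) :=
      (Equiv.prod_comp (Equiv.subLeft (-1 : ZMod (2 * h))) (fun j => c (v j))).symm
    calc Q (vp v) * Q (vm v) = ∏ j, (c (vp v j) * c (vm v j)) := by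
          rw [Finset.prod_mul_distrib]
      _ = ∏ j, (c (v j) * c (v (-1 - j))) := by
          refine Finset.prod_congr rfl fun j _ => ?_
          unfold vp vm
          split_ifs
          · rfl
          · rw [mul_comm]
      _ = Q v * ∏ j, c (v (-1 - j)) := Finset.prod_mul_distrib
      _ = Q v * Q v := by rw [← e1]
  have rr : ∀ v, ρ v ^ 2 ≤ ρ (vp v) * ρ (vm v) := by
    intro v
    simp only [hρ]
    rw [div_mul_div_comm, Qr, div_pow, ← pow_mul, mul_comm (2 * h) 2, pow_mul, ← mul_pow, sq (Q v)]
    gcongr
    · exact mul_nonneg (Qp v).le (Qp v).le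
    · exact gr v
  -- the maximum
  have : Nonempty (ZMod (2 * h) → A) := ⟨v⟩
  obtain ⟨w0, hw0⟩ := Finite.exists_max ρ
  set M := ρ w0 with hM
  have hMc : ∀ a, ρ (fun _ => a) = 1 := by
    intro a
    have e1 : Q (fun _ => a) = c a ^ (2 * h) := by
      simp only [hQ]
      rw [Finset.prod_const, Finset.card_univ, ZMod.card]
    simp only [hρ]
    rw [e1]
    exact div_self (pow_pos (gp a) _).ne'
  have hM1 : 1 ≤ M := by
    have := hw0 (fun _ => v 0)
    rwa [hMc] at this
  -- a maximizer with the least number of walls
  set T : Finset (ZMod (2 * h) → A) := Finset.univ.filter fun u => ρ u = M with hT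
  have hTn : T.Nonempty := ⟨w0, by rw [hT, Finset.mem_filter]; exact ⟨Finset.mem_univ _, rfl⟩⟩
  obtain ⟨w, hwT, hw⟩ := T.exists_min_image W hTn
  have hwM : ρ w = M := (Finset.mem_filter.1 hwT).2
  have hfin : M ≤ 1 := by
    by_cases hW : W w = 0
    · have h1 := const_of_W w hW
      have h2 : w = fun _ => w 0 := funext h1
      rw [← hwM, h2, hMc]
    · exfalso
      obtain ⟨j, -, hj⟩ := Finset.exists_ne_zero_of_sum_ne_zero hW
      have hj' : w j ≠ w (j + 1) := by
        intro hc
        rw [if_pos hc] at hj
        exact hj rfl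
      set u : ZMod (2 * h) → A := fun i => w (i + (j + 1)) with hu
      have hu1 : u (-1) ≠ u (-1 + 1) := by
        simp only [hu]
        rw [show (-1 : ZMod (2 * h)) + (j + 1) = j by ring,
          show (-1 : ZMod (2 * h)) + 1 + (j + 1) = j + 1 by ring]
        exact hj'
      have huM : ρ u = M := by rw [hu, rs, hwM]
      have huW : W u = W w := W_shift w (j + 1)
      have h1 := walls u hu1
      have h2 := rr u
      rw [huM] at h2
      have hp := hw0 (vp u)
      have hm := hw0 (vm u)
      have hMp : 0 < M := by linarith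
      have ep : ρ (vp u) = M := by
        refine le_antisymm hp ?_
        have h3 : ρ (vp u) * ρ (vm u) ≤ ρ (vp u) * M := mul_le_mul_of_nonneg_left hm (r0 _)
        have h4 : M * M ≤ ρ (vp u) * M := by nlinarith
        exact le_of_mul_le_mul_right h4 hMp
      have em : ρ (vm u) = M := by
        refine le_antisymm hm ?_
        rw [ep] at h2
        have h4 : M * M ≤ M * ρ (vm u) := by nlinarith
        exact le_of_mul_le_mul_left h4 hMp
      have kp := hw (vp u) (by rw [hT, Finset.mem_filter]; exact ⟨Finset.mem_univ _, ep⟩)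
      have km := hw (vm u) (by rw [hT, Finset.mem_filter]; exact ⟨Finset.mem_univ _, em⟩)
      omega
  have h1 : ρ v ≤ 1 := (hw0 v).trans hfin
  simp only [hρ] at h1
  rwa [div_le_one (Qp v)] at h1

/-- the chessboard estimate in one dimension -/
theorem chess1 [Fintype A] [NeZero h] [NeZero (2 * h)] (g : (ZMod (2 * h) → A) → ℝ)
    (g0 : ∀ v, 0 ≤ g v) (gs : ∀ v c, g (fun j => v (j + c)) = g v)
    (gr : ∀ v, g v ^ 2 ≤ g (vp v) * g (vm v))
    (v : ZMod (2 * h) → A) : g v ^ (2 * h) ≤ ∏ j, g fun _ => v j := by
  have key : ∀ δ : ℝ, 0 < δ → (g v + δ) ^ (2 * h) ≤ ∏ j, ((g fun _ => v j) + δ) := by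
    intro δ hδ
    refine chess1_pos (fun v => g v + δ) (fun v => by have := g0 v; linarith)
      (fun v c => by rw [gs]) (fun v => ?_) (fun a => by have := g0 fun _ => a; linarith) v
    have h1 := gr v
    have h2 := g0 (vp v)
    have h3 := g0 (vm v)
    have h4 := g0 v
    have h5 : 2 * g v ≤ g (vp v) + g (vm v) := by
      refine abs_le_of_sq_le_sq' (a := 2 * g v) (b := g (vp v) + g (vm v)) ?_ (by linarith) |>.2
      nlinarith [sq_nonneg (g (vp v) - g (vm v))]
    nlinarith
  have t1 : Tendsto (fun δ : ℝ => (g v + δ) ^ (2 * h)) (𝓝[>] 0) (𝓝 ((g v + 0) ^ (2 * h))) := by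
    have : Continuous fun δ : ℝ => (g v + δ) ^ (2 * h) := by fun_prop
    exact (this.tendsto 0).mono_left nhdsWithin_le_nhds
  have t2 : Tendsto (fun δ : ℝ => ∏ j, ((g fun _ => v j) + δ)) (𝓝[>] 0)
      (𝓝 (∏ j, ((g fun _ => v j) + 0))) := by
    have : Continuous fun δ : ℝ => ∏ j, ((g fun _ => v j) + δ) := by fun_prop
    exact (this.tendsto 0).mono_left nhdsWithin_le_nhds
  have h1 := le_of_tendsto_of_tendsto t1 t2 (by
    filter_upwards [self_mem_nhdsWithin] with δ hδ using key δ hδ)
  simpa using h1

end one

/-- the chessboard estimate -/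
theorem chess {K : Type*} [Fintype K] {D h : ℕ} [NeZero h] [NeZero (2 * h)]
    (G : ((Fin D → ZMod (2 * h)) → K) → ℝ) (g0 : ∀ w, 0 ≤ G w)
    (gs : ∀ (i : Fin D) (c : ZMod (2 * h)) w, G (fun B => w (Function.update B i (B i + c))) = G w)
    (gr : ∀ (i : Fin D) w, G w ^ 2 ≤
      G (fun B => if (B i).val < h then w B else w (Function.update B i (-1 - B i))) *
      G (fun B => if (B i).val < h then w (Function.update B i (-1 - B i)) else w B))
    (w : (Fin D → ZMod (2 * h)) → K) :
    G w ^ ((2 * h) ^ D) ≤ ∏ B : Fin D → ZMod (2 * h), G fun _ => w B := by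
  classical
  have hh : 0 < h := Nat.pos_of_ne_zero (NeZero.ne h)
  -- one direction
  have one : ∀ (i : Fin D) w, G w ^ (2 * h) ≤
      ∏ j : ZMod (2 * h), G fun B => w (Function.update B i j) := by
    intro i w
    set cf : (ZMod (2 * h) → ((Fin D → ZMod (2 * h)) → K)) → (Fin D → ZMod (2 * h)) → K :=
      fun v B => v (B i) (Function.update B i 0) with hcf
    have h1 := chess1 (fun v => G (cf v)) (fun v => g0 _) (fun v c => by
        rw [← gs i c (cf v)]
        congr 1
        funext B
        simp only [hcf, Function.update_self, Function.update_idem]) (fun v => by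
        have := gr i (cf v)
        convert this using 3
        · funext B
          simp only [hcf, vp, Function.update_self, Function.update_idem]
          split_ifs <;> rfl
        · funext B
          simp only [hcf, vm, Function.update_self, Function.update_idem]
          split_ifs <;> rfl) (fun j B => w (Function.update B i j))
    have e1 : cf (fun j B => w (Function.update B i j)) = w := by
      funext B
      simp only [hcf, Function.update_idem, Function.update_eq_self]
    have e2 : ∀ j, cf (fun _ B => w (Function.update B i j)) =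
        fun B => w (Function.update B i j) := by
      intro j
      funext B
      simp only [hcf, Function.update_idem]
    simp only [e1, e2] at h1
    exact h1
  -- all directions
  have all : ∀ S : Finset (Fin D), G w ^ ((2 * h) ^ D) ≤
      ∏ c : Fin D → ZMod (2 * h), G fun B => w (fun k => if k ∈ S then c k else B k) := by
    intro S
    induction S using Finset.induction_on with
    | empty =>
      simp only [Finset.notMem_empty, if_false]
      rw [Finset.prod_const, Finset.card_univ, Fintype.card_fun, ZMod.card, Fintype.card_fin]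
    | insert i S hi ih =>
      refine ih.trans ?_
      have hn : (2 * h) ≠ 0 := by omega
      refine le_of_pow_le_pow_left₀ hn (Finset.prod_nonneg fun c _ => g0 _) ?_
      rw [← Finset.prod_pow, ← Finset.prod_pow]
      calc ∏ c : Fin D → ZMod (2 * h), (G fun B => w (fun k => if k ∈ S then c k else B k)) ^ (2 * h)
          ≤ ∏ c : Fin D → ZMod (2 * h), ∏ j : ZMod (2 * h),
            G fun B => w (fun k => if k ∈ insert i S then Function.update c i j k else B k) := by
            refine Finset.prod_le_prod (fun c _ => pow_nonneg (g0 _) _) fun c _ => ?_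
            refine (one i _).trans (le_of_eq ?_)
            refine Finset.prod_congr rfl fun j _ => ?_
            congr 1
            funext B
            congr 1
            funext k
            by_cases hk : k = i
            · subst hk
              simp [hi]
            · simp [hk]
        _ = ∏ c : Fin D → ZMod (2 * h),
            (G fun B => w (fun k => if k ∈ insert i S then c k else B k)) ^ (2 * h) := by
            have e1 : ∀ F : (Fin D → ZMod (2 * h)) → ℝ,
                ∏ c : Fin D → ZMod (2 * h), ∏ j : ZMod (2 * h), F (Function.update c i j) =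
                ∏ c : Fin D → ZMod (2 * h), F c ^ (2 * h) := by
              intro F
              have e2 : ∀ c, F c ^ (2 * h) = ∏ _j : ZMod (2 * h), F c := by
                intro c
                rw [Finset.prod_const, Finset.card_univ, ZMod.card]
              simp only [e2]
              rw [← Fintype.prod_prod_type', ← Fintype.prod_prod_type']
              let eq : ((Fin D → ZMod (2 * h)) × ZMod (2 * h)) ≃
                  ((Fin D → ZMod (2 * h)) × ZMod (2 * h)) :=
                { toFun := fun p => (Function.update p.1 i p.2, p.1 i)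
                  invFun := fun p => (Function.update p.1 i p.2, p.1 i)
                  left_inv := fun p => by simp
                  right_inv := fun p => by simp }
              exact Equiv.prod_comp eq (fun p => F p.1)
            exact e1 fun c => G fun B => w (fun k => if k ∈ insert i S then c k else B k)
  have h1 := all Finset.univ
  simpa using h1

end

end Pool.Agent.H991.DC
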