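import Mathlib

/-!
# Reflection positivity, abstract version
-/

open MeasureTheory

namespace Pool.Agent.H991.DC

noncomputable section

section cs

variable {Ω : Type*} [MeasurableSpace Ω] (P : Measure Ω) [IsProbabilityMeasure P]

lemma int_of_bdd {f : Ω → ℝ} (hf : Measurable f) {C : ℝ} (hC : ∀ x, |f x| ≤ C) : Integrable f P :=
  Integrable.of_bound hf.aestronglyMeasurable C (Filter.Eventually.of_forall fun x => by
    rw [Real.norm_eq_abs]; exact hC x)

lemma cauchy_schwarz {f g : Ω → ℝ} (hf : Measurable f) (hg : Measurable g) {C : ℝ}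
    (hfC : ∀ x, |f x| ≤ C) (hgC : ∀ x, |g x| ≤ C) :
    (∫ x, f x * g x ∂P) ^ 2 ≤ (∫ x, f x * f x ∂P) * ∫ x, g x * g x ∂P := by
  have hC : 0 ≤ C := by
    obtain ⟨x⟩ : Nonempty Ω := nonempty_of_isProbabilityMeasure P
    exact (abs_nonneg _).trans (hfC x)
  have i1 : Integrable (fun x => f x * f x) P := int_of_bdd P (hf.mul hf) (C := C * C) fun x => by
    rw [abs_mul]; exact mul_le_mul (hfC x) (hfC x) (abs_nonneg _) hC
  have i2 : Integrable (fun x => f x * g x) P := int_of_bdd P (hf.mul hg) (C := C * C) fun x => by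
    rw [abs_mul]; exact mul_le_mul (hfC x) (hgC x) (abs_nonneg _) hC
  have i3 : Integrable (fun x => g x * g x) P := int_of_bdd P (hg.mul hg) (C := C * C) fun x => by
    rw [abs_mul]; exact mul_le_mul (hgC x) (hgC x) (abs_nonneg _) hC
  have h : ∀ t : ℝ, 0 ≤ (∫ x, g x * g x ∂P) * (t * t) + (2 * ∫ x, f x * g x ∂P) * t +
      ∫ x, f x * f x ∂P := by
    intro t
    have e : (∫ x, g x * g x ∂P) * (t * t) + (2 * ∫ x, f x * g x ∂P) * t + ∫ x, f x * f x ∂P =
        ∫ x, (f x + t * g x) ^ 2 ∂P := by
      have e1 : (fun x => (f x + t * g x) ^ 2) = fun x => (t * t) * (g x * g x) +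
          ((2 * t) * (f x * g x) + f x * f x) := by funext x; ring
      rw [e1, integral_add (f := fun x => (t * t) * (g x * g x))
          (g := fun x => (2 * t) * (f x * g x) + f x * f x) (i3.const_mul _)
          ((i2.const_mul _).add i1),
        integral_add (f := fun x => (2 * t) * (f x * g x)) (g := fun x => f x * f x)
          (i2.const_mul _) i1, integral_const_mul, integral_const_mul]
      ring
    rw [e]
    exact integral_nonneg fun x => sq_nonneg _
  have := discrim_le_zero h
  unfold discrim at this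
  nlinarith

end cs

section rp

variable {E : Type*} [Fintype E] [DecidableEq E] {G : Type*} [Group G] [MeasurableSpace G]
  [MeasurableInv G]

/-- the reflection -/
def refl (σ : E → E) (iv : E → Bool) (U : E → G) : E → G :=
  fun e => if iv e then (U (σ e))⁻¹ else U (σ e)

variable (μ : Measure G) [IsProbabilityMeasure μ] [μ.IsInvInvariant]

lemma refl_mp (σ : E → E) (hσ : ∀ e, σ (σ e) = e) (iv : E → Bool) :
    MeasurePreserving (refl (G := G) σ iv) (Measure.pi fun _ => μ) (Measure.pi fun _ => μ) := by
  let s : E ≃ E := ⟨σ, σ, hσ, hσ⟩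
  have h1 : MeasurePreserving (fun (U : E → G) (e : E) => U (σ e)) (Measure.pi fun _ => μ)
      (Measure.pi fun _ => μ) := by
    have h := measurePreserving_piCongrLeft (fun _ : E => μ) s
    have e : (MeasurableEquiv.piCongrLeft (fun _ : E => G) s : (E → G) → (E → G)) =
        fun U e => U (σ e) := by
      funext U e
      obtain ⟨e', rfl⟩ := s.surjective e
      rw [MeasurableEquiv.coe_piCongrLeft, Equiv.piCongrLeft_apply_apply]
      change U e' = U (σ (σ e'))
      rw [hσ]
    rw [e] at h
    exact h
  have h2 : MeasurePreserving (fun (U : E → G) (e : E) => if iv e then (U e)⁻¹ else U e)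
      (Measure.pi fun _ => μ) (Measure.pi fun _ => μ) := by
    refine measurePreserving_pi (fun _ : E => μ) (fun _ : E => μ)
      (f := fun e g => if iv e then g⁻¹ else g) fun e => ?_
    cases iv e
    · simp only [Bool.false_eq_true, if_false]
      exact MeasurePreserving.id μ
    · simp only [if_true]
      exact Measure.measurePreserving_inv μ
  exact h2.comp h1

/-- the configuration composed of three others -/
def sel (c : E → Fin 3) (p : (E → G) × (E → G) × (E → G)) : E → G :=
  fun e => if c e = 0 then p.1 e else if c e = 1 then p.2.1 e else p.2.2 e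

omit [MeasurableInv G] [μ.IsInvInvariant] [Group G] in
lemma sel_mp (c : E → Fin 3) : MeasurePreserving (sel (G := G) c)
    ((Measure.pi fun _ => μ).prod ((Measure.pi fun _ => μ).prod (Measure.pi fun _ => μ)))
    (Measure.pi fun _ => μ) := by
  have hm : Measurable (sel (G := G) c) := by
    refine measurable_pi_lambda _ fun e => ?_
    unfold sel
    split_ifs
    · exact (measurable_pi_apply e).comp measurable_fst
    · exact (measurable_pi_apply e).comp (measurable_fst.comp measurable_snd)
    · exact (measurable_pi_apply e).comp (measurable_snd.comp measurable_snd)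
  refine ⟨hm, (Measure.pi_eq fun s hs => ?_).symm⟩
  rw [Measure.map_apply hm (MeasurableSet.univ_pi hs)]
  have e1 : sel (G := G) c ⁻¹' (Set.univ.pi s) =
      (Set.univ.pi fun e => if c e = 0 then s e else Set.univ) ×ˢ
      ((Set.univ.pi fun e => if c e = 1 then s e else Set.univ) ×ˢ
      (Set.univ.pi fun e => if c e = 0 then Set.univ else if c e = 1 then Set.univ else s e)) := by
    ext ⟨u, v, w⟩
    simp only [Set.mem_preimage, Set.mem_pi, Set.mem_univ, forall_true_left, Set.mem_prod, sel]
    constructor
    · intro h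
      refine ⟨fun e => ?_, fun e => ?_, fun e => ?_⟩
      · have := h e
        split_ifs with h0
        · rwa [if_pos h0] at this
        · trivial
      · have := h e
        split_ifs with h0
        · rw [if_neg (by rw [h0]; decide), if_pos h0] at this
          exact this
        · trivial
      · have := h e
        split_ifs with h0 h1
        · trivial
        · trivial
        · rwa [if_neg h0, if_neg h1] at this
    · rintro ⟨h0, h1, h2⟩ e
      have a0 := h0 e
      have a1 := h1 e
      have a2 := h2 e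
      split_ifs with k0 k1
      · rwa [if_pos k0] at a0
      · rwa [if_pos k1] at a1
      · rwa [if_neg k0, if_neg k1] at a2
  rw [e1, Measure.prod_prod, Measure.prod_prod, Measure.pi_pi, Measure.pi_pi, Measure.pi_pi,
    ← Finset.prod_mul_distrib, ← Finset.prod_mul_distrib]
  refine Finset.prod_congr rfl fun e _ => ?_
  by_cases h0 : c e = 0
  · have h1 : c e ≠ 1 := by rw [h0]; decide
    simp [h0]
  · by_cases h1 : c e = 1
    · simp [h1]
    · simp [h0, h1]

/-- reflection positivity: the factorization -/
theorem rp_factor (σ : E → E) (hσ : ∀ e, σ (σ e) = e) (iv : E → Bool) (hiv : ∀ e, iv (σ e) = iv e)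
    (H : E → Prop) [DecidablePred H] (hH1 : ∀ e, H e ∨ H (σ e))
    (hH2 : ∀ e, H e → H (σ e) → σ e = e ∧ iv e = false)
    (f g : (E → G) → ℝ) (hf : Measurable f) (hg : Measurable g) {C : ℝ} (hfC : ∀ U, |f U| ≤ C)
    (hgC : ∀ U, |g U| ≤ C) (hfH : ∀ U V, (∀ e, H e → U e = V e) → f U = f V)
    (hgH : ∀ U V, (∀ e, H e → U e = V e) → g U = g V) :
    ∃ F F' : (E → G) → ℝ, Measurable F ∧ Measurable F' ∧ (∀ U, |F U| ≤ C) ∧ (∀ U, |F' U| ≤ C) ∧
      (∫ U, f U * g (refl σ iv U) ∂(Measure.pi fun _ => μ) =
        ∫ U, F U * F' U ∂(Measure.pi fun _ => μ)) ∧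
      (∫ U, f U * f (refl σ iv U) ∂(Measure.pi fun _ => μ) =
        ∫ U, F U * F U ∂(Measure.pi fun _ => μ)) ∧
      (∫ U, g U * g (refl σ iv U) ∂(Measure.pi fun _ => μ) =
        ∫ U, F' U * F' U ∂(Measure.pi fun _ => μ)) := by
  set P : Measure (E → G) := Measure.pi fun _ => μ with hP
  set c : E → Fin 3 := fun e => if H e then (if H (σ e) then 0 else 1) else 2 with hc
  set c2 : E → Fin 3 := fun e => if H e ∧ H (σ e) then 0 else 1 with hc2
  set mix : (E → G) → (E → G) → (E → G) := fun U V => sel c2 (U, V, V) with hmix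
  have hmm : Measurable fun p : (E → G) × (E → G) => mix p.1 p.2 := by
    refine measurable_pi_lambda _ fun e => ?_
    simp only [hmix, sel]
    split_ifs
    · exact (measurable_pi_apply e).comp measurable_fst
    · exact (measurable_pi_apply e).comp measurable_snd
    · exact (measurable_pi_apply e).comp measurable_snd
  have hgen : ∀ (a b : (E → G) → ℝ), Measurable a → Measurable b → (∀ U, |a U| ≤ C) →
      (∀ U, |b U| ≤ C) → (∀ U V, (∀ e, H e → U e = V e) → a U = a V) →
      (∀ U V, (∀ e, H e → U e = V e) → b U = b V) →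
      ∫ U, a U * b (refl σ iv U) ∂P =
        ∫ U, (∫ V, a (mix U V) ∂P) * (∫ V, b (mix U V) ∂P) ∂P := by
    intro a b ha hb haC hbC haH hbH
    have hC : 0 ≤ C := (abs_nonneg _).trans (haC fun _ => 1)
    -- the change of variables
    have m1 : MeasurePreserving (fun p : (E → G) × (E → G) × (E → G) =>
        (p.1, p.2.1, refl σ iv p.2.2)) (P.prod (P.prod P)) (P.prod (P.prod P)) :=
      (MeasurePreserving.id P).prod ((MeasurePreserving.id P).prod (refl_mp μ σ hσ iv))
    have m2 := (sel_mp (G := G) μ c).comp m1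
    have hr : Measurable (refl (G := G) σ iv) := (refl_mp μ σ hσ iv).measurable
    have hab : Measurable fun U => a U * b (refl σ iv U) := ha.mul (hb.comp hr)
    have e1 : ∫ U, a U * b (refl σ iv U) ∂P = ∫ p : (E → G) × (E → G) × (E → G),
        a (mix p.1 p.2.1) * b (mix p.1 p.2.2) ∂(P.prod (P.prod P)) := by
      have e0 : P = Measure.map _ (P.prod (P.prod P)) := m2.map_eq.symm
      conv_lhs => rw [e0]
      rw [integral_map m2.measurable.aemeasurable hab.aestronglyMeasurable]
      refine integral_congr_ae (Filter.Eventually.of_forall fun p => ?_)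
      obtain ⟨u, v, w⟩ := p
      change a (sel c (u, v, refl σ iv w)) * b (refl σ iv (sel c (u, v, refl σ iv w))) =
        a (mix u v) * b (mix u w)
      congr 1
      · refine haH _ _ fun e he => ?_
        simp only [sel, hc, hmix, hc2]
        by_cases h2 : H (σ e)
        · simp [he, h2]
        · simp [he, h2]
      · refine hbH _ _ fun e he => ?_
        by_cases h2 : H (σ e)
        · obtain ⟨h3, h4⟩ := hH2 e he h2
          simp only [refl, h4, h3, sel, hc, hmix, hc2]
          simp [he]
        · have h5 : iv (σ e) = iv e := hiv e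
          simp only [refl, sel, hc, hmix, hc2]
          simp only [h2, he, and_false, if_false, hσ, h5]
          by_cases h6 : iv e
          · simp [h6]
          · simp [h6]
    rw [e1]
    have i1 : ∀ u, Integrable (fun v => a (mix u v)) P := fun u =>
      int_of_bdd P (ha.comp (hmm.comp (measurable_const.prodMk measurable_id))) fun v => haC _
    have i2 : ∀ u, Integrable (fun v => b (mix u v)) P := fun u =>
      int_of_bdd P (hb.comp (hmm.comp (measurable_const.prodMk measurable_id))) fun v => hbC _
    rw [integral_prod]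
    · refine integral_congr_ae (Filter.Eventually.of_forall fun u => ?_)
      change ∫ q : (E → G) × (E → G), a (mix u q.1) * b (mix u q.2) ∂(P.prod P) = _
      exact integral_prod_mul (fun v => a (mix u v)) (fun w => b (mix u w))
    · refine int_of_bdd _ ?_ (C := C * C) fun p => ?_
      · exact (ha.comp (hmm.comp (measurable_fst.prodMk (measurable_fst.comp measurable_snd)))).mul
          (hb.comp (hmm.comp (measurable_fst.prodMk (measurable_snd.comp measurable_snd))))
      · rw [abs_mul]
        exact mul_le_mul (haC _) (hbC _) (abs_nonneg _) hC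
  have hFm : ∀ a : (E → G) → ℝ, Measurable a → Measurable fun U => ∫ V, a (mix U V) ∂P := by
    intro a ha
    have h : StronglyMeasurable (Function.uncurry fun U V => a (mix U V)) :=
      (ha.comp hmm).stronglyMeasurable
    exact h.integral_prod_right.measurable
  have hFC : ∀ a : (E → G) → ℝ, (∀ U, |a U| ≤ C) → ∀ U, |∫ V, a (mix U V) ∂P| ≤ C := by
    intro a ha U
    have := norm_integral_le_of_norm_le_const (μ := P) (f := fun V => a (mix U V)) (C := C)
      (Filter.Eventually.of_forall fun V => by rw [Real.norm_eq_abs]; exact ha _)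
    simpa using this
  exact ⟨fun U => ∫ V, f (mix U V) ∂P, fun U => ∫ V, g (mix U V) ∂P, hFm f hf, hFm g hg,
    hFC f hfC, hFC g hgC, hgen f g hf hg hfC hgC hfH hgH, hgen f f hf hf hfC hfC hfH hfH,
    hgen g g hg hg hgC hgC hgH hgH⟩

/-- reflection positivity -/
theorem rp (σ : E → E) (hσ : ∀ e, σ (σ e) = e) (iv : E → Bool) (hiv : ∀ e, iv (σ e) = iv e)
    (H : E → Prop) [DecidablePred H] (hH1 : ∀ e, H e ∨ H (σ e))
    (hH2 : ∀ e, H e → H (σ e) → σ e = e ∧ iv e = false)
    (f g : (E → G) → ℝ) (hf : Measurable f) (hg : Measurable g) {C : ℝ} (hfC : ∀ U, |f U| ≤ C)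
    (hgC : ∀ U, |g U| ≤ C) (hfH : ∀ U V, (∀ e, H e → U e = V e) → f U = f V)
    (hgH : ∀ U V, (∀ e, H e → U e = V e) → g U = g V) :
    (∫ U, f U * g (refl σ iv U) ∂(Measure.pi fun _ => μ)) ^ 2 ≤
      (∫ U, f U * f (refl σ iv U) ∂(Measure.pi fun _ => μ)) *
      ∫ U, g U * g (refl σ iv U) ∂(Measure.pi fun _ => μ) := by
  obtain ⟨F, F', m1, m2, c1, c2, e1, e2, e3⟩ :=
    rp_factor μ σ hσ iv hiv H hH1 hH2 f g hf hg hfC hgC hfH hgH
  rw [e1, e2, e3]
  exact cauchy_schwarz _ m1 m2 c1 c2

end rp

end

end Pool.Agent.H991.DC
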