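import Mathlib
import Pool.Graph.R_pool_sql_team_seeded_63374d34.N899.SB.Stm
import Pool.Agent.H991.DC.Chess
import Pool.Agent.H991.DC.RP

/-!
# Reflection positivity and chessboard estimates for the torus `(ℤ/l)^D × ℤ/t`
-/

open MeasureTheory Finset
open Pool.Agent.N899.SB

namespace Pool.Agent.H991.DC

noncomputable section

section refl

variable {D l t : ℕ} [NeZero l] [NeZero t]

/-- the reflection of the sites -/
def th (i : Fin D) (p : St D l t) : St D l t := (Function.update p.1 i (-p.1 i), p.2)

omit [NeZero l] [NeZero t] in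
lemma th_th (i : Fin D) (p : St D l t) : th i (th i p) = p := by
  unfold th
  simp

omit [NeZero l] [NeZero t] in
lemma ev_cast (i : Fin D) : ev D l t i.castSucc = (Pi.single i 1, 0) := by
  simp [ev]

omit [NeZero l] [NeZero t] in
lemma ev_last : ev D l t (Fin.last D) = (0, 1) := by
  simp [ev]

omit [NeZero l] [NeZero t] in
lemma th_add (i : Fin D) (p q : St D l t) : th i (p + q) = th i p + th i q := by
  unfold th
  refine Prod.ext ?_ rfl
  funext j
  by_cases hj : j = i
  · subst hj
    simp
    ring
  · simp [hj]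

omit [NeZero l] [NeZero t] in
lemma th_neg (i : Fin D) (p : St D l t) : th i (-p) = -th i p := by
  unfold th
  refine Prod.ext ?_ rfl
  funext j
  by_cases hj : j = i
  · subst hj
    simp
  · simp [hj]

omit [NeZero l] [NeZero t] in
lemma th_sub (i : Fin D) (p q : St D l t) : th i (p - q) = th i p - th i q := by
  rw [sub_eq_add_neg, th_add, th_neg, ← sub_eq_add_neg]

omit [NeZero l] [NeZero t] in
lemma th_ev_self (i : Fin D) : th i (ev D l t i.castSucc) = -ev D l t i.castSucc := by
  rw [ev_cast]
  unfold th
  refine Prod.ext ?_ (by simp)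
  funext j
  by_cases hj : j = i
  · subst hj
    simp
  · simp [hj]

omit [NeZero l] [NeZero t] in
lemma th_ev_ne (i : Fin D) (j : Fin (D + 1)) (hj : j ≠ i.castSucc) :
    th i (ev D l t j) = ev D l t j := by
  refine Fin.lastCases ?_ (fun k hk => ?_) j hj
  · intro _
    rw [ev_last]
    unfold th
    refine Prod.ext ?_ rfl
    funext k
    by_cases hk : k = i
    · subst hk; simp
    · simp [hk]
  · have hk' : k ≠ i := fun h => hk (by rw [h])
    rw [ev_cast]
    unfold th
    refine Prod.ext ?_ rfl
    funext j
    by_cases hj : j = i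
    · subst hj
      simp [hk'.symm]
    · simp [hj]

/-- the reflection of the links -/
def sg (i : Fin D) (e : St D l t × Fin (D + 1)) : St D l t × Fin (D + 1) :=
  if e.2 = i.castSucc then (th i e.1 - ev D l t e.2, e.2) else (th i e.1, e.2)

/-- the links whose orientation changes -/
def ivf (i : Fin D) (e : St D l t × Fin (D + 1)) : Bool := decide (e.2 = i.castSucc)

omit [NeZero l] [NeZero t] in
lemma sg_sg (i : Fin D) (e : St D l t × Fin (D + 1)) : sg i (sg i e) = e := by
  obtain ⟨p, j⟩ := e
  unfold sg
  by_cases hj : j = i.castSucc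
  · subst hj
    simp only [if_true]
    rw [th_sub, th_th, th_ev_self, sub_neg_eq_add, add_sub_cancel_right]
  · simp only [hj, if_false, th_th]

omit [NeZero l] [NeZero t] in
lemma iv_sg (i : Fin D) (e : St D l t × Fin (D + 1)) : ivf i (sg i e) = ivf i e := by
  obtain ⟨p, j⟩ := e
  unfold sg ivf
  by_cases hj : j = i.castSucc
  · simp [hj]
  · simp [hj]

variable {G : Type*} [Group G]

/-- the reflection of the configurations -/
abbrev Th (i : Fin D) (U : St D l t × Fin (D + 1) → G) : St D l t × Fin (D + 1) → G :=
  DC.refl (sg i) (ivf i) U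

omit [NeZero l] [NeZero t] in
lemma Th_self (i : Fin D) (U : St D l t × Fin (D + 1) → G) (p : St D l t) :
    Th i U (p, i.castSucc) = (U (th i p - ev D l t i.castSucc, i.castSucc))⁻¹ := by
  simp [Th, DC.refl, ivf, sg]

omit [NeZero l] [NeZero t] in
lemma Th_ne (i : Fin D) (U : St D l t × Fin (D + 1) → G) (p : St D l t) {j : Fin (D + 1)}
    (hj : j ≠ i.castSucc) : Th i U (p, j) = U (th i p, j) := by
  simp [Th, DC.refl, ivf, sg, hj]

omit [NeZero l] [NeZero t] in
lemma Th_Th (i : Fin D) (U : St D l t × Fin (D + 1) → G) : Th i (Th i U) = U := by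
  funext e
  unfold Th DC.refl
  rw [iv_sg, sg_sg]
  split_ifs <;> simp

/-- the place of the reflected plaquette -/
def ro (i : Fin D) (a b : Fin (D + 1)) (p : St D l t) : St D l t :=
  if a = i.castSucc ∨ b = i.castSucc then th i p - ev D l t i.castSucc else th i p

omit [NeZero l] [NeZero t] in
lemma ro_ro (i : Fin D) (a b : Fin (D + 1)) (p : St D l t) : ro i a b (ro i a b p) = p := by
  unfold ro
  split_ifs
  · rw [th_sub, th_th, th_ev_self, sub_neg_eq_add, add_sub_cancel_right]
  · rw [th_th]

omit [NeZero l] [NeZero t] in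
lemma we_refl (we : G → ℝ) (hi : ∀ g, we g⁻¹ = we g) (hc : ∀ g h, we (h * g * h⁻¹) = we g)
    (i : Fin D) (U : St D l t × Fin (D + 1) → G) (p : St D l t) (a b : Fin (D + 1)) (hab : a ≠ b) :
    we (pq (ev D l t) (Th i U) p a b) = we (pq (ev D l t) U (ro i a b p) a b) := by
  unfold ro
  by_cases ha : a = i.castSucc
  · have hb : b ≠ i.castSucc := fun h => hab (ha.trans h.symm)
    rw [if_pos (Or.inl ha)]
    subst ha
    unfold pq
    rw [Th_self, Th_ne i U _ hb, Th_self, Th_ne i U _ hb, th_add, th_add, th_ev_self,
      th_ev_ne i b hb]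
    set y := th i p - ev D l t i.castSucc with hy
    have e1 : th i p + -ev D l t i.castSucc = y := by rw [hy, sub_eq_add_neg]
    have e2 : th i p + ev D l t b - ev D l t i.castSucc = y + ev D l t b := by
      rw [hy]; abel
    have e3 : th i p = y + ev D l t i.castSucc := by rw [hy]; abel
    rw [e1, e2, e3]
    set R := U (y, i.castSucc) * U (y + ev D l t i.castSucc, b) *
      (U (y + ev D l t b, i.castSucc))⁻¹ * (U (y, b))⁻¹ with hR
    rw [show ∀ z : G, z = (U (y, i.castSucc))⁻¹ * R⁻¹ * ((U (y, i.castSucc))⁻¹)⁻¹ → we z = we R from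
      fun z hz => by rw [hz, hc, hi]]
    rw [hR]
    group
  · by_cases hb : b = i.castSucc
    · rw [if_pos (Or.inr hb)]
      subst hb
      unfold pq
      rw [Th_self, Th_ne i U _ ha, Th_self, Th_ne i U _ ha, th_add, th_add, th_ev_self,
        th_ev_ne i a ha]
      set y := th i p - ev D l t i.castSucc with hy
      have e1 : th i p + -ev D l t i.castSucc = y := by rw [hy, sub_eq_add_neg]
      have e2 : th i p + ev D l t a - ev D l t i.castSucc = y + ev D l t a := by
        rw [hy]; abel
      have e3 : th i p = y + ev D l t i.castSucc := by rw [hy]; abel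
      rw [e1, e2, e3]
      set R := U (y, a) * U (y + ev D l t a, i.castSucc) *
        (U (y + ev D l t i.castSucc, a))⁻¹ * (U (y, i.castSucc))⁻¹ with hR
      rw [show ∀ z : G, z = (U (y, i.castSucc))⁻¹ * R⁻¹ * ((U (y, i.castSucc))⁻¹)⁻¹ → we z = we R from
        fun z hz => by rw [hz, hc, hi]]
      rw [hR]
      group
    · rw [if_neg (by tauto)]
      unfold pq
      rw [Th_ne i U _ ha, Th_ne i U _ hb, Th_ne i U _ ha, Th_ne i U _ hb, th_add, th_add,
        th_ev_ne i b hb, th_ev_ne i a ha]

end refl

section half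

variable {D l t : ℕ} [NeZero l] [NeZero t]

/-- the coefficients of the plaquettes in the action of one half -/
def cf (w : ℕ) (i : Fin D) (p : St D l t) (a b : Fin (D + 1)) : ℝ :=
  if a = i.castSucc ∨ b = i.castSucc then (if (p.1 i).val < w then 1 else 0)
  else if (p.1 i).val = 0 ∨ (p.1 i).val = w then 1 / 2 else if (p.1 i).val < w then 1 else 0

omit [NeZero t] in
lemma val_neg_sub {w : ℕ} (hl : l = 2 * w) (x : ZMod l) : (-x - 1).val = 2 * w - 1 - x.val := by
  subst hl
  have h0 : 0 < 2 * w := Nat.pos_of_ne_zero (NeZero.ne (2 * w))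
  have h1 : x.val < 2 * w := ZMod.val_lt x
  have h2 : (((2 * w - 1 - x.val : ℕ)) : ZMod (2 * w)) = -x - 1 := by
    rw [Nat.cast_sub (by omega), Nat.cast_sub (by omega), ZMod.natCast_self,
      ZMod.natCast_zmod_val]
    push_cast
    ring
  rw [← h2, ZMod.val_natCast, Nat.mod_eq_of_lt (by omega)]

omit [NeZero t] in
lemma val_neg' {w : ℕ} (hl : l = 2 * w) (x : ZMod l) :
    (-x).val = if x.val = 0 then 0 else 2 * w - x.val := by
  rw [ZMod.neg_val]
  by_cases hx : x = 0
  · simp [hx]
  · have : x.val ≠ 0 := fun h => hx ((ZMod.val_eq_zero x).1 h)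
    rw [if_neg hx, if_neg this]
    omega

omit [NeZero t] in
lemma cf_ro {w : ℕ} (hl : l = 2 * w) (i : Fin D) (p : St D l t) (a b : Fin (D + 1)) :
    cf w i p a b + cf w i (ro i a b p) a b = 1 := by
  have h1 : (p.1 i).val < l := ZMod.val_lt _
  unfold cf ro
  by_cases h : a = i.castSucc ∨ b = i.castSucc
  · simp only [if_pos h]
    have e : ((th i p - ev D l t i.castSucc).1 i).val = 2 * w - 1 - (p.1 i).val := by
      rw [← val_neg_sub hl (p.1 i), ev_cast]
      simp [th]
    rw [e]
    by_cases h2 : (p.1 i).val < w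
    · rw [if_pos h2, if_neg (by omega)]; norm_num
    · rw [if_neg h2, if_pos (by omega)]; norm_num
  · simp only [if_neg h]
    have e : ((th i p).1 i).val = if (p.1 i).val = 0 then 0 else 2 * w - (p.1 i).val := by
      rw [← val_neg' hl (p.1 i)]
      simp [th]
    rw [e]
    generalize (p.1 i).val = v at h1
    split_ifs <;> first | (exfalso; omega) | norm_num

variable {G : Type*} [Group G]

/-- the action of one half -/
def Sh (we : G → ℝ) (w : ℕ) (i : Fin D) (U : St D l t × Fin (D + 1) → G) : ℝ :=
  ∑ p, ∑ a, ∑ b, if a < b then cf w i p a b * we (pq (ev D l t) U p a b) else 0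

lemma S_split (we : G → ℝ) (hi : ∀ g, we g⁻¹ = we g) (hc : ∀ g h, we (h * g * h⁻¹) = we g)
    {w : ℕ} (hl : l = 2 * w) (i : Fin D) (U : St D l t × Fin (D + 1) → G) :
    ac we (ev D l t) U = Sh we w i U + Sh we w i (Th i U) := by
  have h1 : Sh we w i (Th i U) = ∑ p : St D l t, ∑ a, ∑ b, if a < b then
      cf w i (ro i a b p) a b * we (pq (ev D l t) U p a b) else 0 := by
    unfold Sh
    rw [Finset.sum_comm]
    conv_rhs => rw [Finset.sum_comm]
    refine Finset.sum_congr rfl fun a _ => ?_
    rw [Finset.sum_comm]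
    conv_rhs => rw [Finset.sum_comm]
    refine Finset.sum_congr rfl fun b _ => ?_
    by_cases hab : a < b
    · simp only [if_pos hab]
      let e : St D l t ≃ St D l t := ⟨ro i a b, ro i a b, ro_ro i a b, ro_ro i a b⟩
      rw [← Equiv.sum_comp e]
      refine Finset.sum_congr rfl fun p _ => ?_
      change cf w i (ro i a b p) a b * we (pq (ev D l t) (Th i U) (ro i a b p) a b) = _
      rw [we_refl we hi hc i U _ a b hab.ne, ro_ro]
    · simp only [if_neg hab]
  rw [h1]
  unfold ac Sh
  rw [← Finset.sum_add_distrib]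
  refine Finset.sum_congr rfl fun p _ => ?_
  rw [← Finset.sum_add_distrib]
  refine Finset.sum_congr rfl fun a _ => ?_
  rw [← Finset.sum_add_distrib]
  refine Finset.sum_congr rfl fun b _ => ?_
  split_ifs
  · rw [← add_mul, cf_ro hl, one_mul]
  · rw [add_zero]

/-- the links of one half -/
def Hf (w : ℕ) (i : Fin D) (e : St D l t × Fin (D + 1)) : Prop :=
  if e.2 = i.castSucc then (e.1.1 i).val < w else (e.1.1 i).val ≤ w

instance (w : ℕ) (i : Fin D) : DecidablePred (Hf (l := l) (t := t) w i) := fun e => by
  unfold Hf; infer_instance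

omit [NeZero t] in
lemma Hf1 {w : ℕ} (hl : l = 2 * w) (i : Fin D) (e : St D l t × Fin (D + 1)) :
    Hf w i e ∨ Hf w i (sg i e) := by
  obtain ⟨p, j⟩ := e
  have h1 : (p.1 i).val < l := ZMod.val_lt _
  unfold Hf sg
  by_cases h : j = i.castSucc
  · simp only [h, if_true]
    have e : ((th i p - ev D l t i.castSucc).1 i).val = 2 * w - 1 - (p.1 i).val := by
      rw [← val_neg_sub hl (p.1 i), ev_cast]
      simp [th]
    rw [e]
    omega
  · simp only [h, if_false]
    have e : ((th i p).1 i).val = if (p.1 i).val = 0 then 0 else 2 * w - (p.1 i).val := by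
      rw [← val_neg' hl (p.1 i)]
      simp [th]
    rw [e]
    split_ifs <;> omega

omit [NeZero t] in
lemma Hf2 {w : ℕ} (hl : l = 2 * w) (i : Fin D) (e : St D l t × Fin (D + 1)) (h1 : Hf w i e)
    (h2 : Hf w i (sg i e)) : sg i e = e ∧ ivf i e = false := by
  obtain ⟨p, j⟩ := e
  have h0 : (p.1 i).val < l := ZMod.val_lt _
  unfold Hf sg at *
  by_cases h : j = i.castSucc
  · exfalso
    simp only [h, if_true] at h1 h2
    have e : ((th i p - ev D l t i.castSucc).1 i).val = 2 * w - 1 - (p.1 i).val := by
      rw [← val_neg_sub hl (p.1 i), ev_cast]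
      simp [th]
    rw [e] at h2
    omega
  · simp only [h, if_false] at h1 h2 ⊢
    have e : ((th i p).1 i).val = if (p.1 i).val = 0 then 0 else 2 * w - (p.1 i).val := by
      rw [← val_neg' hl (p.1 i)]
      simp [th]
    refine ⟨?_, by simp [ivf, h]⟩
    have h3 : -p.1 i = p.1 i := by
      apply ZMod.val_injective
      rw [val_neg' hl]
      rw [e] at h2
      split_ifs at h2 ⊢ with h4
      · exact h4.symm
      · omega
    refine Prod.ext (Prod.ext ?_ rfl) rfl
    simp [th, h3]

omit [NeZero t] in
lemma val_add_one_le {w : ℕ} (hl : l = 2 * w) (x : ZMod l) (hx : x.val < w) :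
    (x + 1).val = x.val + 1 := by
  subst hl
  have h2 : (((x.val + 1 : ℕ)) : ZMod (2 * w)) = x + 1 := by
    rw [Nat.cast_add, ZMod.natCast_zmod_val, Nat.cast_one]
  rw [← h2, ZMod.val_natCast, Nat.mod_eq_of_lt (by omega)]

lemma Sh_loc (we : G → ℝ) {w : ℕ} (hl : l = 2 * w) (i : Fin D)
    (U V : St D l t × Fin (D + 1) → G) (h : ∀ e, Hf w i e → U e = V e) :
    Sh we w i U = Sh we w i V := by
  unfold Sh
  refine Finset.sum_congr rfl fun p _ => Finset.sum_congr rfl fun a _ =>
    Finset.sum_congr rfl fun b _ => ?_
  by_cases hab : a < b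
  · rw [if_pos hab, if_pos hab]
    by_cases hc : cf w i p a b = 0
    · rw [hc, zero_mul, zero_mul]
    · have hw0 : 0 < w := by
        have := NeZero.ne l
        omega
      have hne : a ≠ b := hab.ne
      -- the coordinate of the neighbours
      have k1 : ∀ j : Fin (D + 1), j ≠ i.castSucc → ((p + ev D l t j).1 i) = p.1 i := by
        intro j hj
        refine Fin.lastCases ?_ (fun k hk => ?_) j hj
        · intro _; rw [ev_last]; simp
        · have hk' : k ≠ i := fun h => hk (by rw [h])
          rw [ev_cast]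
          simp [Pi.single_eq_of_ne hk'.symm]
      have k2 : ((p + ev D l t i.castSucc).1 i) = p.1 i + 1 := by
        rw [ev_cast]; simp
      congr 1
      congr 1
      unfold pq
      by_cases ha : a = i.castSucc
      · have hb : b ≠ i.castSucc := fun h => hne (ha.trans h.symm)
        have hv : (p.1 i).val < w := by
          unfold cf at hc
          rw [if_pos (Or.inl ha)] at hc
          by_contra h'
          rw [if_neg h'] at hc
          exact hc rfl
        rw [h (p, a) (by unfold Hf; simp [ha, hv]),
          h (p + ev D l t a, b) (by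
            unfold Hf; simp only [hb, if_false]; rw [ha, k2, val_add_one_le hl _ hv]; omega),
          h (p + ev D l t b, a) (by unfold Hf; simp only [ha, if_true]; rw [k1 b hb]; exact hv),
          h (p, b) (by unfold Hf; simp only [hb, if_false]; omega)]
      · by_cases hb : b = i.castSucc
        · have hv : (p.1 i).val < w := by
            unfold cf at hc
            rw [if_pos (Or.inr hb)] at hc
            by_contra h'
            rw [if_neg h'] at hc
            exact hc rfl
          rw [h (p, a) (by unfold Hf; simp only [ha, if_false]; omega),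
            h (p + ev D l t a, b) (by unfold Hf; simp only [hb, if_true]; rw [k1 a ha]; exact hv),
            h (p + ev D l t b, a) (by
              unfold Hf; simp only [ha, if_false]; rw [hb, k2, val_add_one_le hl _ hv]; omega),
            h (p, b) (by unfold Hf; simp [hb, hv])]
        · have hv : (p.1 i).val ≤ w := by
            unfold cf at hc
            rw [if_neg (by tauto)] at hc
            by_contra h'
            rw [if_neg (by omega), if_neg (by omega)] at hc
            exact hc rfl
          rw [h (p, a) (by unfold Hf; simp only [ha, if_false]; exact hv),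
            h (p + ev D l t a, b) (by unfold Hf; simp only [hb, if_false]; rw [k1 a ha]; exact hv),
            h (p + ev D l t b, a) (by unfold Hf; simp only [ha, if_false]; rw [k1 b hb]; exact hv),
            h (p, b) (by unfold Hf; simp only [hb, if_false]; exact hv)]
  · rw [if_neg hab, if_neg hab]

end half

end

end Pool.Agent.H991.DC
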