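import Mathlib
import Pool.Agent.H991.DC.Tor

/-!
# The chessboard estimate for the torus `(ℤ/l)^D × ℤ/t`
-/

open MeasureTheory Finset
open Pool.Agent.N899.SB

namespace Pool.Agent.H991.DC

noncomputable section

variable {D l t : ℕ} [NeZero l] [NeZero t]
variable {G : Type*} [Group G]

/-- the translation -/
def Tr (i : Fin D) (c : ZMod l) (U : St D l t × Fin (D + 1) → G) : St D l t × Fin (D + 1) → G :=
  fun e => U (e.1 + (Pi.single i c, 0), e.2)

lemma ac_Tr (we : G → ℝ) (i : Fin D) (c : ZMod l) (U : St D l t × Fin (D + 1) → G) :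
    ac we (ev D l t) (Tr i c U) = ac we (ev D l t) U := by
  unfold ac
  conv_rhs => rw [← Equiv.sum_comp (Equiv.addRight ((Pi.single i c, 0) : St D l t))]
  refine Finset.sum_congr rfl fun p _ => Finset.sum_congr rfl fun a _ =>
    Finset.sum_congr rfl fun b _ => ?_
  have e : pq (ev D l t) (Tr i c U) p a b =
      pq (ev D l t) U (Equiv.addRight ((Pi.single i c, 0) : St D l t) p) a b := by
    unfold pq Tr
    simp only [Equiv.coe_addRight]
    rw [add_right_comm p (ev D l t a), add_right_comm p (ev D l t b)]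
  rw [e]

section meas

variable [MeasurableSpace G] (μ : Measure G) [IsProbabilityMeasure μ]

omit [Group G] in
lemma Tr_mp (i : Fin D) (c : ZMod l) : MeasurePreserving
    (Tr i c : (St D l t × Fin (D + 1) → G) → _) (Measure.pi fun _ => μ) (Measure.pi fun _ => μ) := by
  let s : (St D l t × Fin (D + 1)) ≃ (St D l t × Fin (D + 1)) :=
    Equiv.prodCongr (Equiv.addRight (-(Pi.single i c, 0) : St D l t)) (Equiv.refl _)
  have h := measurePreserving_piCongrLeft (fun _ : St D l t × Fin (D + 1) => μ) s
  have e : (MeasurableEquiv.piCongrLeft (fun _ : St D l t × Fin (D + 1) => G) s :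
      (St D l t × Fin (D + 1) → G) → (St D l t × Fin (D + 1) → G)) = Tr i c := by
    funext U e
    obtain ⟨e', rfl⟩ := s.surjective e
    rw [MeasurableEquiv.coe_piCongrLeft, Equiv.piCongrLeft_apply_apply]
    obtain ⟨p, j⟩ := e'
    change U (p, j) = U ((p + -(Pi.single i c, 0)) + (Pi.single i c, 0), j)
    rw [neg_add_cancel_right]
  rw [e] at h
  exact h

variable [MeasurableMul₂ G] [MeasurableInv G]

omit [IsProbabilityMeasure μ] [NeZero l] [NeZero t] in
lemma pq_meas (p : St D l t) (a b : Fin (D + 1)) :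
    Measurable fun U : St D l t × Fin (D + 1) → G => pq (ev D l t) U p a b := by
  unfold pq
  have h : ∀ e : St D l t × Fin (D + 1), Measurable fun U : St D l t × Fin (D + 1) → G => U e :=
    fun e => measurable_pi_apply e
  exact (((h _).mul (h _)).mul (h _).inv).mul (h _).inv

omit [IsProbabilityMeasure μ] in
lemma ac_meas (we : G → ℝ) (hm : Measurable we) :
    Measurable fun U : St D l t × Fin (D + 1) → G => ac we (ev D l t) U := by
  unfold ac
  refine Finset.measurable_fun_sum _ fun p _ => Finset.measurable_fun_sum _ fun a _ =>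
    Finset.measurable_fun_sum _ fun b _ => ?_
  split_ifs
  · exact hm.comp (pq_meas p a b)
  · exact measurable_const

omit [IsProbabilityMeasure μ] in
lemma Sh_meas (we : G → ℝ) (hm : Measurable we) (w : ℕ) (i : Fin D) :
    Measurable fun U : St D l t × Fin (D + 1) → G => Sh we w i U := by
  unfold Sh
  refine Finset.measurable_fun_sum _ fun p _ => Finset.measurable_fun_sum _ fun a _ =>
    Finset.measurable_fun_sum _ fun b _ => ?_
  split_ifs
  · exact (hm.comp (pq_meas p a b)).const_mul _
  · exact measurable_const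

end meas

lemma ac_nonneg (we : G → ℝ) (h0 : ∀ g, 0 ≤ we g) (U : St D l t × Fin (D + 1) → G) :
    0 ≤ ac we (ev D l t) U := by
  unfold ac
  refine Finset.sum_nonneg fun p _ => Finset.sum_nonneg fun a _ => Finset.sum_nonneg fun b _ => ?_
  split_ifs
  · exact h0 _
  · exact le_rfl

lemma Sh_nonneg (we : G → ℝ) (h0 : ∀ g, 0 ≤ we g) (w : ℕ) (i : Fin D)
    (U : St D l t × Fin (D + 1) → G) : 0 ≤ Sh we w i U := by
  unfold Sh
  refine Finset.sum_nonneg fun p _ => Finset.sum_nonneg fun a _ => Finset.sum_nonneg fun b _ => ?_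
  split_ifs
  · refine mul_nonneg ?_ (h0 _)
    unfold cf
    split_ifs <;> norm_num
  · exact le_rfl

/-- a family of functions of the blocks which is compatible with the reflections and the
translations -/
structure Fam (D t L h : ℕ) [NeZero (L * (2 * h))] [NeZero t] (G : Type*) [Group G]
    [MeasurableSpace G] (K : Type*) where
  F : K → (Fin D → ZMod (2 * h)) → (St D (L * (2 * h)) t × Fin (D + 1) → G) → ℝ
  meas : ∀ k B, Measurable (F k B)
  nonneg : ∀ k B U, 0 ≤ F k B U
  le_one : ∀ k B U, F k B U ≤ 1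
  loc : ∀ (i : Fin D) (k : K) (B : Fin D → ZMod (2 * h)) (U V : _), (B i).val < h →
    (∀ e, Hf (L * h) i e → U e = V e) → F k B U = F k B V
  refl : ∀ (i : Fin D) (k : K) (B : Fin D → ZMod (2 * h)) (U : _),
    F k B (Th i U) = F k (Function.update B i (-1 - B i)) U
  shift : ∀ (i : Fin D) (c : ZMod (2 * h)) (k : K) (B : Fin D → ZMod (2 * h)) (U : _),
    F k B (Tr i ((L * c.val : ℕ) : ZMod (L * (2 * h))) U) = F k (Function.update B i (B i + c)) U

section chess

variable {L h : ℕ} [NeZero (L * (2 * h))] [NeZero h] [NeZero (2 * h)]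
variable [MeasurableSpace G] [MeasurableMul₂ G] [MeasurableInv G] (μ : Measure G)
  [IsProbabilityMeasure μ] [μ.IsInvInvariant]

/-- the partition function with insertions -/
def Gw {K : Type*} (Φ : Fam D t L h G K) (we : G → ℝ) (β : ℝ) (w : (Fin D → ZMod (2 * h)) → K) : ℝ :=
  ∫ U, (∏ B, Φ.F (w B) B U) * Real.exp (-(β * ac we (ev D (L * (2 * h)) t) U))
    ∂(Measure.pi fun _ => μ)

omit [MeasurableMul₂ G] [MeasurableInv G] [μ.IsInvInvariant] [NeZero h] [NeZero l] in
lemma Gw_shift {K : Type*} (Φ : Fam D t L h G K) (we : G → ℝ) (β : ℝ) (i : Fin D)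
    (c : ZMod (2 * h)) (w : (Fin D → ZMod (2 * h)) → K) :
    Gw μ Φ we β (fun B => w (Function.update B i (B i + c))) = Gw μ Φ we β w := by
  unfold Gw
  have mp := Tr_mp (G := G) (D := D) (l := L * (2 * h)) (t := t) μ i
    ((L * c.val : ℕ) : ZMod (L * (2 * h)))
  let s : (St D (L * (2 * h)) t × Fin (D + 1)) ≃ (St D (L * (2 * h)) t × Fin (D + 1)) :=
    Equiv.prodCongr (Equiv.addRight
      ((Pi.single i ((L * c.val : ℕ) : ZMod (L * (2 * h))), 0) : St D (L * (2 * h)) t))
      (Equiv.refl _)
  have he : MeasurableEmbedding (Tr i ((L * c.val : ℕ) : ZMod (L * (2 * h))) :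
      (St D (L * (2 * h)) t × Fin (D + 1) → G) → _) := by
    have e1 : (Tr i ((L * c.val : ℕ) : ZMod (L * (2 * h))) :
        (St D (L * (2 * h)) t × Fin (D + 1) → G) → _) =
        (MeasurableEquiv.piCongrLeft (fun _ : St D (L * (2 * h)) t × Fin (D + 1) => G) s.symm) := by
      funext U e
      obtain ⟨e', rfl⟩ := s.symm.surjective e
      rw [MeasurableEquiv.coe_piCongrLeft, Equiv.piCongrLeft_apply_apply]
      obtain ⟨p, j⟩ := e'
      change U (s (s.symm (p, j))) = U (p, j)
      rw [Equiv.apply_symm_apply]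
    rw [e1]
    exact MeasurableEquiv.measurableEmbedding _
  rw [← mp.integral_comp he]
  refine integral_congr_ae (Filter.Eventually.of_forall fun U => ?_)
  simp only
  rw [ac_Tr]
  congr 1
  let q : (Fin D → ZMod (2 * h)) ≃ (Fin D → ZMod (2 * h)) :=
    { toFun := fun B => Function.update B i (B i + c)
      invFun := fun B => Function.update B i (B i - c)
      left_inv := fun B => by simp
      right_inv := fun B => by simp }
  rw [← Equiv.prod_comp q (fun B => Φ.F (w B) B U)]
  refine Finset.prod_congr rfl fun B _ => ?_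
  rw [Φ.shift]
  rfl

omit [NeZero l] in
lemma Gw_refl {K : Type*} (Φ : Fam D t L h G K) (we : G → ℝ) (hm : Measurable we)
    (hi : ∀ g, we g⁻¹ = we g) (hc : ∀ g h, we (h * g * h⁻¹) = we g) (h0 : ∀ g, 0 ≤ we g)
    (β : ℝ) (hβ : 0 ≤ β) (i : Fin D) (w : (Fin D → ZMod (2 * h)) → K) :
    Gw μ Φ we β w ^ 2 ≤
      Gw μ Φ we β (fun B => if (B i).val < h then w B else w (Function.update B i (-1 - B i))) *
      Gw μ Φ we β (fun B => if (B i).val < h then w (Function.update B i (-1 - B i)) else w B) := by
  classical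
  have hl : L * (2 * h) = 2 * (L * h) := by ring
  set P : Finset (Fin D → ZMod (2 * h)) := Finset.univ.filter fun B => (B i).val < h with hP
  set rB : (Fin D → ZMod (2 * h)) → (Fin D → ZMod (2 * h)) :=
    fun B => Function.update B i (-1 - B i) with hrB
  have rr : ∀ B, rB (rB B) = B := fun B => by simp [hrB]
  have rP : ∀ B, rB B ∈ P ↔ B ∉ P := by
    intro B
    simp only [hP, Finset.mem_filter, Finset.mem_univ, true_and, hrB, Function.update_self]
    rw [val_refl]
    have := ZMod.val_lt (B i)
    omega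
  -- the functions of one half
  set fu : ((Fin D → ZMod (2 * h)) → K) → (St D (L * (2 * h)) t × Fin (D + 1) → G) → ℝ :=
    fun v U => (∏ B ∈ P, Φ.F (v B) B U) * Real.exp (-(β * Sh we (L * h) i U)) with hfu
  have fm : ∀ v, Measurable (fu v) := by
    intro v
    refine (Finset.measurable_fun_prod _ fun B _ => Φ.meas _ _).mul ?_
    exact Real.measurable_exp.comp (((Sh_meas we hm _ i).const_mul β).neg)
  have fC : ∀ v U, |fu v U| ≤ 1 := by
    intro v U
    simp only [hfu]
    rw [abs_mul, Real.abs_exp, Finset.abs_prod]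
    have a1 : ∏ B ∈ P, |Φ.F (v B) B U| ≤ 1 := Finset.prod_le_one (fun _ _ => abs_nonneg _)
      fun B _ => by rw [abs_of_nonneg (Φ.nonneg _ _ _)]; exact Φ.le_one _ _ _
    have a2 : Real.exp (-(β * Sh we (L * h) i U)) ≤ 1 := by
      rw [Real.exp_le_one_iff]
      have := mul_nonneg hβ (Sh_nonneg we h0 (L * h) i U)
      linarith
    calc _ ≤ 1 * 1 := mul_le_mul a1 a2 (Real.exp_pos _).le zero_le_one
      _ = 1 := one_mul 1
  have fl : ∀ v U V, (∀ e, Hf (L * h) i e → U e = V e) → fu v U = fu v V := by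
    intro v U V hUV
    simp only [hfu]
    rw [Sh_loc we hl i U V hUV]
    congr 1
    refine Finset.prod_congr rfl fun B hB => ?_
    exact Φ.loc i _ B U V (Finset.mem_filter.1 hB).2 hUV
  -- products of two
  have key : ∀ v v' : (Fin D → ZMod (2 * h)) → K, ∀ U : St D (L * (2 * h)) t × Fin (D + 1) → G,
      fu v U * fu v' (refl (sg i) (ivf i) U) =
      (∏ B, Φ.F (if (B i).val < h then v B else v' (rB B)) B U) *
        Real.exp (-(β * ac we (ev D (L * (2 * h)) t) U)) := by
    intro v v' U
    simp only [hfu]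
    rw [S_split we hi hc hl i U, mul_add, neg_add, Real.exp_add]
    have e1 : ∏ B, Φ.F (if (B i).val < h then v B else v' (rB B)) B U =
        (∏ B ∈ P, Φ.F (v B) B U) * ∏ B ∈ P, Φ.F (v' B) B (refl (sg i) (ivf i) U) := by
      rw [← Finset.prod_filter_mul_prod_filter_not Finset.univ (fun B => (B i).val < h)]
      congr 1
      · refine Finset.prod_congr rfl fun B hB => ?_
        rw [if_pos (Finset.mem_filter.1 hB).2]
      · refine Finset.prod_nbij' rB rB ?_ ?_ (fun B _ => rr B) (fun B _ => rr B) ?_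
        · intro B hB
          rw [rP]
          simp only [hP, Finset.mem_filter, Finset.mem_univ, true_and] at hB ⊢
          exact hB
        · intro B hB
          have := (rP (rB B)).1 (by rw [rr]; exact hB)
          simp only [hP, Finset.mem_filter, Finset.mem_univ, true_and] at this ⊢
          exact this
        · intro B hB
          rw [if_neg (Finset.mem_filter.1 hB).2]
          have := Φ.refl i (v' (rB B)) (rB B) U
          change Φ.F (v' (rB B)) B U = Φ.F (v' (rB B)) (rB B) (Th i U)
          rw [this]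
          congr 1
          exact (rr B).symm
    rw [e1]
    ring
  have hrp := rp (G := G) μ (sg i) (sg_sg i) (ivf i) (iv_sg i) (Hf (L * h) i) (Hf1 hl i)
    (fun e h1 h2 => Hf2 hl i e h1 h2) (fu w) (fu fun B => w (rB B)) (fm _) (fm _) (fC _) (fC _)
    (fl _) (fl _)
  simp only [key] at hrp
  unfold Gw
  have e1 : ∀ B, (if (B i).val < h then w B else w (rB (rB B))) = w B := by
    intro B; rw [rr]; split_ifs <;> rfl
  have e2 : ∀ B, (if (B i).val < h then w (rB B) else w (rB (rB B))) =
      if (B i).val < h then w (rB B) else w B := by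
    intro B; rw [rr]
  simp only [e1, e2] at hrp
  exact hrp

/-- the chessboard estimate -/
theorem chess_tor {K : Type*} [Fintype K] (Φ : Fam D t L h G K) (we : G → ℝ) (hm : Measurable we)
    (hi : ∀ g, we g⁻¹ = we g) (hc : ∀ g h, we (h * g * h⁻¹) = we g) (h0 : ∀ g, 0 ≤ we g)
    (β : ℝ) (hβ : 0 ≤ β) (w : (Fin D → ZMod (2 * h)) → K) :
    Gw μ Φ we β w ^ ((2 * h) ^ D) ≤ ∏ B : Fin D → ZMod (2 * h), Gw μ Φ we β fun _ => w B := by
  refine chess (Gw μ Φ we β) (fun v => ?_) (fun i c v => Gw_shift μ Φ we β i c v)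
    (fun i v => Gw_refl μ Φ we hm hi hc h0 β hβ i v) w
  unfold Gw
  refine integral_nonneg fun U => mul_nonneg (Finset.prod_nonneg fun B _ => Φ.nonneg _ _ _)
    (Real.exp_pos _).le

end chess

end

end Pool.Agent.H991.DC
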