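import Mathlib
import Pool.Agent.H991.DC.TorC

/-!
# The bad events of the blocks
-/

open MeasureTheory Finset
open Pool.Agent.N899.SB

namespace Pool.Agent.H991.DC

noncomputable section

section loc

variable {D l t : ℕ} [NeZero l] [NeZero t] {G : Type*} [Group G]

omit [NeZero t] in
lemma pq_loc {w : ℕ} (hl : l = 2 * w) (i : Fin D) (U V : St D l t × Fin (D + 1) → G)
    (h : ∀ e, Hf w i e → U e = V e) (p : St D l t) (a b : Fin (D + 1)) (hne : a ≠ b)
    (h1 : (p.1 i).val ≤ w) (h2 : a = i.castSucc ∨ b = i.castSucc → (p.1 i).val < w) :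
    pq (ev D l t) U p a b = pq (ev D l t) V p a b := by
  have k1 : ∀ j : Fin (D + 1), j ≠ i.castSucc → ((p + ev D l t j).1 i) = p.1 i := by
    intro j hj
    refine Fin.lastCases ?_ (fun k hk => ?_) j hj
    · intro _; rw [ev_last]; simp
    · have hk' : k ≠ i := fun h => hk (by rw [h])
      rw [ev_cast]
      simp [Pi.single_eq_of_ne hk'.symm]
  have k2 : ((p + ev D l t i.castSucc).1 i) = p.1 i + 1 := by
    rw [ev_cast]; simp
  unfold pq
  by_cases ha : a = i.castSucc
  · have hb : b ≠ i.castSucc := fun h => hne (ha.trans h.symm)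
    have hv := h2 (Or.inl ha)
    rw [h (p, a) (by unfold Hf; simp [ha, hv]),
      h (p + ev D l t a, b) (by
        unfold Hf; simp only [hb, if_false]; rw [ha, k2, val_add_one_le hl _ hv]; omega),
      h (p + ev D l t b, a) (by unfold Hf; simp only [ha, if_true]; rw [k1 b hb]; exact hv),
      h (p, b) (by unfold Hf; simp only [hb, if_false]; omega)]
  · by_cases hb : b = i.castSucc
    · have hv := h2 (Or.inr hb)
      rw [h (p, a) (by unfold Hf; simp only [ha, if_false]; omega),
        h (p + ev D l t a, b) (by unfold Hf; simp only [hb, if_true]; rw [k1 a ha]; exact hv),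
        h (p + ev D l t b, a) (by
          unfold Hf; simp only [ha, if_false]; rw [hb, k2, val_add_one_le hl _ hv]; omega),
        h (p, b) (by unfold Hf; simp [hb, hv])]
    · rw [h (p, a) (by unfold Hf; simp only [ha, if_false]; exact h1),
        h (p + ev D l t a, b) (by unfold Hf; simp only [hb, if_false]; rw [k1 a ha]; exact h1),
        h (p + ev D l t b, a) (by unfold Hf; simp only [ha, if_false]; rw [k1 b hb]; exact h1),
        h (p, b) (by unfold Hf; simp only [hb, if_false]; exact h1)]

/-- the Polyakov loop -/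
def Pol (U : St D l t × Fin (D + 1) → G) (x : Fin D → ZMod l) : G :=
  ((List.range t).map fun τ : ℕ => U ((x, (τ : ZMod t)), Fin.last D)).prod

omit [NeZero l] [NeZero t] in
lemma Pol_Th (i : Fin D) (U : St D l t × Fin (D + 1) → G) (x : Fin D → ZMod l) :
    Pol (Th i U) x = Pol U (Function.update x i (-x i)) := by
  unfold Pol
  congr 1
  refine List.map_congr_left fun τ _ => ?_
  have h : Fin.last D ≠ i.castSucc := (Fin.castSucc_lt_last i).ne'
  rw [Th_ne i U _ h]
  rfl

omit [NeZero l] [NeZero t] in
lemma Pol_Tr (i : Fin D) (c : ZMod l) (U : St D l t × Fin (D + 1) → G) (x : Fin D → ZMod l) :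
    Pol (Tr i c U) x = Pol U (x + Pi.single i c) := by
  unfold Pol
  congr 1
  refine List.map_congr_left fun τ _ => ?_
  unfold Tr
  simp

end loc

section ev

variable {D t L h : ℕ} [NeZero (L * (2 * h))] [NeZero t] [NeZero h]
variable {G : Type*} [Group G]

/-- the site `r` of the block `B` -/
def em (L : ℕ) {D h : ℕ} (B : Fin D → ZMod (2 * h)) (r : Fin D → ℕ) : Fin D → ZMod (L * (2 * h)) :=
  fun j => ((L * (B j).val + r j : ℕ) : ZMod (L * (2 * h)))

omit [NeZero (L * (2 * h))] in
lemma em_neg (B : Fin D → ZMod (2 * h)) (r : Fin D → ℕ) (i : Fin D) (hr : r i ≤ L) :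
    Function.update (em L B r) i (-(em L B r i)) =
      em L (Function.update B i (-1 - B i)) (Function.update r i (L - r i)) := by
  haveI : NeZero (2 * h) := ⟨by have := NeZero.ne h; omega⟩
  funext j
  by_cases hj : j = i
  · subst hj
    simp only [Function.update_self, em]
    rw [neg_eq_iff_add_eq_zero, ← Nat.cast_add, val_refl]
    have h1 := ZMod.val_lt (B j)
    have h2 : L * (B j).val + r j + (L * (2 * h - 1 - (B j).val) + (L - r j)) = L * (2 * h) := by
      have h3 : 2 * h = (B j).val + (2 * h - 1 - (B j).val) + 1 := by omega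
      conv_rhs => rw [h3]
      rw [mul_add, mul_add, mul_one]
      omega
    rw [h2, ZMod.natCast_self]
  · simp [em, hj]

omit [NeZero (L * (2 * h))] in
lemma em_neg1 (B : Fin D → ZMod (2 * h)) (r : Fin D → ℕ) (i : Fin D) (hr : r i < L) :
    Function.update (em L B r) i (-(em L B r i) - 1) =
      em L (Function.update B i (-1 - B i)) (Function.update r i (L - 1 - r i)) := by
  haveI : NeZero (2 * h) := ⟨by have := NeZero.ne h; omega⟩
  funext j
  by_cases hj : j = i
  · subst hj
    simp only [Function.update_self, em]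
    rw [sub_eq_iff_eq_add, neg_eq_iff_add_eq_zero, val_refl]
    have hcast : ∀ x y : ℕ, ((x : ℕ) : ZMod (L * (2 * h))) + ((y : ℕ) + 1) =
        ((x + y + 1 : ℕ) : ZMod (L * (2 * h))) := by
      intro x y; push_cast; ring
    rw [hcast]
    have h1 := ZMod.val_lt (B j)
    have h2 : L * (B j).val + r j + (L * (2 * h - 1 - (B j).val) + (L - 1 - r j)) + 1 =
        L * (2 * h) := by
      have h3 : 2 * h = (B j).val + (2 * h - 1 - (B j).val) + 1 := by omega
      conv_rhs => rw [h3]
      rw [mul_add, mul_add, mul_one]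
      omega
    rw [h2, ZMod.natCast_self]
  · simp [em, hj]

omit [NeZero (L * (2 * h))] in
lemma em_add (B : Fin D → ZMod (2 * h)) (r : Fin D → ℕ) (i : Fin D) (c : ZMod (2 * h)) :
    em L B r + Pi.single i ((L * c.val : ℕ) : ZMod (L * (2 * h))) =
      em L (Function.update B i (B i + c)) r := by
  haveI : NeZero (2 * h) := ⟨by have := NeZero.ne h; omega⟩
  funext j
  by_cases hj : j = i
  · subst hj
    simp only [Pi.add_apply, Pi.single_eq_same, em, Function.update_self]
    rw [ZMod.val_add, ← Nat.cast_add]
    have e1 : L * (((B j).val + c.val) % (2 * h)) = (L * ((B j).val + c.val)) % (L * (2 * h)) :=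
      (Nat.mul_mod_mul_left _ _ _).symm
    rw [e1]
    push_cast
    rw [ZMod.natCast_mod]
    push_cast
    ring
  · simp [em, hj]

lemma em_val (B : Fin D → ZMod (2 * h)) (r : Fin D → ℕ) (i : Fin D) (hB : (B i).val < h)
    (hr : r i ≤ L) : (em L B r i).val = L * (B i).val + r i := by
  have h1 : L * (B i).val + r i ≤ L * h := by
    calc L * (B i).val + r i ≤ L * (B i).val + L := by omega
      _ = L * ((B i).val + 1) := by ring
      _ ≤ L * h := Nat.mul_le_mul_left _ hB
  have h2 : 0 < L * (2 * h) := Nat.pos_of_ne_zero (NeZero.ne _)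
  have h3 : L * (2 * h) = L * h + L * h := by ring
  unfold em
  rw [ZMod.val_natCast, Nat.mod_eq_of_lt (by omega)]

/-- the indices of the plaquettes of a block -/
def Ok (L : ℕ) {D : ℕ} (a b : Fin (D + 1)) (r : Fin D → ℕ) : Prop :=
  ∀ j, r j ≤ L ∧ ((a = j.castSucc ∨ b = j.castSucc) → r j < L)

/-- there is a large plaquette in the block -/
def E1 (we : G → ℝ) (ε : ℝ) (B : Fin D → ZMod (2 * h)) (U : St D (L * (2 * h)) t × Fin (D + 1) → G) :
    Prop :=
  ∃ (r : Fin D → ℕ) (τ : ZMod t) (a b : Fin (D + 1)), a < b ∧ Ok L a b r ∧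
    ε < we (pq (ev D (L * (2 * h)) t) U (em L B r, τ) a b)

/-- the Polyakov loops in the block have the property `q` -/
def E2 (q : G → Prop) (B : Fin D → ZMod (2 * h)) (U : St D (L * (2 * h)) t × Fin (D + 1) → G) :
    Prop :=
  ∀ r : Fin D → ℕ, (∀ j, r j ≤ L) → q (Pol U (em L B r))

lemma E1_loc (we : G → ℝ) (ε : ℝ) (i : Fin D) (B : Fin D → ZMod (2 * h))
    (U V : St D (L * (2 * h)) t × Fin (D + 1) → G) (hB : (B i).val < h)
    (hUV : ∀ e, Hf (L * h) i e → U e = V e) (hU : E1 we ε B U) : E1 we ε B V := by
  obtain ⟨r, τ, a, b, hab, hok, h1⟩ := hU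
  refine ⟨r, τ, a, b, hab, hok, ?_⟩
  have hl : L * (2 * h) = 2 * (L * h) := by ring
  have hle : L * (B i).val + L ≤ L * h := by
    calc L * (B i).val + L = L * ((B i).val + 1) := by ring
      _ ≤ L * h := Nat.mul_le_mul_left _ hB
  have hv := em_val B r i hB (hok i).1
  rwa [← pq_loc hl i U V hUV (em L B r, τ) a b hab.ne (by
    change (em L B r i).val ≤ L * h
    have := (hok i).1
    omega) (fun hh => by
    change (em L B r i).val < L * h
    have := (hok i).2 hh
    omega)]

lemma E2_loc (q : G → Prop) (i : Fin D) (B : Fin D → ZMod (2 * h))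
    (U V : St D (L * (2 * h)) t × Fin (D + 1) → G) (hB : (B i).val < h)
    (hUV : ∀ e, Hf (L * h) i e → U e = V e) (hU : E2 q B U) : E2 q B V := by
  intro r hr
  have h1 := hU r hr
  have hle : L * (B i).val + L ≤ L * h := by
    calc L * (B i).val + L = L * ((B i).val + 1) := by ring
      _ ≤ L * h := Nat.mul_le_mul_left _ hB
  have hv := em_val B r i hB (hr i)
  have e : Pol U (em L B r) = Pol V (em L B r) := by
    unfold Pol
    congr 1
    refine List.map_congr_left fun τ _ => ?_
    refine hUV _ ?_
    unfold Hf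
    rw [if_neg (Fin.castSucc_lt_last i).ne']
    change (em L B r i).val ≤ L * h
    have := hr i
    omega
  rwa [← e]

lemma E1_refl' (we : G → ℝ) (hi : ∀ g, we g⁻¹ = we g) (hc : ∀ g h, we (h * g * h⁻¹) = we g) (ε : ℝ)
    (i : Fin D) (B : Fin D → ZMod (2 * h)) (U : St D (L * (2 * h)) t × Fin (D + 1) → G)
    (hU : E1 we ε B (Th i U)) : E1 we ε (Function.update B i (-1 - B i)) U := by
  obtain ⟨r, τ, a, b, hab, hok, h1⟩ := hU
  rw [we_refl we hi hc i U _ a b hab.ne] at h1
  by_cases hh : a = i.castSucc ∨ b = i.castSucc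
  · refine ⟨Function.update r i (L - 1 - r i), τ, a, b, hab, ?_, ?_⟩
    · intro j
      by_cases hj : j = i
      · subst hj
        have := hok j
        rw [Function.update_self]
        have := this.2 hh
        exact ⟨by omega, fun _ => by omega⟩
      · rw [Function.update_of_ne hj]
        exact hok j
    · have e : ro i a b ((em L B r, τ) : St D (L * (2 * h)) t) =
          (em L (Function.update B i (-1 - B i)) (Function.update r i (L - 1 - r i)), τ) := by
        unfold ro
        rw [if_pos hh, ← em_neg1 B r i ((hok i).2 hh), ev_cast]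
        refine Prod.ext ?_ (by simp [th])
        funext j
        by_cases hj : j = i
        · subst hj; simp [th]
        · simp [th, hj]
      rwa [e] at h1
  · refine ⟨Function.update r i (L - r i), τ, a, b, hab, ?_, ?_⟩
    · intro j
      by_cases hj : j = i
      · subst hj
        have := hok j
        rw [Function.update_self]
        exact ⟨by omega, fun h' => absurd h' hh⟩
      · rw [Function.update_of_ne hj]
        exact hok j
    · have e : ro i a b ((em L B r, τ) : St D (L * (2 * h)) t) =
          (em L (Function.update B i (-1 - B i)) (Function.update r i (L - r i)), τ) := by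
        unfold ro
        rw [if_neg hh, ← em_neg B r i (hok i).1]
        rfl
      rwa [e] at h1

lemma E1_refl (we : G → ℝ) (hi : ∀ g, we g⁻¹ = we g) (hc : ∀ g h, we (h * g * h⁻¹) = we g) (ε : ℝ)
    (i : Fin D) (B : Fin D → ZMod (2 * h)) (U : St D (L * (2 * h)) t × Fin (D + 1) → G) :
    E1 we ε B (Th i U) ↔ E1 we ε (Function.update B i (-1 - B i)) U := by
  refine ⟨E1_refl' we hi hc ε i B U, fun hU => ?_⟩
  have := E1_refl' we hi hc ε i (Function.update B i (-1 - B i)) (Th i U) (by rwa [Th_Th])
  simpa using this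

lemma E2_refl' (q : G → Prop) (i : Fin D) (B : Fin D → ZMod (2 * h))
    (U : St D (L * (2 * h)) t × Fin (D + 1) → G) (hU : E2 q B (Th i U)) :
    E2 q (Function.update B i (-1 - B i)) U := by
  intro r hr
  have h1 := hU (Function.update r i (L - r i)) (fun j => by
    by_cases hj : j = i
    · subst hj; simp
    · rw [Function.update_of_ne hj]; exact hr j)
  rw [Pol_Th, em_neg B _ i (by simp)] at h1
  have e : Function.update (Function.update r i (L - r i)) i
      (L - Function.update r i (L - r i) i) = r := by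
    funext j
    by_cases hj : j = i
    · subst hj
      have := hr j
      simp only [Function.update_self]
      omega
    · simp [hj]
  rwa [e] at h1

lemma E2_refl (q : G → Prop) (i : Fin D) (B : Fin D → ZMod (2 * h))
    (U : St D (L * (2 * h)) t × Fin (D + 1) → G) :
    E2 q B (Th i U) ↔ E2 q (Function.update B i (-1 - B i)) U := by
  refine ⟨E2_refl' q i B U, fun hU => ?_⟩
  have := E2_refl' q i (Function.update B i (-1 - B i)) (Th i U) (by rwa [Th_Th])
  simpa using this

omit [NeZero (L * (2 * h))] in
lemma E1_shift (we : G → ℝ) (ε : ℝ) (i : Fin D) (c : ZMod (2 * h)) (B : Fin D → ZMod (2 * h))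
    (U : St D (L * (2 * h)) t × Fin (D + 1) → G) :
    E1 we ε B (Tr i ((L * c.val : ℕ) : ZMod (L * (2 * h))) U) ↔
      E1 we ε (Function.update B i (B i + c)) U := by
  unfold E1
  have e : ∀ (r : Fin D → ℕ) (τ : ZMod t) (a b : Fin (D + 1)),
      pq (ev D (L * (2 * h)) t) (Tr i ((L * c.val : ℕ) : ZMod (L * (2 * h))) U) (em L B r, τ) a b =
      pq (ev D (L * (2 * h)) t) U (em L (Function.update B i (B i + c)) r, τ) a b := by
    intro r τ a b
    have e2 : ((em L B r, τ) : St D (L * (2 * h)) t) +
        (Pi.single i ((L * c.val : ℕ) : ZMod (L * (2 * h))), 0) =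
        (em L (Function.update B i (B i + c)) r, τ) := by
      refine Prod.ext ?_ (add_zero τ)
      exact em_add B r i c
    rw [← e2]
    unfold pq Tr
    simp only
    rw [add_right_comm _ (ev D (L * (2 * h)) t a), add_right_comm _ (ev D (L * (2 * h)) t b)]
  simp only [e]

omit [NeZero (L * (2 * h))] in
lemma E2_shift (q : G → Prop) (i : Fin D) (c : ZMod (2 * h)) (B : Fin D → ZMod (2 * h))
    (U : St D (L * (2 * h)) t × Fin (D + 1) → G) :
    E2 q B (Tr i ((L * c.val : ℕ) : ZMod (L * (2 * h))) U) ↔
      E2 q (Function.update B i (B i + c)) U := by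
  unfold E2
  simp only [Pol_Tr, em_add]

variable [MeasurableSpace G] [MeasurableMul₂ G] [MeasurableInv G]

omit [MeasurableInv G] in
lemma Pol_meas {l : ℕ} (x : Fin D → ZMod l) :
    Measurable fun U : St D l t × Fin (D + 1) → G => Pol U x := by
  unfold Pol
  have h : ∀ s : List ℕ, Measurable fun U : St D l t × Fin (D + 1) → G =>
      (s.map fun τ : ℕ => U ((x, (τ : ZMod t)), Fin.last D)).prod := by
    intro s
    induction s with
    | nil => simp
    | cons a s ih =>
      simp only [List.map_cons, List.prod_cons]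
      exact (measurable_pi_apply _).mul ih
  exact h _

lemma E1_meas (we : G → ℝ) (hm : Measurable we) (ε : ℝ) (B : Fin D → ZMod (2 * h)) :
    MeasurableSet {U : St D (L * (2 * h)) t × Fin (D + 1) → G | E1 we ε B U} := by
  unfold E1
  simp only [Set.setOf_exists]
  refine MeasurableSet.iUnion fun r => MeasurableSet.iUnion fun τ => MeasurableSet.iUnion fun a =>
    MeasurableSet.iUnion fun b => ?_
  by_cases h1 : a < b
  · by_cases h2 : Ok L a b r
    · simp only [h1, h2, true_and]
      exact measurableSet_lt measurable_const (hm.comp (pq_meas _ a b))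
    · simp [h2]
  · simp [h1]

omit [MeasurableInv G] in
lemma E2_meas (q : G → Prop) (hq : MeasurableSet {g | q g}) (B : Fin D → ZMod (2 * h)) :
    MeasurableSet {U : St D (L * (2 * h)) t × Fin (D + 1) → G | E2 q B U} := by
  unfold E2
  simp only [Set.setOf_forall]
  refine MeasurableSet.iInter fun r => MeasurableSet.iInter fun _ => ?_
  exact Pol_meas _ hq

open Classical in
/-- the family of the bad events -/
def Fb (we : G → ℝ) (hm : Measurable we) (hi : ∀ g, we g⁻¹ = we g)
    (hc : ∀ g h, we (h * g * h⁻¹) = we g) (ε : ℝ) (q : G → Prop) (hq : MeasurableSet {g | q g}) :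
    Fam D t L h G (Fin 3) where
  F k B U := if k = 0 then 1 else if k = 1 then (if E1 we ε B U then 1 else 0)
    else (if E2 q B U then 1 else 0)
  meas k B := by
    split_ifs
    · exact measurable_const
    · exact Measurable.ite (E1_meas we hm ε B) measurable_const measurable_const
    · exact Measurable.ite (E2_meas q hq B) measurable_const measurable_const
  nonneg k B U := by split_ifs <;> norm_num
  le_one k B U := by split_ifs <;> norm_num
  loc i k B U V hB hUV := by
    have e1 : E1 we ε B U ↔ E1 we ε B V := ⟨E1_loc we ε i B U V hB hUV,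
      E1_loc we ε i B V U hB fun e he => (hUV e he).symm⟩
    have e2 : E2 q B U ↔ E2 q B V := ⟨E2_loc q i B U V hB hUV,
      E2_loc q i B V U hB fun e he => (hUV e he).symm⟩
    simp only [e1, e2]
  refl i k B U := by
    simp only [E1_refl we hi hc, E2_refl]
  shift i c k B U := by
    simp only [E1_shift, E2_shift]

end ev

end

end Pool.Agent.H991.DC
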