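import Mathlib
import Pool.Agent.H991.DC.Evt

/-!
# The probability of many bad blocks
-/

open MeasureTheory Finset
open Pool.Agent.N899.SB

namespace Pool.Agent.H991.DC

noncomputable section

variable {D t L h : ℕ} [NeZero (L * (2 * h))] [NeZero t] [NeZero h] [NeZero (2 * h)]
variable {G : Type} [Group G] [MeasurableSpace G] [MeasurableMul₂ G] [MeasurableInv G]
variable (μ : Measure G) [IsProbabilityMeasure μ] [μ.IsInvInvariant]

theorem mixed (Φ : Fam D t L h G (Fin 3)) (we : G → ℝ) (hm : Measurable we)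
    (hi : ∀ g, we g⁻¹ = we g) (hc : ∀ g h, we (h * g * h⁻¹) = we g) (h0 : ∀ g, 0 ≤ we g)
    {β : ℝ} (hβ : 0 ≤ β) (hΦ : ∀ B U, Φ.F 0 B U = 1) {Z e : ℝ} (hZ : 0 < Z) (he : 0 ≤ e)
    (hZ0 : Z = prt (D := D) (l := L * (2 * h)) (t := t) μ we β)
    (h1 : Gw μ Φ we β (fun _ => 1) ≤ Z * e ^ (2 * h) ^ D)
    (h2 : Gw μ Φ we β (fun _ => 2) ≤ Z * e ^ (2 * h) ^ D) (w : (Fin D → ZMod (2 * h)) → Fin 3) :
    Gw μ Φ we β w ≤ Z * e ^ (univ.filter fun B => w B ≠ 0).card := by
  classical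
  have hM : (2 * h) ^ D ≠ 0 := pow_ne_zero _ (NeZero.ne _)
  have hcard : Fintype.card (Fin D → ZMod (2 * h)) = (2 * h) ^ D := by
    rw [Fintype.card_fun, ZMod.card, Fintype.card_fin]
  have hnn : ∀ v : (Fin D → ZMod (2 * h)) → Fin 3, 0 ≤ Gw μ Φ we β v := by
    intro v
    unfold Gw
    exact integral_nonneg fun U => mul_nonneg (prod_nonneg fun B _ => Φ.nonneg _ _ _)
      (Real.exp_pos _).le
  have hG0 : Gw μ Φ we β (fun _ => 0) = Z := by
    rw [hZ0]
    unfold Gw prt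
    simp only [hΦ, prod_const_one, one_mul]
  have h3 := chess_tor μ Φ we hm hi hc h0 β hβ w
  have h4 : ∏ B, Gw μ Φ we β (fun _ => w B) ≤ ∏ B, (Z * (if w B ≠ 0 then e ^ (2 * h) ^ D else 1)) := by
    refine prod_le_prod (fun B _ => hnn _) fun B _ => ?_
    have h5 : w B = 0 ∨ w B = 1 ∨ w B = 2 := by
      generalize w B = k
      fin_cases k <;> simp
    rcases h5 with h5 | h5 | h5
    · rw [h5, hG0]; simp
    · rw [h5, if_pos (by decide)]; exact h1
    · rw [h5, if_pos (by decide)]; exact h2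
  have h6 : ∏ B : Fin D → ZMod (2 * h), (Z * (if w B ≠ 0 then e ^ (2 * h) ^ D else 1)) =
      (Z * e ^ (univ.filter fun B => w B ≠ 0).card) ^ (2 * h) ^ D := by
    rw [prod_mul_distrib, prod_const, card_univ, hcard, mul_pow Z, prod_ite, prod_const_one, mul_one,
      prod_const, ← pow_mul e, ← pow_mul e, mul_comm ((2 * h) ^ D)]
  rw [h6] at h4
  exact (pow_le_pow_iff_left₀ (hnn _) (by positivity) hM).1 (h3.trans h4)

theorem bad_prob (Φ : Fam D t L h G (Fin 3)) (we : G → ℝ) (hm : Measurable we)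
    (hi : ∀ g, we g⁻¹ = we g) (hc : ∀ g h, we (h * g * h⁻¹) = we g) (h0 : ∀ g, 0 ≤ we g)
    {β : ℝ} (hβ : 0 ≤ β) (hΦ : ∀ B U, Φ.F 0 B U = 1) {Z e : ℝ} (hZ : 0 < Z) (he : 0 ≤ e)
    (hZ0 : Z = prt (D := D) (l := L * (2 * h)) (t := t) μ we β)
    (h1 : Gw μ Φ we β (fun _ => 1) ≤ Z * e ^ (2 * h) ^ D)
    (h2 : Gw μ Φ we β (fun _ => 2) ≤ Z * e ^ (2 * h) ^ D) (A : Finset (Fin D → ZMod (2 * h))) :
    ∫ U : St D (L * (2 * h)) t × Fin (D + 1) → G, (∏ B ∈ A, (Φ.F 1 B U + Φ.F 2 B U)) *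
      Real.exp (-(β * ac we (ev D (L * (2 * h)) t) U)) ∂(Measure.pi fun _ => μ) ≤
      Z * (2 * e) ^ A.card := by
  classical
  obtain ⟨w, hw⟩ : ∃ w : Finset (Fin D → ZMod (2 * h)) → (Fin D → ZMod (2 * h)) → Fin 3,
    w = fun S B => if B ∈ S then 1 else if B ∈ A then 2 else 0 := ⟨_, rfl⟩
  have e1 : ∀ U, (∏ B ∈ A, (Φ.F 1 B U + Φ.F 2 B U)) *
      Real.exp (-(β * ac we (ev D (L * (2 * h)) t) U)) =
      ∑ S ∈ A.powerset, (∏ B, Φ.F (w S B) B U) *
        Real.exp (-(β * ac we (ev D (L * (2 * h)) t) U)) := by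
    intro U
    rw [← sum_mul, prod_add]
    congr 1
    refine sum_congr rfl fun S hS => ?_
    rw [mem_powerset] at hS
    have h3 : ∏ B, Φ.F (w S B) B U = ∏ B ∈ A, Φ.F (w S B) B U := by
      symm
      refine prod_subset (subset_univ _) fun B _ hB => ?_
      rw [hw]
      simp only
      rw [if_neg (fun h' => hB (hS h')), if_neg hB, hΦ]
    rw [h3, ← prod_sdiff hS, mul_comm]
    congr 1
    · refine prod_congr rfl fun B hB => ?_
      rw [mem_sdiff] at hB
      rw [hw]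
      simp only
      rw [if_neg hB.2, if_pos hB.1]
    · refine prod_congr rfl fun B hB => ?_
      rw [hw]
      simp only
      rw [if_pos hB]
  simp only [e1]
  have hint : ∀ S ∈ A.powerset, Integrable (fun U : St D (L * (2 * h)) t × Fin (D + 1) → G =>
      (∏ B, Φ.F (w S B) B U) * Real.exp (-(β * ac we (ev D (L * (2 * h)) t) U)))
      (Measure.pi fun _ => μ) := by
    intro S _
    refine Integrable.of_bound (C := 1) ?_ (Filter.Eventually.of_forall fun U => ?_)
    · refine Measurable.aestronglyMeasurable ?_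
      refine (Finset.measurable_fun_prod _ fun B _ => Φ.meas _ _).mul ?_
      exact Real.measurable_exp.comp (measurable_const.mul (ac_meas we hm)).neg
    · rw [Real.norm_eq_abs, abs_mul, abs_of_nonneg (prod_nonneg fun B _ => Φ.nonneg _ _ _),
        abs_of_pos (Real.exp_pos _)]
      refine mul_le_one₀ (prod_le_one (fun B _ => Φ.nonneg _ _ _) fun B _ => Φ.le_one _ _ _)
        (Real.exp_pos _).le ?_
      rw [Real.exp_le_one_iff]
      have := ac_nonneg we h0 U
      nlinarith [mul_nonneg hβ this]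
  rw [integral_finsetSum _ hint]
  have h5 : ∀ S ∈ A.powerset, ∫ U : St D (L * (2 * h)) t × Fin (D + 1) → G,
      (∏ B, Φ.F (w S B) B U) * Real.exp (-(β * ac we (ev D (L * (2 * h)) t) U))
      ∂(Measure.pi fun _ => μ) ≤ Z * e ^ A.card := by
    intro S hS
    have h6 := mixed μ Φ we hm hi hc h0 hβ hΦ hZ he hZ0 h1 h2 (w S)
    have h7 : (univ.filter fun B => w S B ≠ 0) = A := by
      rw [mem_powerset] at hS
      ext B
      rw [mem_filter, hw]
      simp only [mem_univ, true_and]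
      by_cases hB : B ∈ S
      · simp [hB, hS hB]
      · by_cases hA : B ∈ A
        · simp [hB, hA]
        · simp [hB, hA]
    rw [h7] at h6
    exact h6
  refine (sum_le_sum h5).trans (le_of_eq ?_)
  rw [sum_const, card_powerset, nsmul_eq_mul, mul_pow]
  push_cast
  ring

end

end Pool.Agent.H991.DC
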