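import Mathlib
import Pool.Graph.R_pool_sql_team_seeded_63374d34.N899.BB.Tay

/-!
# The adjoint representation in coordinates; systems of plaquettes with a twist
-/

open MeasureTheory Matrix
open scoped Matrix.Norms.Frobenius
open Pool.Agent.N899.SB Pool.Agent.Y14.Wilson Pool.Agent.N899.BB Pool.Agent.N899.BB.Tay

namespace Pool.Agent.H991.DC

noncomputable section

variable {N n : ℕ} {G : Subgroup (UU N)}

/-- the matrix of the adjoint representation -/
def Ado (B : LieBasis G n) (κ : G) : Matrix (Fin n) (Fin n) ℝ :=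
  fun a b => (trace ((B.X a)ᴴ * (mt κ * B.X b * (mt κ)ᴴ))).re

/-- expansion in the basis -/
theorem span_expand (B : LieBasis G n) (Y : Mt N) (hY : Y ∈ Submodule.span ℝ (Set.range B.X)) :
    Y = ∑ a, (trace ((B.X a)ᴴ * Y)).re • B.X a := by
  induction hY using Submodule.span_induction with
  | mem y hy =>
    obtain ⟨b, rfl⟩ := hy
    simp only [B.orth, ite_smul, one_smul, zero_smul]
    rw [Finset.sum_ite_eq' Finset.univ b]
    simp
  | zero => simp
  | add x y _ _ hx hy =>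
    conv_lhs => rw [hx, hy]
    rw [← Finset.sum_add_distrib]
    refine Finset.sum_congr rfl fun a _ => ?_
    rw [mul_add, trace_add, Complex.add_re, add_smul]
  | smul c x _ hx =>
    conv_lhs => rw [hx]
    rw [Finset.smul_sum]
    refine Finset.sum_congr rfl fun a _ => ?_
    rw [mul_smul_comm, trace_smul, Complex.real_smul, Complex.re_ofReal_mul, smul_smul]

theorem conj_mem (B : LieBasis G n) (κ : G) (b : Fin n) :
    mt κ * B.X b * (mt κ)ᴴ ∈ Submodule.span ℝ (Set.range B.X) := by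
  refine B.full _ fun t => ⟨κ * B.ex b t * κ⁻¹, ?_⟩
  rw [mt_mul, mt_mul, B.ex_eq, mt_inv]
  have h1 : (mt κ)ᴴ = (mt κ)⁻¹ := (Matrix.inv_eq_right_inv (mt_mul_ct κ)).symm
  have hu : IsUnit (mt κ) := IsUnit.of_mul_eq_one _ (mt_mul_ct κ)
  rw [h1, ← Matrix.exp_conj _ _ hu]
  congr 1
  rw [Matrix.mul_smul, Matrix.smul_mul]

theorem conj_X (B : LieBasis G n) (κ : G) (b : Fin n) :
    mt κ * B.X b * (mt κ)ᴴ = ∑ a, Ado B κ a b • B.X a :=
  span_expand B _ (conj_mem B κ b)

theorem Ado_tr (B : LieBasis G n) (κ : G) (a b : Fin n) :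
    Ado B κ a b = (trace (((mt κ)ᴴ * B.X a * mt κ)ᴴ * B.X b)).re := by
  unfold Ado
  rw [conjTranspose_mul, conjTranspose_mul, conjTranspose_conjTranspose]
  congr 1
  rw [← mul_assoc, ← mul_assoc, trace_mul_comm, ← mul_assoc, ← mul_assoc]

theorem Ado_inv (B : LieBasis G n) (κ : G) : Ado B κ⁻¹ = (Ado B κ)ᵀ := by
  ext a b
  rw [transpose_apply, Ado_tr, Ado, mt_inv, conjTranspose_conjTranspose]
  have h : ∀ A C : Mt N, (trace (Aᴴ * C)).re = (trace (Cᴴ * A)).re := by
    intro A C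
    rw [← Complex.conj_re, ← Complex.star_def, ← trace_conjTranspose, conjTranspose_mul,
      conjTranspose_conjTranspose]
  rw [h]

theorem Ado_mul (B : LieBasis G n) (κ l : G) : Ado B (κ * l) = Ado B κ * Ado B l := by
  ext a b
  rw [Matrix.mul_apply, Ado, mt_mul, conjTranspose_mul]
  have h1 : mt κ * mt l * B.X b * ((mt l)ᴴ * (mt κ)ᴴ) = mt κ * (mt l * B.X b * (mt l)ᴴ) * (mt κ)ᴴ := by
    noncomm_ring
  rw [h1, conj_X B l b, Finset.mul_sum, Finset.sum_mul, Finset.mul_sum, trace_sum, Complex.re_sum]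
  refine Finset.sum_congr rfl fun c _ => ?_
  rw [mul_smul_comm, smul_mul_assoc, mul_smul_comm, trace_smul, Complex.real_smul,
    Complex.re_ofReal_mul, mul_comm]
  rfl

theorem Ado_one (B : LieBasis G n) : Ado B 1 = 1 := by
  ext a b
  rw [Ado, mt_one, one_mul, conjTranspose_one, mul_one, B.orth, Matrix.one_apply]

theorem Ado_orth (B : LieBasis G n) (κ : G) : (Ado B κ)ᵀ * Ado B κ = 1 := by
  rw [← Ado_inv, ← Ado_mul, inv_mul_cancel, Ado_one]

theorem Ado_orth' (B : LieBasis G n) (κ : G) : Ado B κ * (Ado B κ)ᵀ = 1 := by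
  rw [← Ado_inv, ← Ado_mul, mul_inv_cancel, Ado_one]

theorem norm_conj (κ : G) (A : Mt N) : ‖mt κ * A * (mt κ)ᴴ‖ = ‖A‖ := by
  have h1 : ‖mt κ * A * (mt κ)ᴴ‖ = ‖mt κ * A‖ := by
    rw [← mt_inv]; exact norm_mul_mt _ _
  rw [h1, ← frobenius_norm_conjTranspose, conjTranspose_mul, ← mt_inv, norm_mul_mt,
    frobenius_norm_conjTranspose]

theorem norm_conj_sub (κ g : G) : ‖mt (κ * g * κ⁻¹) - 1‖ = ‖mt g - 1‖ := by
  have e : mt (κ * g * κ⁻¹) - 1 = mt κ * (mt g - 1) * (mt κ)ᴴ := by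
    rw [mt_mul, mt_mul, mt_inv, mul_sub, sub_mul, mul_one, mt_mul_ct]
  rw [e, norm_conj]

theorem Ado_le (B : LieBasis G n) (κ : G) (a b : Fin n) : |Ado B κ a b| ≤ 1 := by
  unfold Ado
  refine (ip_le _ _).trans ?_
  rw [normX, norm_conj, normX, one_mul]

theorem crd_conj (B : LieBasis G n) (κ g : G) (a : Fin n) :
    crd B (κ * g * κ⁻¹) a = ∑ b, Ado B κ a b * crd B g b := by
  have h1 : crd B (κ * g * κ⁻¹) a = (trace (((mt κ)ᴴ * B.X a * mt κ)ᴴ * mt g)).re := by
    unfold crd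
    rw [mt_mul, mt_mul, mt_inv, conjTranspose_mul, conjTranspose_mul, conjTranspose_conjTranspose]
    congr 1
    rw [← mul_assoc, ← mul_assoc, trace_mul_comm, ← mul_assoc, ← mul_assoc]
  have h2 : (mt κ)ᴴ * B.X a * mt κ = ∑ b, Ado B κ a b • B.X b := by
    have h := conj_X B κ⁻¹ a
    rw [mt_inv, conjTranspose_conjTranspose, Ado_inv] at h
    exact h
  rw [h1, h2, conjTranspose_sum, Finset.sum_mul, trace_sum, Complex.re_sum]
  refine Finset.sum_congr rfl fun b _ => ?_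
  rw [conjTranspose_smul, star_trivial, smul_mul_assoc, trace_smul, Complex.real_smul,
    Complex.re_ofReal_mul]
  rfl

theorem Ado_cont (B : LieBasis G n) : Continuous (Ado B) := by
  refine continuous_matrix fun a b => ?_
  unfold Ado
  have hm : Continuous (mt : G → Mt N) := continuous_subtype_val.comp continuous_subtype_val
  have h : Continuous fun κ : G => (B.X a)ᴴ * (mt κ * B.X b * (mt κ)ᴴ) :=
    continuous_const.mul ((hm.mul continuous_const).mul hm.matrix_conjTranspose)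
  exact Complex.continuous_re.comp h.matrix_trace

/-! ### Systems with a twist -/

section tw

variable (Q : Sys) (κ : Q.P → G)

/-- the plaquette variable with a twist of the third letter -/
def tplq (U : Q.L → G) (p : Q.P) : G :=
  ev U (Q.wd p 0) * ev U (Q.wd p 1) * (κ p * ev U (Q.wd p 2) * (κ p)⁻¹)⁻¹ * (ev U (Q.wd p 3))⁻¹

/-- the action -/
def tS (c : Q.P → ℝ) (U : Q.L → G) : ℝ := ∑ p, c p * we (tplq Q κ U p)

/-- the partition function -/
def tZ [MeasurableSpace G] (μ : Measure G) (c : Q.P → ℝ) (β : ℝ) : ℝ :=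
  ∫ U : Q.L → G, Real.exp (-(β * tS Q κ c U)) ∂(Measure.pi fun _ => μ)

/-- the expectation -/
def tE [MeasurableSpace G] (μ : Measure G) (c : Q.P → ℝ) (β : ℝ) (F : (Q.L → G) → ℝ) : ℝ :=
  (∫ U : Q.L → G, F U * Real.exp (-(β * tS Q κ c U)) ∂(Measure.pi fun _ => μ)) / tZ Q κ μ c β

/-- the incidence matrix -/
def DT (B : LieBasis G n) (p : Q.P) (a : Fin n) (w : Q.L × Fin n) : ℝ :=
  ((if Q.wd p 0 = some w.1 then 1 else 0) + (if Q.wd p 1 = some w.1 then 1 else 0) -
    (if Q.wd p 3 = some w.1 then 1 else 0)) * (if a = w.2 then 1 else 0) -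
    (if Q.wd p 2 = some w.1 then 1 else 0) * Ado B (κ p) a w.2

/-- the quadratic form -/
def tH (B : LieBasis G n) (c : Q.P → ℝ) : Matrix (Q.L × Fin n) (Q.L × Fin n) ℝ :=
  fun w w' => ∑ p, c p * ∑ a, DT Q κ B p a w * DT Q κ B p a w'

end tw

end

end Pool.Agent.H991.DC
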