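import Mathlib
import Pool.Agent.H991.DC.Ad
import Pool.Graph.R_pool_sql_team_seeded_63374d34.N899.BB.Alg
import Pool.Graph.R_pool_sql_team_seeded_63374d34.N899.BB.Circ
import Pool.Graph.R_pool_sql_team_seeded_63374d34.N899.BB.Det
import Pool.Graph.R_pool_sql_team_seeded_63374d34.N899.BB.Sysr

/-!
# The determinant of the quadratic form with a twist
-/

open Matrix
open Pool.Agent.N899.BB Pool.Agent.N899.BB.Circ

namespace Pool.Agent.H991.DC

noncomputable section

/-! ### Diagonalisation of orthogonal matrices -/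

theorem orth_diag {n : ℕ} (O : Matrix (Fin n) (Fin n) ℝ) (hO : Oᵀ * O = 1) :
    ∃ (V : Matrix (Fin n) (Fin n) ℂ) (α : Fin n → ℝ), V.det ≠ 0 ∧
      (O.map Complex.ofRealHom) * V = V * diagonal (fun c => Complex.exp (α c * Complex.I)) ∧
      ∑ c, Real.cos (α c) = trace O := by
  classical
  obtain ⟨A, hA⟩ : ∃ A, A = O.map Complex.ofRealHom := ⟨_, rfl⟩
  have hAA : Aᴴ * A = 1 := by
    have h1 : Aᴴ = Oᵀ.map Complex.ofRealHom := by
      rw [hA]
      ext i j
      simp [Matrix.conjTranspose_apply]
    rw [h1, hA, ← Matrix.map_mul, hO]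
    exact Matrix.map_one _ (map_zero _) (map_one _)
  obtain ⟨f, hf⟩ : ∃ f : Module.End ℂ (EuclideanSpace ℂ (Fin n)), f = Matrix.toEuclideanLin A :=
    ⟨_, rfl⟩
  have hadj : ∀ x y, inner ℂ (f x) (f y) = inner ℂ x y := by
    intro x y
    rw [hf, Matrix.toEuclideanLin_apply, Matrix.toEuclideanLin_apply,
      EuclideanSpace.inner_eq_star_dotProduct, EuclideanSpace.inner_eq_star_dotProduct]
    simp only [Matrix.star_mulVec]
    rw [dotProduct_comm, ← Matrix.dotProduct_mulVec, Matrix.mulVec_mulVec, hAA, Matrix.one_mulVec,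
      dotProduct_comm]
  have hinj : Function.Injective f := by
    refine (injective_iff_map_eq_zero f).2 fun x hx => ?_
    have := hadj x x
    rw [hx, inner_zero_left] at this
    exact inner_self_eq_zero.1 this.symm
  have hss : f.IsSemisimple := by
    rw [Module.End.isSemisimple_iff]
    intro p hp
    refine ⟨pᗮ, ?_, Submodule.isCompl_orthogonal_of_hasOrthogonalProjection⟩
    rw [Module.End.mem_invtSubmodule] at hp ⊢
    have hmap : p.map f = p := by
      refine Submodule.eq_of_le_of_finrank_eq (Submodule.map_le_iff_le_comap.2 hp) ?_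
      exact (Submodule.equivMapOfInjective f hinj p).finrank_eq.symm
    intro y hy
    rw [Submodule.mem_comap, Submodule.mem_orthogonal]
    intro x hx
    rw [← hmap] at hx
    obtain ⟨x', hx', rfl⟩ := hx
    rw [hadj]
    exact (Submodule.mem_orthogonal p y).1 hy x' hx'
  obtain ⟨S, hS⟩ : ∃ S : Set (EuclideanSpace ℂ (Fin n)), ∀ v, v ∈ S ↔ ∃ z : ℂ, f v = z • v :=
    ⟨{v | ∃ z : ℂ, f v = z • v}, fun v => Iff.rfl⟩
  have hspan : ⊤ ≤ Submodule.span ℂ S := by
    rw [← hss.iSup_eigenspace_eq_top]
    refine iSup_le fun z v hv => Submodule.subset_span ?_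
    exact (hS v).2 ⟨z, Module.End.mem_eigenspace_iff.1 hv⟩
  have hb0 := Module.Basis.ofSpan_subset hspan
  obtain ⟨b1, hb1⟩ : ∃ b1, b1 = Module.Basis.ofSpan hspan := ⟨_, rfl⟩
  have hfin := Module.Finite.finite_basis b1
  have := Fintype.ofFinite ↥((linearIndepOn_empty ℂ id).extend (Set.empty_subset S))
  have hcard : Fintype.card ↥((linearIndepOn_empty ℂ id).extend (Set.empty_subset S)) = n := by
    rw [← Module.finrank_eq_card_basis b1, finrank_euclideanSpace, Fintype.card_fin]
  obtain ⟨b, hb⟩ : ∃ b : Module.Basis (Fin n) ℂ (EuclideanSpace ℂ (Fin n)), ∀ c, ∃ z : ℂ,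
      f (b c) = z • b c := by
    refine ⟨b1.reindex (Fintype.equivFinOfCardEq hcard), fun c => ?_⟩
    have h1 : b1.reindex (Fintype.equivFinOfCardEq hcard) c ∈ S := by
      rw [Module.Basis.reindex_apply, hb1]
      exact hb0 (Set.mem_range_self _)
    exact (hS _).1 h1
  choose z hz using hb
  have hz1 : ∀ c, ‖z c‖ = 1 := by
    intro c
    have h1 := hadj (b c) (b c)
    rw [hz, inner_smul_left, inner_smul_right, ← mul_assoc] at h1
    have h2 : inner ℂ (b c) (b c) ≠ 0 := fun h => b.ne_zero c (inner_self_eq_zero.1 h)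
    have h3 : (starRingEnd ℂ) (z c) * z c = 1 := by
      have := mul_right_cancel₀ h2 (h1.trans (one_mul _).symm)
      exact this
    have h4 : ((‖z c‖ ^ 2 : ℝ) : ℂ) = 1 := by
      rw [← h3, ← Complex.normSq_eq_norm_sq, Complex.normSq_eq_conj_mul_self]
    have h5 : ‖z c‖ ^ 2 = 1 := by exact_mod_cast h4
    have h6 := norm_nonneg (z c)
    nlinarith
  obtain ⟨V, hV⟩ : ∃ V : Matrix (Fin n) (Fin n) ℂ, V = Matrix.of fun i c => b c i := ⟨_, rfl⟩
  have hVdet : V.det ≠ 0 := by
    have h1 : V = (EuclideanSpace.basisFun (Fin n) ℂ).toBasis.toMatrix b := by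
      rw [hV]
      ext i c
      simp [Module.Basis.toMatrix_apply]
    rw [h1]
    have h2 := (EuclideanSpace.basisFun (Fin n) ℂ).toBasis.isUnit_det b
    rw [Module.Basis.det_apply] at h2
    exact h2.ne_zero
  have hmain : A * V = V * diagonal z := by
    ext i c
    rw [Matrix.mul_diagonal, hV, Matrix.mul_apply]
    have h1 := congrArg (fun v : EuclideanSpace ℂ (Fin n) => v i) (hz c)
    rw [hf, Matrix.toEuclideanLin_apply] at h1
    simp only [PiLp.smul_apply, smul_eq_mul, Matrix.mulVec, dotProduct] at h1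
    simp only [Matrix.of_apply]
    rw [mul_comm (b c i)]
    exact h1
  have hexp : ∀ c, Complex.exp ((Complex.arg (z c) : ℝ) * Complex.I) = z c := by
    intro c
    have h1 := Complex.norm_mul_exp_arg_mul_I (z c)
    rwa [hz1, Complex.ofReal_one, one_mul] at h1
  refine ⟨V, fun c => Complex.arg (z c), hVdet, ?_, ?_⟩
  · rw [← hA, hmain]
    simp only [hexp]
  · have h1 : trace A = ∑ c, z c := by
      have h2 : A = V * diagonal z * V⁻¹ := by
        rw [← hmain, Matrix.mul_nonsing_inv_cancel_right _ _ (isUnit_iff_ne_zero.2 hVdet)]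
      rw [h2, Matrix.trace_mul_comm, ← Matrix.mul_assoc,
        Matrix.nonsing_inv_mul _ (isUnit_iff_ne_zero.2 hVdet), Matrix.one_mul, Matrix.trace_diagonal]
    have h3 : trace A = ((trace O : ℝ) : ℂ) := by
      rw [hA]
      simp [Matrix.trace]
    rw [h3] at h1
    have h4 := congrArg Complex.re h1
    rw [Complex.ofReal_re, Complex.re_sum] at h4
    rw [h4]
    refine Finset.sum_congr rfl fun c _ => ?_
    rw [Complex.cos_arg (fun h => by have := hz1 c; rw [h] at this; simp at this), hz1, div_one]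

/-! ### Block circulant matrices with a twist -/

section circ

variable {J : Type} [Fintype J] [DecidableEq J] {t : ℕ} [NeZero t] {n : ℕ}

/-- the phase -/
def psi (τ : ZMod t) : ℝ := (τ.val : ℝ) / t

lemma psi_succ (τ : ZMod t) : psi (τ + 1) + (if τ = -1 then 1 else 0) = psi τ + 1 / t := by
  have ht : (t : ℝ) ≠ 0 := Nat.cast_ne_zero.2 (NeZero.ne t)
  unfold psi
  by_cases h : τ = -1
  · subst h
    rw [neg_add_cancel, ZMod.val_zero, if_pos rfl]
    obtain ⟨k, rfl⟩ := Nat.exists_eq_succ_of_ne_zero (NeZero.ne t)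
    rw [ZMod.val_neg_one]
    push_cast at ht ⊢
    field_simp
    ring
  · rw [if_neg h]
    have h1 : (τ + 1).val = τ.val + 1 := by
      have h2 : 1 < t ∨ t = 1 := by
        have := Nat.pos_of_ne_zero (NeZero.ne t)
        omega
      rcases h2 with h2 | h2
      · have : Fact (1 < t) := ⟨h2⟩
        have h3 : τ.val + 1 < t := by
          have h4 := ZMod.val_lt τ
          rcases Nat.lt_or_ge (τ.val + 1) t with h5 | h5
          · exact h5
          · exfalso
            apply h
            have h6 : τ.val + 1 = t := by omega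
            have h7 : τ + 1 = 0 := by
              rw [← ZMod.natCast_zmod_val τ]
              have : ((τ.val : ZMod t) + 1) = ((τ.val + 1 : ℕ) : ZMod t) := by push_cast; ring
              rw [this, h6, ZMod.natCast_self]
            exact eq_neg_of_add_eq_zero_left h7
        rw [ZMod.val_add, ZMod.val_one, Nat.mod_eq_of_lt h3]
      · subst h2
        exact absurd (Subsingleton.elim τ (-1)) h
    rw [h1]
    push_cast
    field_simp
    ring

/-- the twisted matrix at the time `τ` -/
def Ot (O : Matrix (Fin n) (Fin n) ℝ) (τ : ZMod t) : Matrix (Fin n) (Fin n) ℝ :=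
  if τ = -1 then O else 1

theorem tw_circ (A0 A1 : Matrix J J ℝ) (O : Matrix (Fin n) (Fin n) ℝ) (hO : Oᵀ * O = 1)
    (V : Matrix (Fin n) (Fin n) ℂ) (α : Fin n → ℝ) (hV : V.det ≠ 0)
    (hd : (O.map Complex.ofRealHom) * V = V * diagonal (fun c => Complex.exp (α c * Complex.I)))
    (M : Matrix ((J × ZMod t) × Fin n) ((J × ZMod t) × Fin n) ℝ)
    (hM : ∀ i τ a j τ' b, M ((i, τ), a) ((j, τ'), b) =
      (if τ' = τ then A0 i j * (1 : Matrix (Fin n) (Fin n) ℝ) a b else 0) +
      (if τ' = τ + 1 then A1 i j * Ot O τ a b else 0) +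
      (if τ = τ' + 1 then A1 j i * Ot O τ' b a else 0)) :
    ((M.det : ℝ) : ℂ) = ∏ c, ∏ q ∈ Finset.range t,
      (Matrix.of fun i j : J => (A0 i j : ℂ) +
        Complex.exp (((2 * Real.pi * q + α c) / t : ℝ) * Complex.I) * A1 i j +
        Complex.exp (-(((2 * Real.pi * q + α c) / t : ℝ) * Complex.I)) * A1 j i).det := by
  classical
  have ht : (t : ℂ) ≠ 0 := Nat.cast_ne_zero.2 (NeZero.ne t)
  obtain ⟨ph, hph⟩ : ∃ ph : Fin n → ℝ → ℂ, ph = fun c x => Complex.exp ((α c * x : ℝ) * Complex.I) :=
    ⟨_, rfl⟩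
  have ph_add : ∀ c x y, ph c (x + y) = ph c x * ph c y := by
    intro c x y
    rw [hph]
    simp only
    rw [← Complex.exp_add]
    congr 1
    push_cast
    ring
  have ph_zero : ∀ c, ph c 0 = 1 := by
    intro c
    rw [hph]
    simp
  have ph_neg : ∀ c x, ph c x * ph c (-x) = 1 := by
    intro c x
    rw [← ph_add, add_neg_cancel, ph_zero]
  have hV1 : V * V⁻¹ = 1 := Matrix.mul_nonsing_inv _ (isUnit_iff_ne_zero.2 hV)
  have hOV : ∀ (τ : ZMod t) a c, ∑ b, ((Ot O τ a b : ℝ) : ℂ) * V b c =
      ph c (if τ = -1 then 1 else 0) * V a c := by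
    intro τ a c
    unfold Ot
    split_ifs with h
    · have h1 := congrFun (congrFun hd a) c
      rw [Matrix.mul_diagonal, Matrix.mul_apply] at h1
      simp only [Matrix.map_apply, Complex.ofRealHom_eq_coe] at h1
      rw [h1, hph]
      simp only [mul_one]
      rw [mul_comm]
    · rw [ph_zero, one_mul]
      have : ∀ b, (((1 : Matrix (Fin n) (Fin n) ℝ) a b : ℝ) : ℂ) * V b c =
          if a = b then V b c else 0 := by
        intro b
        rw [Matrix.one_apply]
        split_ifs <;> simp
      rw [Finset.sum_congr rfl fun b _ => this b, Finset.sum_ite_eq]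
      simp
  have hOV' : ∀ (τ : ZMod t) a c, ∑ b, ((Ot O τ b a : ℝ) : ℂ) * V b c =
      ph c (-(if τ = -1 then 1 else 0)) * V a c := by
    intro τ a c
    have h1 : ((Ot O τ)ᵀ * Ot O τ) = 1 := by
      unfold Ot
      split_ifs
      · exact hO
      · rw [Matrix.transpose_one, Matrix.one_mul]
    have h2 : ∀ a', ∑ b, ((Ot O τ b a' : ℝ) : ℂ) * ∑ b', ((Ot O τ b b' : ℝ) : ℂ) * V b' c = V a' c := by
      intro a'
      have h3 : ∀ b', ∑ b, ((Ot O τ b a' : ℝ) : ℂ) * ((Ot O τ b b' : ℝ) : ℂ) =
          if a' = b' then 1 else 0 := by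
        intro b'
        have h4 := congrFun (congrFun h1 a') b'
        rw [Matrix.mul_apply, Matrix.one_apply] at h4
        change ∑ b, Ot O τ b a' * Ot O τ b b' = _ at h4
        have h5 : ((∑ b, Ot O τ b a' * Ot O τ b b' : ℝ) : ℂ) = ((if a' = b' then 1 else 0 : ℝ) : ℂ) :=
          congrArg (fun x : ℝ => (x : ℂ)) h4
        push_cast at h5
        rw [h5]
        split_ifs <;> simp
      calc ∑ b, ((Ot O τ b a' : ℝ) : ℂ) * ∑ b', ((Ot O τ b b' : ℝ) : ℂ) * V b' c
          = ∑ b', (∑ b, ((Ot O τ b a' : ℝ) : ℂ) * ((Ot O τ b b' : ℝ) : ℂ)) * V b' c := by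
            simp only [Finset.mul_sum, Finset.sum_mul]
            rw [Finset.sum_comm]
            refine Finset.sum_congr rfl fun b' _ => Finset.sum_congr rfl fun b _ => ?_
            ring
        _ = V a' c := by
            simp only [h3, ite_mul, one_mul, zero_mul, Finset.sum_ite_eq, Finset.mem_univ, if_true]
    have h3 := h2 a
    simp only [hOV] at h3
    have h4 : ∑ b, ((Ot O τ b a : ℝ) : ℂ) * (ph c (if τ = -1 then 1 else 0) * V b c) =
        ph c (if τ = -1 then 1 else 0) * ∑ b, ((Ot O τ b a : ℝ) : ℂ) * V b c := by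
      rw [Finset.mul_sum]
      refine Finset.sum_congr rfl fun b _ => ?_
      ring
    rw [h4] at h3
    have h5 := ph_neg c (if τ = -1 then 1 else 0)
    rw [← h3, ← mul_assoc, mul_comm (ph c (-_)), h5, one_mul]
  obtain ⟨F, hF⟩ : ∃ F : Matrix ((J × ZMod t) × Fin n) ((J × ZMod t) × Fin n) ℂ, ∀ i τ a j q c,
      F ((i, τ), a) ((j, q), c) = if i = j then ch q τ * ph c (psi τ) * V a c else 0 :=
    ⟨Matrix.of fun x y => if x.1.1 = y.1.1 then ch y.1.2 x.1.2 * ph y.2 (psi x.1.2) * V x.2 y.2
      else 0, fun _ _ _ _ _ _ => rfl⟩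
  obtain ⟨G, hG⟩ : ∃ G : Matrix ((J × ZMod t) × Fin n) ((J × ZMod t) × Fin n) ℂ, ∀ i τ a j q c,
      G ((j, q), c) ((i, τ), a) = if j = i then ch q (-τ) * ph c (-psi τ) * V⁻¹ c a else 0 :=
    ⟨Matrix.of fun y x => if y.1.1 = x.1.1 then ch y.1.2 (-x.1.2) * ph y.2 (-psi x.1.2) *
      V⁻¹ y.2 x.2 else 0, fun _ _ _ _ _ _ => rfl⟩
  have hFG : F * G = (t : ℂ) • 1 := by
    ext ⟨⟨i, τ⟩, a⟩ ⟨⟨j, τ'⟩, b⟩
    rw [Matrix.mul_apply, Fintype.sum_prod_type, Fintype.sum_prod_type]
    simp only [hF, hG]
    rw [Finset.sum_eq_single i]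
    · by_cases hij : i = j
      · subst hij
        simp only [if_true]
        have e1 : ∀ (q : ZMod t) c, ch q τ * ph c (psi τ) * V a c *
            (ch q (-τ') * ph c (-psi τ') * V⁻¹ c b) =
            ch q (τ - τ') * (ph c (psi τ) * ph c (-psi τ') * (V a c * V⁻¹ c b)) := by
          intro q c
          rw [sub_eq_add_neg, ch_add]
          ring
        simp only [e1, ← Finset.mul_sum]
        rw [← Finset.sum_mul, ch_sum]
        by_cases hab : τ = τ'
        · subst hab
          simp only [sub_self, if_true, ph_neg, one_mul]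
          have h1 := congrFun (congrFun hV1 a) b
          rw [Matrix.mul_apply] at h1
          rw [h1, Matrix.smul_apply, smul_eq_mul, Matrix.one_apply, Matrix.one_apply]
          simp only [Prod.mk.injEq, true_and]
        · have : τ - τ' ≠ 0 := sub_ne_zero.2 hab
          simp [this, hab]
      · simp [hij]
    · intro k _ hk
      simp [Ne.symm hk]
    · intro h; exact absurd (Finset.mem_univ _) h
  have hFdet : F.det ≠ 0 := by
    intro h0
    have h := congrArg Matrix.det hFG
    rw [Matrix.det_mul, h0, zero_mul, Matrix.det_smul, Matrix.det_one, mul_one] at h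
    exact pow_ne_zero _ ht h.symm
  obtain ⟨Bm, hBm⟩ : ∃ Bm : ZMod t × Fin n → Matrix J J ℂ, ∀ q c i j, Bm (q, c) i j =
      (A0 i j : ℂ) + ch q 1 * ph c (1 / t) * A1 i j + ch q (-1) * ph c (-(1 / t)) * A1 j i :=
    ⟨fun p => Matrix.of fun i j => (A0 i j : ℂ) + ch p.1 1 * ph p.2 (1 / t) * A1 i j +
      ch p.1 (-1) * ph p.2 (-(1 / t)) * A1 j i, fun _ _ _ _ => rfl⟩
  obtain ⟨Dm, hDm⟩ : ∃ Dm, Dm = (Matrix.blockDiagonal Bm).submatrix
      (Equiv.prodAssoc J (ZMod t) (Fin n)) (Equiv.prodAssoc J (ZMod t) (Fin n)) := ⟨_, rfl⟩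
  have key : (M.map Complex.ofRealHom) * F = F * Dm := by
    ext ⟨⟨i, τ⟩, a⟩ ⟨⟨j, q⟩, c⟩
    rw [Matrix.mul_apply, Matrix.mul_apply, Fintype.sum_prod_type, Fintype.sum_prod_type,
      Fintype.sum_prod_type, Fintype.sum_prod_type]
    simp only [hF, hDm, Matrix.submatrix_apply, Equiv.prodAssoc_apply, Matrix.blockDiagonal_apply,
      Matrix.map_apply, Complex.ofRealHom_eq_coe]
    rw [Finset.sum_eq_single j]
    · rw [Finset.sum_eq_single i]
      · simp only [if_true]
        have eR : ∑ x : ZMod t, ∑ y : Fin n, ch x τ * ph y (psi τ) * V a y *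
            (if (x, y) = (q, c) then Bm (x, y) i j else 0) =
            ch q τ * ph c (psi τ) * V a c * Bm (q, c) i j := by
          rw [Finset.sum_eq_single q, Finset.sum_eq_single c]
          · simp
          · intro b _ hb; simp [hb]
          · intro h; exact absurd (Finset.mem_univ _) h
          · intro b _ hb; simp [hb]
          · intro h; exact absurd (Finset.mem_univ _) h
        rw [eR]
        have e0 : ∀ (x : ZMod t) (y : Fin n), ((M ((i, τ), a) ((j, x), y) : ℝ) : ℂ) *
            (ch q x * ph c (psi x) * V y c) =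
            (if x = τ then (A0 i j : ℂ) * (ch q x * ph c (psi x)) *
              ((((1 : Matrix (Fin n) (Fin n) ℝ) a y : ℝ) : ℂ) * V y c) else 0) +
            (if x = τ + 1 then (A1 i j : ℂ) * (ch q x * ph c (psi x)) *
              (((Ot O τ a y : ℝ) : ℂ) * V y c) else 0) +
            (if x = τ + -1 then (A1 j i : ℂ) * (ch q x * ph c (psi x)) *
              (((Ot O x y a : ℝ) : ℂ) * V y c) else 0) := by
          intro x y
          rw [hM]
          have h3 : (τ = x + 1) ↔ (x = τ + -1) := by
            constructor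
            · rintro rfl; ring
            · rintro rfl; ring
          simp only [h3]
          push_cast
          rw [add_mul, add_mul]
          congr 1
          · congr 1
            · split_ifs
              · push_cast
                ring
              · simp
            · split_ifs
              · push_cast
                ring
              · simp
          · split_ifs
            · push_cast
              ring
            · simp
        simp only [e0, Finset.sum_add_distrib, Finset.sum_ite_irrel, Finset.sum_const_zero,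
          ← Finset.mul_sum]
        have h1 : ∑ y, (((1 : Matrix (Fin n) (Fin n) ℝ) a y : ℝ) : ℂ) * V y c = V a c := by
          have : ∀ b, (((1 : Matrix (Fin n) (Fin n) ℝ) a b : ℝ) : ℂ) * V b c =
              if a = b then V b c else 0 := by
            intro b
            rw [Matrix.one_apply]
            split_ifs <;> simp
          rw [Finset.sum_congr rfl fun b _ => this b, Finset.sum_ite_eq]
          simp
        simp only [h1, hOV, hOV', Finset.sum_ite_eq', Finset.mem_univ, if_true]
        rw [hBm]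
        have p1 : ph c (psi (τ + 1)) * ph c (if τ = -1 then 1 else 0) =
            ph c (psi τ) * ph c (1 / t) := by
          rw [← ph_add, psi_succ, ph_add]
        have p2 : ph c (psi (τ + -1)) * ph c (-(if τ + -1 = -1 then 1 else 0)) =
            ph c (psi τ) * ph c (-(1 / t)) := by
          rw [← ph_add, ← ph_add]
          congr 1
          have := psi_succ (τ + -1)
          rw [neg_add_cancel_right] at this
          linarith
        rw [ch_add, ch_add]
        linear_combination (A1 i j : ℂ) * ch q τ * ch q 1 * V a c * p1 +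
          (A1 j i : ℂ) * ch q τ * ch q (-1) * V a c * p2
      · intro b _ hb
        simp [Ne.symm hb]
      · intro h; exact absurd (Finset.mem_univ _) h
    · intro b _ hb
      simp [hb]
    · intro h; exact absurd (Finset.mem_univ _) h
  have hdd := congrArg Matrix.det key
  rw [Matrix.det_mul, Matrix.det_mul, mul_comm (Matrix.det F)] at hdd
  have h1 := mul_right_cancel₀ hFdet hdd
  have h2 : (M.map Complex.ofRealHom).det = ((M.det : ℝ) : ℂ) := by
    have := (RingHom.map_det Complex.ofRealHom M)
    simpa [RingHom.mapMatrix_apply] using this.symm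
  rw [h2, hDm, Matrix.det_submatrix_equiv_self, Matrix.det_blockDiagonal,
    Fintype.prod_prod_type_right] at h1
  rw [h1]
  refine Finset.prod_congr rfl fun c _ => ?_
  symm
  refine Finset.prod_bij (fun (q : ℕ) _ => (q : ZMod t)) (fun _ _ => Finset.mem_univ _) ?_ ?_ ?_
  · intro a ha b hb hab
    rw [Finset.mem_range] at ha hb
    have := (ZMod.natCast_eq_natCast_iff' a b t).1 hab
    rwa [Nat.mod_eq_of_lt ha, Nat.mod_eq_of_lt hb] at this
  · intro q _
    exact ⟨q.val, Finset.mem_range.2 (ZMod.val_lt q), ZMod.natCast_zmod_val q⟩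
  · intro q _
    congr 1
    ext i j
    rw [hBm, ch_one, ch_neg_one, hph, Matrix.of_apply]
    simp only
    rw [← Complex.exp_add, ← Complex.exp_add]
    congr 3
    · congr 1
      push_cast
      ring
    · push_cast
      ring

end circ

end

end Pool.Agent.H991.DC
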