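import Mathlib
import Pool.Agent.H991.DC.TDet

/-!
# The determinant of the quadratic form with a twist, part 2
-/

open Matrix
open Pool.Agent.N899.BB Pool.Agent.N899.BB.Circ
open Pool.Agent.Y14.Wilson Pool.Agent.N899.BB.Alg Pool.Agent.N899.BB.Sysr

namespace Pool.Agent.H991.DC

noncomputable section

variable {N n : ℕ} {G : Subgroup (UU N)} (BL : LieBasis G n) {Y : Cx} (R : Rt Y) (t : ℕ) [NeZero t]

/-- the twist -/
def kp (P : G) : (Sysr.Q R t).P → G := fun f => Sum.elim (fun _ : Y.F × ZMod t => (1 : G))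
    (fun f : Y.E × ZMod t => if f.2 = (-1 : ZMod t) ∧ R.tree f.1 = false then P else 1) f

lemma kp_bp (P : G) (w : (Sysr.Q R t).L) : kp R t P ((Sysr.Q R t).bp w) = 1 := by
  obtain ⟨w, hw⟩ := w
  rcases w with ⟨e, τ⟩ | ⟨v, τ⟩
  · rfl
  · refine if_neg fun h => ?_
    have h2 : R.tree (e0 R v (ne_root R t hw)) = false := h.2
    rw [e0_tree] at h2
    exact absurd h2 (by simp)

/-- indicator -/
def ind {Y : Cx} {t : ℕ} (x y : PE Y t) : ℝ := if x = y then 1 else 0

lemma DT_eq (κ : (Sysr.Q R t).P → G) (p : (Sysr.Q R t).P) (c : Fin n) (w : (Sysr.Q R t).L)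
    (a : Fin n) : DT (Sysr.Q R t) κ BL p c (w, a) =
      (ind (Y := Y) (t := t) ((Y.prod (cyc t)).f1 p) w.1 + ind (Y := Y) (t := t) ((Y.prod (cyc t)).f2 p) w.1 -
      ind (Y := Y) (t := t) ((Y.prod (cyc t)).f4 p) w.1) * (if c = a then 1 else 0) -
      ind (Y := Y) (t := t) ((Y.prod (cyc t)).f3 p) w.1 * Ado BL (κ p) c a := by
  have h : ∀ (e : (Y.prod (cyc t)).E) (w : LL R t), (if opt R t e = some w then (1 : ℝ) else 0) =
      ind (Y := Y) (t := t) e w.1 := by
    intro e w
    simp only [opt_eq]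
    rfl
  have h1 := h ((Y.prod (cyc t)).f1 p) w
  have h2 := h ((Y.prod (cyc t)).f2 p) w
  have h3 := h ((Y.prod (cyc t)).f3 p) w
  have h4 := h ((Y.prod (cyc t)).f4 p) w
  rw [← h1, ← h2, ← h3, ← h4]
  rfl

/-- faces in the slices -/
def fL (f : Y.F) (s : ZMod t) : (Sysr.Q R t).P :=
  (Sum.inl (f, s) : (Y.F × ZMod t) ⊕ (Y.E × ZMod t))

/-- faces between the slices -/
def fR (e : Y.E) (s : ZMod t) : (Sysr.Q R t).P :=
  (Sum.inr (e, s) : (Y.F × ZMod t) ⊕ (Y.E × ZMod t))

/-- the free links -/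
def wL (i : J R) (τ : ZMod t) : (Sysr.Q R t).L := sig R t (i, τ)

lemma wL_val (i : J R) (τ : ZMod t) : (wL R t i τ).1 = se R t i τ := sig_val R t i τ

lemma Ado_kpL (P : G) (f : Y.F) (s : ZMod t) : Ado BL (kp R t P (fL R t f s)) = 1 :=
  Ado_one BL

lemma Ado_kpR (P : G) (e : Y.E) (s : ZMod t) (h : R.tree e = false) :
    Ado BL (kp R t P (fR R t e s)) = Ot (Ado BL P) s := by
  have h1 : kp R t P (fR R t e s) = if s = (-1 : ZMod t) ∧ R.tree e = false then P else 1 := rfl
  rw [h1]
  unfold Ot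
  by_cases hs : s = -1
  · rw [if_pos ⟨hs, h⟩, if_pos hs]
  · rw [if_neg (fun h => hs h.1), if_neg hs, Ado_one]

lemma DT_inl (P : G) (f : Y.F) (s : ZMod t) (c : Fin n) (i : J R) (τ : ZMod t) (a : Fin n) :
    DT (Sysr.Q R t) (kp R t P) BL (fL R t f s) c (wL R t i τ, a) =
      if s = τ then B R f i * (if c = a then 1 else 0) else 0 := by
  have h := D_inl R t f s τ i
  have h2 := DT_eq BL R t (kp R t P) (fL R t f s) c (wL R t i τ) a
  rw [wL_val, Ado_kpL, Matrix.one_apply] at h2
  have h4 : DP Y t (Sum.inl (f, s)) (se R t i τ) =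
      ind (Y := Y) (t := t) ((Y.prod (cyc t)).f1 (fL R t f s)) (se R t i τ) +
      ind (Y := Y) (t := t) ((Y.prod (cyc t)).f2 (fL R t f s)) (se R t i τ) -
      ind (Y := Y) (t := t) ((Y.prod (cyc t)).f3 (fL R t f s)) (se R t i τ) -
      ind (Y := Y) (t := t) ((Y.prod (cyc t)).f4 (fL R t f s)) (se R t i τ) := rfl
  rw [h2]
  have h5 : ∀ x y z w d : ℝ, (x + y - w) * d - z * d = (x + y - z - w) * d := by intros; ring
  rw [h5, ← h4, h]
  split_ifs <;> simp

lemma DT_inr (P : G) (e : Y.E) (s : ZMod t) (c : Fin n) (i : J R) (τ : ZMod t) (a : Fin n) :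
    DT (Sysr.Q R t) (kp R t P) BL (fR R t e s) c (wL R t i τ, a) =
      (if s = τ then C0 R e i * (if c = a then 1 else 0) else 0) +
        (if s + 1 = τ then C1 R e i * Ot (Ado BL P) s c a else 0) := by
  have h2 := DT_eq BL R t (kp R t P) (fR R t e s) c (wL R t i τ) a
  rw [wL_val] at h2
  rw [h2]
  have e1 : ind (Y := Y) (t := t) ((Y.prod (cyc t)).f1 (fR R t e s)) (se R t i τ) =
    ind (Sum.inl (e, s) : PE Y t) (se R t i τ) := rfl
  have e2 : ind (Y := Y) (t := t) ((Y.prod (cyc t)).f2 (fR R t e s)) (se R t i τ) =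
    ind (Sum.inr (Y.tgt e, s) : PE Y t) (se R t i τ) := rfl
  have e3 : ind (Y := Y) (t := t) ((Y.prod (cyc t)).f3 (fR R t e s)) (se R t i τ) =
    ind (Sum.inl (e, s + 1) : PE Y t) (se R t i τ) := rfl
  have e4 : ind (Y := Y) (t := t) ((Y.prod (cyc t)).f4 (fR R t e s)) (se R t i τ) =
    ind (Sum.inr (Y.src e, s) : PE Y t) (se R t i τ) := rfl
  rw [e1, e2, e3, e4]
  rcases i with e' | v
  · simp only [ind, se, C0, C1, Sum.elim_inl, Sum.inl.injEq, Prod.mk.injEq, reduceCtorEq, if_false]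
    by_cases h1 : e = e'.1
    · have h3 : R.tree e = false := by rw [h1]; exact e'.2
      rw [Ado_kpR BL R t P e s h3]
      simp only [h1, true_and, if_true]
      split_ifs <;> ring
    · simp only [h1, false_and, if_false]
      norm_num
  · by_cases h2 : s = τ <;> simp [ind, se, C0, C1, Cx.d0, h2]

theorem key' (τ τ' : ZMod t) (x x' : ℝ) (y y' : ZMod t → ℝ) :
    ∑ s : ZMod t, ((if s = τ then x else 0) + (if s + 1 = τ then y s else 0)) *
      ((if s = τ' then x' else 0) + (if s + 1 = τ' then y' s else 0)) =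
    (if τ' = τ then x * x' + y (τ - 1) * y' (τ - 1) else 0) + (if τ' = τ + 1 then x * y' τ else 0) +
      (if τ = τ' + 1 then x' * y τ' else 0) := by
  have h1 : ∑ s : ZMod t, (if s = τ then x else 0) * (if s = τ' then x' else 0) =
      if τ' = τ then x * x' else 0 := by
    rw [Finset.sum_eq_single τ (fun s _ hs => by simp [hs]) (by simp)]
    simp [eq_comm]
  have h2 : ∑ s : ZMod t, (if s = τ then x else 0) * (if s + 1 = τ' then y' s else 0) =
      if τ' = τ + 1 then x * y' τ else 0 := by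
    rw [Finset.sum_eq_single τ (fun s _ hs => by simp [hs]) (by simp)]
    simp [eq_comm]
  have h3 : ∑ s : ZMod t, (if s + 1 = τ then y s else 0) * (if s = τ' then x' else 0) =
      if τ = τ' + 1 then x' * y τ' else 0 := by
    rw [Finset.sum_eq_single τ' (fun s _ hs => by simp [hs]) (by simp)]
    simp [eq_comm, mul_comm]
  have h4 : ∑ s : ZMod t, (if s + 1 = τ then y s else 0) * (if s + 1 = τ' then y' s else 0) =
      if τ' = τ then y (τ - 1) * y' (τ - 1) else 0 := by
    rw [Finset.sum_eq_single (τ - 1) (fun s _ hs => by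
      have : s + 1 ≠ τ := fun h => hs (by rw [← h]; ring)
      simp [this]) (by simp)]
    simp [eq_comm]
  simp_rw [add_mul, mul_add, Finset.sum_add_distrib]
  rw [h1, h2, h3, h4]
  split_ifs <;> ring

omit [NeZero t] in
lemma Ot_orth (P : G) (s : ZMod t) (a b : Fin n) :
    ∑ c, Ot (Ado BL P) s c a * Ot (Ado BL P) s c b = if a = b then 1 else 0 := by
  have h1 : ((Ot (Ado BL P) s)ᵀ * Ot (Ado BL P) s) = 1 := by
    unfold Ot
    split_ifs
    · exact Ado_orth BL P
    · rw [Matrix.transpose_one, Matrix.one_mul]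
  have h4 := congrFun (congrFun h1 a) b
  rw [Matrix.mul_apply, Matrix.one_apply] at h4
  exact h4

lemma sumP (g : (Sysr.Q R t).P → ℝ) : ∑ p, g p = ∑ f : Y.F, ∑ s : ZMod t, g (fL R t f s) +
    ∑ e : Y.E, ∑ s : ZMod t, g (fR R t e s) :=
  (Fintype.sum_sum_type (α₁ := Y.F × ZMod t) (α₂ := Y.E × ZMod t) (f := g)).trans
    (congrArg₂ (· + ·) (Fintype.sum_prod_type _) (Fintype.sum_prod_type _))

theorem tH_eq' (P : G) (i : J R) (τ : ZMod t) (a : Fin n) (j : J R) (τ' : ZMod t) (b : Fin n) :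
    tH (Sysr.Q R t) (kp R t P) BL (fun _ => 1) (wL R t i τ, a) (wL R t j τ', b) =
      (if τ' = τ then A0 R i j * (1 : Matrix (Fin n) (Fin n) ℝ) a b else 0) +
      (if τ' = τ + 1 then A1 R i j * Ot (Ado BL P) τ a b else 0) +
      (if τ = τ' + 1 then A1 R j i * Ot (Ado BL P) τ' b a else 0) := by
  unfold tH
  rw [sumP]
  simp only [DT_inl, DT_inr, one_mul]
  have h1 : ∀ f : Y.F, ∑ s : ZMod t, ∑ c : Fin n,
      (if s = τ then B R f i * (if c = a then 1 else 0) else 0) *
      (if s = τ' then B R f j * (if c = b then 1 else 0) else 0) =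
      if τ' = τ then B R f i * B R f j * (if a = b then 1 else 0) else 0 := by
    intro f
    rw [Finset.sum_eq_single τ (fun s _ hs => by simp [hs]) (by simp),
      Finset.sum_eq_single a (fun c _ hc => by simp [hc]) (by simp)]
    simp only [if_true, mul_one]
    by_cases h : τ' = τ
    · rw [if_pos h, if_pos h.symm]
      ring
    · rw [if_neg h, if_neg (Ne.symm h)]
      ring
  have h2 : ∀ e : Y.E, ∑ s : ZMod t, ∑ c : Fin n,
      ((if s = τ then C0 R e i * (if c = a then 1 else 0) else 0) +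
        (if s + 1 = τ then C1 R e i * Ot (Ado BL P) s c a else 0)) *
      ((if s = τ' then C0 R e j * (if c = b then 1 else 0) else 0) +
        (if s + 1 = τ' then C1 R e j * Ot (Ado BL P) s c b else 0)) =
      (if τ' = τ then (C0 R e i * C0 R e j + C1 R e i * C1 R e j) * (if a = b then 1 else 0)
        else 0) +
      (if τ' = τ + 1 then C0 R e i * C1 R e j * Ot (Ado BL P) τ a b else 0) +
      (if τ = τ' + 1 then C0 R e j * C1 R e i * Ot (Ado BL P) τ' b a else 0) := by
    intro e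
    rw [Finset.sum_comm]
    simp_rw [key', Finset.sum_add_distrib]
    congr 1
    · congr 1
      · rw [Finset.sum_ite_irrel, Finset.sum_const_zero]
        by_cases h : τ' = τ
        · rw [if_pos h, if_pos h, Finset.sum_add_distrib, add_mul]
          congr 1
          · rw [Finset.sum_eq_single a (fun c _ hc => by simp [hc]) (by simp)]
            simp only [if_true]
            ring
          · rw [← Ot_orth BL t P (τ - 1) a b, Finset.mul_sum]
            exact Finset.sum_congr rfl fun c _ => by ring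
        · rw [if_neg h, if_neg h]
      · rw [Finset.sum_ite_irrel, Finset.sum_const_zero]
        by_cases h : τ' = τ + 1
        · rw [if_pos h, if_pos h, Finset.sum_eq_single a (fun c _ hc => by simp [hc]) (by simp)]
          simp only [if_true]
          ring
        · rw [if_neg h, if_neg h]
    · rw [Finset.sum_ite_irrel, Finset.sum_const_zero]
      by_cases h : τ = τ' + 1
      · rw [if_pos h, if_pos h, Finset.sum_eq_single b (fun c _ hc => by simp [hc]) (by simp)]
        simp only [if_true]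
        ring
      · rw [if_neg h, if_neg h]
  rw [Finset.sum_congr rfl fun f _ => h1 f, Finset.sum_congr rfl fun e _ => h2 e]
  have a0 : A0 R i j = ∑ f, B R f i * B R f j + ∑ e, (C0 R e i * C0 R e j + C1 R e i * C1 R e j) := by
    rw [Finset.sum_add_distrib, ← add_assoc]
    rfl
  have a1 : ∀ i j, A1 R i j = ∑ e, C0 R e i * C1 R e j := fun _ _ => rfl
  rw [a0, a1, a1, Matrix.one_apply]
  simp only [Finset.sum_add_distrib, Finset.sum_ite_irrel, Finset.sum_const_zero]
  simp only [← Finset.sum_mul, Finset.sum_add_distrib]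
  split_ifs <;> ring

/-- the free links -/
def eqQ : J R × ZMod t ≃ (Sysr.Q R t).L := sig R t

theorem tdet (P : G) : ∃ α : Fin n → ℝ, ∑ c, Real.cos (α c) = trace (Ado BL P) ∧
    ∀ g : Polynomial ℝ, (∀ x : ℝ, g.eval x * (x • (1 : Matrix Y.V Y.V ℝ) + Y.L0).det =
      x * (x • (1 : Matrix Y.E Y.E ℝ) + Y.L1).det) →
    (tH (Sysr.Q R t) (kp R t P) BL fun _ => 1).det =
      ∏ c, ∏ q ∈ Finset.range t, g.eval (2 - 2 * Real.cos ((2 * Real.pi * q + α c) / t)) := by
  obtain ⟨V, α, hV, hd, htr⟩ := orth_diag (Ado BL P) (Ado_orth BL P)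
  refine ⟨α, htr, fun g hg => ?_⟩
  have h1 := tw_circ (A0 R) (A1 R) (Ado BL P) (Ado_orth BL P) V α hV hd
    ((tH (Sysr.Q R t) (kp R t P) BL fun _ => 1).submatrix
      ((eqQ R t).prodCongr (Equiv.refl (Fin n))) ((eqQ R t).prodCongr (Equiv.refl (Fin n))))
    (fun i τ a j τ' b => tH_eq' BL R t P i τ a j τ' b)
  rw [Matrix.det_submatrix_equiv_self] at h1
  have h2 : (((tH (Sysr.Q R t) (kp R t P) BL fun _ => 1).det : ℝ) : ℂ) =
      ((∏ c, ∏ q ∈ Finset.range t, g.eval (2 - 2 * Real.cos ((2 * Real.pi * q + α c) / t)) : ℝ) :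
        ℂ) := by
    rw [h1, Complex.ofReal_prod]
    refine Finset.prod_congr rfl fun c _ => ?_
    rw [Complex.ofReal_prod]
    refine Finset.prod_congr rfl fun q _ => ?_
    rw [← point' R g hg ((2 * Real.pi * q + α c) / t), Mh_of]
    rw [← Complex.exp_add, neg_add_cancel, Complex.exp_zero]
  exact_mod_cast h2

end

end Pool.Agent.H991.DC
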