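import Mathlib
import Pool.Agent.H991.DC.Ad
import Pool.Graph.R_pool_sql_team_seeded_63374d34.N899.BB.Mom
import Pool.Graph.R_pool_sql_team_seeded_63374d34.N899.BB.Ibp

/-!
# Moments and integration by parts for systems with a twist
-/

open MeasureTheory Matrix Filter Topology
open scoped Matrix.Norms.Frobenius ContDiff
open Pool.Agent.Y14.Wilson Pool.Agent.N899.BB Pool.Agent.N899.BB.Mom

namespace Pool.Agent.H991.DC

noncomputable section

section mom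

variable {N : ℕ} {G : Subgroup (UU N)} (Q : Sys) (κ : Q.P → G)

lemma tS_nonneg {x : ℝ} (hx : 0 ≤ x) (U : Q.L → G) : 0 ≤ tS Q κ (Q.cp x) U :=
  Finset.sum_nonneg fun p _ => mul_nonneg (cp_nonneg Q hx p) (we_nonneg _)

lemma tplq_le {r : ℝ} (hr : 0 ≤ r) (U : Q.L → G) (hU : ∀ w, ‖mt (U w) - 1‖ ≤ r) (p : Q.P) :
    ‖mt (tplq Q κ U p) - 1‖ ≤ 4 * r := by
  unfold tplq
  have h := fun i => Mom.ev_le Q hr U hU (Q.wd p i)
  refine (Mom.norm_mul_sub _ _).trans ?_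
  have a1 := Mom.norm_mul_sub (ev U (Q.wd p 0) * ev U (Q.wd p 1))
    (κ p * ev U (Q.wd p 2) * (κ p)⁻¹)⁻¹
  have a2 := Mom.norm_mul_sub (ev U (Q.wd p 0)) (ev U (Q.wd p 1))
  rw [Mom.norm_inv_sub] at a1 ⊢
  rw [norm_conj_sub] at a1
  have b0 := h 0
  have b1 := h 1
  have b2 := h 2
  have b3 := h 3
  linarith

lemma tS_le {x : ℝ} (hx0 : 0 ≤ x) (hx : x ≤ 1) {r : ℝ} (hr : 0 ≤ r) {m : ℕ}
    (hm : Fintype.card Q.P ≤ m)
    (U : Q.L → G) (hU : ∀ w, ‖mt (U w) - 1‖ ≤ r) : tS Q κ (Q.cp x) U ≤ 8 * m * r ^ 2 := by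
  unfold tS
  have h : ∀ p : Q.P, Q.cp x p * we (tplq Q κ U p) ≤ 8 * r ^ 2 := by
    intro p
    have h1 := tplq_le Q κ hr U hU p
    have h2 := Mom.norm_sub_sq (tplq Q κ U p)
    have h3 := norm_nonneg (mt (tplq Q κ U p) - 1)
    have h4 : we (tplq Q κ U p) ≤ 8 * r ^ 2 := by nlinarith
    exact (mul_le_of_le_one_left (we_nonneg _) (cp_le Q hx p)).trans h4
  refine (Finset.sum_le_sum fun p _ => h p).trans ?_
  rw [Finset.sum_const, Finset.card_univ, nsmul_eq_mul]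
  have h5 : ((Fintype.card Q.P : ℕ) : ℝ) ≤ m := by exact_mod_cast hm
  have h6 : 0 ≤ 8 * r ^ 2 := by positivity
  nlinarith

lemma tplq_cont (p : Q.P) : Continuous fun U : Q.L → G => tplq Q κ U p := by
  unfold tplq
  exact (((Mom.ev_cont Q _).mul (Mom.ev_cont Q _)).mul
    ((continuous_const.mul (Mom.ev_cont Q _)).mul continuous_const).inv).mul (Mom.ev_cont Q _).inv

lemma tS_cont (c : Q.P → ℝ) : Continuous (tS Q κ c : (Q.L → G) → ℝ) := by
  unfold tS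
  exact continuous_finsetSum _ fun p _ => continuous_const.mul (Mom.we_cont.comp (tplq_cont Q κ p))

variable (hκ : ∀ w, κ (Q.bp w) = 1)

include hκ in
lemma tplq_bp (U : Q.L → G) (w : Q.L) : tplq Q κ U (Q.bp w) = Q.plq U (Q.bp w) := by
  unfold tplq Sys.plq
  rw [hκ]
  simp

include hκ in
lemma tbasic_le {x : ℝ} (hx : 0 ≤ x) (U : Q.L → G) :
    ∑ w, we (Q.plq U (Q.bp w)) ≤ tS Q κ (Q.cp x) U := by
  unfold tS
  have e : ∀ w, we (Q.plq U (Q.bp w)) = we (tplq Q κ U (Q.bp w)) := fun w => by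
    rw [tplq_bp Q κ hκ]
  rw [Finset.sum_congr rfl fun w _ => e w]
  rw [← Finset.sum_image (s := Finset.univ) (g := Q.bp) (f := fun p => we (tplq Q κ U p))
    (fun a _ b _ h => Q.bp_inj h)]
  calc ∑ p ∈ Finset.univ.image Q.bp, we (tplq Q κ U p) =
      ∑ p ∈ Finset.univ.image Q.bp, Q.cp x p * we (tplq Q κ U p) := by
        refine Finset.sum_congr rfl fun p hp => ?_
        obtain ⟨w, -, hw⟩ := Finset.mem_image.1 hp
        have : Q.cp x p = 1 := if_pos ⟨w, hw⟩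
        rw [this, one_mul]
    _ ≤ _ := Finset.sum_le_sum_of_subset_of_nonneg (Finset.subset_univ _) fun p _ _ =>
        mul_nonneg (cp_nonneg Q hx p) (we_nonneg _)

include hκ in
lemma tr_sq {x : ℝ} (hx : 0 ≤ x) {m : ℕ} (hm : Fintype.card Q.L ≤ m) (U : Q.L → G) :
    Q.r U ^ 2 ≤ 2 * (m : ℝ) ^ 3 * tS Q κ (Q.cp x) U := by
  set T := ∑ w', ‖mt (Q.plq U (Q.bp w')) - 1‖ with hT
  have hT0 : 0 ≤ T := Finset.sum_nonneg fun _ _ => norm_nonneg _
  have hm' : ((Fintype.card Q.L : ℕ) : ℝ) ≤ m := by exact_mod_cast hm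
  have hr0 : 0 ≤ Q.r U := Finset.sum_nonneg fun _ _ => norm_nonneg _
  have h1 : Q.r U ≤ m * T := by
    unfold Sys.r
    calc ∑ w, ‖mt (U w) - 1‖ ≤ ∑ _w : Q.L, T := Finset.sum_le_sum fun w _ => link_le Q U w
      _ = Fintype.card Q.L * T := by rw [Finset.sum_const, Finset.card_univ, nsmul_eq_mul]
      _ ≤ m * T := mul_le_mul_of_nonneg_right hm' hT0
  have h2 : T ^ 2 ≤ m * ∑ w', ‖mt (Q.plq U (Q.bp w')) - 1‖ ^ 2 := by
    refine (sq_sum_le_card_mul_sum_sq (s := (Finset.univ : Finset Q.L))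
      (f := fun w => ‖mt (Q.plq U (Q.bp w)) - 1‖)).trans ?_
    rw [Finset.card_univ]
    exact mul_le_mul_of_nonneg_right hm' (Finset.sum_nonneg fun _ _ => sq_nonneg _)
  have h3 : ∑ w', ‖mt (Q.plq U (Q.bp w')) - 1‖ ^ 2 ≤ 2 * tS Q κ (Q.cp x) U := by
    simp only [Mom.norm_sub_sq]
    rw [← Finset.mul_sum]
    exact mul_le_mul_of_nonneg_left (tbasic_le Q κ hκ hx U) (by norm_num)
  have h4 : (0:ℝ) ≤ m := Nat.cast_nonneg m
  calc Q.r U ^ 2 ≤ (m * T) ^ 2 := pow_le_pow_left₀ hr0 h1 2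
    _ = (m:ℝ) ^ 2 * T ^ 2 := by ring
    _ ≤ (m:ℝ) ^ 2 * (m * (2 * tS Q κ (Q.cp x) U)) :=
        mul_le_mul_of_nonneg_left (h2.trans (mul_le_mul_of_nonneg_left h3 h4)) (by positivity)
    _ = _ := by ring

/-! ### The partition function -/

lemma tZ_lower [MeasurableSpace G] [BorelSpace G] (μ : Measure G) [IsProbabilityMeasure μ]
    (c : ℝ) (hc : 0 < c) (D : ℕ)
    (hcD : ∀ r : ℝ, 0 < r → r ≤ 1 → c * r ^ D ≤ (μ {g : G | ‖mt g - 1‖ ≤ r}).toReal)
    (m : ℕ) (hm1 : 1 ≤ m) (hmL : Fintype.card Q.L ≤ m) (hmP : Fintype.card Q.P ≤ m)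
    {x : ℝ} (hx0 : 0 ≤ x) (hx1 : x ≤ 1) (β : ℝ) (hβ : 3 ≤ β) :
    Real.exp (-((8 + Real.log (min c 1)⁻¹ + D) * (m : ℝ) * Real.log β)) ≤
      ∫ U : Q.L → G, Real.exp (-(β * tS Q κ (Q.cp x) U)) ∂(Measure.pi fun _ => μ) := by
  haveI : SecondCountableTopology G := Pool.Agent.Y421.AF.scG
  set c0 := min c 1 with hc0
  have hc0p : 0 < c0 := lt_min hc one_pos
  have hc01 : c0 ≤ 1 := min_le_right _ _
  have hβ0 : 0 < β := by linarith
  set r := (Real.sqrt β)⁻¹ with hr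
  have hsq : 0 < Real.sqrt β := Real.sqrt_pos.2 hβ0
  have hr0 : 0 < r := inv_pos.2 hsq
  have hr1 : r ≤ 1 := inv_le_one_of_one_le₀ (Real.one_le_sqrt.2 (by linarith))
  have hr2 : r ^ 2 = 1 / β := by rw [hr, inv_pow, Real.sq_sqrt hβ0.le, one_div]
  have hlog := Pool.Agent.Y421.AF.one_le_log hβ
  have hlr : Real.log r = -(1 / 2 * Real.log β) := by
    rw [hr, Real.log_inv, Real.log_sqrt hβ0.le]; ring
  set b := {g : G | ‖mt g - 1‖ ≤ r} with hb
  have hbm : MeasurableSet b :=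
    (isClosed_le (Mom.mt_cont.sub continuous_const).norm continuous_const).measurableSet
  set B : Set (Q.L → G) := Set.pi Set.univ fun _ => b with hB
  have hBm : MeasurableSet B := MeasurableSet.univ_pi fun _ => hbm
  have hcont : Continuous fun U : Q.L → G => Real.exp (-(β * tS Q κ (Q.cp x) U)) :=
    Real.continuous_exp.comp (continuous_const.mul (tS_cont Q κ _)).neg
  have hint : Integrable (fun U : Q.L → G => Real.exp (-(β * tS Q κ (Q.cp x) U)))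
      (Measure.pi fun _ => μ) := by
    refine Integrable.mono' (integrable_const (1 : ℝ)) hcont.aestronglyMeasurable
      (Filter.Eventually.of_forall fun U => ?_)
    rw [Real.norm_eq_abs, Real.abs_exp]
    refine Real.exp_le_one_iff.2 ?_
    have := tS_nonneg Q κ hx0 U
    nlinarith
  have h1 : ∫ U : Q.L → G, B.indicator (fun _ => Real.exp (-(8 * (m : ℝ)))) U
      ∂(Measure.pi fun _ => μ) ≤
      ∫ U : Q.L → G, Real.exp (-(β * tS Q κ (Q.cp x) U)) ∂(Measure.pi fun _ => μ) := by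
    refine integral_mono ((integrable_const _).indicator hBm) hint fun U => ?_
    by_cases hU : U ∈ B
    · rw [Set.indicator_of_mem hU]
      refine Real.exp_le_exp.2 ?_
      have h2 := tS_le Q κ hx0 hx1 hr0.le hmP U (fun w => hU w (Set.mem_univ w))
      rw [hr2] at h2
      have h3 : β * tS Q κ (Q.cp x) U ≤ β * (8 * (m : ℝ) * (1 / β)) :=
        mul_le_mul_of_nonneg_left h2 hβ0.le
      have h4 : β * (8 * (m : ℝ) * (1 / β)) = 8 * (m : ℝ) := by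
        field_simp
      linarith
    · rw [Set.indicator_of_notMem hU]
      exact (Real.exp_pos _).le
  refine le_trans ?_ h1
  rw [integral_indicator_const _ hBm, smul_eq_mul]
  have h5 : (c0 * r ^ D) ^ m ≤ (Measure.pi fun _ : Q.L => μ).real B := by
    rw [Measure.real, hB, Measure.pi_pi, Finset.prod_const, Finset.card_univ, ENNReal.toReal_pow]
    have h6 : c0 * r ^ D ≤ (μ b).toReal :=
      (mul_le_mul_of_nonneg_right (min_le_left _ _) (by positivity)).trans (hcD r hr0 hr1)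
    have h7 : c0 * r ^ D ≤ 1 := by
      have := pow_le_one₀ hr0.le hr1 (n := D)
      nlinarith [pow_pos hr0 D]
    calc (c0 * r ^ D) ^ m ≤ (c0 * r ^ D) ^ (Fintype.card Q.L) :=
          pow_le_pow_of_le_one (by positivity) h7 hmL
      _ ≤ _ := pow_le_pow_left₀ (by positivity) h6 _
  refine le_trans ?_ (mul_le_mul_of_nonneg_right h5 (Real.exp_pos _).le)
  have h9 : c0 * r ^ D = Real.exp (Real.log c0 + D * Real.log r) := by
    rw [Real.exp_add, Real.exp_log hc0p, mul_comm (D : ℝ), Real.exp_mul, Real.exp_log hr0,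
      Real.rpow_natCast]
  rw [h9, ← Real.exp_nat_mul, ← Real.exp_add]
  refine Real.exp_le_exp.2 ?_
  rw [hlr, Real.log_inv]
  have hlc : Real.log c0 ≤ 0 := Real.log_nonpos hc0p.le hc01
  have hL : 0 < (m : ℝ) := by exact_mod_cast hm1
  have hD : (0:ℝ) ≤ D := Nat.cast_nonneg D
  nlinarith [mul_nonneg (mul_nonneg hL.le (neg_nonneg.2 hlc)) (sub_nonneg.2 hlog),
    mul_nonneg hL.le (sub_nonneg.2 hlog), mul_nonneg (mul_nonneg hL.le hD) (by linarith : 0 ≤ Real.log β)]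

end mom

theorem t_mom {N : ℕ} (G : Subgroup (UU N)) (hG : IsClosed (G : Set (UU N)))
    [MeasurableSpace G] [BorelSpace G] (μ : Measure G) [IsProbabilityMeasure μ] [μ.IsHaarMeasure] :
    ∃ C : ℝ, 1 ≤ C ∧ ∀ (Q : Sys) (κ : Q.P → G), (∀ w, κ (Q.bp w) = 1) → ∀ (m : ℕ), 1 ≤ m →
      Fintype.card Q.L ≤ m → Fintype.card Q.P ≤ m →
      ∀ x : ℝ, 0 ≤ x → x ≤ 1 → ∀ β : ℝ, 3 ≤ β → ∀ p : ℕ, p ≤ 8 →
      tE Q κ μ (Q.cp x) β (fun U => Q.r U ^ p) ≤
        Real.sqrt (C * (m : ℝ) ^ 6 * Real.log β / β) ^ p := by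
  obtain ⟨c, hc, D, hcD⟩ := Pool.Agent.Y614.AF.af_ball G hG μ
  set C1 := 8 + Real.log (min c 1)⁻¹ + (D : ℝ) with hC1
  have hc0p : 0 < min c 1 := lt_min hc one_pos
  have hlc : 0 ≤ Real.log (min c 1)⁻¹ := by
    rw [Real.log_inv]
    have := Real.log_nonpos hc0p.le (min_le_right _ _)
    linarith
  have hC1' : 8 ≤ C1 := by
    have : (0 : ℝ) ≤ D := Nat.cast_nonneg D
    rw [hC1]; linarith
  refine ⟨36 * C1, by linarith, fun Q κ hκ m hm1 hmL hmP x hx0 hx1 β hβ p hp => ?_⟩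
  have hlog := Pool.Agent.Y421.AF.one_le_log hβ
  have hmp : (1 : ℝ) ≤ m := by exact_mod_cast hm1
  have hm : 1 ≤ C1 * (m : ℝ) * Real.log β := by
    have h1 : 1 ≤ C1 * (m : ℝ) := by nlinarith
    nlinarith
  have hβ0 : 0 < β := by linarith
  have h := Pool.Agent.Y421.AF.abs_mom (Measure.pi fun _ : Q.L => μ)
    (tS Q κ (Q.cp x) : (Q.L → G) → ℝ)
    Q.r β (2 * (m : ℝ) ^ 3) (C1 * (m : ℝ) * Real.log β) hβ0 (by positivity) hm
    (tS_nonneg Q κ hx0) (fun U => Finset.sum_nonneg fun w _ => norm_nonneg _)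
    (tr_sq Q κ hκ hx0 hmL)
    (tZ_lower Q κ μ c hc D hcD m hm1 hmL hmP hx0 hx1 β hβ) p hp
  refine h.trans (pow_le_pow_left₀ (Real.sqrt_nonneg _) (Real.sqrt_le_sqrt ?_) p)
  refine div_le_div_of_nonneg_right ?_ hβ0.le
  have h2 : (m:ℝ) ^ 4 ≤ (m:ℝ) ^ 6 := pow_le_pow_right₀ hmp (by norm_num)
  have h3 : 18 * (2 * (m : ℝ) ^ 3) * (C1 * (m : ℝ) * Real.log β) = 36 * C1 * (m:ℝ) ^ 4 * Real.log β := by ring
  rw [h3]
  have h4 : 0 ≤ 36 * C1 := by linarith
  exact mul_le_mul_of_nonneg_right (mul_le_mul_of_nonneg_left h2 h4) (by linarith)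

/-! ### Integration by parts -/

section ibp

open Pool.Agent.H906R3 Pool.Agent.N899.BB.Ibp

variable {N n : ℕ} {G : Subgroup (UU N)}

lemma sm_tplq (B : LieBasis G n) (Q : Sys) (κ : Q.P → G) (p : Q.P) :
    YM.SmM (dat B) (fun U : Q.L → G => 1 - mt (tplq Q κ U p)) := by
  unfold tplq
  simp only [_root_.mul_inv_rev, inv_inv, Ibp.mt_mul]
  exact (YM.SmM.const 1).sub ((((sm_ev B _).mul (sm_ev B _)).mul
    ((YM.SmM.const _).mul ((sm_evi B _).mul (YM.SmM.const _)))).mul (sm_evi B _))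

lemma twe_mem (B : LieBasis G n) (Q : Sys) (κ : Q.P → G) (p : Q.P) :
    (fun U : Q.L → G => we (tplq Q κ U p)) ∈ YM.Sm (dat B) Q.L := by
  have h : (fun U : Q.L → G => we (tplq Q κ U p)) =
      (YM.lin (YM.ip (1 : Mt N)) _ (sm_tplq B Q κ p)).1 := by
    funext U
    rw [YM.lin_apply, ip_one]
    rfl
  rw [h]
  exact (YM.lin (YM.ip (1 : Mt N)) _ (sm_tplq B Q κ p)).2

lemma tS_mem (B : LieBasis G n) (Q : Sys) (κ : Q.P → G) (c : Q.P → ℝ) :
    (tS Q κ c) ∈ YM.Sm (dat B) Q.L := by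
  have h : tS Q κ c = ∑ p, c p • (fun U : Q.L → G => we (tplq Q κ U p)) := by
    funext U
    rw [Finset.sum_apply]
    rfl
  rw [h]
  exact Subalgebra.sum_mem _ fun p _ => Subalgebra.smul_mem _ (twe_mem B Q κ p) _

lemma texp_mem (B : LieBasis G n) (Q : Sys) (κ : Q.P → G) (c : Q.P → ℝ) (β : ℝ) :
    (fun U : Q.L → G => Real.exp (-(β * tS Q κ c U))) ∈ YM.Sm (dat B) Q.L := by
  obtain ⟨f, hf, h⟩ := tS_mem B Q κ c
  refine ⟨fun M => Real.exp (-(β * f M)), ?_, fun U => by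
    show Real.exp (-(β * tS Q κ c U)) = Real.exp (-(β * f ((dat B).mat U)))
    rw [h U]⟩
  exact Real.contDiff_exp.comp (contDiff_const.mul hf).neg

lemma tdF_exp (B : LieBasis G n) (Q : Sys) (κ : Q.P → G) (c : Q.P → ℝ) (β : ℝ) (w : Q.L)
    (a : Fin n) (U : Q.L → G) :
    (dat B).dF w a (fun U : Q.L → G => Real.exp (-(β * tS Q κ c U))) U =
      -(β * (dat B).dF w a (tS Q κ c) U) * Real.exp (-(β * tS Q κ c U)) := by
  have h1 := YM.hasDerivAt_dF (tS_mem B Q κ c) w a U 0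
  rw [YM.LD.shift_zero] at h1
  have h2 := ((h1.const_mul β).fun_neg).exp
  rw [YM.LD.shift_zero] at h2
  have h3 := h2.deriv
  unfold YM.LD.dF at h3 ⊢
  rw [h3]
  ring

variable [CompactSpace G] [SecondCountableTopology G] [MeasurableSpace G] [BorelSpace G]
  (μ : Measure G) [IsProbabilityMeasure μ] [μ.IsHaarMeasure]

lemma tibp (B : LieBasis G n) (Q : Sys) (κ : Q.P → G) (c : Q.P → ℝ) (β : ℝ) (w : Q.L) (a : Fin n)
    (P : (Q.L → G) → ℝ) (hP : P ∈ YM.Sm (dat B) Q.L) :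
    tE Q κ μ c β (dl B w a P) = β * tE Q κ μ c β (fun U => P U * dl B w a (tS Q κ c) U) := by
  rw [dl_eq, dl_eq]
  have h0 := YM.I_D_zero (L := dat B) μ (w, a)
    ((⟨P, hP⟩ : YM.Sm (dat B) Q.L) * ⟨_, texp_mem B Q κ c β⟩)
  rw [Derivation.leibniz, map_add, smul_eq_mul, smul_eq_mul, YM.I_apply, YM.I_apply] at h0
  have e1 : ∀ U, ((⟨P, hP⟩ : YM.Sm (dat B) Q.L) * (dat B).Dv (w, a) ⟨_, texp_mem B Q κ c β⟩).1 U =
      -β * (P U * (dat B).dF w a (tS Q κ c) U * Real.exp (-(β * tS Q κ c U))) := by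
    intro U
    have h1 : ((⟨P, hP⟩ : YM.Sm (dat B) Q.L) * (dat B).Dv (w, a) ⟨_, texp_mem B Q κ c β⟩).1 U =
      P U * (dat B).dF w a (fun U : Q.L → G => Real.exp (-(β * tS Q κ c U))) U := rfl
    rw [h1, tdF_exp]
    ring
  have e2 : ∀ U, ((⟨_, texp_mem B Q κ c β⟩ : YM.Sm (dat B) Q.L) * (dat B).Dv (w, a) ⟨P, hP⟩).1 U =
      (dat B).dF w a P U * Real.exp (-(β * tS Q κ c U)) := by
    intro U
    have h1 : ((⟨_, texp_mem B Q κ c β⟩ : YM.Sm (dat B) Q.L) * (dat B).Dv (w, a) ⟨P, hP⟩).1 U =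
      Real.exp (-(β * tS Q κ c U)) * (dat B).dF w a P U := rfl
    rw [h1, mul_comm]
  simp only [e1, e2] at h0
  rw [integral_const_mul] at h0
  unfold tE
  have h3 : ∫ U : Q.L → G, (dat B).dF w a P U * Real.exp (-(β * tS Q κ c U))
      ∂(Measure.pi fun _ => μ) =
      β * ∫ U : Q.L → G, P U * (dat B).dF w a (tS Q κ c) U * Real.exp (-(β * tS Q κ c U))
        ∂(Measure.pi fun _ => μ) := by
    linarith
  rw [h3, mul_div_assoc]

end ibp

/-- integration by parts -/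
theorem t_ibp {N n : ℕ} (G : Subgroup (UU N)) (hG : IsClosed (G : Set (UU N)))
    [MeasurableSpace G] [BorelSpace G] (μ : Measure G) [IsProbabilityMeasure μ] [μ.IsHaarMeasure]
    (B : LieBasis G n) (Q : Sys) (κ : Q.P → G) (c : Q.P → ℝ) (β : ℝ) (w : Q.L) (a : Fin n)
    (w' : Q.L) (b : Fin n) :
    tE Q κ μ c β (dl B w a (fun U : Q.L → G => crd B (U w') b)) =
      β * tE Q κ μ c β (fun U => crd B (U w') b * dl B w a (tS Q κ c) U) ∧
    Continuous (dl B w a (fun U : Q.L → G => crd B (U w') b)) ∧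
    Continuous (dl B w a (tS Q κ c)) ∧ Continuous (fun U : Q.L → G => crd B (U w') b) := by
  have hc : CompactSpace G := by
    have h1 : IsCompact (G : Set (UU N)) := hG.isCompact
    exact isCompact_iff_compactSpace.1 h1
  have h00 : SecondCountableTopology (UU N) := TopologicalSpace.Subtype.secondCountableTopology _
  have hs : SecondCountableTopology G := TopologicalSpace.Subtype.secondCountableTopology _
  refine ⟨tibp μ B Q κ c β w a _ (Ibp.crd_mem B w' b), ?_, ?_,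
    Pool.Agent.H906R3.YM.Sm_cont ⟨_, Ibp.crd_mem B w' b⟩⟩
  · rw [Ibp.dl_eq]
    exact Pool.Agent.H906R3.YM.Sm_cont ⟨_, Pool.Agent.H906R3.YM.dF_mem (Ibp.crd_mem B w' b) w a⟩
  · rw [Ibp.dl_eq]
    exact Pool.Agent.H906R3.YM.Sm_cont ⟨_, Pool.Agent.H906R3.YM.dF_mem (tS_mem B Q κ c) w a⟩

end

end Pool.Agent.H991.DC
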