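import Mathlib
import Pool.Agent.H991.DC.Ad

/-!
# Taylor expansions for systems with a twist
-/

open MeasureTheory Matrix
open scoped Matrix.Norms.Frobenius
open Pool.Agent.N899.SB Pool.Agent.Y14.Wilson Pool.Agent.N899.BB Pool.Agent.N899.BB.Tay

namespace Pool.Agent.H991.DC

noncomputable section

variable {N n : ℕ} {G : Subgroup (UU N)}

theorem part_g (hG : IsClosed (G : Set (UU N))) (B : LieBasis G n) : ∃ C : ℝ, 0 ≤ C ∧
    ∀ (g0 g1 g2 g3 : G) (r : ℝ), ‖mt g0 - 1‖ ≤ r → ‖mt g1 - 1‖ ≤ r → ‖mt g2 - 1‖ ≤ r →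
      ‖mt g3 - 1‖ ≤ r →
    |we (g0 * g1 * g2 * g3) - 1 / 2 * ∑ a, (crd B g0 a + crd B g1 a + crd B g2 a + crd B g3 a) ^ 2| ≤
      C * r ^ 3 := by
  obtain ⟨C, hC, h⟩ := Pool.Agent.Y274.YMTan.tangent G hG B.X B.orth
    (fun a t => ⟨B.ex a t, B.ex_eq a t⟩) B.full
  have h' : ∀ g : G, ‖mt g - 1 - ∑ a, crd B g a • B.X a‖ ≤ C * ‖mt g - 1‖ ^ 2 := h
  refine ⟨1 / 2 * ((6 + 4 * C) * (4 + 4 * n)), by positivity, fun g0 g1 g2 g3 r l0 l1 l2 l3 => ?_⟩
  have hr0 : 0 ≤ r := (norm_nonneg _).trans l0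
  have hplq : mt (g0 * g1 * g2 * g3) = mt g0 * mt g1 * mt g2 * mt g3 := rfl
  obtain ⟨s, hs'⟩ : ∃ s : Fin n → ℝ, s = fun a =>
    crd B g0 a + crd B g1 a + crd B g2 a + crd B g3 a := ⟨_, rfl⟩
  have hs2 : ∑ a, (crd B g0 a + crd B g1 a + crd B g2 a + crd B g3 a) ^ 2 =
      ‖∑ a, s a • B.X a‖ ^ 2 := by
    rw [norm_span]
    refine Finset.sum_congr rfl fun a _ => ?_
    rw [hs']
  rw [we_eq, hs2, hplq]
  obtain ⟨V, hV⟩ : ∃ V, V = mt g0 * mt g1 * mt g2 * mt g3 - 1 := ⟨_, rfl⟩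
  obtain ⟨Y, hY⟩ : ∃ Y, Y = ∑ a, s a • B.X a := ⟨_, rfl⟩
  rw [← hV, ← hY]
  have hVn : ‖V‖ ≤ 4 * r := by
    have h1 : V = mt (g0 * (g1 * (g2 * g3))) - 1 := by
      rw [hV, mt_mul, mt_mul, mt_mul]
      noncomm_ring
    rw [h1]
    have k1 := norm_mt_mul_sub g0 (g1 * (g2 * g3))
    have k2 := norm_mt_mul_sub g1 (g2 * g3)
    have k3 := norm_mt_mul_sub g2 g3
    linarith
  have hYn : ‖Y‖ ≤ 4 * n * r := by
    rw [hY]
    refine (norm_sum_le _ _).trans ?_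
    have h1 : ∀ a ∈ (Finset.univ : Finset (Fin n)), ‖s a • B.X a‖ ≤ 4 * r := by
      intro a _
      rw [norm_smul, normX, mul_one, Real.norm_eq_abs, hs']
      have k0 := (crd_le B g0 a).trans l0
      have k1 := (crd_le B g1 a).trans l1
      have k2 := (crd_le B g2 a).trans l2
      have k3 := (crd_le B g3 a).trans l3
      rw [abs_le] at k0 k1 k2 k3 ⊢
      constructor <;> linarith [k0.1, k0.2, k1.1, k1.2, k2.1, k2.2, k3.1, k3.2]
    refine (Finset.sum_le_sum h1).trans ?_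
    rw [Finset.sum_const, Finset.card_univ, Fintype.card_fin, nsmul_eq_mul]
    apply le_of_eq
    ring
  have hVY : ‖V - Y‖ ≤ (6 + 4 * C) * r ^ 2 := by
    have e : V - Y = (mt g0 * mt g1 * mt g2 * mt g3 - 1 -
        ((mt g0 - 1) + (mt g1 - 1) + (mt g2 - 1) + (mt g3 - 1))) +
        ((mt g0 - 1 - ∑ a, crd B g0 a • B.X a) + (mt g1 - 1 - ∑ a, crd B g1 a • B.X a) +
        (mt g2 - 1 - ∑ a, crd B g2 a • B.X a) + (mt g3 - 1 - ∑ a, crd B g3 a • B.X a)) := by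
      have e1 : Y = ∑ a, crd B g0 a • B.X a + ∑ a, crd B g1 a • B.X a +
          ∑ a, crd B g2 a • B.X a + ∑ a, crd B g3 a • B.X a := by
        rw [hY, hs']
        simp only [add_smul, Finset.sum_add_distrib]
      rw [hV, e1]
      abel
    have k : ∀ g : G, ‖mt g - 1‖ ≤ r → ‖mt g - 1 - ∑ a, crd B g a • B.X a‖ ≤ C * r ^ 2 := by
      intro g hg
      refine (h' g).trans ?_
      gcongr
    rw [e]
    refine (norm_add_le _ _).trans ?_
    have h1 := norm_four g0 g1 g2 g3 r l0 l1 l2 l3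
    have h2 : ‖(mt g0 - 1 - ∑ a, crd B g0 a • B.X a) + (mt g1 - 1 - ∑ a, crd B g1 a • B.X a) +
        (mt g2 - 1 - ∑ a, crd B g2 a • B.X a) + (mt g3 - 1 - ∑ a, crd B g3 a • B.X a)‖ ≤
        4 * (C * r ^ 2) := by
      refine (norm_add_le _ _).trans ?_
      have k3 := k g3 l3
      have k012 := norm_add₃_le (a := mt g0 - 1 - ∑ a, crd B g0 a • B.X a)
        (b := mt g1 - 1 - ∑ a, crd B g1 a • B.X a) (c := mt g2 - 1 - ∑ a, crd B g2 a • B.X a)
      have k0 := k g0 l0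
      have k1 := k g1 l1
      have k2 := k g2 l2
      linarith
    linarith
  have hdiff : |‖V‖ - ‖Y‖| ≤ (6 + 4 * C) * r ^ 2 := (abs_norm_sub_norm_le V Y).trans hVY
  have e : 1 / 2 * ‖V‖ ^ 2 - 1 / 2 * ‖Y‖ ^ 2 = 1 / 2 * ((‖V‖ - ‖Y‖) * (‖V‖ + ‖Y‖)) := by ring
  rw [e, abs_mul, abs_mul, abs_of_pos (by norm_num : (0 : ℝ) < 1 / 2),
    abs_of_nonneg (by positivity : 0 ≤ ‖V‖ + ‖Y‖)]
  have hsum : ‖V‖ + ‖Y‖ ≤ (4 + 4 * n) * r := by linarith
  calc 1 / 2 * (|‖V‖ - ‖Y‖| * (‖V‖ + ‖Y‖))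
      ≤ 1 / 2 * (((6 + 4 * C) * r ^ 2) * ((4 + 4 * n) * r)) := by
        gcongr
    _ = _ := by ring


variable (Q : Sys) (κ : Q.P → G)

lemma sum_DT (B : LieBasis G n) (U : Q.L → G) (p : Q.P) (a : Fin n) :
    ∑ w, DT Q κ B p a w * crd B (U w.1) w.2 = crd B (ev U (Q.wd p 0)) a +
      crd B (ev U (Q.wd p 1)) a + crd B (κ p * ev U (Q.wd p 2) * (κ p)⁻¹)⁻¹ a +
      crd B (ev U (Q.wd p 3))⁻¹ a := by
  rw [crd_inv, crd_inv, crd_conj, Fintype.sum_prod_type]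
  have h0 := sum_ev B Q U (Q.wd p 0) a
  have h1 := sum_ev B Q U (Q.wd p 1) a
  have h3 := sum_ev B Q U (Q.wd p 3) a
  have h2 : ∑ b, Ado B (κ p) a b * crd B (ev U (Q.wd p 2)) b =
      ∑ w, ∑ b, ((if Q.wd p 2 = some w then (1 : ℝ) else 0) * Ado B (κ p) a b) * crd B (U w) b := by
    rw [Finset.sum_comm]
    refine Finset.sum_congr rfl fun b _ => ?_
    rw [← sum_ev B Q U (Q.wd p 2) b, Finset.mul_sum]
    refine Finset.sum_congr rfl fun w _ => ?_
    ring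
  rw [h2, ← h0, ← h1, ← h3, ← Finset.sum_add_distrib, ← Finset.sum_neg_distrib,
    ← Finset.sum_add_distrib, ← Finset.sum_neg_distrib, ← Finset.sum_add_distrib]
  refine Finset.sum_congr rfl fun w _ => ?_
  unfold DT
  simp only [sub_mul, Finset.sum_sub_distrib]
  have e : ∀ x : ℝ, ∑ b, x * (if a = b then (1 : ℝ) else 0) * crd B (U w) b = x * crd B (U w) a := by
    intro x
    have : ∀ b, x * (if a = b then (1 : ℝ) else 0) * crd B (U w) b =
        if a = b then x * crd B (U w) b else 0 := by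
      intro b; split_ifs <;> ring
    simp only [this]
    rw [Finset.sum_ite_eq]
    simp
  have e2 : ∀ x y z : ℝ, ∑ b, ((x + y - z) * (if a = b then (1 : ℝ) else 0) * crd B (U w) b) =
      (x + y - z) * crd B (U w) a := fun x y z => e _
  have e3 : ∑ b, ((((if Q.wd p 0 = some w then (1 : ℝ) else 0) +
      (if Q.wd p 1 = some w then (1 : ℝ) else 0)) * (if a = b then (1 : ℝ) else 0) -
      (if Q.wd p 3 = some w then (1 : ℝ) else 0) * (if a = b then (1 : ℝ) else 0)) *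
      crd B (U w) b) = ((if Q.wd p 0 = some w then (1 : ℝ) else 0) +
      (if Q.wd p 1 = some w then (1 : ℝ) else 0) - (if Q.wd p 3 = some w then (1 : ℝ) else 0)) *
      crd B (U w) a := by
    rw [← e2]
    refine Finset.sum_congr rfl fun b _ => ?_
    ring
  have e4 := e3
  simp only [sub_mul, Finset.sum_sub_distrib] at e4
  rw [e4]
  ring

/-- the letters of a plaquette are small -/
lemma tletters (U : Q.L → G) (p : Q.P) : ‖mt (ev U (Q.wd p 0)) - 1‖ ≤ Q.r U ∧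
    ‖mt (ev U (Q.wd p 1)) - 1‖ ≤ Q.r U ∧
    ‖mt (κ p * ev U (Q.wd p 2) * (κ p)⁻¹)⁻¹ - 1‖ ≤ Q.r U ∧
    ‖mt (ev U (Q.wd p 3))⁻¹ - 1‖ ≤ Q.r U := by
  refine ⟨ev_le Q U _, ev_le Q U _, ?_, ev_inv_le Q U _⟩
  rw [norm_mt_inv_sub, norm_conj_sub]
  exact ev_le Q U _

/-- the derivative of the energy of a plaquette -/
theorem tplq_deriv (B : LieBasis G n) (U : Q.L → G) (w : Q.L) (b : Fin n) (p : Q.P) :
    ∃ d : ℝ, HasDerivAt (fun t => we (tplq Q κ (mv B U w b t) p)) d 0 ∧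
      |d - ∑ a, DT Q κ B p a (w, b) * ∑ w', DT Q κ B p a w' * crd B (U w'.1) w'.2| ≤
        (18 + 6 * n) * Q.r U ^ 2 := by
  have d0 := letter B U w b (Q.wd p 0)
  have d1 := letter B U w b (Q.wd p 1)
  have d2 := letter_inv B U w b (Q.wd p 2)
  have d3 := letter_inv B U w b (Q.wd p 3)
  have d2' : HasDerivAt (fun t => mt (κ p * ev (mv B U w b t) (Q.wd p 2) * (κ p)⁻¹)⁻¹)
      (mt (κ p) * (if Q.wd p 2 = some w then -(mt (ev U (Q.wd p 2))⁻¹ * B.X b) else 0) *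
        (mt (κ p))ᴴ) 0 := by
    have h := (d2.const_mul (mt (κ p))).mul_const ((mt (κ p))ᴴ)
    have e : (fun t => mt (κ p * ev (mv B U w b t) (Q.wd p 2) * (κ p)⁻¹)⁻¹) =
        fun t => mt (κ p) * mt (ev (mv B U w b t) (Q.wd p 2))⁻¹ * (mt (κ p))ᴴ := by
      funext t
      rw [_root_.mul_inv_rev, _root_.mul_inv_rev, inv_inv, mt_mul, mt_mul, ← mt_inv (κ p), mul_assoc]
    rw [e]
    exact h
  have dd := ((d0.fun_mul d1).fun_mul d2').fun_mul d3
  have dd2 := rt_deriv (dd.const_sub (1 : Mt N))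
  simp only [mv_zero] at dd2
  refine ⟨_, dd2, ?_⟩
  simp only [sum_DT]
  clear dd2 dd d0 d1 d2 d3 d2'
  obtain ⟨l0, l1, l2, l3⟩ := tletters Q κ U p
  obtain ⟨r, hr⟩ : ∃ r, r = Q.r U := ⟨_, rfl⟩
  rw [← hr] at l0 l1 l2 l3 ⊢
  obtain ⟨h2, hh2⟩ : ∃ g, g = (ev U (Q.wd p 2))⁻¹ := ⟨_, rfl⟩
  obtain ⟨g0, hg0⟩ : ∃ g, g = ev U (Q.wd p 0) := ⟨_, rfl⟩
  obtain ⟨g1, hg1⟩ : ∃ g, g = ev U (Q.wd p 1) := ⟨_, rfl⟩
  obtain ⟨g2, hg2⟩ : ∃ g, g = (κ p * ev U (Q.wd p 2) * (κ p)⁻¹)⁻¹ := ⟨_, rfl⟩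
  obtain ⟨g3, hg3⟩ : ∃ g, g = (ev U (Q.wd p 3))⁻¹ := ⟨_, rfl⟩
  have hr0 : 0 ≤ r := (norm_nonneg _).trans l0
  simp only [← hg0, ← hg1, ← hg2, ← hg3, ← hh2] at l0 l1 l2 l3 ⊢
  have hg2' : mt (κ p) * mt h2 * (mt (κ p))ᴴ = mt g2 := by
    rw [hg2, hh2, _root_.mul_inv_rev, _root_.mul_inv_rev, inv_inv, mt_mul, mt_mul, ← mt_inv (κ p),
      mul_assoc]
  obtain ⟨s, hs⟩ : ∃ s : Fin n → ℝ, s = fun a => crd B g0 a + crd B g1 a + crd B g2 a + crd B g3 a :=
    ⟨_, rfl⟩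
  have hs' : ∀ a, crd B g0 a + crd B g1 a + crd B g2 a + crd B g3 a = s a := fun a => by rw [hs]
  simp only [hs']
  obtain ⟨X, hX⟩ : ∃ X : Fin n → Mt N, X = B.X := ⟨_, rfl⟩
  have hXs : ∀ a, (X a)ᴴ = -X a := by intro a; rw [hX]; exact skewX B a
  -- the four terms
  have q : ∀ (a : Fin n) (f0 f1 f2 f3 : G), ‖mt f0 - 1‖ ≤ r → ‖mt f1 - 1‖ ≤ r → ‖mt f2 - 1‖ ≤ r →
      ‖mt f3 - 1‖ ≤ r → crd B f0 a + crd B f1 a + crd B f2 a + crd B f3 a = s a →
      |rt N (-(X a * (mt f0 * mt f1 * mt f2 * mt f3))) - s a| ≤ 6 * r ^ 2 := by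
    intro a f0 f1 f2 f3 k0 k1 k2 k3 hsum
    have h := four_le B a f0 f1 f2 f3 r k0 k1 k2 k3
    rw [← hX, hXs, hsum, neg_mul] at h
    exact h
  have t0 : |rt N (-(X b * mt g0 * mt g1 * mt g2 * mt g3)) - s b| ≤ 6 * r ^ 2 := by
    have e : -(X b * mt g0 * mt g1 * mt g2 * mt g3) =
      -(X b * (mt g0 * mt g1 * mt g2 * mt g3)) := by noncomm_ring
    rw [e]
    exact q b g0 g1 g2 g3 l0 l1 l2 l3 (hs' b)
  have t1 : |rt N (-(mt g0 * (X b * mt g1) * mt g2 * mt g3)) - s b| ≤ 6 * r ^ 2 := by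
    have e : rt N (-(mt g0 * (X b * mt g1) * mt g2 * mt g3)) =
        rt N (-(X b * (mt g1 * mt g2 * mt g3 * mt g0))) := by
      have e1 : -(mt g0 * (X b * mt g1) * mt g2 * mt g3) =
        mt g0 * (-X b * (mt g1 * mt g2 * mt g3)) := by noncomm_ring
      rw [e1, rt_comm]
      congr 1
      noncomm_ring
    rw [e]
    exact q b g1 g2 g3 g0 l1 l2 l3 l0 (by rw [← hs' b]; ring)
  have t3 : |rt N (-(mt g0 * mt g1 * mt g2 * -(mt g3 * X b))) + s b| ≤ 6 * r ^ 2 := by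
    have e : rt N (-(mt g0 * mt g1 * mt g2 * -(mt g3 * X b))) =
        -rt N (-(X b * (mt g0 * mt g1 * mt g2 * mt g3))) := by
      have e1 : -(mt g0 * mt g1 * mt g2 * -(mt g3 * X b)) =
        (mt g0 * mt g1 * mt g2 * mt g3) * X b := by noncomm_ring
      rw [e1, rt_comm, map_neg, neg_neg]
    rw [e]
    have := q b g0 g1 g2 g3 l0 l1 l2 l3 (hs' b)
    rw [show ∀ x y : ℝ, -x + y = -(x - y) from fun x y => by ring, abs_neg]
    exact this
  have t2 : |rt N (-(mt g0 * mt g1 * (mt (κ p) * -(mt h2 * X b) * (mt (κ p))ᴴ) * mt g3)) +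
      ∑ a, Ado B (κ p) a b * s a| ≤ 6 * n * r ^ 2 := by
    have e0 : mt (κ p) * -(mt h2 * X b) * (mt (κ p))ᴴ =
        -(mt g2 * (mt (κ p) * X b * (mt (κ p))ᴴ)) := by
      rw [← hg2']
      have : mt (κ p) * mt h2 * (mt (κ p))ᴴ * (mt (κ p) * X b * (mt (κ p))ᴴ) =
          mt (κ p) * mt h2 * ((mt (κ p))ᴴ * mt (κ p)) * X b * (mt (κ p))ᴴ := by noncomm_ring
      rw [this, ct_mul_mt]
      noncomm_ring
    have e1 : rt N (-(mt g0 * mt g1 * (mt (κ p) * -(mt h2 * X b) * (mt (κ p))ᴴ) * mt g3)) =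
        -∑ a, Ado B (κ p) a b * rt N (-(X a * (mt g3 * mt g0 * mt g1 * mt g2))) := by
      rw [e0, hX, conj_X]
      have e2 : -(mt g0 * mt g1 * -(mt g2 * ∑ a, Ado B (κ p) a b • B.X a) * mt g3) =
          (mt g0 * mt g1 * mt g2) * ((∑ a, Ado B (κ p) a b • B.X a) * mt g3) := by noncomm_ring
      rw [e2, rt_comm, Finset.sum_mul, Finset.sum_mul, map_sum, ← Finset.sum_neg_distrib]
      refine Finset.sum_congr rfl fun a _ => ?_
      rw [smul_mul_assoc, smul_mul_assoc, map_smul, smul_eq_mul, map_neg, mul_neg, neg_neg]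
      congr 2
      noncomm_ring
    rw [e1, ← Finset.sum_neg_distrib, ← Finset.sum_add_distrib]
    refine (Finset.abs_sum_le_sum_abs _ _).trans ?_
    have e3 : ∀ a ∈ (Finset.univ : Finset (Fin n)),
        |-(Ado B (κ p) a b * rt N (-(X a * (mt g3 * mt g0 * mt g1 * mt g2)))) +
          Ado B (κ p) a b * s a| ≤ 6 * r ^ 2 := by
      intro a _
      have h := q a g3 g0 g1 g2 l3 l0 l1 l2 (by rw [← hs' a]; ring)
      rw [show -(Ado B (κ p) a b * rt N (-(X a * (mt g3 * mt g0 * mt g1 * mt g2)))) +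
          Ado B (κ p) a b * s a = -(Ado B (κ p) a b *
          (rt N (-(X a * (mt g3 * mt g0 * mt g1 * mt g2))) - s a)) by ring, abs_neg, abs_mul]
      calc |Ado B (κ p) a b| * |rt N (-(X a * (mt g3 * mt g0 * mt g1 * mt g2))) - s a|
          ≤ 1 * (6 * r ^ 2) := mul_le_mul (Ado_le B _ a b) h (abs_nonneg _) zero_le_one
        _ = _ := one_mul _
    refine (Finset.sum_le_sum e3).trans ?_
    rw [Finset.sum_const, Finset.card_univ, Fintype.card_fin, nsmul_eq_mul]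
    apply le_of_eq
    ring
  have key : rt N (-((((if Q.wd p 0 = some w then B.X b * mt g0 else 0) * mt g1 +
      mt g0 * (if Q.wd p 1 = some w then B.X b * mt g1 else 0)) * mt g2 +
      mt g0 * mt g1 * (mt (κ p) * (if Q.wd p 2 = some w then -(mt h2 * B.X b) else 0) *
        (mt (κ p))ᴴ)) * mt g3 +
      mt g0 * mt g1 * mt g2 * (if Q.wd p 3 = some w then -(mt g3 * B.X b) else 0))) =
      (if Q.wd p 0 = some w then (1 : ℝ) else 0) *
        rt N (-(X b * mt g0 * mt g1 * mt g2 * mt g3)) +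
      (if Q.wd p 1 = some w then (1 : ℝ) else 0) *
        rt N (-(mt g0 * (X b * mt g1) * mt g2 * mt g3)) +
      (if Q.wd p 2 = some w then (1 : ℝ) else 0) *
        rt N (-(mt g0 * mt g1 * (mt (κ p) * -(mt h2 * X b) * (mt (κ p))ᴴ) * mt g3)) +
      (if Q.wd p 3 = some w then (1 : ℝ) else 0) *
        rt N (-(mt g0 * mt g1 * mt g2 * -(mt g3 * X b))) := by
    have hi : ∀ (c : Prop) [Decidable c] (Y : Mt N),
        (if c then Y else 0) = (if c then (1 : ℝ) else 0) • Y := by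
      intro c _ Y
      split_ifs
      · rw [one_smul]
      · rw [zero_smul]
    rw [hi (Q.wd p 0 = some w), hi (Q.wd p 1 = some w), hi (Q.wd p 2 = some w),
      hi (Q.wd p 3 = some w), ← hX]
    generalize (if Q.wd p 0 = some w then (1 : ℝ) else 0) = c0
    generalize (if Q.wd p 1 = some w then (1 : ℝ) else 0) = c1
    generalize (if Q.wd p 2 = some w then (1 : ℝ) else 0) = c2
    generalize (if Q.wd p 3 = some w then (1 : ℝ) else 0) = c3
    simp only [smul_mul_assoc, mul_smul_comm, add_mul, neg_add, ← smul_neg, map_add, map_smul,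
      smul_eq_mul]
  rw [key]
  have hD : ∑ a, DT Q κ B p a (w, b) * s a =
      ((if Q.wd p 0 = some w then 1 else 0) + (if Q.wd p 1 = some w then 1 else 0) -
        (if Q.wd p 3 = some w then 1 else 0)) * s b -
      (if Q.wd p 2 = some w then 1 else 0) * ∑ a, Ado B (κ p) a b * s a := by
    unfold DT
    simp only
    rw [Finset.mul_sum]
    simp only [sub_mul (_ * _) _ (s _), Finset.sum_sub_distrib]
    congr 1
    · have : ∀ a, ((if Q.wd p 0 = some w then (1 : ℝ) else 0) + (if Q.wd p 1 = some w then 1 else 0) -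
        (if Q.wd p 3 = some w then 1 else 0)) * (if a = b then 1 else 0) * s a =
          if a = b then ((if Q.wd p 0 = some w then (1 : ℝ) else 0) +
            (if Q.wd p 1 = some w then 1 else 0) - (if Q.wd p 3 = some w then 1 else 0)) * s a
            else 0 := by
        intro a
        by_cases h : a = b
        · simp [h]
        · simp [h]
      rw [Finset.sum_congr rfl fun a _ => this a, Finset.sum_ite_eq' Finset.univ b]
      simp
    · refine Finset.sum_congr rfl fun a _ => ?_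
      ring
  rw [hD]
  have hite : ∀ (c : Prop) [Decidable c], (0 : ℝ) ≤ (if c then (1 : ℝ) else 0) ∧
      (if c then (1 : ℝ) else 0) ≤ (1 : ℝ) := by
    intro c _
    split_ifs <;> norm_num
  obtain ⟨a0, b0⟩ := hite (Q.wd p 0 = some w)
  obtain ⟨a1, b1⟩ := hite (Q.wd p 1 = some w)
  obtain ⟨a2, b2⟩ := hite (Q.wd p 2 = some w)
  obtain ⟨a3, b3⟩ := hite (Q.wd p 3 = some w)
  generalize (if Q.wd p 0 = some w then (1 : ℝ) else 0) = c0 at *
  generalize (if Q.wd p 1 = some w then (1 : ℝ) else 0) = c1 at *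
  generalize (if Q.wd p 2 = some w then (1 : ℝ) else 0) = c2 at *
  generalize (if Q.wd p 3 = some w then (1 : ℝ) else 0) = c3 at *
  generalize rt N (-(X b * mt g0 * mt g1 * mt g2 * mt g3)) = T0 at *
  generalize rt N (-(mt g0 * (X b * mt g1) * mt g2 * mt g3)) = T1 at *
  generalize rt N (-(mt g0 * mt g1 * (mt (κ p) * -(mt h2 * X b) * (mt (κ p))ᴴ) * mt g3)) = T2 at *
  generalize rt N (-(mt g0 * mt g1 * mt g2 * -(mt g3 * X b))) = T3 at *
  generalize ∑ a, Ado B (κ p) a b * s a = Y at *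
  have e : c0 * T0 + c1 * T1 + c2 * T2 + c3 * T3 - ((c0 + c1 - c3) * s b - c2 * Y) =
      c0 * (T0 - s b) + c1 * (T1 - s b) + c2 * (T2 + Y) + c3 * (T3 + s b) := by ring
  rw [e]
  have k : ∀ c T E : ℝ, 0 ≤ c → c ≤ 1 → |T| ≤ E → |c * T| ≤ E := by
    intro c T E hc hc1 hT
    rw [abs_mul, abs_of_nonneg hc]
    calc c * |T| ≤ 1 * |T| := by gcongr
      _ ≤ _ := by rw [one_mul]; exact hT
  have k0 := k c0 _ _ a0 b0 t0
  have k1 := k c1 _ _ a1 b1 t1
  have k2 := k c2 _ _ a2 b2 t2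
  have k3 := k c3 _ _ a3 b3 t3
  refine (abs_add_le _ _).trans ?_
  have h3 := abs_add_three (c0 * (T0 - s b)) (c1 * (T1 - s b)) (c2 * (T2 + Y))
  linarith

/-- Taylor expansions -/
theorem t_tay (hG : IsClosed (G : Set (UU N))) (B : LieBasis G n) : ∃ C : ℝ, 1 ≤ C ∧
    ∀ (Q : Sys) (κ : Q.P → G) (m : ℕ), 1 ≤ m → Fintype.card Q.P ≤ m →
    ∀ x : ℝ, 0 ≤ x → x ≤ 1 → ∀ U : Q.L → G,
    (∀ w b, |dl B w b (tS Q κ (Q.cp x)) U -
      ∑ w', tH Q κ B (Q.cp x) (w, b) w' * crd B (U w'.1) w'.2| ≤ C * m * Q.r U ^ 2) ∧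
    ∀ p, |we (tplq Q κ U p) - 1 / 2 * ∑ a, (∑ w, DT Q κ B p a w * crd B (U w.1) w.2) ^ 2| ≤
      C * Q.r U ^ 3 := by
  obtain ⟨C, hC, hd⟩ := part_g hG B
  have hn : (0 : ℝ) ≤ n := by positivity
  refine ⟨C + (18 + 6 * n), by linarith, fun Q κ m hm hP x hx0 hx1 U => ⟨?_, ?_⟩⟩
  · intro w b
    choose d hd1 hd2 using fun p => tplq_deriv Q κ B U w b p
    have hcp : ∀ p, 0 ≤ Q.cp x p ∧ Q.cp x p ≤ 1 := by
      intro p
      unfold Sys.cp
      split_ifs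
      · norm_num
      · exact ⟨hx0, hx1⟩
    have h1 : dl B w b (tS Q κ (Q.cp x)) U = ∑ p, Q.cp x p * d p := by
      unfold dl
      have h2 : HasDerivAt (fun t => tS Q κ (Q.cp x) (mv B U w b t)) (∑ p, Q.cp x p * d p) 0 := by
        unfold tS
        exact HasDerivAt.fun_sum fun p _ => (hd1 p).const_mul _
      exact h2.deriv
    have h2 : ∑ w', tH Q κ B (Q.cp x) (w, b) w' * crd B (U w'.1) w'.2 =
        ∑ p, Q.cp x p * ∑ a, DT Q κ B p a (w, b) * ∑ w', DT Q κ B p a w' * crd B (U w'.1) w'.2 := by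
      unfold tH
      simp only [Finset.sum_mul, Finset.mul_sum]
      rw [Finset.sum_comm]
      refine Finset.sum_congr rfl fun p _ => ?_
      rw [Finset.sum_comm]
      refine Finset.sum_congr rfl fun a _ => Finset.sum_congr rfl fun w' _ => ?_
      ring
    rw [h1, h2, ← Finset.sum_sub_distrib]
    refine (Finset.abs_sum_le_sum_abs _ _).trans ?_
    have h3 : ∀ p ∈ (Finset.univ : Finset Q.P), |Q.cp x p * d p - Q.cp x p *
        ∑ a, DT Q κ B p a (w, b) * ∑ w', DT Q κ B p a w' * crd B (U w'.1) w'.2| ≤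
        (18 + 6 * n) * Q.r U ^ 2 := by
      intro p _
      rw [← mul_sub, abs_mul, abs_of_nonneg (hcp p).1]
      calc Q.cp x p * |d p - ∑ a, DT Q κ B p a (w, b) * ∑ w', DT Q κ B p a w' * crd B (U w'.1) w'.2|
          ≤ 1 * ((18 + 6 * n) * Q.r U ^ 2) := by
            gcongr
            · exact (hcp p).2
            · exact hd2 p
        _ = _ := one_mul _
    refine (Finset.sum_le_sum h3).trans ?_
    rw [Finset.sum_const, Finset.card_univ, nsmul_eq_mul]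
    have h4 : ((Fintype.card Q.P : ℕ) : ℝ) ≤ m := by exact_mod_cast hP
    calc ((Fintype.card Q.P : ℕ) : ℝ) * ((18 + 6 * n) * Q.r U ^ 2) ≤ m * ((18 + 6 * n) * Q.r U ^ 2) := by
          gcongr
      _ = (18 + 6 * n) * m * Q.r U ^ 2 := by ring
      _ ≤ (C + (18 + 6 * n)) * m * Q.r U ^ 2 :=
        mul_le_mul_of_nonneg_right (mul_le_mul_of_nonneg_right (by linarith) (by positivity))
          (by positivity)
  · intro p
    obtain ⟨l0, l1, l2, l3⟩ := tletters Q κ U p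
    have h := hd _ _ _ _ (Q.r U) l0 l1 l2 l3
    simp only [sum_DT]
    refine h.trans ?_
    have hr := r_nonneg Q U
    gcongr
    linarith

end

end Pool.Agent.H991.DC
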