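import Mathlib
import Pool.Agent.H991.DC.TTay
import Pool.Agent.H991.DC.TMom
import Pool.Graph.R_pool_sql_team_seeded_63374d34.N899.BB.Hinv
import Pool.Graph.R_pool_sql_team_seeded_63374d34.N899.BB.Est
import Pool.Graph.R_pool_sql_team_seeded_63374d34.N899.BB.Base
import Pool.Graph.R_pool_sql_team_seeded_63374d34.N899.BB.Gauss

/-!
# The asymptotics of partition functions with a twist, uniformly in the twist
-/

open MeasureTheory Matrix Filter Topology
open scoped Matrix.Norms.Frobenius Kronecker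
open Pool.Agent.N899.SB Pool.Agent.Y14.Wilson Pool.Agent.N899.BB

namespace Pool.Agent.H991.DC

noncomputable section

section hinv

variable {N n : ℕ} {G : Subgroup (UU N)} (B : LieBasis G n) (Q : Sys) (κ : Q.P → G)

lemma DT_bp (hκ : ∀ w, κ (Q.bp w) = 1) (w : Q.L) (a : Fin n) (w' : Q.L × Fin n) :
    DT Q κ B (Q.bp w) a w' = Q.D (Q.bp w) w'.1 * (if a = w'.2 then 1 else 0) := by
  unfold DT Sys.D
  rw [hκ, Ado_one, Matrix.one_apply]
  ring

lemma tquad (c : Q.P → ℝ) (y : Q.L × Fin n → ℝ) :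
    y ⬝ᵥ (tH Q κ B c).mulVec y = ∑ p, c p * ∑ a, (∑ w, DT Q κ B p a w * y w) ^ 2 := by
  simp only [dotProduct, Matrix.mulVec, tH]
  have h1 : ∀ w, y w * ∑ w', (∑ p, c p * ∑ a, DT Q κ B p a w * DT Q κ B p a w') * y w' =
      ∑ p, c p * ∑ a, ((DT Q κ B p a w * y w) * ∑ w', DT Q κ B p a w' * y w') := by
    intro w
    simp only [Finset.sum_mul, Finset.mul_sum]
    rw [Finset.sum_comm]
    refine Finset.sum_congr rfl fun p _ => ?_
    rw [Finset.sum_comm]
    refine Finset.sum_congr rfl fun a _ => Finset.sum_congr rfl fun w' _ => ?_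
    ring
  rw [Finset.sum_congr rfl fun w _ => h1 w, Finset.sum_comm]
  refine Finset.sum_congr rfl fun p _ => ?_
  rw [← Finset.mul_sum, Finset.sum_comm]
  congr 1
  refine Finset.sum_congr rfl fun a _ => ?_
  rw [← Finset.sum_mul, sq]

lemma tquad_ge (hκ : ∀ w, κ (Q.bp w) = 1) {x : ℝ} (hx : 0 ≤ x) (y : Q.L × Fin n → ℝ) (b : Fin n) :
    (fun w => y (w, b)) ⬝ᵥ (Q.H (Q.cp 0)).mulVec (fun w => y (w, b)) ≤
      y ⬝ᵥ (tH Q κ B (Q.cp x)).mulVec y := by
  classical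
  rw [tquad, Hinv.quad, Hinv.sum_base Q 0 (fun p => (∑ w, Q.D p w * y (w, b)) ^ 2),
    Hinv.sum_base Q x (fun p => ∑ a, (∑ w, DT Q κ B p a w * y w) ^ 2), zero_mul, add_zero]
  have h5 : 0 ≤ x * ∑ p, (if ∃ w, Q.bp w = p then 0 else ∑ a, (∑ w, DT Q κ B p a w * y w) ^ 2) := by
    refine mul_nonneg hx (Finset.sum_nonneg fun p _ => ?_)
    split_ifs
    · exact le_rfl
    · exact Finset.sum_nonneg fun a _ => sq_nonneg _
  have h6 : ∑ w, (∑ v, Q.D (Q.bp w) v * y (v, b)) ^ 2 ≤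
      ∑ w, ∑ a, (∑ v, DT Q κ B (Q.bp w) a v * y v) ^ 2 := by
    refine Finset.sum_le_sum fun w _ => ?_
    have h7 : ∑ v, Q.D (Q.bp w) v * y (v, b) = ∑ v, DT Q κ B (Q.bp w) b v * y v := by
      rw [Fintype.sum_prod_type]
      refine Finset.sum_congr rfl fun v _ => ?_
      have h8 : ∀ a : Fin n, DT Q κ B (Q.bp w) b (v, a) * y (v, a) =
          if b = a then Q.D (Q.bp w) v * y (v, a) else 0 := by
        intro a
        rw [DT_bp B Q κ hκ]
        simp only
        split_ifs <;> ring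
      rw [Finset.sum_congr rfl fun a _ => h8 a, Finset.sum_ite_eq Finset.univ b]
      simp
    rw [h7]
    exact Finset.single_le_sum (f := fun a => (∑ v, DT Q κ B (Q.bp w) a v * y v) ^ 2)
      (fun _ _ => sq_nonneg _) (Finset.mem_univ b)
  linarith

lemma tbound (hκ : ∀ w, κ (Q.bp w) = 1) {x : ℝ} (hx : 0 ≤ x) (y : Q.L × Fin n → ℝ)
    (w : Q.L × Fin n) :
    y w ^ 2 ≤ Fintype.card Q.L * (y ⬝ᵥ (tH Q κ B (Q.cp x)).mulVec y) := by
  obtain ⟨v, b⟩ := w
  have h1 := Hinv.bound Q le_rfl (fun w => y (w, b)) v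
  exact h1.trans (mul_le_mul_of_nonneg_left (tquad_ge B Q κ hκ hx y b) (Nat.cast_nonneg _))

lemma tposDef (hκ : ∀ w, κ (Q.bp w) = 1) {x : ℝ} (hx : 0 ≤ x) : (tH Q κ B (Q.cp x)).PosDef := by
  classical
  refine Matrix.PosDef.of_dotProduct_mulVec_pos ?_ ?_
  · ext w w'
    simp only [Matrix.conjTranspose_apply, star_trivial, tH]
    exact Finset.sum_congr rfl fun p _ => by
      congr 1
      exact Finset.sum_congr rfl fun a _ => by ring
  · intro y hy
    rw [star_trivial]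
    obtain ⟨w, hw⟩ := Function.ne_iff.1 hy
    have h1 := tbound B Q κ hκ hx y w
    have h2 : 0 < y w ^ 2 := by
      have : y w ≠ 0 := hw
      positivity
    by_contra h3
    push Not at h3
    have h4 : (Fintype.card Q.L : ℝ) * (y ⬝ᵥ (tH Q κ B (Q.cp x)).mulVec y) ≤ 0 :=
      mul_nonpos_of_nonneg_of_nonpos (Nat.cast_nonneg _) h3
    linarith

lemma tdet_zero (hκ : ∀ w, κ (Q.bp w) = 1) : (tH Q κ B (Q.cp 0)).det = 1 := by
  classical
  have h1 : tH Q κ B (Q.cp 0) = Q.H (Q.cp 0) ⊗ₖ (1 : Matrix (Fin n) (Fin n) ℝ) := by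
    ext ⟨w, a⟩ ⟨w', a'⟩
    rw [Matrix.kroneckerMap_apply]
    unfold tH Sys.H
    rw [Hinv.sum_base Q 0 (fun p => Q.D p w * Q.D p w'),
      Hinv.sum_base Q 0 (fun p => ∑ b, DT Q κ B p b (w, a) * DT Q κ B p b (w', a')), zero_mul,
      add_zero, zero_mul, add_zero, Finset.sum_mul]
    refine Finset.sum_congr rfl fun v _ => ?_
    simp only [DT_bp B Q κ hκ]
    have h2 : ∀ b : Fin n, Q.D (Q.bp v) w * (if b = a then (1 : ℝ) else 0) *
        (Q.D (Q.bp v) w' * (if b = a' then 1 else 0)) =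
        if b = a then Q.D (Q.bp v) w * (Q.D (Q.bp v) w' * (if b = a' then 1 else 0)) else 0 := by
      intro b
      split_ifs <;> ring
    rw [Finset.sum_congr rfl fun b _ => h2 b, Finset.sum_ite_eq' Finset.univ a]
    simp only [Finset.mem_univ, if_true, Matrix.one_apply]
    ring
  rw [h1, Matrix.det_kronecker, Hinv.det_H_zero, Matrix.det_one]
  simp

lemma tinv_le (hκ : ∀ w, κ (Q.bp w) = 1) {x : ℝ} (hx : 0 ≤ x) (w' w : Q.L × Fin n) :
    |(tH Q κ B (Q.cp x))⁻¹ w' w| ≤ Fintype.card Q.L := by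
  classical
  have hu : IsUnit (tH Q κ B (Q.cp x)) := (tposDef B Q κ hκ hx).isUnit
  have hdet : IsUnit (tH Q κ B (Q.cp x)).det := (Matrix.isUnit_iff_isUnit_det _).1 hu
  set y : Q.L × Fin n → ℝ := fun v => (tH Q κ B (Q.cp x))⁻¹ v w with hy
  have h1 : (tH Q κ B (Q.cp x)).mulVec y = Pi.single w 1 := by
    have h2 := Matrix.mul_nonsing_inv (tH Q κ B (Q.cp x)) hdet
    ext v
    have h3 := congrFun (congrFun h2 v) w
    rw [Matrix.mul_apply] at h3
    rw [Matrix.mulVec, dotProduct]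
    rw [h3, Matrix.one_apply, Pi.single_apply]
  have h2 : y ⬝ᵥ (tH Q κ B (Q.cp x)).mulVec y = y w := by
    rw [h1, dotProduct_single_one]
  have hc : (0 : ℝ) ≤ Fintype.card Q.L := Nat.cast_nonneg _
  have h3 := tbound B Q κ hκ hx y w
  rw [h2] at h3
  have h4 : 0 ≤ y w := by
    by_contra h
    push Not at h
    have h5 : 0 < y w ^ 2 := by nlinarith
    nlinarith
  have h5 : y w ≤ Fintype.card Q.L := by
    by_contra h
    push Not at h
    nlinarith
  have h6 := tbound B Q κ hκ hx y w'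
  rw [h2] at h6
  have h7 : y w' ^ 2 ≤ (Fintype.card Q.L : ℝ) ^ 2 := by nlinarith
  exact abs_le_of_sq_le_sq h7 hc

end hinv

/-! ### The expectation of a plaquette -/

section est

variable {N n : ℕ} {G : Subgroup (UU N)} (Q : Sys) (κ : Q.P → G)

variable [MeasurableSpace G] [BorelSpace G] (μ : Measure G) [IsProbabilityMeasure μ]

theorem texq (hG : IsClosed (G : Set (UU N))) (c : Q.P → ℝ) (β : ℝ) :
    Exq (tE Q κ μ c β) := by
  have := Est.compactG hG
  have : SecondCountableTopology G := Est.scG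
  have hS : Continuous fun U : Q.L → G => Real.exp (-(β * tS Q κ c U)) :=
    Real.continuous_exp.comp (continuous_const.mul (tS_cont Q κ c)).neg
  have hint : ∀ F : (Q.L → G) → ℝ, Continuous F →
      Integrable F (Measure.pi fun _ : Q.L => μ) := fun F hF =>
    hF.integrable_of_hasCompactSupport (HasCompactSupport.of_compactSpace _)
  have hZ : 0 < tZ Q κ μ c β := by
    unfold tZ
    exact integral_exp_pos (hint _ hS)
  refine ⟨?_, ?_, ?_, ?_⟩
  · intro F H hF hH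
    unfold tE
    rw [← add_div]
    congr 1
    have h1 := integral_add (hint (fun U => F U * Real.exp (-(β * tS Q κ c U))) (hF.mul hS))
      (hint (fun U => H U * Real.exp (-(β * tS Q κ c U))) (hH.mul hS))
    rw [← h1]
    refine integral_congr_ae (ae_of_all _ fun U => ?_)
    change (F U + H U) * _ = F U * _ + H U * _
    ring
  · intro c' F
    unfold tE
    rw [← mul_div_assoc, ← integral_const_mul]
    congr 1
    refine integral_congr_ae (ae_of_all _ fun U => ?_)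
    change (c' * F U) * _ = c' * (F U * _)
    ring
  · intro F hF
    unfold tE
    exact div_nonneg (integral_nonneg fun U => mul_nonneg (hF U) (Real.exp_pos _).le) hZ.le
  · unfold tE
    rw [div_eq_one_iff_eq hZ.ne']
    unfold tZ
    simp only [one_mul]

omit [MeasurableSpace G] [BorelSpace G] in
lemma DT_sum (B : LieBasis G n) (p : Q.P) (a : Fin n) : ∑ w, |DT Q κ B p a w| ≤ 3 + n := by
  have h : ∀ w : Q.L × Fin n, |DT Q κ B p a w| ≤ ((if Q.wd p 0 = some w.1 then 1 else 0) +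
      (if Q.wd p 1 = some w.1 then 1 else 0) + (if Q.wd p 3 = some w.1 then 1 else 0)) *
      (if a = w.2 then 1 else 0) + (if Q.wd p 2 = some w.1 then 1 else 0) := by
    intro w
    unfold DT
    have h0 : (0 : ℝ) ≤ (if Q.wd p 0 = some w.1 then 1 else 0) := by split_ifs <;> norm_num
    have h1 : (0 : ℝ) ≤ (if Q.wd p 1 = some w.1 then 1 else 0) := by split_ifs <;> norm_num
    have h2 : (0 : ℝ) ≤ (if Q.wd p 2 = some w.1 then 1 else 0) := by split_ifs <;> norm_num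
    have h3 : (0 : ℝ) ≤ (if Q.wd p 3 = some w.1 then 1 else 0) := by split_ifs <;> norm_num
    have h4 : (0 : ℝ) ≤ (if a = w.2 then 1 else 0) := by split_ifs <;> norm_num
    have h5 := Ado_le B (κ p) a w.2
    refine (abs_sub _ _).trans ?_
    rw [abs_mul, abs_mul, abs_of_nonneg h4, abs_of_nonneg h2]
    refine add_le_add (mul_le_mul_of_nonneg_right ?_ h4) ?_
    · rw [abs_le]
      constructor <;> linarith
    · exact mul_le_of_le_one_right h2 h5
  refine (Finset.sum_le_sum fun w _ => h w).trans ?_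
  rw [Finset.sum_add_distrib, Fintype.sum_prod_type, Fintype.sum_prod_type]
  have h0 := Est.sum_ite_le (Q.wd p 0)
  have h1 := Est.sum_ite_le (Q.wd p 1)
  have h2 := Est.sum_ite_le (Q.wd p 2)
  have h3 := Est.sum_ite_le (Q.wd p 3)
  refine add_le_add ?_ ?_
  · have e : ∀ x : Q.L, ∑ y : Fin n, ((if Q.wd p 0 = some x then (1 : ℝ) else 0) +
        (if Q.wd p 1 = some x then 1 else 0) + (if Q.wd p 3 = some x then 1 else 0)) *
        (if a = y then 1 else 0) = (if Q.wd p 0 = some x then (1 : ℝ) else 0) +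
        (if Q.wd p 1 = some x then 1 else 0) + (if Q.wd p 3 = some x then 1 else 0) := by
      intro x
      rw [← Finset.mul_sum, Finset.sum_ite_eq Finset.univ a]
      simp
    simp only [e]
    rw [Finset.sum_add_distrib, Finset.sum_add_distrib]
    linarith
  · rw [Finset.sum_comm]
    refine (Finset.sum_le_sum fun _ _ => h2).trans ?_
    simp

end est

theorem t_est {N n : ℕ} (G : Subgroup (UU N)) (hG : IsClosed (G : Set (UU N)))
    [MeasurableSpace G] [BorelSpace G] (μ : Measure G) [IsProbabilityMeasure μ] [μ.IsHaarMeasure]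
    (B : LieBasis G n) : ∃ (C : ℝ) (K : ℕ), 1 ≤ C ∧ 1 ≤ K ∧ ∀ (Q : Sys) (κ : Q.P → G),
    (∀ w, κ (Q.bp w) = 1) → ∀ m : ℕ, 1 ≤ m →
    Fintype.card Q.L ≤ m → Fintype.card Q.P ≤ m → ∀ x : ℝ, 0 ≤ x → x ≤ 1 → ∀ β : ℝ, 3 ≤ β →
    ∀ p : Q.P, |β * tE Q κ μ (Q.cp x) β (fun U => we (tplq Q κ U p)) -
      1 / 2 * ∑ a, ∑ w, ∑ w', DT Q κ B p a w * (tH Q κ B (Q.cp x))⁻¹ w w' * DT Q κ B p a w'| ≤
      C * ((m : ℝ) * Real.log β) ^ K / Real.sqrt β := by
  obtain ⟨C1, hC1, H1⟩ := t_mom G hG μ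
  obtain ⟨C2, hC2, H2⟩ := t_tay hG B
  obtain ⟨C3, hC3, H3⟩ := Tay.t_TAY G hG B
  obtain ⟨C, hCd⟩ : ∃ C, C = max C1 (max C2 C3) := ⟨_, rfl⟩
  have hC : 1 ≤ C := by rw [hCd]; exact le_max_of_le_left hC1
  have hCC1 : C1 ≤ C := by rw [hCd]; exact le_max_left _ _
  have hCC2 : C2 ≤ C := by rw [hCd]; exact (le_max_left _ _).trans (le_max_right _ _)
  have hCC3 : C3 ≤ C := by rw [hCd]; exact (le_max_right _ _).trans (le_max_right _ _)
  have hn0 : (0 : ℝ) ≤ n := by positivity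
  refine ⟨(1 + n * (n + 1) ^ 2) * (((1 + 16 * 1) * C ^ 3) * (n + 1) ^ 12), 12, ?_, by norm_num, ?_⟩
  · have a1 : (1 : ℝ) ≤ (n + 1) ^ 12 := one_le_pow₀ (by linarith)
    have a2 : (1 : ℝ) ≤ C ^ 3 := one_le_pow₀ hC
    have a3 : (0 : ℝ) ≤ n * (n + 1) ^ 2 := by positivity
    exact one_le_mul_of_one_le_of_one_le (by linarith)
      (one_le_mul_of_one_le_of_one_le (by linarith) a1)
  intro Q κ hκ m hm hL hP x hx0 hx1 β hβ p
  have hm' : (1 : ℝ) ≤ m := by exact_mod_cast hm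
  have hlog : 0 ≤ Real.log β := Real.log_nonneg (by linarith)
  obtain ⟨m', hm'd⟩ : ∃ m' : ℕ, m' = (n + 1) * m := ⟨_, rfl⟩
  have hmm : m ≤ m' := by rw [hm'd]; exact Nat.le_mul_of_pos_left _ (by omega)
  have hmR : (m : ℝ) ≤ m' := by exact_mod_cast hmm
  have hm'1 : 1 ≤ m' := by omega
  have hm'R : (1 : ℝ) ≤ m' := by exact_mod_cast hm'1
  obtain ⟨s, hs⟩ : ∃ s, s = Real.sqrt (C * (m' : ℝ) ^ 6 * Real.log β / β) := ⟨_, rfl⟩
  have hs0 : 0 ≤ s := by rw [hs]; exact Real.sqrt_nonneg _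
  have hss : Real.sqrt (C1 * (m : ℝ) ^ 6 * Real.log β / β) ≤ s := by
    rw [hs]
    refine Real.sqrt_le_sqrt ?_
    gcongr
  have hE := texq Q κ μ hG (Q.cp x) β
  have hpd := tposDef B Q κ hκ hx0
  have hKb := tinv_le B Q κ hκ hx0
  obtain ⟨t1, t4⟩ : _ ∧ _ := by
    have := H2 Q κ m hm hP x hx0 hx1
    exact ⟨fun U => (this U).1, fun U => (this U).2⟩
  obtain ⟨t2, t3⟩ : _ ∧ _ := by
    have := H3 Q m hm hL hP x hx0 hx1
    exact ⟨fun U => (this U).2.1, fun U => (this U).2.2.1⟩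
  have hdet : IsUnit (tH Q κ B (Q.cp x)).det := isUnit_iff_ne_zero.2 hpd.det_pos.ne'
  have hr0 : ∀ U : Q.L → G, 0 ≤ Q.r U := fun U => Finset.sum_nonneg fun w _ => norm_nonneg _
  have hLm : ((Fintype.card Q.L : ℕ) : ℝ) ≤ m := by exact_mod_cast hL
  have hLm' : ((Fintype.card (Q.L × Fin n) : ℕ) : ℝ) ≤ m' := by
    rw [Fintype.card_prod, Fintype.card_fin, hm'd]
    have : Fintype.card Q.L * n ≤ (n + 1) * m := by nlinarith
    exact_mod_cast this
  have hr1 : tE Q κ μ (Q.cp x) β (fun U : Q.L → G => Q.r U) ≤ s := by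
    have h := H1 Q κ hκ m hm hL hP x hx0 hx1 β hβ 1 (by norm_num)
    simp only [pow_one] at h
    exact h.trans hss
  have hr3 : tE Q κ μ (Q.cp x) β (fun U : Q.L → G => Q.r U ^ 3) ≤ s ^ 3 := by
    have h := H1 Q κ hκ m hm hL hP x hx0 hx1 β hβ 3 (by norm_num)
    exact h.trans (pow_le_pow_left₀ (Real.sqrt_nonneg _) hss 3)
  have hcrd : ∀ w : Q.L × Fin n, Continuous fun U : Q.L → G => crd B (U w.1) w.2 :=
    fun w => (t_ibp G hG μ B Q κ (Q.cp x) β w.1 w.2 w.1 w.2).2.2.2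
  have hr3c : Continuous fun U : Q.L → G => Q.r U ^ 3 := (Est.r_cont Q).pow 3
  -- one colour
  have key : ∀ a : Fin n, |β * tE Q κ μ (Q.cp x) β (fun U => 1 / 2 *
        (∑ w, DT Q κ B p a w * crd B (U w.1) w.2) ^ 2) -
      1 / 2 * ∑ w, ∑ w', DT Q κ B p a w * (tH Q κ B (Q.cp x))⁻¹ w w' * DT Q κ B p a w'| ≤
      (n + 1) ^ 2 * (((1 + 16 * (1 : ℕ)) * C ^ 3) * ((m' : ℝ) * Real.log β) ^ 12 / Real.sqrt β) := by
    intro a
    have hwc : Continuous fun U : Q.L → G => 1 / 2 *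
        (∑ w, DT Q κ B p a w / (n + 1) * crd B (U w.1) w.2) ^ 2 :=
      continuous_const.mul ((continuous_finsetSum _ fun w _ =>
        continuous_const.mul (hcrd w)).pow 2)
    have k := Est.core hE (n := 1) (tH Q κ B (Q.cp x)) (tH Q κ B (Q.cp x))⁻¹
      (Matrix.nonsing_inv_mul _ hdet) m' hm'R hLm'
      (fun i j => (hKb i j).trans (hLm.trans hmR)) (fun w _ U => crd B (U w.1) w.2)
      (fun w _ => dl B w.1 w.2 (tS Q κ (Q.cp x)))
      (fun w w' _ => dl B w.1 w.2 (fun U : Q.L → G => crd B (U w'.1) w'.2)) Q.r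
      (fun U => 1 / 2 * (∑ w, DT Q κ B p a w / (n + 1) * crd B (U w.1) w.2) ^ 2)
      (fun w _ => hcrd w)
      (fun w _ => (t_ibp G hG μ B Q κ (Q.cp x) β w.1 w.2 w.1 w.2).2.2.1)
      (fun w w' _ => (t_ibp G hG μ B Q κ (Q.cp x) β w.1 w.2 w'.1 w'.2).2.1)
      (Est.r_cont Q) hwc C s β hC (by linarith) hs0 hr0
      (fun w _ U => (t1 U w.1 w.2).trans (by have := hr0 U; gcongr))
      (fun w _ U => t2 U w.1 w.2)
      (fun w w' _ U => by
        have h := t3 U w.1 w.2 w'.1 w'.2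
        have e : (if w = w' then (1 : ℝ) else 0) = if w.1 = w'.1 ∧ w.2 = w'.2 then 1 else 0 := by
          simp only [Prod.ext_iff]
        rw [e]
        exact h.trans (by have := hr0 U; gcongr))
      (fun w w' _ => (t_ibp G hG μ B Q κ (Q.cp x) β w.1 w.2 w'.1 w'.2).1)
      hr1 hr3 (fun w => DT Q κ B p a w / (n + 1))
      (by
        simp only [abs_div]
        rw [← Finset.sum_div, div_le_iff₀ (by rw [abs_of_pos (by linarith)]; linarith),
          abs_of_pos (by linarith : (0 : ℝ) < n + 1)]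
        exact (DT_sum Q κ B p a).trans (by linarith))
      (fun U => by
        simp only [Finset.univ_unique, Finset.sum_singleton, sub_self, abs_zero]
        have := hr0 U
        positivity)
    have k2 := k.trans (Est.arith C hC m' hm'1 β hβ 1 s hs)
    have e1 : tE Q κ μ (Q.cp x) β (fun U => 1 / 2 *
        (∑ w, DT Q κ B p a w * crd B (U w.1) w.2) ^ 2) = (n + 1) ^ 2 *
        tE Q κ μ (Q.cp x) β (fun U => 1 / 2 *
        (∑ w, DT Q κ B p a w / (n + 1) * crd B (U w.1) w.2) ^ 2) := by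
      rw [← hE.smul]
      congr 1
      funext U
      have : ∑ w, DT Q κ B p a w * crd B (U w.1) w.2 =
          (n + 1) * ∑ w, DT Q κ B p a w / (n + 1) * crd B (U w.1) w.2 := by
        rw [Finset.mul_sum]
        refine Finset.sum_congr rfl fun w _ => ?_
        field_simp
      rw [this]
      ring
    have e2 : ∑ w, ∑ w', DT Q κ B p a w * (tH Q κ B (Q.cp x))⁻¹ w w' * DT Q κ B p a w' =
        (n + 1) ^ 2 * ∑ w, ∑ w', DT Q κ B p a w / (n + 1) * (tH Q κ B (Q.cp x))⁻¹ w w' *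
          (DT Q κ B p a w' / (n + 1)) := by
      rw [Finset.mul_sum]
      refine Finset.sum_congr rfl fun w _ => ?_
      rw [Finset.mul_sum]
      refine Finset.sum_congr rfl fun w' _ => ?_
      field_simp
    rw [e1, e2]
    have e3 : β * ((n + 1) ^ 2 * tE Q κ μ (Q.cp x) β (fun U => 1 / 2 *
        (∑ w, DT Q κ B p a w / (n + 1) * crd B (U w.1) w.2) ^ 2)) -
        1 / 2 * ((n + 1) ^ 2 * ∑ w, ∑ w', DT Q κ B p a w / (n + 1) *
          (tH Q κ B (Q.cp x))⁻¹ w w' * (DT Q κ B p a w' / (n + 1))) =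
        (n + 1) ^ 2 * (β * tE Q κ μ (Q.cp x) β (fun U => 1 / 2 *
        (∑ w, DT Q κ B p a w / (n + 1) * crd B (U w.1) w.2) ^ 2) -
        ((1 : ℕ) : ℝ) / 2 * ∑ w, ∑ w', DT Q κ B p a w / (n + 1) *
          (tH Q κ B (Q.cp x))⁻¹ w w' * (DT Q κ B p a w' / (n + 1))) := by
      push_cast
      ring
    rw [e3, abs_mul, abs_of_nonneg (by positivity : (0 : ℝ) ≤ (n + 1) ^ 2)]
    exact mul_le_mul_of_nonneg_left k2 (by positivity)
  obtain ⟨R, hR⟩ : ∃ R, R = ((1 + 16 * (1 : ℕ)) * C ^ 3) * ((m' : ℝ) * Real.log β) ^ 12 /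
    Real.sqrt β := ⟨_, rfl⟩
  rw [← hR] at key
  -- Taylor
  have s3 : tE Q κ μ (Q.cp x) β (fun U => 1 / 2 *
      ∑ a, (∑ w, DT Q κ B p a w * crd B (U w.1) w.2) ^ 2) =
      ∑ a, tE Q κ μ (Q.cp x) β (fun U => 1 / 2 *
      (∑ w, DT Q κ B p a w * crd B (U w.1) w.2) ^ 2) := by
    have h := Est.sum_lin hE Finset.univ (fun _ => 1) (fun a (U : Q.L → G) => 1 / 2 *
      (∑ w, DT Q κ B p a w * crd B (U w.1) w.2) ^ 2) (fun a => continuous_const.mul
        ((continuous_finsetSum _ fun w _ => continuous_const.mul (hcrd w)).pow 2))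
    simp only [one_mul] at h
    rw [← h]
    congr 1
    funext U
    rw [Finset.mul_sum]
  have s4 := Est.absle hE (F := fun U : Q.L → G => we (tplq Q κ U p)) (H := fun U => 1 / 2 *
      ∑ a, (∑ w, DT Q κ B p a w * crd B (U w.1) w.2) ^ 2)
    (R := fun U => Q.r U ^ 3) (Est.we_cont.comp (tplq_cont Q κ p))
    (continuous_const.mul (continuous_finsetSum _ fun a _ =>
        (continuous_finsetSum _ fun w _ => continuous_const.mul (hcrd w)).pow 2)) hr3c C
    (fun U => (t4 U p).trans (by have := hr0 U; gcongr))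
  have hβ0 : 0 ≤ β := by linarith
  have s5 : |β * tE Q κ μ (Q.cp x) β (fun U => we (tplq Q κ U p)) -
      β * ∑ a, tE Q κ μ (Q.cp x) β (fun U => 1 / 2 *
      (∑ w, DT Q κ B p a w * crd B (U w.1) w.2) ^ 2)| ≤ R := by
    rw [← s3, ← mul_sub, abs_mul, abs_of_nonneg hβ0]
    have hA := Est.arith C hC m' hm'1 β hβ 1 s hs
    rw [← hR] at hA
    have hA2 : 0 ≤ 8 * ((1 : ℕ) : ℝ) * (m' : ℝ) ^ 2 * (C * s + C * m' * (β * s ^ 3)) := by
      positivity
    have hA3 : β * |tE Q κ μ (Q.cp x) β (fun U => we (tplq Q κ U p)) -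
      tE Q κ μ (Q.cp x) β (fun U => 1 / 2 *
      ∑ a, (∑ w, DT Q κ B p a w * crd B (U w.1) w.2) ^ 2)| ≤ β * (C * s ^ 3) :=
      mul_le_mul_of_nonneg_left (s4.trans (mul_le_mul_of_nonneg_left hr3 (by linarith))) hβ0
    have hA4 : β * (C * s ^ 3) = C * (β * s ^ 3) := by ring
    linarith
  have s6 : |β * ∑ a, tE Q κ μ (Q.cp x) β (fun U => 1 / 2 *
      (∑ w, DT Q κ B p a w * crd B (U w.1) w.2) ^ 2) -
      1 / 2 * ∑ a, ∑ w, ∑ w', DT Q κ B p a w * (tH Q κ B (Q.cp x))⁻¹ w w' * DT Q κ B p a w'| ≤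
      n * ((n + 1) ^ 2 * R) := by
    rw [Finset.mul_sum, Finset.mul_sum, ← Finset.sum_sub_distrib]
    refine (Finset.abs_sum_le_sum_abs _ _).trans ?_
    refine (Finset.sum_le_sum fun a _ => key a).trans ?_
    rw [Finset.sum_const, Finset.card_univ, Fintype.card_fin, nsmul_eq_mul]
  have s7 := abs_sub_le (β * tE Q κ μ (Q.cp x) β (fun U => we (tplq Q κ U p)))
    (β * ∑ a, tE Q κ μ (Q.cp x) β (fun U => 1 / 2 *
      (∑ w, DT Q κ B p a w * crd B (U w.1) w.2) ^ 2))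
    (1 / 2 * ∑ a, ∑ w, ∑ w', DT Q κ B p a w * (tH Q κ B (Q.cp x))⁻¹ w w' * DT Q κ B p a w')
  have e : (1 + n * (n + 1) ^ 2) * (((1 + 16 * 1) * C ^ 3) * (n + 1) ^ 12) *
      ((m : ℝ) * Real.log β) ^ 12 / Real.sqrt β = (1 + n * (n + 1) ^ 2) * R := by
    rw [hR, hm'd]
    push_cast
    ring
  rw [e]
  linarith

/-! ### The partition function -/

section base

variable {N n : ℕ} {G : Subgroup (UU N)} (Q : Sys) (κ : Q.P → G)

theorem tS_zero (hκ : ∀ w, κ (Q.bp w) = 1) (U : Q.L → G) :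
    tS Q κ (Q.cp 0) U = Q.S we (Q.cp 0) U := by
  unfold tS Sys.S
  refine Finset.sum_congr rfl fun p _ => ?_
  by_cases h : ∃ w, Q.bp w = p
  · obtain ⟨w, rfl⟩ := h
    congr 2
    unfold tplq Sys.plq
    rw [hκ, one_mul, inv_one, mul_one]
  · unfold Sys.cp
    rw [if_neg h, zero_mul, zero_mul]

theorem tS_eq (x : ℝ) (U : Q.L → G) :
    tS Q κ (Q.cp x) U = tS Q κ (Gauss.cb Q) U + x * tS Q κ (Gauss.cn Q) U := by
  unfold tS
  rw [Finset.mul_sum, ← Finset.sum_add_distrib]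
  refine Finset.sum_congr rfl fun p _ => ?_
  rw [Gauss.cp_eq]
  ring

theorem tH_eq (B : LieBasis G n) (x : ℝ) : tH Q κ B (Q.cp x) =
    tH Q κ B (Gauss.cb Q) + x • tH Q κ B (Gauss.cn Q) := by
  ext w w'
  simp only [tH, Matrix.add_apply, Matrix.smul_apply, smul_eq_mul]
  rw [Finset.mul_sum, ← Finset.sum_add_distrib]
  refine Finset.sum_congr rfl fun p _ => ?_
  rw [Gauss.cp_eq]
  ring

theorem ttr_eq (B : LieBasis G n) (M : Matrix (Q.L × Fin n) (Q.L × Fin n) ℝ) :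
    trace (M * tH Q κ B (Gauss.cn Q)) =
    ∑ p, Gauss.cn Q p * ∑ a, ∑ w, ∑ w', DT Q κ B p a w * M w w' * DT Q κ B p a w' := by
  simp only [Matrix.trace, Matrix.diag, Matrix.mul_apply, tH, Finset.mul_sum]
  rw [Finset.sum_congr rfl fun w _ => Finset.sum_comm, Finset.sum_comm]
  refine Finset.sum_congr rfl fun p _ => ?_
  have h1 : ∀ w : Q.L × Fin n, ∑ w', ∑ a, M w w' * (Gauss.cn Q p * (DT Q κ B p a w' * DT Q κ B p a w)) =
      ∑ a, ∑ w', M w w' * (Gauss.cn Q p * (DT Q κ B p a w' * DT Q κ B p a w)) :=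
    fun w => Finset.sum_comm
  rw [Finset.sum_congr rfl fun w _ => h1 w, Finset.sum_comm]
  refine Finset.sum_congr rfl fun a _ => Finset.sum_congr rfl fun w _ =>
    Finset.sum_congr rfl fun w' _ => ?_
  ring

variable [MeasurableSpace G] [BorelSpace G] (μ : Measure G) [IsProbabilityMeasure μ]

/-- the derivative of the interpolation -/
theorem tF_deriv (hG : IsClosed (G : Set (UU N))) (β x : ℝ) :
    0 < tZ Q κ μ (Q.cp x) β ∧
    HasDerivAt (fun x => Real.log (tZ Q κ μ (Q.cp x) β))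
      (-∑ p, Gauss.cn Q p * (β * tE Q κ μ (Q.cp x) β (fun U => we (tplq Q κ U p)))) x := by
  have := Est.compactG hG
  have : SecondCountableTopology G := Est.scG
  have hZ : ∀ x, tZ Q κ μ (Q.cp x) β = ∫ U : Q.L → G, Real.exp (-(β * (tS Q κ (Gauss.cb Q) U +
      x * tS Q κ (Gauss.cn Q) U))) ∂(Measure.pi fun _ => μ) := by
    intro x
    unfold tZ
    simp only [tS_eq]
  obtain ⟨h1, h2⟩ := Gauss.log_deriv (Measure.pi fun _ : Q.L => μ) (tS_cont Q κ (Gauss.cb Q))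
    (tS_cont Q κ (Gauss.cn Q)) β x
  simp only [hZ]
  refine ⟨h1, h2.congr_deriv ?_⟩
  congr 1
  have h3 : ∫ U : Q.L → G, tS Q κ (Gauss.cn Q) U * Real.exp (-(β * (tS Q κ (Gauss.cb Q) U +
      x * tS Q κ (Gauss.cn Q) U))) ∂(Measure.pi fun _ => μ) =
      ∑ p, Gauss.cn Q p * ∫ U : Q.L → G, we (tplq Q κ U p) * Real.exp (-(β * tS Q κ (Q.cp x) U))
        ∂(Measure.pi fun _ => μ) := by
    simp only [tS_eq]
    have h4 : ∀ p, Gauss.cn Q p * ∫ U : Q.L → G, we (tplq Q κ U p) *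
        Real.exp (-(β * (tS Q κ (Gauss.cb Q) U + x * tS Q κ (Gauss.cn Q) U)))
        ∂(Measure.pi fun _ => μ) =
        ∫ U : Q.L → G, Gauss.cn Q p * (we (tplq Q κ U p) *
        Real.exp (-(β * (tS Q κ (Gauss.cb Q) U + x * tS Q κ (Gauss.cn Q) U))))
        ∂(Measure.pi fun _ => μ) := fun p => (integral_const_mul _ _).symm
    simp only [h4]
    rw [← integral_finsetSum]
    · refine integral_congr_ae (Eventually.of_forall fun U => ?_)
      show (∑ p, Gauss.cn Q p * we (tplq Q κ U p)) * _ = _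
      rw [Finset.sum_mul]
      exact Finset.sum_congr rfl fun p _ => by ring
    · intro p _
      apply Gauss.int_of_cont
      have k1 := Est.we_cont.comp (tplq_cont Q κ p)
      have k2 := tS_cont Q κ (Gauss.cb Q)
      have k3 := tS_cont Q κ (Gauss.cn Q)
      exact continuous_const.mul (k1.mul (Real.continuous_exp.comp
        (continuous_const.mul (k2.add (continuous_const.mul k3))).neg))
  rw [h3, Finset.sum_div, Finset.mul_sum]
  refine Finset.sum_congr rfl fun p _ => ?_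
  unfold tE
  rw [hZ]
  ring

end base

/-- the asymptotics of the partition functions with a twist -/
theorem t_gauss {N n : ℕ} (G : Subgroup (UU N)) (hG : IsClosed (G : Set (UU N)))
    [MeasurableSpace G] [BorelSpace G] (μ : Measure G) [IsProbabilityMeasure μ] [μ.IsHaarMeasure]
    (B : LieBasis G n) : ∃ (C : ℝ) (K : ℕ), 1 ≤ C ∧ 1 ≤ K ∧ ∀ (Q : Sys) (κ : Q.P → G),
    (∀ w, κ (Q.bp w) = 1) → ∀ m : ℕ, 1 ≤ m →
    Fintype.card Q.L ≤ m → Fintype.card Q.P ≤ m → ∀ β : ℝ, 3 ≤ β →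
    0 < tZ Q κ μ (fun _ => 1) β ∧ 0 < (tH Q κ B fun _ => 1).det ∧
    |Real.log (tZ Q κ μ (fun _ => 1) β) - Fintype.card Q.L * Real.log (kap μ (we (G := G)) β) +
      1 / 2 * Real.log (tH Q κ B fun _ => 1).det| ≤
      C * ((m : ℝ) * Real.log β) ^ K / Real.sqrt β := by
  obtain ⟨C, K, hC, hK, hE⟩ := t_est G hG μ B
  have hcG := Est.compactG hG
  have hsG : SecondCountableTopology G := Est.scG
  have hri := Gauss.right_inv μ
  have hii := Gauss.inv_inv' μ
  refine ⟨C, K + 1, hC, by omega, fun Q κ hκ m hm hL hP β hβ => ?_⟩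
  have hdet0 := tdet_zero B Q κ hκ
  have hmR : (1 : ℝ) ≤ m := by exact_mod_cast hm
  have hlog : 1 ≤ Real.log β := by
    rw [Real.le_log_iff_exp_le (by linarith)]
    have := Real.exp_one_lt_d9
    linarith
  have hml : 1 ≤ (m : ℝ) * Real.log β := one_le_mul_of_one_le_of_one_le hmR hlog
  obtain ⟨g, hg⟩ : ∃ g : ℝ → ℝ, g = fun x => Real.log (tZ Q κ μ (Q.cp x) β) +
    1 / 2 * Real.log (tH Q κ B (Q.cp x)).det := ⟨_, rfl⟩
  obtain ⟨b, hb⟩ : ∃ b : ℝ, b = C * ((m : ℝ) * Real.log β) ^ K / Real.sqrt β := ⟨_, rfl⟩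
  have hb0 : 0 ≤ b := by
    rw [hb]
    positivity
  obtain ⟨g', hg'⟩ : ∃ g' : ℝ → ℝ, g' = fun x => -∑ p, Gauss.cn Q p *
    (β * tE Q κ μ (Q.cp x) β (fun U => we (tplq Q κ U p)) -
      1 / 2 * ∑ a, ∑ w, ∑ w', DT Q κ B p a w * (tH Q κ B (Q.cp x))⁻¹ w w' * DT Q κ B p a w') :=
    ⟨_, rfl⟩
  have hder : ∀ x ∈ Set.Icc (0 : ℝ) 1, HasDerivAt g (g' x) x := by
    intro x hx
    obtain ⟨-, h1⟩ := tF_deriv Q κ μ hG β x
    have hpd := (tposDef B Q κ hκ hx.1).det_pos
    rw [tH_eq] at hpd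
    have h2 := (Gauss.det_deriv (tH Q κ B (Gauss.cb Q)) (tH Q κ B (Gauss.cn Q)) x hpd.ne').log
      hpd.ne'
    rw [hg]
    have h3 : (fun x => Real.log (tZ Q κ μ (Q.cp x) β) +
        1 / 2 * Real.log (tH Q κ B (Q.cp x)).det) =
        fun x => Real.log (tZ Q κ μ (Q.cp x) β) +
        1 / 2 * Real.log (tH Q κ B (Gauss.cb Q) + x • tH Q κ B (Gauss.cn Q)).det := by
      funext y
      rw [tH_eq]
    rw [h3]
    refine (h1.add (h2.const_mul (1 / 2 : ℝ))).congr_deriv ?_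
    rw [mul_div_assoc, mul_comm (det _) (_ / _), div_mul_cancel₀ _ hpd.ne', ← tH_eq, ttr_eq, hg']
    simp only [mul_sub, Finset.sum_sub_distrib, Finset.mul_sum, neg_sub]
    rw [neg_add_eq_sub]
    congr 1
    refine Finset.sum_congr rfl fun p _ => Finset.sum_congr rfl fun a _ =>
      Finset.sum_congr rfl fun w _ => Finset.sum_congr rfl fun w' _ => ?_
    ring
  have hbd : ∀ x ∈ Set.Icc (0 : ℝ) 1, |g' x| ≤ m * b := by
    intro x hx
    rw [hg']
    simp only [abs_neg]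
    calc |∑ p, Gauss.cn Q p * (β * tE Q κ μ (Q.cp x) β (fun U => we (tplq Q κ U p)) -
          1 / 2 * ∑ a, ∑ w, ∑ w', DT Q κ B p a w * (tH Q κ B (Q.cp x))⁻¹ w w' * DT Q κ B p a w')|
        ≤ ∑ p : Q.P, |Gauss.cn Q p * (β * tE Q κ μ (Q.cp x) β (fun U => we (tplq Q κ U p)) -
          1 / 2 * ∑ a, ∑ w, ∑ w', DT Q κ B p a w * (tH Q κ B (Q.cp x))⁻¹ w w' *
            DT Q κ B p a w')| :=
          Finset.abs_sum_le_sum_abs _ _
      _ ≤ ∑ _p : Q.P, b := by
          refine Finset.sum_le_sum fun p _ => ?_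
          rw [abs_mul]
          have h1 := hE Q κ hκ m hm hL hP x hx.1 hx.2 β hβ p
          rw [← hb] at h1
          calc _ ≤ 1 * b := mul_le_mul (Gauss.cn_abs Q p) h1 (abs_nonneg _) zero_le_one
            _ = b := one_mul b
      _ = Fintype.card Q.P * b := by
          rw [Finset.sum_const, Finset.card_univ, nsmul_eq_mul]
      _ ≤ m * b := by
          have : (Fintype.card Q.P : ℝ) ≤ m := by exact_mod_cast hP
          exact mul_le_mul_of_nonneg_right this hb0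
  have hmv := norm_image_sub_le_of_norm_deriv_le_segment_01' (f := g) (f' := g') (C := m * b)
    (fun x hx => (hder x hx).hasDerivWithinAt)
    (fun x hx => by rw [Real.norm_eq_abs]; exact hbd x ⟨hx.1, hx.2.le⟩)
  have g1 : g 1 = Real.log (tZ Q κ μ (fun _ => 1) β) +
      1 / 2 * Real.log (tH Q κ B fun _ => 1).det := by
    rw [hg]
    simp only [Gauss.cp_one]
  have hZ0 : tZ Q κ μ (Q.cp 0) β = Q.Z μ we (Q.cp 0) β := by
    unfold tZ Sys.Z
    simp only [tS_zero Q κ hκ]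
  have g0 : g 0 = Fintype.card Q.L * Real.log (kap μ (we (G := G)) β) := by
    rw [hg]
    simp only [hdet0, Real.log_one, mul_zero, add_zero]
    rw [hZ0, Base.t_BASE G μ we Est.we_cont Gauss.we_inv Q β, Real.log_pow]
  rw [g1, g0, Real.norm_eq_abs] at hmv
  have e1 : Real.log (tZ Q κ μ (fun _ => 1) β) - Fintype.card Q.L * Real.log (kap μ (we (G := G)) β) +
      1 / 2 * Real.log (tH Q κ B fun _ => 1).det = Real.log (tZ Q κ μ (fun _ => 1) β) +
      1 / 2 * Real.log (tH Q κ B fun _ => 1).det -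
      Fintype.card Q.L * Real.log (kap μ (we (G := G)) β) := by ring
  refine ⟨?_, ?_, ?_⟩
  · have := (tF_deriv Q κ μ hG β 1).1
    rwa [Gauss.cp_one] at this
  · have := (tposDef B Q κ hκ zero_le_one).det_pos
    rwa [Gauss.cp_one] at this
  rw [e1]
  refine hmv.trans ?_
  rw [hb, pow_succ]
  have h5 : (m : ℝ) ≤ m * Real.log β := le_mul_of_one_le_right (by linarith) hlog
  have h6 : 0 ≤ C * ((m : ℝ) * Real.log β) ^ K / Real.sqrt β := by
    have : 0 ≤ C := by linarith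
    have : 0 ≤ (m : ℝ) * Real.log β := by linarith
    positivity
  calc (m : ℝ) * (C * ((m : ℝ) * Real.log β) ^ K / Real.sqrt β)
      ≤ (m * Real.log β) * (C * ((m : ℝ) * Real.log β) ^ K / Real.sqrt β) :=
        mul_le_mul_of_nonneg_right h5 h6
    _ = C * (((m : ℝ) * Real.log β) ^ K * ((m : ℝ) * Real.log β)) / Real.sqrt β := by ring

end

end Pool.Agent.H991.DC
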