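import Mathlib
import Pool.Agent.H991.DC.TG
import Pool.Agent.H991.DC.TDet2
import Pool.Graph.R_pool_sql_team_seeded_63374d34.N899.BB.Tree
import Pool.Graph.R_pool_sql_team_seeded_63374d34.N899.BB.Dia
import Pool.Graph.R_pool_sql_team_seeded_63374d34.N899.BB.Low
import Pool.Graph.R_pool_sql_team_seeded_63374d34.N899.BB.Asm1

/-!
# Gauge fixing: the law of the Polyakov loop over the root
-/

open MeasureTheory Matrix
open Pool.Agent.N899.BB Pool.Agent.N899.BB.Tree Pool.Agent.N899.BB.Alg
open Pool.Agent.Y14.Wilson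

namespace Pool.Agent.H991.DC

noncomputable section

section defs

variable {Y : Cx} {t : ℕ} [NeZero t] {G : Type} [Group G]

/-- the edges in the slices -/
def eL (e : Y.E) (s : ZMod t) : (Y.prod (cyc t)).E := (Sum.inl (e, s) : PE Y t)

/-- the edges between the slices -/
def eR (v : Y.V) (s : ZMod t) : (Y.prod (cyc t)).E := (Sum.inr (v, s) : PE Y t)

lemma e_cases (e : (Y.prod (cyc t)).E) : (∃ e' s, e = eL (Y := Y) (t := t) e' s) ∨
    ∃ v s, e = eR (Y := Y) (t := t) v s := by
  rcases e with ⟨e, s⟩ | ⟨v, s⟩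
  · exact Or.inl ⟨e, s, rfl⟩
  · exact Or.inr ⟨v, s, rfl⟩

lemma eL_ne (e : Y.E) (s : ZMod t) (v : Y.V) (s' : ZMod t) : eL e s ≠ eR v s' := by
  intro h
  cases h

lemma eR_inj {v v' : Y.V} {s s' : ZMod t} (h : eR v s = eR v' s') : v = v' ∧ s = s' := by
  have h1 : (Sum.inr (v, s) : PE Y t) = Sum.inr (v', s') := h
  have h2 := Sum.inr.inj h1
  exact ⟨congrArg Prod.fst h2, congrArg Prod.snd h2⟩

/-- the Polyakov loop over a vertex -/
def polR (ρ : Y.V) (U : (Y.prod (cyc t)).E → G) : G :=
  ((List.range t).map fun τ : ℕ => U (eR ρ (τ : ZMod t))).prod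

/-- the gauge of the first step -/
def gA (ρ : Y.V) (U : (Y.prod (cyc t)).E → G) (τ : ZMod t) : G :=
  ((List.range τ.val).map fun s : ℕ => U (eR ρ (s : ZMod t))).prod

lemma gA_zero (ρ : Y.V) (U : (Y.prod (cyc t)).E → G) : gA ρ U 0 = 1 := by
  unfold gA
  rw [ZMod.val_zero]
  rfl

lemma valz_succ (τ : ZMod t) (h : τ ≠ -1) : (τ + 1).val = τ.val + 1 := by
  have h2 : 1 < t ∨ t = 1 := by
    have := Nat.pos_of_ne_zero (NeZero.ne t)
    omega
  rcases h2 with h2 | h2
  · have : Fact (1 < t) := ⟨h2⟩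
    have h3 : τ.val + 1 < t := by
      have h4 := ZMod.val_lt τ
      rcases Nat.lt_or_ge (τ.val + 1) t with h5 | h5
      · exact h5
      · exfalso
        apply h
        have h6 : τ.val + 1 = t := by omega
        have h7 : τ + 1 = 0 := by
          rw [← ZMod.natCast_zmod_val τ]
          have : ((τ.val : ZMod t) + 1) = ((τ.val + 1 : ℕ) : ZMod t) := by push_cast; ring
          rw [this, h6, ZMod.natCast_self]
        exact eq_neg_of_add_eq_zero_left h7
    rw [ZMod.val_add, ZMod.val_one, Nat.mod_eq_of_lt h3]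
  · subst h2
    exact absurd (Subsingleton.elim τ (-1)) h

lemma val_m1 : ((-1 : ZMod t)).val + 1 = t := by
  obtain ⟨k, rfl⟩ := Nat.exists_eq_succ_of_ne_zero (NeZero.ne t)
  rw [ZMod.val_neg_one]

lemma gA_step (ρ : Y.V) (U : (Y.prod (cyc t)).E → G) (τ : ZMod t) :
    gA ρ U τ * U (eR ρ τ) = ((List.range (τ.val + 1)).map fun s : ℕ => U (eR ρ (s : ZMod t))).prod := by
  unfold gA
  rw [List.range_succ, List.map_append, List.prod_append]
  simp

lemma gA_succ (ρ : Y.V) (U : (Y.prod (cyc t)).E → G) (τ : ZMod t) (h : τ ≠ -1) :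
    gA ρ U τ * U (eR ρ τ) * (gA ρ U (τ + 1))⁻¹ = 1 := by
  rw [gA_step, mul_inv_eq_one]
  unfold gA
  rw [valz_succ τ h]

lemma gA_last (ρ : Y.V) (U : (Y.prod (cyc t)).E → G) :
    gA ρ U (-1) * U (eR ρ (-1)) * (gA ρ U (-1 + 1))⁻¹ = polR ρ U := by
  rw [gA_step, neg_add_cancel, gA_zero, inv_one, mul_one, val_m1]
  rfl

/-- the fixed links of the first step -/
def pA (ρ : Y.V) (t : ℕ) [NeZero t] (e : (Y.prod (cyc t)).E) : Prop :=
  ∃ τ : ZMod t, τ ≠ -1 ∧ e = eR ρ τ

open Classical in
/-- the configuration with the fixed links of the first step -/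
def fixA (ρ : Y.V) (U : (Y.prod (cyc t)).E → G) : (Y.prod (cyc t)).E → G :=
  fun e => if pA ρ t e then 1 else U e

open Classical in
/-- the configuration with the fixed links of the second step -/
def fixB (R : Rt Y) (U : (Y.prod (cyc t)).E → G) : (Y.prod (cyc t)).E → G :=
  fun e => if pA R.root t e ∨ tr R (cyc t) e then 1 else U e

lemma gauA (ρ : Y.V) (U : (Y.prod (cyc t)).E → G) :
    fixA ρ (gau (fun p : (Y.prod (cyc t)).V => gA ρ U (p.2 : ZMod t)) U) =
      gau (fun p : (Y.prod (cyc t)).V => gA ρ U (p.2 : ZMod t)) U := by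
  funext e
  unfold fixA
  split_ifs with h
  · obtain ⟨τ, hτ, rfl⟩ := h
    exact (gA_succ ρ U τ hτ).symm
  · rfl

lemma gauA_last (ρ : Y.V) (U : (Y.prod (cyc t)).E → G) :
    gau (fun p : (Y.prod (cyc t)).V => gA ρ U (p.2 : ZMod t)) U (eR ρ (-1)) = polR ρ U :=
  gA_last ρ U

lemma tr_eL (R : Rt Y) (e : Y.E) (s : ZMod t) : tr R (cyc t) (eL e s) ↔ R.tree e = true := Iff.rfl

lemma tr_eR (R : Rt Y) (v : Y.V) (s : ZMod t) : ¬ tr R (cyc t) (eR v s) := fun h => h

lemma gauB (R : Rt Y) (U : (Y.prod (cyc t)).E → G) :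
    gau (gg R U) (fixA R.root U) = fixB R (gau (gg R U) U) := by
  classical
  funext e
  rcases e_cases e with ⟨e, s, rfl⟩ | ⟨v, s, rfl⟩
  · have h0 : ¬ pA R.root t (eL e s) := by
      rintro ⟨τ, -, h⟩
      exact eL_ne _ _ _ _ h
    by_cases he : R.tree e = true
    · unfold fixB
      rw [if_pos (Or.inr ((tr_eL R e s).2 he))]
      unfold gau fixA
      rw [if_neg h0]
      exact gg_tree R U e he s
    · unfold fixB
      rw [if_neg (not_or.2 ⟨h0, fun h => he ((tr_eL R e s).1 h)⟩)]
      unfold gau fixA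
      rw [if_neg h0]
  · by_cases h0 : pA R.root t (eR v s)
    · unfold fixB
      rw [if_pos (Or.inl h0)]
      unfold gau fixA
      rw [if_pos h0]
      obtain ⟨τ, hτ, h1⟩ := h0
      obtain ⟨h2, h3⟩ := eR_inj h1
      subst h2
      have a := gg_root R (Γ := cyc t) U s
      have b := gg_root R (Γ := cyc t) U (s + 1 : ZMod t)
      exact (congrArg₂ (fun x y : G => x * 1 * y⁻¹) a b).trans (by simp)
    · unfold fixB
      rw [if_neg (not_or.2 ⟨h0, tr_eR R v s⟩)]
      unfold gau fixA
      rw [if_neg h0]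

lemma gauB_last (R : Rt Y) (U : (Y.prod (cyc t)).E → G) :
    gau (gg R U) U (eR R.root (-1)) = U (eR R.root (-1)) := by
  have a := gg_root R (Γ := cyc t) U (-1 : ZMod t)
  have b := gg_root R (Γ := cyc t) U ((-1 : ZMod t) + 1)
  exact (congrArg₂ (fun x y : G => x * U (eR R.root (-1)) * y⁻¹) a b).trans (by simp)

end defs

section int

variable {Y : Cx} {t : ℕ} [NeZero t] {G : Type} [Group G] [TopologicalSpace G]
  [IsTopologicalGroup G] [CompactSpace G] [SecondCountableTopology G] [MeasurableSpace G]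
  [BorelSpace G] (μ : Measure G) [IsProbabilityMeasure μ] [μ.IsMulLeftInvariant]
  [μ.IsMulRightInvariant]

omit [CompactSpace G] [SecondCountableTopology G] [MeasurableSpace G] [BorelSpace G] in
lemma polR_cont (ρ : Y.V) : Continuous fun U : (Y.prod (cyc t)).E → G => polR ρ U := by
  unfold polR
  refine continuous_list_prod _ fun τ _ => ?_
  exact continuous_apply _

omit [CompactSpace G] [SecondCountableTopology G] [MeasurableSpace G] [BorelSpace G]
  [IsTopologicalGroup G] in
lemma fixA_cont (ρ : Y.V) : Continuous fun U : (Y.prod (cyc t)).E → G => fixA ρ U := by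
  refine continuous_pi fun e => ?_
  unfold fixA
  split_ifs
  · exact continuous_const
  · exact continuous_apply _

omit [CompactSpace G] [SecondCountableTopology G] [MeasurableSpace G] [BorelSpace G]
  [IsTopologicalGroup G] in
lemma fixB_cont (R : Rt Y) : Continuous fun U : (Y.prod (cyc t)).E → G => fixB R U := by
  refine continuous_pi fun e => ?_
  unfold fixB
  split_ifs
  · exact continuous_const
  · exact continuous_apply _

theorem int_AB (R : Rt Y) {we : G → ℝ} (hw : Continuous we) (hc : ∀ g h, we (h * g * h⁻¹) = we g)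
    (β : ℝ) {F : G → ℝ} (hF : Continuous F) :
    ∫ U, F (polR R.root U) * Real.exp (-(β * (Y.prod (cyc t)).S we U)) ∂(Measure.pi fun _ => μ) =
    ∫ U, F (U (eR R.root (-1))) * Real.exp (-(β * (Y.prod (cyc t)).S we (fixB R U)))
      ∂(Measure.pi fun _ => μ) := by
  classical
  have cA : Continuous fun U : (Y.prod (cyc t)).E → G => F (U (eR R.root (-1))) *
      Real.exp (-(β * (Y.prod (cyc t)).S we (fixA R.root U))) :=
    (hF.comp (continuous_apply _)).mul (Real.continuous_exp.comp
      (continuous_const.mul ((continuous_S hw).comp (fixA_cont R.root))).neg)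
  have cB : Continuous fun U : (Y.prod (cyc t)).E → G => F (U (eR R.root (-1))) *
      Real.exp (-(β * (Y.prod (cyc t)).S we (fixB R U))) :=
    (hF.comp (continuous_apply _)).mul (Real.continuous_exp.comp
      (continuous_const.mul ((continuous_S hw).comp (fixB_cont R))).neg)
  have c0 : Continuous fun U : (Y.prod (cyc t)).E → G => F (polR R.root U) *
      Real.exp (-(β * (Y.prod (cyc t)).S we U)) :=
    (hF.comp (polR_cont R.root)).mul (Real.continuous_exp.comp
      (continuous_const.mul (continuous_S hw)).neg)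
  have h1 := key μ (pA R.root t) _ _ c0 cA
    (fun U e => gA R.root U ((Y.prod (cyc t)).src e).2)
    (fun U e => (gA R.root U ((Y.prod (cyc t)).tgt e).2)⁻¹) ?_ ?_ ?_
  · have h2 := key μ (tr R (cyc t)) _ _ cA cB (fun U e => gg R U ((Y.prod (cyc t)).src e))
      (fun U e => (gg R U ((Y.prod (cyc t)).tgt e))⁻¹) ?_ ?_ ?_
    · exact h1.trans h2
    · intro U U' h
      have h' : gg R U = gg R U' := gg_congr R fun e t he => h (Sum.inl (e, t)) he
      simp only [h']
      exact ⟨trivial, trivial⟩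
    · intro U
      change _ = F (gau (gg R U) U (eR R.root (-1))) *
        Real.exp (-(β * (Y.prod (cyc t)).S we (fixB R (gau (gg R U) U))))
      rw [← gauB, S_gau hc, gauB_last]
    · intro U U' h
      have h3 : U (eR R.root (-1)) = U' (eR R.root (-1)) := h _ (tr_eR R _ _)
      have h4 : fixB R U = fixB R U' := by
        funext e
        unfold fixB
        split_ifs with h5
        · rfl
        · exact h e fun h6 => h5 (Or.inr h6)
      simp only [h3, h4]
  · intro U U' h
    have h' : ∀ τ : ZMod t, gA R.root U τ = gA R.root U' τ := by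
      intro τ
      unfold gA
      congr 1
      refine List.map_congr_left fun s hs => ?_
      refine h _ ⟨(s : ZMod t), ?_, rfl⟩
      intro h1
      have h2 := List.mem_range.1 hs
      have h3 := ZMod.val_lt τ
      have h4 : ((s : ZMod t)).val = s := ZMod.val_natCast_of_lt (by omega)
      rw [h1] at h4
      have h5 := val_m1 (t := t)
      omega
    exact ⟨funext fun e => h' _, funext fun e => congrArg (fun x : G => x⁻¹) (h' _)⟩
  · intro U
    change _ = F (gau (fun p : (Y.prod (cyc t)).V => gA R.root U (p.2 : ZMod t)) U (eR R.root (-1))) *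
      Real.exp (-(β * (Y.prod (cyc t)).S we (fixA R.root
        (gau (fun p : (Y.prod (cyc t)).V => gA R.root U (p.2 : ZMod t)) U))))
    rw [gauA, S_gau hc, gauA_last]
  · intro U U' h
    have h3 : U (eR R.root (-1)) = U' (eR R.root (-1)) := by
      refine h _ ?_
      rintro ⟨τ, hτ, h1⟩
      exact hτ (eR_inj h1).2.symm
    have h4 : fixA R.root U = fixA R.root U' := by
      funext e
      unfold fixA
      split_ifs with h5
      · rfl
      · exact h e h5
    simp only [h3, h4]

end int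

section tw

variable {N : ℕ} {G : Subgroup (UU N)} {Y : Cx} {t : ℕ} [NeZero t]

open Classical in
/-- the translation -/
def kk (R : Rt Y) (t : ℕ) [NeZero t] (P : G) : (Y.prod (cyc t)).E → G :=
  fun e => if ∃ v, v ≠ R.root ∧ e = eR v (-1) then P else 1

/-- the configuration after the translation -/
def VV (R : Rt Y) (P : G) (U : (Y.prod (cyc t)).E → G) : (Y.prod (cyc t)).E → G :=
  fixB R (Function.update (U * kk R t P) (eR R.root (-1)) P)

lemma VV_L (R : Rt Y) (P : G) (U : (Y.prod (cyc t)).E → G) (e : Y.E) (s : ZMod t) :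
    VV R P U (eL e s) = R.fix U (eL e s) := by
  unfold VV fixB
  have h0 : ¬ pA R.root t (eL e s) := by
    rintro ⟨τ, -, h⟩
    exact eL_ne _ _ _ _ h
  have h1 : R.fixed (Γ := cyc t) (eL e s) = R.tree e := rfl
  unfold Rt.fix
  rw [h1]
  by_cases he : R.tree e = true
  · rw [if_pos (Or.inr ((tr_eL R e s).2 he)), if_pos he]
  · rw [if_neg (not_or.2 ⟨h0, fun h => he ((tr_eL R e s).1 h)⟩), if_neg he,
      Function.update_of_ne (eL_ne _ _ _ _), Pi.mul_apply]
    unfold kk
    rw [if_neg, mul_one]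
    rintro ⟨v, -, h⟩
    exact eL_ne _ _ _ _ h

lemma VV_R (R : Rt Y) (P : G) (U : (Y.prod (cyc t)).E → G) (v : Y.V) (s : ZMod t) (hs : s ≠ -1) :
    VV R P U (eR v s) = R.fix U (eR v s) := by
  unfold VV fixB
  have h1 : R.fixed (Γ := cyc t) (eR v s) = decide (v = R.root) := rfl
  unfold Rt.fix
  rw [h1]
  by_cases hv : v = R.root
  · subst hv
    have h2 : pA R.root t (eR R.root s) := ⟨s, hs, rfl⟩
    rw [if_pos (Or.inl h2), if_pos (by simp)]
  · have h2 : ¬ pA R.root t (eR v s) := by
      rintro ⟨τ, -, h⟩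
      exact hv (eR_inj h).1
    have h3 : (eR v s : (Y.prod (cyc t)).E) ≠ eR R.root (-1) := fun h => hs (eR_inj h).2
    rw [if_neg (not_or.2 ⟨h2, tr_eR R v s⟩), if_neg (by simpa using hv),
      Function.update_of_ne h3, Pi.mul_apply]
    unfold kk
    rw [if_neg, mul_one]
    rintro ⟨v', -, h⟩
    exact hs (eR_inj h).2

lemma VV_R' (R : Rt Y) (P : G) (U : (Y.prod (cyc t)).E → G) (v : Y.V) :
    VV R P U (eR v (-1)) = R.fix U (eR v (-1)) * P := by
  unfold VV fixB
  have h1 : R.fixed (Γ := cyc t) (eR v (-1)) = decide (v = R.root) := rfl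
  have h2 : ¬ pA R.root t (eR v (-1)) := by
    rintro ⟨τ, h1, h⟩
    exact h1 (eR_inj h).2.symm
  unfold Rt.fix
  rw [h1, if_neg (not_or.2 ⟨h2, tr_eR R v _⟩)]
  by_cases hv : v = R.root
  · subst hv
    rw [Function.update_self, if_pos (by simp), one_mul]
  · have h3 : (eR v (-1) : (Y.prod (cyc t)).E) ≠ eR R.root (-1) := fun h => hv (eR_inj h).1
    rw [if_neg (by simpa using hv), Function.update_of_ne h3, Pi.mul_apply]
    unfold kk
    rw [if_pos ⟨v, hv, rfl⟩]

lemma ev_opt' (R : Rt Y) (U : (Y.prod (cyc t)).E → G) (e : (Y.prod (cyc t)).E) :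
    ev (fun w : Sysr.LL R t => U w.1) (Sysr.opt R t e) = R.fix U e := Sysr.ev_opt R t U e

theorem VV_S (R : Rt Y) (P : G) (U : (Y.prod (cyc t)).E → G) :
    (Y.prod (cyc t)).S we (VV R P U) =
      tS (Sysr.Q R t) (kp R t P) (fun _ => 1) (fun w : Sysr.LL R t => U w.1) := by
  unfold tS
  rw [sumP]
  have h0 : (Y.prod (cyc t)).S we (VV R P U) = ∑ f : Y.F, ∑ s : ZMod t,
      we ((Y.prod (cyc t)).plq (VV R P U) (fL R t f s)) + ∑ e : Y.E, ∑ s : ZMod t,
      we ((Y.prod (cyc t)).plq (VV R P U) (fR R t e s)) := by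
    unfold Cx.S
    exact sumP R t fun p => we ((Y.prod (cyc t)).plq (VV R P U) p)
  rw [h0]
  refine congrArg₂ (· + ·) ?_ ?_
  · refine Finset.sum_congr rfl fun f _ => Finset.sum_congr rfl fun s _ => ?_
    rw [one_mul]
    refine congrArg we ?_
    have e1 : (Y.prod (cyc t)).plq (VV R P U) (fL R t f s) =
        VV R P U (eL (Y.f1 f) s) * VV R P U (eL (Y.f2 f) s) * (VV R P U (eL (Y.f3 f) s))⁻¹ *
        (VV R P U (eL (Y.f4 f) s))⁻¹ := rfl
    have e2 : tplq (Sysr.Q R t) (kp R t P) (fun w : Sysr.LL R t => U w.1) (fL R t f s) =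
        ev (fun w : Sysr.LL R t => U w.1) (Sysr.opt R t (eL (Y.f1 f) s)) *
        ev (fun w : Sysr.LL R t => U w.1) (Sysr.opt R t (eL (Y.f2 f) s)) *
        (1 * ev (fun w : Sysr.LL R t => U w.1) (Sysr.opt R t (eL (Y.f3 f) s)) * 1⁻¹)⁻¹ *
        (ev (fun w : Sysr.LL R t => U w.1) (Sysr.opt R t (eL (Y.f4 f) s)))⁻¹ := rfl
    rw [e1, e2]
    simp only [ev_opt', VV_L, one_mul, inv_one, mul_one]
  · refine Finset.sum_congr rfl fun e _ => Finset.sum_congr rfl fun s _ => ?_
    rw [one_mul]
    refine congrArg we ?_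
    have e1 : (Y.prod (cyc t)).plq (VV R P U) (fR R t e s) =
        VV R P U (eL e s) * VV R P U (eR (Y.tgt e) s) * (VV R P U (eL e (s + 1)))⁻¹ *
        (VV R P U (eR (Y.src e) s))⁻¹ := rfl
    have e2 : tplq (Sysr.Q R t) (kp R t P) (fun w : Sysr.LL R t => U w.1) (fR R t e s) =
        ev (fun w : Sysr.LL R t => U w.1) (Sysr.opt R t (eL e s)) *
        ev (fun w : Sysr.LL R t => U w.1) (Sysr.opt R t (eR (Y.tgt e) s)) *
        ((if s = (-1 : ZMod t) ∧ R.tree e = false then P else 1) *
          ev (fun w : Sysr.LL R t => U w.1) (Sysr.opt R t (eL e (s + 1))) *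
          (if s = (-1 : ZMod t) ∧ R.tree e = false then P else 1)⁻¹)⁻¹ *
        (ev (fun w : Sysr.LL R t => U w.1) (Sysr.opt R t (eR (Y.src e) s)))⁻¹ := rfl
    rw [e1, e2]
    simp only [ev_opt', VV_L]
    by_cases hs : s = -1
    · subst hs
      rw [VV_R', VV_R']
      by_cases he : R.tree e = false
      · rw [if_pos ⟨rfl, he⟩]
        group
      · have h3 : R.fix U (eL e (-1 + 1)) = 1 := by
          unfold Rt.fix
          have h1 : R.fixed (Γ := cyc t) (eL e (-1 + 1)) = R.tree e := rfl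
          rw [h1, if_pos (by simpa using he)]
        rw [if_neg (fun h => he h.2), h3]
        group
    · rw [VV_R R P U _ s hs, VV_R R P U _ s hs, if_neg (fun h => hs h.1)]
      group

variable [MeasurableSpace G] [BorelSpace G] (μ : Measure G) [IsProbabilityMeasure μ]
  [μ.IsHaarMeasure]

theorem box_int (hG : IsClosed (G : Set (UU N))) (R : Rt Y) (β : ℝ) {F : G → ℝ}
    (hF : Continuous F) :
    ∫ U, F (polR R.root U) * Real.exp (-(β * (Y.prod (cyc t)).S we U)) ∂(Measure.pi fun _ => μ) =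
    ∫ P, F P * tZ (Sysr.Q R t) (kp R t P) μ (fun _ => 1) β ∂μ := by
  have hcG := Est.compactG hG
  have hsG : SecondCountableTopology G := Est.scG
  have hri := Gauss.right_inv μ
  have hcc : ∀ g h : G, we (h * g * h⁻¹) = we g := fun g h => Asm.we_conj g h
  rw [int_AB μ R Low.we_cont hcc β hF]
  obtain ⟨Φ, hΦ⟩ : ∃ Φ : ((Y.prod (cyc t)).E → G) → ℝ, Φ = fun U => F (U (eR R.root (-1))) *
      Real.exp (-(β * (Y.prod (cyc t)).S we (fixB R U))) := ⟨_, rfl⟩
  have cB : Continuous Φ := by
    rw [hΦ]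
    have c0 : Continuous fun U : (Y.prod (cyc t)).E → G => (Y.prod (cyc t)).S we (fixB R U) :=
      (continuous_S (X := Y.prod (cyc t)) (Low.we_cont (G := G))).comp (fixB_cont R)
    have c1 : Continuous fun U : (Y.prod (cyc t)).E → G =>
      -(β * (Y.prod (cyc t)).S we (fixB R U)) := (continuous_const.mul c0).neg
    have c2 : Continuous fun U : (Y.prod (cyc t)).E → G => F (U (eR R.root (-1))) :=
      hF.comp (continuous_apply _)
    exact c2.mul (Real.continuous_exp.comp c1)
  have h1 := Dia.int_update μ (eR R.root (-1)) Φ cB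
  have h2 := Dia.swap2 (Measure.pi fun _ : (Y.prod (cyc t)).E => μ) μ
    (fun W P => Φ (Function.update W (eR R.root (-1)) P))
    (cB.comp (continuous_fst.update (eR R.root (-1)) continuous_snd))
  have h3 : ∀ P : G, ∫ W, Φ (Function.update W (eR R.root (-1)) P) ∂(Measure.pi fun _ => μ) =
      F P * tZ (Sysr.Q R t) (kp R t P) μ (fun _ => 1) β := by
    intro P
    have h4 := integral_mul_right_eq_self (μ := Measure.pi fun _ : (Y.prod (cyc t)).E => μ)
      (fun W => Φ (Function.update W (eR R.root (-1)) P)) (kk R t P)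
    rw [← h4]
    have h5 : ∀ W : (Y.prod (cyc t)).E → G,
        Φ (Function.update (W * kk R t P) (eR R.root (-1)) P) = F P *
        Real.exp (-(β * tS (Sysr.Q R t) (kp R t P) (fun _ => 1)
          (fun w : Sysr.LL R t => W w.1))) := by
      intro W
      rw [hΦ, ← VV_S]
      simp only [Function.update_self]
      rfl
    simp only [h5]
    rw [integral_const_mul]
    congr 1
    exact Sysr.int_restrict R t μ fun U => Real.exp (-(β * tS (Sysr.Q R t) (kp R t P)
      (fun _ => 1) U))
  rw [hΦ] at h1 h2 h3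
  rw [h1, h2]
  exact integral_congr_ae (Filter.Eventually.of_forall h3)

end tw

end

end Pool.Agent.H991.DC
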