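import Mathlib
import Pool.Agent.H991.DC.TDet2
import Pool.Graph.R_pool_sql_team_seeded_63374d34.N899.BB.Spec
import Pool.Graph.R_pool_sql_team_seeded_63374d34.N899.BB.Rt

/-!
# Boxes in all dimensions: trees, spectra, the gain of a twist
-/

open Matrix
open Pool.Agent.N899.BB
open Pool.Agent.Y14.Wilson Pool.Agent.N899.BB.Det

namespace Pool.Agent.H991.DC

noncomputable section

/-- the box with `n + 1` vertices on each side -/
def bx (n : ℕ) : ℕ → Cx
  | 0 => pt
  | D + 1 => (bx n D).prod (path n)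

/-- its tree -/
def bxRt (n : ℕ) : (D : ℕ) → Rt (bx n D)
  | 0 => Rt1.ptRt
  | D + 1 => Rt1.prodRt (bxRt n D) n

/-- the eigenvalues -/
def lamD {n D : ℕ} (k : Fin D → Fin (n + 1)) : ℝ := ∑ i, lam n (k i)

/-- the number of nonzero components -/
def nz {n D : ℕ} (k : Fin D → Fin (n + 1)) : ℕ := ∑ i, (1 - (if k i = 0 then 1 else 0))

lemma prod_cons {n D : ℕ} (f : (Fin (D + 1) → Fin (n + 1)) → ℝ) :
    ∏ k, f k = ∏ a : Fin (n + 1), ∏ k : Fin D → Fin (n + 1), f (Fin.cons a k) := by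
  rw [← Fintype.prod_prod_type (f := fun p : Fin (n + 1) × (Fin D → Fin (n + 1)) =>
    f (Fin.cons p.1 p.2))]
  exact ((Fin.consEquiv (fun _ : Fin (D + 1) => Fin (n + 1))).prod_comp f).symm

lemma lamD_cons {n D : ℕ} (a : Fin (n + 1)) (k : Fin D → Fin (n + 1)) :
    lamD (Fin.cons a k : Fin (D + 1) → Fin (n + 1)) = lam n a + lamD k := by
  unfold lamD
  rw [Fin.sum_univ_succ]
  simp

lemma nz_cons {n D : ℕ} (a : Fin (n + 1)) (k : Fin D → Fin (n + 1)) :
    nz (Fin.cons a k : Fin (D + 1) → Fin (n + 1)) = (1 - (if a = 0 then 1 else 0)) + nz k := by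
  unfold nz
  rw [Fin.sum_univ_succ]
  simp

lemma p0_bx (n D : ℕ) : ∀ x, Spec.p0 (bx n D) x = ∏ k : Fin D → Fin (n + 1), (x + lamD k) := by
  induction D with
  | zero =>
    intro x
    change Spec.p0 pt x = _
    rw [Spec.p0_pt, Fintype.prod_unique]
    simp [lamD]
  | succ D ih =>
    intro x
    change Spec.p0 ((bx n D).prod (path n)) x = _
    rw [Spec.p0_prod, prod_cons]
    refine Finset.prod_congr rfl fun a _ => ?_
    rw [ih]
    refine Finset.prod_congr rfl fun k _ => ?_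
    rw [lamD_cons]
    ring

lemma p1_bx (n D : ℕ) : ∀ x, Spec.p1 (bx n D) x =
    ∏ k : Fin D → Fin (n + 1), (x + lamD k) ^ nz k := by
  induction D with
  | zero =>
    intro x
    change Spec.p1 pt x = _
    rw [Spec.p1_pt, Fintype.prod_unique]
    simp [nz]
  | succ D ih =>
    intro x
    change Spec.p1 ((bx n D).prod (path n)) x = _
    rw [Spec.p1_prod, Spec.prod_succ n (fun a => Spec.p0 (bx n D) (x + lam n a)), prod_cons,
      ← Finset.prod_mul_distrib]
    refine Finset.prod_congr rfl fun a _ => ?_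
    rw [ih, p0_bx, ← Finset.prod_pow, ← Finset.prod_mul_distrib]
    refine Finset.prod_congr rfl fun k _ => ?_
    rw [lamD_cons, nz_cons, ← pow_add]
    congr 1
    · ring
    · ring

lemma lamD_nonneg {n D : ℕ} (k : Fin D → Fin (n + 1)) : 0 ≤ lamD k :=
  Finset.sum_nonneg fun i _ => lam_nonneg n (k i)

lemma lamD_pos {n D : ℕ} (k : Fin D → Fin (n + 1)) (h : k ≠ 0) : 0 < lamD k := by
  obtain ⟨i, hi⟩ := Function.ne_iff.1 h
  exact Finset.sum_pos' (fun i _ => lam_nonneg n (k i)) ⟨i, Finset.mem_univ _, lam_pos n _ hi⟩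

lemma nz_pos {n D : ℕ} (k : Fin D → Fin (n + 1)) (h : k ≠ 0) : 1 ≤ nz k := by
  obtain ⟨i, hi⟩ := Function.ne_iff.1 h
  have h1 : 1 - (if k i = 0 then 1 else 0) ≤ nz k :=
    Finset.single_le_sum (f := fun i => 1 - (if k i = 0 then 1 else 0)) (fun _ _ => Nat.zero_le _)
      (Finset.mem_univ i)
  have h2 : k i ≠ 0 := hi
  rw [if_neg h2] at h1
  exact h1

lemma nz_zero {n D : ℕ} : nz (0 : Fin D → Fin (n + 1)) = 0 := by
  simp [nz]

lemma lamD_zero {n D : ℕ} : lamD (0 : Fin D → Fin (n + 1)) = 0 := by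
  simp [lamD, lam_zero]

open Polynomial in
/-- the polynomial -/
def gD (n D : ℕ) : ℝ[X] := ∏ k : Fin D → Fin (n + 1), (X + C (lamD k)) ^ (nz k - 1)

lemma gD_eval (n D : ℕ) (x : ℝ) : (gD n D).eval x =
    ∏ k : Fin D → Fin (n + 1), (x + lamD k) ^ (nz k - 1) := by
  unfold gD
  rw [Polynomial.eval_prod]
  apply Finset.prod_congr rfl
  intro k _
  rw [Polynomial.eval_pow, Polynomial.eval_add, Polynomial.eval_X, Polynomial.eval_C]

lemma gD_spec (n D : ℕ) (x : ℝ) :
    (gD n D).eval x * (x • (1 : Matrix (bx n D).V (bx n D).V ℝ) + (bx n D).L0).det =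
    x * (x • (1 : Matrix (bx n D).E (bx n D).E ℝ) + (bx n D).L1).det := by
  have h1 := p0_bx n D x
  have h2 := p1_bx n D x
  unfold Spec.p0 at h1
  unfold Spec.p1 at h2
  rw [h1, h2, gD_eval, ← Finset.prod_mul_distrib]
  rw [Fintype.prod_eq_mul_prod_compl (0 : Fin D → Fin (n + 1))]
  conv_rhs => rw [Fintype.prod_eq_mul_prod_compl (0 : Fin D → Fin (n + 1))]
  rw [nz_zero, lamD_zero]
  simp only [Nat.zero_sub, pow_zero, one_mul, add_zero]
  congr 1
  apply Finset.prod_congr rfl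
  intro k hk
  have hk0 : k ≠ 0 := by
    rw [Finset.mem_compl, Finset.mem_singleton] at hk
    exact hk
  rw [← pow_succ]
  congr 1
  have := nz_pos k hk0
  omega

/-! ### products over frequencies -/

lemma prod_cos {t : ℕ} (ht : 0 < t) (y α : ℝ) :
    ∏ q ∈ Finset.range t, (y ^ 2 + 1 - 2 * y * Real.cos ((2 * Real.pi * q + α) / t)) =
      (y ^ t) ^ 2 + 1 - 2 * y ^ t * Real.cos α := by
  have ht' : (t : ℂ) ≠ 0 := Nat.cast_ne_zero.2 ht.ne'
  obtain ⟨w, hw⟩ : ∃ w : ℂ, w = Complex.exp ((α / t : ℝ) * Complex.I) := ⟨_, rfl⟩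
  have hwt : w ^ t = Complex.exp ((α : ℝ) * Complex.I) := by
    rw [hw, ← Complex.exp_nat_mul]
    congr 1
    push_cast
    field_simp
  have h1 : ∏ q ∈ Finset.range t, ((y : ℂ) - Complex.exp (2 * Real.pi * Complex.I / t) ^ q * w) =
      (y : ℂ) ^ t - w ^ t := by
    have hz : IsPrimitiveRoot (Complex.exp (2 * Real.pi * Complex.I / t)) t :=
      Complex.isPrimitiveRoot_exp t ht.ne'
    have h := hz.pow_sub_pow_eq_prod_sub_mul (y : ℂ) w ht
    rw [h]
    apply Finset.prod_nbij (fun q => Complex.exp (2 * Real.pi * Complex.I / t) ^ q)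
    · intro q _
      rw [Polynomial.mem_nthRootsFinset ht, ← pow_mul, mul_comm q t, pow_mul, hz.pow_eq_one, one_pow]
    · intro a ha b hb hab
      exact hz.pow_inj (Finset.mem_range.1 (Finset.mem_coe.1 ha))
        (Finset.mem_range.1 (Finset.mem_coe.1 hb)) hab
    · intro w hw
      rw [Finset.mem_coe, Polynomial.mem_nthRootsFinset ht] at hw
      have : NeZero t := ⟨ht.ne'⟩
      obtain ⟨i, hi, hiw⟩ := hz.eq_pow_of_pow_eq_one hw
      exact ⟨i, Finset.mem_coe.2 (Finset.mem_range.2 hi), hiw⟩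
    · intro q _
      rfl
  have h2 : (starRingEnd ℂ) (∏ q ∈ Finset.range t,
      ((y : ℂ) - Complex.exp (2 * Real.pi * Complex.I / t) ^ q * w)) =
      (y : ℂ) ^ t - (starRingEnd ℂ) (w ^ t) := by
    rw [h1, map_sub, map_pow, Complex.conj_ofReal]
  have hcc : ∀ x : ℝ, (2 : ℂ) * Complex.cos (x : ℂ) =
      Complex.exp ((x : ℂ) * Complex.I) + (starRingEnd ℂ) (Complex.exp ((x : ℂ) * Complex.I)) := by
    intro x
    rw [← Complex.exp_conj, map_mul, Complex.conj_ofReal, Complex.conj_I, Complex.cos, mul_neg,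
      neg_mul]
    ring
  have hmm : ∀ x : ℝ, Complex.exp ((x : ℂ) * Complex.I) *
      (starRingEnd ℂ) (Complex.exp ((x : ℂ) * Complex.I)) = 1 := by
    intro x
    rw [← Complex.exp_conj, map_mul, Complex.conj_ofReal, Complex.conj_I, ← Complex.exp_add]
    rw [show (x : ℂ) * Complex.I + x * -Complex.I = 0 by ring, Complex.exp_zero]
  have h3 : ((∏ q ∈ Finset.range t, (y ^ 2 + 1 - 2 * y * Real.cos ((2 * Real.pi * q + α) / t)) : ℝ) : ℂ)
      = (((y ^ t) ^ 2 + 1 - 2 * y ^ t * Real.cos α : ℝ) : ℂ) := by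
    have e0 : (((y ^ t) ^ 2 + 1 - 2 * y ^ t * Real.cos α : ℝ) : ℂ) =
        ((y : ℂ) ^ t - w ^ t) * ((y : ℂ) ^ t - (starRingEnd ℂ) (w ^ t)) := by
      rw [hwt]
      push_cast
      linear_combination (-(y : ℂ) ^ t) * hcc α - hmm α
    rw [e0]
    nth_rw 1 [← h1]
    rw [← h2, map_prod, ← Finset.prod_mul_distrib, Complex.ofReal_prod]
    apply Finset.prod_congr rfl
    intro q _
    have e1 : Complex.exp (2 * Real.pi * Complex.I / t) ^ q * w =
        Complex.exp ((((2 * Real.pi * q + α) / t : ℝ) : ℂ) * Complex.I) := by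
      rw [hw, ← Complex.exp_nat_mul, ← Complex.exp_add]
      congr 1
      push_cast
      ring
    rw [e1, map_sub, Complex.conj_ofReal]
    push_cast
    have a1 := hcc ((2 * Real.pi * q + α) / t)
    have a2 := hmm ((2 * Real.pi * q + α) / t)
    push_cast at a1 a2
    linear_combination (-(y : ℂ)) * a1 - a2
  exact_mod_cast h3

/-- the product over the frequencies -/
lemma prod_freq {t : ℕ} (ht : 0 < t) {x : ℝ} (hx : 0 < x) (α : ℝ) :
    ∏ q ∈ Finset.range t, (2 - 2 * Real.cos ((2 * Real.pi * q + α) / t) + x) =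
      2 * Real.cosh (t * om x) - 2 * Real.cos α := by
  obtain ⟨h0, h1⟩ := exp_om hx
  set y := Real.exp (om x) with hy
  have hy0 : 0 < y := Real.exp_pos _
  have h2 := prod_cos ht y α
  have h3 : ∏ q ∈ Finset.range t, (y ^ 2 + 1 - 2 * y * Real.cos ((2 * Real.pi * q + α) / t)) =
      y ^ t * ∏ q ∈ Finset.range t, (2 - 2 * Real.cos ((2 * Real.pi * q + α) / t) + x) := by
    rw [show y ^ t = ∏ _q ∈ Finset.range t, y by rw [Finset.prod_const, Finset.card_range],
      ← Finset.prod_mul_distrib]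
    apply Finset.prod_congr rfl
    intro q _
    rw [h1]; ring
  have h4 : Real.exp (t * om x) = y ^ t := by rw [hy, Real.exp_nat_mul]
  have hyt : 0 < y ^ t := by positivity
  rw [Real.cosh_eq, Real.exp_neg, h4]
  rw [h3] at h2
  have : y ^ t * ∏ q ∈ Finset.range t, (2 - 2 * Real.cos ((2 * Real.pi * q + α) / t) + x) =
      y ^ t * (2 * ((y ^ t + (y ^ t)⁻¹) / 2) - 2 * Real.cos α) := by
    rw [h2]
    field_simp
  exact mul_left_cancel₀ hyt.ne' this

end

end Pool.Agent.H991.DC
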