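import Mathlib
import Pool.Agent.H991.DC.Bx

/-!
# The gain of a twist
-/

open Matrix
open Pool.Agent.N899.BB
open Pool.Agent.Y14.Wilson Pool.Agent.N899.BB.Det

namespace Pool.Agent.H991.DC

noncomputable section

lemma log_gain {C x : ℝ} (hC : 1 < C) (hx : x ≤ 1) (hx' : -1 ≤ x) :
    (1 - x) / (C + 1) ≤ Real.log (2 * C - 2 * x) - Real.log (2 * C - 2) := by
  have h1 : 0 < 2 * C - 2 := by linarith
  have h2 : 0 < 2 * C - 2 * x := by linarith
  rw [← Real.log_div h2.ne' h1.ne']
  have h3 := Real.one_sub_inv_le_log_of_pos (div_pos h2 h1)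
  refine le_trans ?_ h3
  rw [inv_div, div_le_iff₀ (by linarith)]
  have h4 : (1 - (2 * C - 2) / (2 * C - 2 * x)) * (C + 1) =
      (1 - x) * ((C + 1) / (C - x)) := by
    have : C - x ≠ 0 := by linarith
    field_simp
    ring
  rw [h4]
  have h5 : 1 ≤ (C + 1) / (C - x) := by
    rw [one_le_div (by linarith)]
    linarith
  nlinarith

section

variable {N m : ℕ} {G : Subgroup (UU N)} (BL : LieBasis G m)

theorem det_form (n D t : ℕ) [NeZero t] (α : Fin m → ℝ) :
    (∏ c, ∏ q ∈ Finset.range t, (gD n D).eval (2 - 2 * Real.cos ((2 * Real.pi * q + α c) / t))) =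
      ∏ c, ∏ k : Fin D → Fin (n + 1),
        (if nz k ≤ 1 then 1 else 2 * Real.cosh (t * om (lamD k)) - 2 * Real.cos (α c)) ^
          (nz k - 1) := by
  have ht : 0 < t := Nat.pos_of_ne_zero (NeZero.ne t)
  refine Finset.prod_congr rfl fun c _ => ?_
  simp only [gD_eval]
  rw [Finset.prod_comm]
  refine Finset.prod_congr rfl fun k _ => ?_
  rw [Finset.prod_pow]
  split_ifs with h
  · have : nz k - 1 = 0 := by omega
    rw [this, pow_zero, pow_zero]
  · have hk : k ≠ 0 := by
      rintro rfl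
      rw [nz_zero] at h
      omega
    rw [prod_freq ht (lamD_pos k hk)]

lemma cosh_gt {n D : ℕ} {t : ℕ} [NeZero t] (k : Fin D → Fin (n + 1)) (h : ¬ nz k ≤ 1) :
    1 < Real.cosh (t * om (lamD k)) := by
  have hk : k ≠ 0 := by
    rintro rfl
    rw [nz_zero] at h
    omega
  have h1 := (exp_om (lamD_pos k hk)).1
  rw [Real.one_lt_cosh]
  have ht : (0 : ℝ) < t := by exact_mod_cast Nat.pos_of_ne_zero (NeZero.ne t)
  positivity

theorem gain (n D t : ℕ) [NeZero t] (P : G) :
    ∑ k : Fin D → Fin (n + 1), ((nz k - 1 : ℕ) : ℝ) *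
      ((m - trace (Ado BL P)) / (Real.cosh (t * om (lamD k)) + 1)) ≤
    Real.log (tH (Sysr.Q (bxRt n D) t) (kp (bxRt n D) t P) BL fun _ => 1).det -
      Real.log (tH (Sysr.Q (bxRt n D) t) (kp (bxRt n D) t 1) BL fun _ => 1).det := by
  obtain ⟨α, hα, h1⟩ := tdet BL (bxRt n D) t P
  obtain ⟨α', hα', h1'⟩ := tdet BL (bxRt n D) t 1
  rw [h1 _ (gD_spec n D), h1' _ (gD_spec n D), det_form, det_form]
  have hc : ∀ c, Real.cos (α' c) = 1 := by
    rw [Ado_one, Matrix.trace_one, Fintype.card_fin] at hα'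
    have h2 : ∑ c, (1 - Real.cos (α' c)) = 0 := by
      rw [Finset.sum_sub_distrib, hα']
      simp
    have h3 := (Finset.sum_eq_zero_iff_of_nonneg fun c _ => by
      linarith [Real.cos_le_one (α' c)]).1 h2
    intro c
    linarith [h3 c (Finset.mem_univ _)]
  have hpos : ∀ (γ : ℝ) (k : Fin D → Fin (n + 1)),
      0 < (if nz k ≤ 1 then (1 : ℝ) else 2 * Real.cosh (t * om (lamD k)) - 2 * Real.cos γ) := by
    intro γ k
    split_ifs with h
    · exact one_pos
    · have h2 := cosh_gt (t := t) k h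
      have h3 := Real.cos_le_one γ
      linarith
  have hlog : ∀ γ : Fin m → ℝ, Real.log (∏ c, ∏ k : Fin D → Fin (n + 1),
        (if nz k ≤ 1 then 1 else 2 * Real.cosh (t * om (lamD k)) - 2 * Real.cos (γ c)) ^
          (nz k - 1)) = ∑ c, ∑ k : Fin D → Fin (n + 1), ((nz k - 1 : ℕ) : ℝ) *
        Real.log (if nz k ≤ 1 then 1 else 2 * Real.cosh (t * om (lamD k)) - 2 * Real.cos (γ c)) := by
    intro γ
    rw [Real.log_prod (fun c _ => (Finset.prod_pos fun k _ => pow_pos (hpos _ k) _).ne')]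
    refine Finset.sum_congr rfl fun c _ => ?_
    rw [Real.log_prod (fun k _ => (pow_pos (hpos _ k) _).ne')]
    refine Finset.sum_congr rfl fun k _ => ?_
    rw [Real.log_pow]
  rw [hlog, hlog, ← Finset.sum_sub_distrib]
  simp only [← Finset.sum_sub_distrib, ← mul_sub]
  rw [Finset.sum_comm]
  refine Finset.sum_le_sum fun k _ => ?_
  rw [← Finset.mul_sum]
  by_cases h : nz k ≤ 1
  · have : nz k - 1 = 0 := by omega
    rw [this]
    simp
  · refine mul_le_mul_of_nonneg_left ?_ (Nat.cast_nonneg _)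
    have h2 : (m - trace (Ado BL P)) / (Real.cosh (t * om (lamD k)) + 1) =
        ∑ c, (1 - Real.cos (α c)) / (Real.cosh (t * om (lamD k)) + 1) := by
      rw [← Finset.sum_div, Finset.sum_sub_distrib, hα]
      simp
    rw [h2]
    refine Finset.sum_le_sum fun c _ => ?_
    rw [if_neg h, if_neg h, hc c]
    have h3 := log_gain (cosh_gt (t := t) k h) (Real.cos_le_one (α c)) (Real.neg_one_le_cos (α c))
    rw [mul_sub 2, mul_sub 2, mul_one]
    exact h3

end

/-! ### Counting the low modes -/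

lemma om_le {x : ℝ} (hx : 0 ≤ x) : om x ≤ x + Real.sqrt x := by
  unfold om
  have hs : 0 ≤ Real.sqrt (x + x ^ 2 / 4) := Real.sqrt_nonneg _
  have h1 : Real.sqrt (x + x ^ 2 / 4) ≤ Real.sqrt x + x / 2 := by
    rw [Real.sqrt_le_left (by positivity)]
    have := Real.sq_sqrt hx
    have h2 := Real.sqrt_nonneg x
    nlinarith [mul_nonneg h2 hx]
  have h2 := Real.log_le_sub_one_of_pos (show 0 < 1 + x / 2 + Real.sqrt (x + x ^ 2 / 4) by positivity)
  linarith

lemma lam_le {n : ℕ} {t : ℕ} (ht : 0 < t) (k : Fin (n + 1)) (hk : (k : ℕ) ≤ n / t) :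
    lam n k ≤ (Real.pi / t) ^ 2 := by
  unfold lam
  have h1 := Real.one_sub_sq_div_two_le_cos (x := Real.pi * k / (n + 1))
  have ht' : (0 : ℝ) < t := by exact_mod_cast ht
  have h2 : Real.pi * k / (n + 1) ≤ Real.pi / t := by
    rw [div_le_div_iff₀ (by positivity) ht']
    have h3 : (k : ℕ) * t ≤ n := (Nat.mul_le_mul_right t hk).trans (Nat.div_mul_le_self n t)
    have h4 : ((k : ℕ) : ℝ) * t ≤ n := by exact_mod_cast h3
    have := Real.pi_pos
    nlinarith
  have h3 : 0 ≤ Real.pi * k / (n + 1) := by have := Real.pi_pos; positivity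
  have h4 : (Real.pi * k / (n + 1)) ^ 2 ≤ (Real.pi / t) ^ 2 := pow_le_pow_left₀ h3 h2 2
  linarith

lemma t_om_le {n D t : ℕ} (ht : 0 < t) (k : Fin D → Fin (n + 1)) (hk : ∀ i, (k i : ℕ) ≤ n / t) :
    t * om (lamD k) ≤ 20 * D := by
  have ht' : (1 : ℝ) ≤ t := by exact_mod_cast ht
  have h0 := lamD_nonneg k
  have h1 : lamD k ≤ D * (Real.pi / t) ^ 2 := by
    unfold lamD
    refine (Finset.sum_le_sum fun i _ => lam_le ht (k i) (hk i)).trans ?_
    simp
  have hD : (0 : ℝ) ≤ D := Nat.cast_nonneg D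
  rcases Nat.eq_zero_or_pos D with hD0 | hD0
  · subst hD0
    have : lamD k = 0 := by simp [lamD]
    rw [this]
    simp [om]
  have hD1 : (1 : ℝ) ≤ D := by exact_mod_cast hD0
  have h2 : Real.sqrt (lamD k) ≤ D * (Real.pi / t) := by
    rw [Real.sqrt_le_left (by have := Real.pi_pos; positivity)]
    refine h1.trans ?_
    have : 0 ≤ (Real.pi / t) ^ 2 := sq_nonneg _
    nlinarith
  have h3 := om_le h0
  have hpi := Real.pi_lt_d2
  have hpi0 := Real.pi_pos
  have h4 : (t : ℝ) * lamD k ≤ D * Real.pi ^ 2 := by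
    calc (t : ℝ) * lamD k ≤ t * (D * (Real.pi / t) ^ 2) := by gcongr
      _ = D * Real.pi ^ 2 / t := by field_simp
      _ ≤ D * Real.pi ^ 2 := div_le_self (by positivity) ht'
  have h5 : (t : ℝ) * Real.sqrt (lamD k) ≤ D * Real.pi := by
    calc (t : ℝ) * Real.sqrt (lamD k) ≤ t * (D * (Real.pi / t)) := by gcongr
      _ = D * Real.pi := by field_simp
  have h6 : (t : ℝ) * om (lamD k) ≤ t * lamD k + t * Real.sqrt (lamD k) := by
    rw [← mul_add]
    gcongr
  have h7 : Real.pi ^ 2 + Real.pi ≤ 20 := by nlinarith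
  nlinarith

theorem gain2 {n D t : ℕ} (ht : 0 < t) (hD : 2 ≤ D) {δ : ℝ} (hδ : 0 ≤ δ) :
    δ / (Real.cosh (20 * D) + 1) * ((n / t : ℕ) : ℝ) ^ D ≤
      ∑ k : Fin D → Fin (n + 1), ((nz k - 1 : ℕ) : ℝ) * (δ / (Real.cosh (t * om (lamD k)) + 1)) := by
  classical
  have hq : n / t ≤ n := Nat.div_le_self n t
  obtain ⟨f, hf⟩ : ∃ f : (Fin D → Fin (n / t)) → (Fin D → Fin (n + 1)),
      ∀ k i, ((f k i : ℕ)) = (k i : ℕ) + 1 := by
    refine ⟨fun k i => ⟨(k i : ℕ) + 1, by have := (k i).2; omega⟩, fun k i => rfl⟩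
  have hinj : Function.Injective f := by
    intro k k' h
    funext i
    have h1 := hf k i
    rw [h, hf] at h1
    exact Fin.ext (by omega)
  have hcp : ∀ x : ℝ, 0 < Real.cosh x + 1 := fun x => by
    have := Real.cosh_pos x
    linarith
  have h1 : ∑ k ∈ Finset.univ.image f, ((nz k - 1 : ℕ) : ℝ) *
      (δ / (Real.cosh (t * om (lamD k)) + 1)) ≤
      ∑ k : Fin D → Fin (n + 1), ((nz k - 1 : ℕ) : ℝ) *
        (δ / (Real.cosh (t * om (lamD k)) + 1)) := by
    refine Finset.sum_le_sum_of_subset_of_nonneg (Finset.subset_univ _) fun k _ _ => ?_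
    have := hcp (t * om (lamD k))
    positivity
  refine le_trans ?_ h1
  rw [Finset.sum_image fun a _ b _ h => hinj h]
  have h2 : ∀ k : Fin D → Fin (n / t), δ / (Real.cosh (20 * D) + 1) ≤
      ((nz (f k) - 1 : ℕ) : ℝ) * (δ / (Real.cosh (t * om (lamD (f k))) + 1)) := by
    intro k
    have h3 : nz (f k) = D := by
      unfold nz
      have : ∀ i, 1 - (if f k i = 0 then 1 else 0) = 1 := by
        intro i
        have h4 : f k i ≠ 0 := by
          intro h5
          have := hf k i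
          rw [h5] at this
          simp at this
        rw [if_neg h4]
      simp [this]
    have h4 : (1 : ℝ) ≤ ((nz (f k) - 1 : ℕ) : ℝ) := by
      rw [h3]
      have : 1 ≤ D - 1 := by omega
      exact_mod_cast this
    have h5 := t_om_le ht (f k) (fun i => by
      have := (k i).2
      rw [hf]
      omega)
    have h6 : 0 ≤ t * om (lamD (f k)) := by
      have h7 : 0 ≤ om (lamD (f k)) := by
        unfold om
        refine Real.log_nonneg ?_
        have h8 := lamD_nonneg (f k)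
        have h9 := Real.sqrt_nonneg (lamD (f k) + lamD (f k) ^ 2 / 4)
        linarith
      positivity
    have h7 : Real.cosh (t * om (lamD (f k))) ≤ Real.cosh (20 * D) := by
      rw [Real.cosh_le_cosh, abs_of_nonneg h6, abs_of_nonneg (by positivity)]
      exact h5
    calc δ / (Real.cosh (20 * D) + 1) ≤ δ / (Real.cosh (t * om (lamD (f k))) + 1) := by
          have := hcp (t * om (lamD (f k)))
          gcongr
      _ = 1 * (δ / (Real.cosh (t * om (lamD (f k))) + 1)) := (one_mul _).symm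
      _ ≤ _ := by
          have := hcp (t * om (lamD (f k)))
          gcongr
  refine le_trans (le_of_eq ?_) (Finset.sum_le_sum fun k _ => h2 k)
  rw [Finset.sum_const, Finset.card_univ, Fintype.card_fun, Fintype.card_fin, Fintype.card_fin,
    nsmul_eq_mul]
  push_cast
  ring

end

end Pool.Agent.H991.DC
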