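import Mathlib
import Pool.Agent.H991.DC.BoxZ
import Pool.Agent.H991.DC.Gain

/-!
# The probability of a Polyakov loop far from the centre in a box
-/

open MeasureTheory Matrix
open Pool.Agent.N899.BB Pool.Agent.N899.BB.Alg
open Pool.Agent.Y14.Wilson

namespace Pool.Agent.H991.DC

noncomputable section

/-! ### cardinalities -/

lemma card_bxV (n D : ℕ) : Fintype.card (bx n D).V = (n + 1) ^ D := by
  induction D with
  | zero => exact Rt1.cardVpt
  | succ D ih =>
    have h := Rt1.cardV (bx n D) n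
    rw [ih] at h
    rw [pow_succ, ← h]
    rfl

lemma card_bxE (n D : ℕ) : Fintype.card (bx n D).E ≤ D * (n + 1) ^ D := by
  induction D with
  | zero => exact le_of_eq (Rt1.cardEpt.trans (by simp))
  | succ D ih =>
    have h := Rt1.cardE (bx n D) n
    rw [card_bxV] at h
    have h2 : Fintype.card (bx n (D + 1)).E = Fintype.card (bx n D).E * (n + 1) + (n + 1) ^ D * n := h
    rw [h2]
    have h3 : (n + 1) ^ D * n ≤ (n + 1) ^ (D + 1) := by
      rw [pow_succ]
      exact Nat.mul_le_mul_left _ (by omega)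
    calc _ ≤ D * (n + 1) ^ D * (n + 1) + (n + 1) ^ (D + 1) :=
          Nat.add_le_add (Nat.mul_le_mul_right _ ih) h3
      _ = (D + 1) * (n + 1) ^ (D + 1) := by ring

lemma card_bxF (n D : ℕ) : Fintype.card (bx n D).F ≤ D ^ 2 * (n + 1) ^ D := by
  induction D with
  | zero => exact le_of_eq (Rt1.cardFpt.trans (by simp))
  | succ D ih =>
    have h := Rt1.cardF (bx n D) n
    have h2 : Fintype.card (bx n (D + 1)).F = Fintype.card (bx n D).F * (n + 1) +
      Fintype.card (bx n D).E * n := h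
    rw [h2]
    have h3 : Fintype.card (bx n D).E * n ≤ D * (n + 1) ^ (D + 1) := by
      calc _ ≤ D * (n + 1) ^ D * (n + 1) := Nat.mul_le_mul (card_bxE n D) (by omega)
        _ = _ := by ring
    calc _ ≤ D ^ 2 * (n + 1) ^ D * (n + 1) + D * (n + 1) ^ (D + 1) :=
          Nat.add_le_add (Nat.mul_le_mul_right _ ih) h3
      _ ≤ (D + 1) ^ 2 * (n + 1) ^ (D + 1) := by
          have : D ^ 2 * (n + 1) ^ D * (n + 1) + D * (n + 1) ^ (D + 1) =
            (D ^ 2 + D) * (n + 1) ^ (D + 1) := by ring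
          rw [this]
          exact Nat.mul_le_mul_right _ (by nlinarith)

section

variable {N : ℕ} {G : Subgroup (UU N)} {Y : Cx} {t : ℕ} [NeZero t] (R : Rt Y)

lemma tS_near {P : G} {η : ℝ} (hP : ∀ a g : G, |we (a * (P * g * P⁻¹)) - we (a * g)| ≤ η)
    (U : (Sysr.Q R t).L → G) :
    tS (Sysr.Q R t) (kp R t P) (fun _ => 1) U ≤ tS (Sysr.Q R t) (kp R t 1) (fun _ => 1) U +
      Fintype.card (Sysr.Q R t).P * η := by
  have h0 : 0 ≤ η := (abs_nonneg _).trans (hP 1 1)
  have h1 : ∀ p, we (tplq (Sysr.Q R t) (kp R t P) U p) ≤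
      we (tplq (Sysr.Q R t) (kp R t 1) U p) + η := by
    intro p
    have hk : kp R t P p = P ∧ kp R t (1 : G) p = 1 ∨ kp R t P p = 1 ∧ kp R t (1 : G) p = 1 := by
      rcases p with ⟨f, s⟩ | ⟨e, s⟩
      · exact Or.inr ⟨rfl, rfl⟩
      · by_cases h : s = (-1 : ZMod t) ∧ R.tree e = false
        · exact Or.inl ⟨if_pos h, if_pos h⟩
        · exact Or.inr ⟨if_neg h, if_neg h⟩
    rcases hk with ⟨h1, h2⟩ | ⟨h1, h2⟩
    · unfold tplq
      rw [h1, h2]
      generalize ev U ((Sysr.Q R t).wd p 0) = g0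
      generalize ev U ((Sysr.Q R t).wd p 1) = g1
      generalize ev U ((Sysr.Q R t).wd p 2) = g2
      generalize ev U ((Sysr.Q R t).wd p 3) = g3
      have h3 := hP (g3⁻¹ * g0 * g1) g2⁻¹
      rw [← Asm.we_conj (g3⁻¹ * g0 * g1 * (P * g2⁻¹ * P⁻¹)) g3,
        ← Asm.we_conj (g3⁻¹ * g0 * g1 * g2⁻¹) g3] at h3
      have e1 : g3 * (g3⁻¹ * g0 * g1 * (P * g2⁻¹ * P⁻¹)) * g3⁻¹ =
          g0 * g1 * (P * g2 * P⁻¹)⁻¹ * g3⁻¹ := by group
      have e2 : g3 * (g3⁻¹ * g0 * g1 * g2⁻¹) * g3⁻¹ = g0 * g1 * (1 * g2 * 1⁻¹)⁻¹ * g3⁻¹ := by group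
      rw [e1, e2] at h3
      have := (abs_le.1 h3).2
      linarith
    · unfold tplq
      rw [h1, h2]
      linarith
  unfold tS
  simp only [one_mul]
  refine (Finset.sum_le_sum fun p _ => h1 p).trans (le_of_eq ?_)
  rw [Finset.sum_add_distrib, Finset.sum_const, Finset.card_univ, nsmul_eq_mul]

variable [MeasurableSpace G] [BorelSpace G] (μ : Measure G) [IsProbabilityMeasure μ]

lemma tZ_near (hG : IsClosed (G : Set (UU N))) {P : G} {η β : ℝ} (hβ : 0 ≤ β)
    (hP : ∀ a g : G, |we (a * (P * g * P⁻¹)) - we (a * g)| ≤ η) :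
    Real.exp (-(β * (Fintype.card (Sysr.Q R t).P * η))) *
      tZ (Sysr.Q R t) (kp R t 1) μ (fun _ => 1) β ≤
      tZ (Sysr.Q R t) (kp R t P) μ (fun _ => 1) β := by
  have := Est.compactG hG
  have : SecondCountableTopology G := Est.scG
  have hint : ∀ κ : (Sysr.Q R t).P → G, Integrable (fun U : (Sysr.Q R t).L → G =>
      Real.exp (-(β * tS (Sysr.Q R t) κ (fun _ => 1) U))) (Measure.pi fun _ => μ) := fun κ =>
    (Real.continuous_exp.comp (continuous_const.mul (tS_cont (Sysr.Q R t) κ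
      (fun _ => 1))).neg).integrable_of_hasCompactSupport (HasCompactSupport.of_compactSpace _)
  unfold tZ
  rw [← integral_const_mul]
  refine integral_mono ((hint _).const_mul _) (hint _) fun U => ?_
  show Real.exp _ * Real.exp _ ≤ Real.exp _
  rw [← Real.exp_add, Real.exp_le_exp]
  have h1 := mul_le_mul_of_nonneg_left (tS_near R hP U) hβ
  linarith

end

/-- the weight of a Polyakov loop far from the centre, compared with the partition function -/
theorem box_ratio {N n : ℕ} (G : Subgroup (UU N)) (hG : IsClosed (G : Set (UU N)))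
    [MeasurableSpace G] [BorelSpace G] (μ : Measure G) [IsProbabilityMeasure μ] [μ.IsHaarMeasure]
    (B : LieBasis G n) : ∃ (C : ℝ) (K : ℕ), 1 ≤ C ∧ 1 ≤ K ∧ ∀ (D k t : ℕ) [NeZero t], 2 ≤ D →
    ∀ β : ℝ, 3 ≤ β → ∀ δ : ℝ, 0 ≤ δ → ∀ F : G → ℝ, Continuous F → (∀ P, 0 ≤ F P ∧ F P ≤ 1) →
    (∀ P, F P ≠ 0 → δ ≤ n - trace (Ado B P)) → ∀ m : ℕ, 1 ≤ m →
    t * (Fintype.card (bx k D).F + Fintype.card (bx k D).E) ≤ m →
    0 < ((bx k D).prod (cyc t)).Z μ (we (G := G)) β ∧
    ∫ U, F (polR (bxRt k D).root U) * Real.exp (-(β * ((bx k D).prod (cyc t)).S we U))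
      ∂(Measure.pi fun _ => μ) ≤
    ((bx k D).prod (cyc t)).Z μ (we (G := G)) β *
      Real.exp (-(δ / (Real.cosh (20 * D) + 1) * ((k / t : ℕ) : ℝ) ^ D) / 2 +
        C * ((m : ℝ) * Real.log β) ^ K / Real.sqrt β + C * Real.log (m * β)) := by
  obtain ⟨C1, K, hC1, hK, h1⟩ := t_gauss G hG μ B
  obtain ⟨C2, hC2, h2⟩ := Low.t_LOW G hG μ
  have := Est.compactG hG
  have : SecondCountableTopology G := Est.scG
  refine ⟨2 * C1 + C2, K, by linarith, hK, fun D k t _ hD β hβ δ hδ F hF hF1 hFδ m hm hcard => ?_⟩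
  have hβ0 : 0 < β := by linarith
  have ht : 0 < t := Nat.pos_of_ne_zero (NeZero.ne t)
  obtain ⟨R, hR⟩ : ∃ R, R = bxRt k D := ⟨_, rfl⟩
  have hL : Fintype.card (Sysr.Q R t).L ≤ m := by
    have h := Sysr.card_L R t
    have h' : Fintype.card (Sysr.Q R t).L = t * Fintype.card (bx k D).E := h
    rw [h']
    exact (Nat.mul_le_mul_left t (Nat.le_add_left _ _)).trans hcard
  have hP : Fintype.card (Sysr.Q R t).P ≤ m := by
    have h := Sysr.card_F (Y := bx k D) t
    have h' : Fintype.card (Sysr.Q R t).P = t * (Fintype.card (bx k D).F +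
      Fintype.card (bx k D).E) := h
    rw [h']
    exact hcard
  obtain ⟨-, hA, hX⟩ := h2 β hβ
  obtain ⟨A, η, hAm, hη, hlog, hA0⟩ := hA m hm
  have hη0 : 0 ≤ η := by
    have hne : A.Nonempty := by
      by_contra h
      rw [Set.not_nonempty_iff_eq_empty] at h
      rw [h] at hA0
      simp at hA0
    obtain ⟨P, hP'⟩ := hne
    exact (abs_nonneg _).trans (hη P hP' 1 1)
  have hm0 : (1 : ℝ) ≤ m := by exact_mod_cast hm
  have hmβ : 1 ≤ (m : ℝ) * β := by nlinarith
  obtain ⟨e, he⟩ : ∃ e, e = C1 * ((m : ℝ) * Real.log β) ^ K / Real.sqrt β := ⟨_, rfl⟩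
  have hlβ : 0 ≤ Real.log β := Real.log_nonneg (by linarith)
  have he0 : 0 ≤ e := by
    rw [he]
    positivity
  obtain ⟨T, hT⟩ : ∃ T : G → ℝ, T = fun P => tZ (Sysr.Q R t) (kp R t P) μ (fun _ => 1) β :=
    ⟨_, rfl⟩
  have hTpos : ∀ P, 0 < T P := by
    intro P
    rw [hT]
    exact (h1 (Sysr.Q R t) (kp R t P) (kp_bp R t P) m hm hL hP β hβ).1
  -- the asymptotics
  obtain ⟨g, hg⟩ : ∃ g, g = δ / (Real.cosh (20 * D) + 1) * ((k / t : ℕ) : ℝ) ^ D := ⟨_, rfl⟩
  have hfar : ∀ P, F P ≠ 0 → T P ≤ T 1 * Real.exp (-g / 2 + 2 * e) := by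
    intro P hFP
    obtain ⟨a1, a2, a3⟩ := h1 (Sysr.Q R t) (kp R t P) (kp_bp R t P) m hm hL hP β hβ
    obtain ⟨b1, b2, b3⟩ := h1 (Sysr.Q R t) (kp R t 1) (kp_bp R t 1) m hm hL hP β hβ
    rw [← he] at a3 b3
    have a4 := (abs_le.1 a3).2
    have b4 := (abs_le.1 b3).1
    have c1 := gain B k D t P
    have c2 := gain2 (n := k) ht hD (hδ.trans (hFδ P hFP))
    have c3 : g ≤ (n - trace (Ado B P)) / (Real.cosh (20 * D) + 1) * ((k / t : ℕ) : ℝ) ^ D := by
      rw [hg]
      have := Real.cosh_pos (20 * (D : ℝ))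
      have := hFδ P hFP
      gcongr
    rw [← hR] at c1
    have c4 : Real.log (T P) ≤ Real.log (T 1) + (-g / 2 + 2 * e) := by
      rw [hT]
      simp only
      linarith
    have c5 := Real.exp_le_exp.2 c4
    rwa [Real.exp_add, Real.exp_log (hTpos P), Real.exp_log (hTpos 1)] at c5
  -- the integrals
  have hI := box_int μ hG R β hF (t := t)
  have hZ := box_int μ hG R β (continuous_const (y := (1 : ℝ))) (t := t)
  simp only [one_mul] at hZ
  have hZ' : ((bx k D).prod (cyc t)).Z μ (we (G := G)) β = ∫ P, T P ∂μ := by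
    rw [hT]
    exact hZ
  have hZpos : 0 < ((bx k D).prod (cyc t)).Z μ (we (G := G)) β := by
    unfold Cx.Z
    refine integral_exp_pos ?_
    have c0 : Continuous fun U : ((bx k D).prod (cyc t)).E → G => ((bx k D).prod (cyc t)).S we U :=
      Tree.continuous_S (X := (bx k D).prod (cyc t)) (Low.we_cont (G := G))
    have c1 : Continuous fun U : ((bx k D).prod (cyc t)).E → G =>
      Real.exp (-(β * ((bx k D).prod (cyc t)).S we U)) :=
      Real.continuous_exp.comp (continuous_const.mul c0).neg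
    exact c1.integrable_of_hasCompactSupport (HasCompactSupport.of_compactSpace _)
  refine ⟨hZpos, ?_⟩
  have hTint : Integrable T μ := by
    by_contra h
    rw [hZ', integral_undef h] at hZpos
    exact lt_irrefl _ hZpos
  have hlow : Real.exp (-(C2 * Real.log (m * β))) * T 1 ≤
      ((bx k D).prod (cyc t)).Z μ (we (G := G)) β := by
    have d1 : μ.real A * (Real.exp (-(β * (m * η))) * T 1) ≤ ∫ P, T P ∂μ := by
      have d2 : ∫ P, A.indicator (fun _ => Real.exp (-(β * (m * η))) * T 1) P ∂μ =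
          μ.real A * (Real.exp (-(β * (m * η))) * T 1) := by
        rw [integral_indicator_const _ hAm, smul_eq_mul]
      rw [← d2]
      refine integral_mono ((integrable_const _).indicator hAm) hTint fun P => ?_
      by_cases hPA : P ∈ A
      · rw [Set.indicator_of_mem hPA]
        have d3 := tZ_near (t := t) R μ hG hβ0.le (hη P hPA)
        have d4 : Real.exp (-(β * (m * η))) ≤
            Real.exp (-(β * (Fintype.card (Sysr.Q R t).P * η))) := by
          refine Real.exp_le_exp.2 (neg_le_neg (mul_le_mul_of_nonneg_left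
            (mul_le_mul_of_nonneg_right ?_ hη0) hβ0.le))
          exact_mod_cast hP
        have d5 : T P = tZ (Sysr.Q R t) (kp R t P) μ (fun _ => 1) β := by rw [hT]
        have d6 : T 1 = tZ (Sysr.Q R t) (kp R t 1) μ (fun _ => 1) β := by rw [hT]
        rw [← d5, ← d6] at d3
        exact (mul_le_mul_of_nonneg_right d4 (hTpos 1).le).trans d3
      · rw [Set.indicator_of_notMem hPA]
        exact (hTpos P).le
    rw [hZ']
    refine le_trans ?_ d1
    rw [← mul_assoc]
    refine mul_le_mul_of_nonneg_right ?_ (hTpos 1).le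
    have d7 := Real.exp_le_exp.2 hlog
    rwa [Real.exp_log (mul_pos hA0 (Real.exp_pos _))] at d7
  have hup : ∫ P, F P * T P ∂μ ≤ T 1 * Real.exp (-g / 2 + 2 * e) := by
    have d1 : ∫ P, F P * T P ∂μ ≤ ∫ _P : G, T 1 * Real.exp (-g / 2 + 2 * e) ∂μ := by
      refine integral_mono_of_nonneg (Filter.Eventually.of_forall fun P =>
        mul_nonneg (hF1 P).1 (hTpos P).le) (integrable_const _)
        (Filter.Eventually.of_forall fun P => ?_)
      by_cases hFP : F P = 0
      · show F P * T P ≤ _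
        rw [hFP, zero_mul]
        exact (mul_pos (hTpos 1) (Real.exp_pos _)).le
      · have d2 := hfar P hFP
        calc F P * T P ≤ 1 * T P := mul_le_mul_of_nonneg_right (hF1 P).2 (hTpos P).le
          _ ≤ _ := by rw [one_mul]; exact d2
    simpa using d1
  have hT1 : T 1 ≤ ((bx k D).prod (cyc t)).Z μ (we (G := G)) β * Real.exp (C2 * Real.log (m * β)) := by
    have d1 := mul_le_mul_of_nonneg_right hlow (Real.exp_pos (C2 * Real.log (m * β))).le
    rw [Real.exp_neg] at d1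
    have d2 : (Real.exp (C2 * Real.log (m * β)))⁻¹ * T 1 * Real.exp (C2 * Real.log (m * β)) = T 1 := by
      have := Real.exp_pos (C2 * Real.log (m * β))
      field_simp
    rwa [d2] at d1
  have hI' : ∫ U, F (polR (bxRt k D).root U) * Real.exp (-(β * ((bx k D).prod (cyc t)).S we U))
      ∂(Measure.pi fun _ => μ) = ∫ P, F P * T P ∂μ := by
    rw [hT, ← hR]
    exact hI
  rw [hI']
  refine hup.trans ((mul_le_mul_of_nonneg_right hT1 (Real.exp_pos _).le).trans ?_)
  rw [mul_assoc, ← Real.exp_add]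
  refine mul_le_mul_of_nonneg_left (Real.exp_le_exp.2 ?_) hZpos.le
  have hlm : 0 ≤ Real.log (m * β) := Real.log_nonneg hmβ
  have e1 : (2 * C1 + C2) * ((m : ℝ) * Real.log β) ^ K / Real.sqrt β = 2 * e +
      C2 * (((m : ℝ) * Real.log β) ^ K / Real.sqrt β) := by
    rw [he]
    ring
  have e2 : 0 ≤ C2 * (((m : ℝ) * Real.log β) ^ K / Real.sqrt β) := by
    have : 0 ≤ C2 := by linarith
    positivity
  rw [e1, ← hg]
  nlinarith

end

end Pool.Agent.H991.DC
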