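import Mathlib
import Pool.Agent.H991.DC.Evt
import Pool.Agent.H991.DC.BoxR
import Pool.Graph.R_pool_sql_team_seeded_63374d34.N899.BB.Tor
import Pool.Graph.R_pool_sql_team_seeded_63374d34.N899.BB.Iso
import Pool.Graph.R_pool_sql_team_seeded_63374d34.N899.BB.Tb

/-!
# The torus as a product complex, in all dimensions
-/

open MeasureTheory
open Pool.Agent.N899.BB Pool.Agent.N899.SB

namespace Pool.Agent.H991.DC

noncomputable section

section tors

/-- one more coordinate -/
def cc {D l t : ℕ} (a : ZMod l) (p : St D l t) : St (D + 1) l t := (Fin.cons a p.1, p.2)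

lemma cc_inj {D l t : ℕ} {a b : ZMod l} {p q : St D l t} (h : cc a p = cc b q) : a = b ∧ p = q := by
  have h1 := Fin.cons_injective2 (α := fun _ => ZMod l) (Prod.ext_iff.1 h).1
  exact ⟨h1.1, Prod.ext h1.2 (Prod.ext_iff.1 h).2⟩

lemma cc_surj {D l t : ℕ} (x : St (D + 1) l t) : cc (x.1 0) (Fin.tail x.1, x.2) = x :=
  Prod.ext (Fin.cons_self_tail _) rfl

lemma cc_add {D l t : ℕ} (a b : ZMod l) (p q : St D l t) :
    cc a p + cc b q = cc (a + b) (p + q) := by
  refine Prod.ext ?_ rfl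
  funext i
  refine Fin.cases ?_ (fun j => ?_) i
  · rfl
  · rfl

lemma ev_zero' {l t : ℕ} (D : ℕ) : N899.SB.ev (D + 1) l t 0 = cc 1 0 := by
  have h : (0 : Fin (D + 2)) = (0 : Fin (D + 1)).castSucc := rfl
  rw [h, ev_cast]
  refine Prod.ext ?_ rfl
  funext i
  refine Fin.cases ?_ (fun j => ?_) i
  · simp [cc]
  · simp [cc]

lemma ev_succ' {l t : ℕ} (D : ℕ) (j : Fin (D + 1)) : N899.SB.ev (D + 1) l t j.succ =
    cc 0 (N899.SB.ev D l t j) := by
  refine Fin.lastCases ?_ (fun i => ?_) j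
  · rw [Fin.succ_last, ev_last, ev_last]
    refine Prod.ext ?_ rfl
    funext i
    refine Fin.cases ?_ (fun j => ?_) i <;> simp [cc]
  · rw [Fin.succ_castSucc, ev_cast, ev_cast]
    refine Prod.ext ?_ rfl
    funext k
    refine Fin.cases ?_ (fun j => ?_) k
    · simp [cc]
    · simp [cc, Pi.single_apply, Fin.succ_inj]

variable (l t : ℕ) [NeZero l] [NeZero t]

/-- the torus `(ℤ/l)^D × ℤ/t` as a product -/
def tors : ℕ → Cx
  | 0 => pt.prod (cyc t)
  | D + 1 => (tors D).prod (cyc l)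

/-- the coordinates of the vertices -/
def cV : (D : ℕ) → (tors l t D).V → St D l t
  | 0 => fun v : Unit × ZMod t => (Fin.elim0, v.2)
  | D + 1 => fun v : (tors l t D).V × ZMod l => cc v.2 (cV D v.1)

/-- the coordinates of the edges -/
def cE : (D : ℕ) → (tors l t D).E → St D l t × Fin (D + 1)
  | 0 => Sum.elim (fun e : Empty × ZMod t => e.1.elim)
      (fun v : Unit × ZMod t => ((Fin.elim0, v.2), 0))
  | D + 1 => Sum.elim (fun e : (tors l t D).E × ZMod l =>
      (cc e.2 (cE D e.1).1, (cE D e.1).2.succ))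
      (fun v : (tors l t D).V × ZMod l => (cc v.2 (cV l t D v.1), 0))

/-- constructors -/
def tvc {D : ℕ} (v : (tors l t D).V) (a : ZMod l) : (tors l t (D + 1)).V := (v, a)
def tel {D : ℕ} (e : (tors l t D).E) (a : ZMod l) : (tors l t (D + 1)).E :=
  (Sum.inl (e, a) : ((tors l t D).E × ZMod l) ⊕ ((tors l t D).V × ZMod l))
def ter {D : ℕ} (v : (tors l t D).V) (a : ZMod l) : (tors l t (D + 1)).E :=
  (Sum.inr (v, a) : ((tors l t D).E × ZMod l) ⊕ ((tors l t D).V × ZMod l))

variable {l t}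

lemma cV_c {D : ℕ} (v : (tors l t D).V) (a : ZMod l) :
    cV l t (D + 1) (tvc l t v a) = cc a (cV l t D v) := rfl
lemma cE_l {D : ℕ} (e : (tors l t D).E) (a : ZMod l) :
    cE l t (D + 1) (tel l t e a) = (cc a (cE l t D e).1, (cE l t D e).2.succ) := rfl
lemma cE_r {D : ℕ} (v : (tors l t D).V) (a : ZMod l) :
    cE l t (D + 1) (ter l t v a) = (cc a (cV l t D v), 0) := rfl

lemma te_cases {D : ℕ} (e : (tors l t (D + 1)).E) : (∃ e' a, e = tel l t e' a) ∨
    ∃ v a, e = ter l t v a := by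
  rcases e with ⟨e, s⟩ | ⟨v, s⟩
  · exact Or.inl ⟨e, s, rfl⟩
  · exact Or.inr ⟨v, s, rfl⟩

lemma cV_bij (D : ℕ) : Function.Bijective (cV l t D) := by
  induction D with
  | zero =>
    constructor
    · rintro ⟨⟨⟩, a⟩ ⟨⟨⟩, b⟩ h
      have : a = b := congrArg Prod.snd h
      rw [this]
    · rintro ⟨v, a⟩
      refine ⟨((), a), Prod.ext ?_ rfl⟩
      exact Subsingleton.elim _ _
  | succ D ih =>
    constructor
    · rintro ⟨v, a⟩ ⟨w, b⟩ h
      obtain ⟨h1, h2⟩ := cc_inj (a := a) (b := b) (p := cV l t D v) (q := cV l t D w) h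
      have h4 : v = w := ih.1 h2
      subst h1 h4
      rfl
    · rintro x
      obtain ⟨v, hv⟩ := ih.2 (Fin.tail x.1, x.2)
      refine ⟨tvc l t v (x.1 0), ?_⟩
      rw [cV_c, hv, cc_surj]

lemma cE_bij (D : ℕ) : Function.Bijective (cE l t D) := by
  induction D with
  | zero =>
    constructor
    · rintro (⟨e, -⟩ | ⟨⟨⟩, a⟩) (⟨e', -⟩ | ⟨⟨⟩, b⟩) h
      · exact e.elim
      · exact e.elim
      · exact e'.elim
      · have : a = b := congrArg (fun z => z.1.2) h
        rw [this]
    · rintro ⟨⟨v, a⟩, i⟩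
      refine ⟨Sum.inr ((), a), Prod.ext (Prod.ext ?_ rfl) ?_⟩
      · exact Subsingleton.elim _ _
      · exact Subsingleton.elim (α := Fin 1) _ _
  | succ D ih =>
    constructor
    · intro e e' h
      rcases te_cases e with ⟨v, a, rfl⟩ | ⟨v, a, rfl⟩ <;>
      rcases te_cases e' with ⟨w, b, rfl⟩ | ⟨w, b, rfl⟩
      · rw [cE_l, cE_l] at h
        obtain ⟨h1, h2⟩ := cc_inj (Prod.ext_iff.1 h).1
        have h6 := Fin.succ_inj.1 (Prod.ext_iff.1 h).2
        have h4 : v = w := ih.1 (Prod.ext h2 h6)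
        rw [h1, h4]
      · rw [cE_l, cE_r] at h
        exact absurd (Prod.ext_iff.1 h).2 (Fin.succ_ne_zero _)
      · rw [cE_l, cE_r] at h
        exact absurd (Prod.ext_iff.1 h).2.symm (Fin.succ_ne_zero _)
      · rw [cE_r, cE_r] at h
        obtain ⟨h1, h2⟩ := cc_inj (Prod.ext_iff.1 h).1
        have h4 : v = w := (cV_bij D).1 h2
        rw [h1, h4]
    · rintro ⟨x, i⟩
      refine Fin.cases ?_ (fun j => ?_) i
      · obtain ⟨v, hv⟩ := (cV_bij (l := l) (t := t) D).2 (Fin.tail x.1, x.2)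
        refine ⟨ter l t v (x.1 0), ?_⟩
        rw [cE_r, hv, cc_surj]
      · obtain ⟨v, hv⟩ := ih.2 ((Fin.tail x.1, x.2), j)
        refine ⟨tel l t v (x.1 0), ?_⟩
        rw [cE_l, hv, cc_surj]

lemma tors_src_l {D : ℕ} (e : (tors l t D).E) (a : ZMod l) :
    (tors l t (D + 1)).src (tel l t e a) = tvc l t ((tors l t D).src e) a := rfl
lemma tors_src_r {D : ℕ} (v : (tors l t D).V) (a : ZMod l) :
    (tors l t (D + 1)).src (ter l t v a) = tvc l t v a := rfl
lemma tors_tgt_l {D : ℕ} (e : (tors l t D).E) (a : ZMod l) :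
    (tors l t (D + 1)).tgt (tel l t e a) = tvc l t ((tors l t D).tgt e) a := rfl
lemma tors_tgt_r {D : ℕ} (v : (tors l t D).V) (a : ZMod l) :
    (tors l t (D + 1)).tgt (ter l t v a) = tvc l t v (a + 1) := rfl

lemma cE_src (D : ℕ) : ∀ e, cV l t D ((tors l t D).src e) = (cE l t D e).1 := by
  induction D with
  | zero =>
    rintro (⟨e, -⟩ | ⟨⟨⟩, a⟩)
    · exact e.elim
    · rfl
  | succ D ih =>
    intro e
    rcases te_cases e with ⟨v, a, rfl⟩ | ⟨v, a, rfl⟩
    · rw [tors_src_l, cV_c, cE_l, ih]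
    · rw [tors_src_r, cV_c, cE_r]

lemma cE_tgt (D : ℕ) : ∀ e, cV l t D ((tors l t D).tgt e) =
    (cE l t D e).1 + N899.SB.ev D l t (cE l t D e).2 := by
  induction D with
  | zero =>
    rintro (⟨e, -⟩ | ⟨⟨⟩, a⟩)
    · exact e.elim
    · refine Prod.ext (Subsingleton.elim _ _) ?_
      have h : N899.SB.ev 0 l t 0 = (0, 1) := ev_last
      have h2 : ∀ a : ZMod t, a + 1 = a + (N899.SB.ev 0 l t 0).2 := by
        intro a
        rw [h]
      exact h2 a
  | succ D ih =>
    intro e
    rcases te_cases e with ⟨v, a, rfl⟩ | ⟨v, a, rfl⟩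
    · rw [tors_tgt_l, cV_c, cE_l, ih, ev_succ', cc_add, add_zero]
    · rw [tors_tgt_r, cV_c, cE_r, ev_zero', cc_add, add_zero]

variable {G : Type} [Group G]

theorem S_tors (we : G → ℝ) (hw : ∀ g, we g⁻¹ = we g) (D : ℕ) :
    ∀ U : St D l t × Fin (D + 1) → G,
    (tors l t D).S we (fun e => U (cE l t D e)) = ac we (N899.SB.ev D l t) U := by
  induction D with
  | zero =>
    intro U
    have h1 : ac we (N899.SB.ev 0 l t) U = 0 := by
      unfold ac
      refine Finset.sum_eq_zero fun x _ => Finset.sum_eq_zero fun i _ =>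
        Finset.sum_eq_zero fun j _ => ?_
      rw [if_neg]
      rw [Subsingleton.elim (α := Fin 1) i j]
      exact lt_irrefl _
    rw [h1]
    unfold Cx.S
    have : IsEmpty (tors l t 0).F := by
      refine ⟨?_⟩
      rintro (⟨e, -⟩ | ⟨e, -⟩) <;> exact e.elim
    exact Finset.sum_of_isEmpty _
  | succ D ih =>
    intro U
    have h0 := Tor.S_prod (tors l t D) (cyc l) we (fun e => U (cE l t (D + 1) e))
    have h0' : (tors l t (D + 1)).S we (fun e => U (cE l t (D + 1) e)) =
      ∑ a : ZMod l, (tors l t D).S we (fun e => U (cE l t (D + 1) (tel l t e a))) +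
      ∑ e : (tors l t D).E, ∑ a : ZMod l, we
        (U (cE l t (D + 1) (tel l t e a)) * U (cE l t (D + 1) (ter l t ((tors l t D).tgt e) a)) *
        (U (cE l t (D + 1) (tel l t e (a + 1))))⁻¹ *
        (U (cE l t (D + 1) (ter l t ((tors l t D).src e) a)))⁻¹) := h0
    rw [h0']
    simp only [cE_l, cE_r, cE_src, cE_tgt]
    have h1 : ∀ a : ZMod l, (tors l t D).S we (fun e =>
        U (cc a (cE l t D e).1, (cE l t D e).2.succ)) =
        ∑ y : St D l t, ∑ i : Fin (D + 1), ∑ j : Fin (D + 1),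
          if i < j then we (pq (N899.SB.ev (D + 1) l t) U (cc a y) i.succ j.succ) else 0 := by
      intro a
      rw [ih (fun p => U (cc a p.1, p.2.succ))]
      unfold ac
      refine Finset.sum_congr rfl fun y _ => Finset.sum_congr rfl fun i _ =>
        Finset.sum_congr rfl fun j _ => ?_
      have e1 : pq (N899.SB.ev D l t) (fun p => U (cc a p.1, p.2.succ)) y i j =
          pq (N899.SB.ev (D + 1) l t) U (cc a y) i.succ j.succ := by
        unfold pq
        simp only [ev_succ', cc_add, add_zero]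
      rw [e1]
    have h2 : ∑ e : (tors l t D).E, ∑ a : ZMod l, we
        (U (cc a (cE l t D e).1, (cE l t D e).2.succ) *
        U (cc a ((cE l t D e).1 + N899.SB.ev D l t (cE l t D e).2), 0) *
        (U (cc (a + 1) (cE l t D e).1, (cE l t D e).2.succ))⁻¹ *
        (U (cc a (cE l t D e).1, 0))⁻¹) =
        ∑ p : St D l t × Fin (D + 1), ∑ a : ZMod l,
          we (pq (N899.SB.ev (D + 1) l t) U (cc a p.1) 0 p.2.succ) := by
      rw [← (Equiv.ofBijective _ (cE_bij (l := l) (t := t) D)).sum_comp]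
      refine Finset.sum_congr rfl fun e _ => Finset.sum_congr rfl fun a _ => ?_
      simp only [Equiv.ofBijective_apply]
      rw [← hw]
      congr 1
      unfold pq
      simp only [ev_succ', ev_zero', cc_add, add_zero]
      group
    rw [h2]
    simp only [h1]
    have h3 : ac we (N899.SB.ev (D + 1) l t) U = ∑ a : ZMod l, ∑ y : St D l t,
        ∑ i : Fin (D + 2), ∑ j : Fin (D + 2),
        if i < j then we (pq (N899.SB.ev (D + 1) l t) U (cc a y) i j) else 0 := by
      unfold ac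
      rw [Fintype.sum_prod_type]
      have e1 : ∀ f : (Fin (D + 1) → ZMod l) → ℝ, ∑ x, f x =
          ∑ a : ZMod l, ∑ y : Fin D → ZMod l, f (Fin.cons a y) := by
        intro f
        rw [← Fintype.sum_prod_type (f := fun p : ZMod l × (Fin D → ZMod l) =>
          f (Fin.cons p.1 p.2))]
        exact ((Fin.consEquiv (fun _ : Fin (D + 1) => ZMod l)).sum_comp f).symm
      rw [e1]
      refine Finset.sum_congr rfl fun a _ => ?_
      rw [Fintype.sum_prod_type]
      rfl
    rw [h3]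
    have h4 : ∑ p : St D l t × Fin (D + 1), ∑ a : ZMod l,
          we (pq (N899.SB.ev (D + 1) l t) U (cc a p.1) 0 p.2.succ) =
        ∑ a : ZMod l, ∑ y : St D l t, ∑ j : Fin (D + 1),
          we (pq (N899.SB.ev (D + 1) l t) U (cc a y) 0 j.succ) := by
      rw [Finset.sum_comm]
      refine Finset.sum_congr rfl fun a _ => ?_
      rw [Fintype.sum_prod_type]
    rw [h4, ← Finset.sum_add_distrib]
    refine Finset.sum_congr rfl fun a _ => ?_
    rw [← Finset.sum_add_distrib]
    refine Finset.sum_congr rfl fun y _ => ?_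
    have h5 : ∀ f : Fin (D + 2) → Fin (D + 2) → ℝ, ∑ i, ∑ j, (if i < j then f i j else 0) =
        (∑ i : Fin (D + 1), ∑ j : Fin (D + 1), if i < j then f i.succ j.succ else 0) +
        ∑ j : Fin (D + 1), f 0 j.succ := by
      intro f
      rw [Fin.sum_univ_succ, add_comm]
      congr 1
      · refine Finset.sum_congr rfl fun i _ => ?_
        rw [Fin.sum_univ_succ, if_neg (Fin.not_lt_zero _), zero_add]
        refine Finset.sum_congr rfl fun j _ => ?_
        simp only [Fin.succ_lt_succ_iff]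
      · rw [Fin.sum_univ_succ, if_neg (lt_irrefl _), zero_add]
        refine Finset.sum_congr rfl fun j _ => ?_
        rw [if_pos (Fin.succ_pos j)]
    rw [h5]

end tors

end

end Pool.Agent.H991.DC
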