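import Mathlib
import Pool.Agent.H991.DC.Emb

/-!
# Disjoint boxes in the torus
-/

open MeasureTheory
open Pool.Agent.N899.BB Pool.Agent.N899.SB

namespace Pool.Agent.H991.DC

noncomputable section

/-! ### Independent blocks of coordinates -/

section ind

variable {G : Type} [MeasurableSpace G] (μ : Measure G) [IsProbabilityMeasure μ]

lemma mp_inj {E E' : Type} [Fintype E] [Fintype E'] {ι : E → E'} (hι : Function.Injective ι) :
    MeasurePreserving (fun (U : E' → G) (e : E) => U (ι e)) (Measure.pi fun _ => μ)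
      (Measure.pi fun _ => μ) := by
  classical
  have hm : Measurable (fun (U : E' → G) (e : E) => U (ι e)) :=
    measurable_pi_lambda _ fun e => measurable_pi_apply _
  refine ⟨hm, ?_⟩
  refine (Measure.pi_eq fun s hs => ?_).symm
  rw [Measure.map_apply hm (MeasurableSet.univ_pi hs)]
  have h1 : (fun (U : E' → G) (e : E) => U (ι e)) ⁻¹' (Set.univ.pi s) =
      Set.univ.pi (fun e' => if h : ∃ e, ι e = e' then s h.choose else Set.univ) := by
    ext U
    simp only [Set.mem_preimage, Set.mem_pi, Set.mem_univ, true_implies]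
    constructor
    · intro h e'
      by_cases h2 : ∃ e, ι e = e'
      · rw [dif_pos h2]
        have h3 := h h2.choose
        rwa [h2.choose_spec] at h3
      · rw [dif_neg h2]
        exact Set.mem_univ _
    · intro h e
      have h2 := h (ι e)
      have h3 : ∃ e1, ι e1 = ι e := ⟨e, rfl⟩
      rw [dif_pos h3] at h2
      have h4 : h3.choose = e := hι h3.choose_spec
      rwa [h4] at h2
  rw [h1, Measure.pi_pi]
  symm
  refine Fintype.prod_of_injective ι hι _ _ ?_ ?_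
  · intro e' he'
    rw [dif_neg (by simpa using he')]
    exact measure_univ
  · intro e
    have h3 : ∃ e1, ι e1 = ι e := ⟨e, rfl⟩
    rw [dif_pos h3, hι h3.choose_spec]

lemma int_inj {E E' : Type} [Fintype E] [Fintype E'] {ι : E → E'} (hι : Function.Injective ι)
    {f : (E → G) → ℝ} (hf : Measurable f) :
    ∫ U : E' → G, f (fun e => U (ι e)) ∂(Measure.pi fun _ => μ) =
      ∫ U : E → G, f U ∂(Measure.pi fun _ => μ) := by
  have h := mp_inj μ hι
  rw [← h.map_eq, integral_map h.measurable.aemeasurable]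
  rw [h.map_eq]
  exact hf.aestronglyMeasurable

lemma int_blocks {Bl E E' : Type} [Fintype Bl] [Fintype E] [Fintype E'] {ι : Bl × E → E'}
    (hι : Function.Injective ι) {f : (E → G) → ℝ} (hf : Measurable f) :
    ∫ U : E' → G, ∏ B : Bl, f (fun e => U (ι (B, e))) ∂(Measure.pi fun _ => μ) =
      (∫ U : E → G, f U ∂(Measure.pi fun _ => μ)) ^ Fintype.card Bl := by
  have hΦ : Measurable fun V : Bl × E → G => ∏ B : Bl, f (fun e => V (B, e)) :=
    Finset.measurable_fun_prod _ fun B _ => hf.comp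
      (measurable_pi_lambda _ fun e => measurable_pi_apply _)
  have h1 := int_inj μ hι hΦ
  rw [h1]
  have h2 : (Measure.pi fun _ : Bl × E => μ).map (MeasurableEquiv.curry Bl E G) =
      Measure.pi fun _ : Bl => Measure.pi fun _ : E => μ := by
    rw [← Measure.infinitePi_eq_pi, ← Measure.infinitePi_eq_pi]
    have h3 := Measure.infinitePi_map_curry (ι := Bl) (κ := E) (X := G) (fun _ _ => μ)
    rw [h3]
    simp only [Measure.infinitePi_eq_pi]
  have h3 := integral_map_equiv (MeasurableEquiv.curry Bl E G)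
    (μ := Measure.pi fun _ : Bl × E => μ) (fun W : Bl → E → G => ∏ B, f (W B))
  rw [h2] at h3
  have h4 : ∫ W : Bl → E → G, ∏ B, f (W B) ∂(Measure.pi fun _ : Bl => Measure.pi fun _ : E => μ) =
      (∫ U : E → G, f U ∂(Measure.pi fun _ => μ)) ^ Fintype.card Bl :=
    integral_fintype_prod_eq_pow f
  rw [← h4, h3]
  rfl

end ind

/-! ### Morphisms -/

/-- morphisms of complexes -/
structure Mor (X Y : Cx) where
  V : X.V → Y.V
  E : X.E → Y.E
  F : X.F → Y.F
  src : ∀ e, Y.src (E e) = V (X.src e)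
  tgt : ∀ e, Y.tgt (E e) = V (X.tgt e)
  face : ∀ f, (Y.f1 (F f) = E (X.f1 f) ∧ Y.f2 (F f) = E (X.f2 f) ∧
      Y.f3 (F f) = E (X.f3 f) ∧ Y.f4 (F f) = E (X.f4 f)) ∨
    (Y.f1 (F f) = E (X.f4 f) ∧ Y.f2 (F f) = E (X.f3 f) ∧
      Y.f3 (F f) = E (X.f2 f) ∧ Y.f4 (F f) = E (X.f1 f))

/-- injective morphisms -/
def Mor.Inj {X Y : Cx} (f : Mor X Y) : Prop :=
  Function.Injective f.V ∧ Function.Injective f.E ∧ Function.Injective f.F

/-- isomorphisms -/
def ofIso {X Y : Cx} (i : Iso X Y) : Mor X Y := ⟨i.eV, i.eE, i.eF, i.src, i.tgt, i.face⟩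

lemma ofIso_inj {X Y : Cx} (i : Iso X Y) : (ofIso i).Inj :=
  ⟨i.eV.injective, i.eE.injective, i.eF.injective⟩

/-- composition -/
def Mor.comp {X Y Z : Cx} (g : Mor Y Z) (f : Mor X Y) : Mor X Z where
  V := g.V ∘ f.V
  E := g.E ∘ f.E
  F := g.F ∘ f.F
  src e := by simp only [Function.comp]; rw [g.src, f.src]
  tgt e := by simp only [Function.comp]; rw [g.tgt, f.tgt]
  face p := by
    simp only [Function.comp]
    rcases f.face p with ⟨a1, a2, a3, a4⟩ | ⟨a1, a2, a3, a4⟩ <;>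
    rcases g.face (f.F p) with ⟨b1, b2, b3, b4⟩ | ⟨b1, b2, b3, b4⟩
    · left
      exact ⟨by rw [b1, a1], by rw [b2, a2], by rw [b3, a3], by rw [b4, a4]⟩
    · right
      exact ⟨by rw [b1, a4], by rw [b2, a3], by rw [b3, a2], by rw [b4, a1]⟩
    · right
      exact ⟨by rw [b1, a1], by rw [b2, a2], by rw [b3, a3], by rw [b4, a4]⟩
    · left
      exact ⟨by rw [b1, a4], by rw [b2, a3], by rw [b3, a2], by rw [b4, a1]⟩

lemma Mor.comp_inj {X Y Z : Cx} {g : Mor Y Z} {f : Mor X Y} (hg : g.Inj) (hf : f.Inj) :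
    (g.comp f).Inj :=
  ⟨hg.1.comp hf.1, hg.2.1.comp hf.2.1, hg.2.2.comp hf.2.2⟩

/-- products -/
def Mor.prod {X Y : Cx} (f : Mor X Y) {Γ Γ' : Gr} (gv : Γ.V → Γ'.V) (ge : Γ.E → Γ'.E)
    (hs : ∀ e, Γ'.src (ge e) = gv (Γ.src e)) (ht : ∀ e, Γ'.tgt (ge e) = gv (Γ.tgt e)) :
    Mor (X.prod Γ) (Y.prod Γ') where
  V := fun p : X.V × Γ.V => ((f.V p.1, gv p.2) : Y.V × Γ'.V)
  E := Sum.elim (fun p : X.E × Γ.V => (Sum.inl (f.E p.1, gv p.2) : (Y.E × Γ'.V) ⊕ (Y.V × Γ'.E)))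
    (fun p : X.V × Γ.E => Sum.inr (f.V p.1, ge p.2))
  F := Sum.elim (fun p : X.F × Γ.V => (Sum.inl (f.F p.1, gv p.2) : (Y.F × Γ'.V) ⊕ (Y.E × Γ'.E)))
    (fun p : X.E × Γ.E => Sum.inr (f.E p.1, ge p.2))
  src := by
    rintro (⟨e, a⟩ | ⟨v, a⟩)
    · exact Prod.ext (f.src e) rfl
    · exact Prod.ext rfl (hs a)
  tgt := by
    rintro (⟨e, a⟩ | ⟨v, a⟩)
    · exact Prod.ext (f.tgt e) rfl
    · exact Prod.ext rfl (ht a)
  face := by
    rintro (⟨p, a⟩ | ⟨e, a⟩)
    · rcases f.face p with ⟨a1, a2, a3, a4⟩ | ⟨a1, a2, a3, a4⟩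
      · left
        exact ⟨congrArg Sum.inl (Prod.ext a1 rfl), congrArg Sum.inl (Prod.ext a2 rfl),
          congrArg Sum.inl (Prod.ext a3 rfl), congrArg Sum.inl (Prod.ext a4 rfl)⟩
      · right
        exact ⟨congrArg Sum.inl (Prod.ext a1 rfl), congrArg Sum.inl (Prod.ext a2 rfl),
          congrArg Sum.inl (Prod.ext a3 rfl), congrArg Sum.inl (Prod.ext a4 rfl)⟩
    · left
      exact ⟨congrArg Sum.inl (Prod.ext rfl (hs a)), congrArg Sum.inr (Prod.ext (f.tgt e) rfl),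
        congrArg Sum.inl (Prod.ext rfl (ht a)), congrArg Sum.inr (Prod.ext (f.src e) rfl)⟩

lemma Mor.prod_inj {X Y : Cx} {f : Mor X Y} (hf : f.Inj) {Γ Γ' : Gr} {gv : Γ.V → Γ'.V}
    {ge : Γ.E → Γ'.E} (hs : ∀ e, Γ'.src (ge e) = gv (Γ.src e))
    (ht : ∀ e, Γ'.tgt (ge e) = gv (Γ.tgt e)) (h1 : Function.Injective gv)
    (h2 : Function.Injective ge) : (f.prod gv ge hs ht).Inj := by
  refine ⟨?_, ?_, ?_⟩
  · rintro ⟨v, a⟩ ⟨w, b⟩ h
    have h' : ((f.V v, gv a) : Y.V × Γ'.V) = (f.V w, gv b) := h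
    exact Prod.ext (hf.1 (Prod.ext_iff.1 h').1) (h1 (Prod.ext_iff.1 h').2)
  · rintro (⟨v, a⟩ | ⟨v, a⟩) (⟨w, b⟩ | ⟨w, b⟩) h
    · have h' : ((f.E v, gv a) : Y.E × Γ'.V) = (f.E w, gv b) := Sum.inl.inj h
      exact congrArg Sum.inl (Prod.ext (hf.2.1 (Prod.ext_iff.1 h').1) (h1 (Prod.ext_iff.1 h').2))
    · cases h
    · cases h
    · have h' : ((f.V v, ge a) : Y.V × Γ'.E) = (f.V w, ge b) := Sum.inr.inj h
      exact congrArg Sum.inr (Prod.ext (hf.1 (Prod.ext_iff.1 h').1) (h2 (Prod.ext_iff.1 h').2))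
  · rintro (⟨v, a⟩ | ⟨v, a⟩) (⟨w, b⟩ | ⟨w, b⟩) h
    · have h' : ((f.F v, gv a) : Y.F × Γ'.V) = (f.F w, gv b) := Sum.inl.inj h
      exact congrArg Sum.inl (Prod.ext (hf.2.2 (Prod.ext_iff.1 h').1) (h1 (Prod.ext_iff.1 h').2))
    · cases h
    · cases h
    · have h' : ((f.E v, ge a) : Y.E × Γ'.E) = (f.E w, ge b) := Sum.inr.inj h
      exact congrArg Sum.inr (Prod.ext (hf.2.1 (Prod.ext_iff.1 h').1) (h2 (Prod.ext_iff.1 h').2))

/-! ### The embeddings of the boxes -/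

section emb

variable {l t n : ℕ} [NeZero l] [NeZero t]

omit [NeZero t] in
lemma emb_tgt (b : ZMod l) (k : Fin n) :
    (cyc l).tgt (b + ((k : ℕ) : ZMod l)) = b + (((Fin.succ k : Fin (n + 1)) : ℕ) : ZMod l) := by
  change b + ((k : ℕ) : ZMod l) + 1 = _
  rw [Fin.val_succ]
  push_cast
  ring

/-- the embedding with the corner `b` -/
def emb : (D : ℕ) → (b : Fin D → ZMod l) → Mor ((bx n D).prod (cyc t)) (tors l t D)
  | 0, _ => ⟨id, id, id, fun _ => rfl, fun _ => rfl, fun _ => Or.inl ⟨rfl, rfl, rfl, rfl⟩⟩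
  | D + 1, b => ((emb D (Fin.tail b)).prod (Γ := path n) (Γ' := cyc l)
      (fun k : Fin (n + 1) => b 0 + ((k : ℕ) : ZMod l))
      (fun k : Fin n => b 0 + ((k : ℕ) : ZMod l)) (fun _ => rfl) (fun k => emb_tgt (b 0) k)).comp
      (ofIso (Pool.Agent.N899.BB.Iso.swapIso (bx n D) (path n) (cyc t)))

lemma emb_inj (hn : n + 1 ≤ l) : ∀ (D : ℕ) (b : Fin D → ZMod l), (emb (n := n) (t := t) D b).Inj
  | 0, _ => ⟨Function.injective_id, Function.injective_id, Function.injective_id⟩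
  | D + 1, b => by
    have h1 : Function.Injective (fun k : Fin (n + 1) => b 0 + ((k : ℕ) : ZMod l)) := by
      intro k k' h
      have h2 := add_left_cancel h
      have h3 : ((k : ℕ) : ZMod l).val = ((k' : ℕ) : ZMod l).val := by
        change ((k : ℕ) : ZMod l) = ((k' : ℕ) : ZMod l) at h2
        rw [h2]
      rw [ZMod.val_natCast_of_lt (by have := k.2; omega),
        ZMod.val_natCast_of_lt (by have := k'.2; omega)] at h3
      exact Fin.ext h3
    have h2 : Function.Injective (fun k : Fin n => b 0 + ((k : ℕ) : ZMod l)) := by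
      intro k k' h
      have h3 := h1 (a₁ := k.castSucc) (a₂ := k'.castSucc) h
      exact Fin.castSucc_injective _ h3
    exact Mor.comp_inj (Mor.prod_inj (emb_inj hn D (Fin.tail b)) _ _ h1 h2) (ofIso_inj _)

/-- the coordinates of the vertices of a box -/
def bV (n : ℕ) : (D : ℕ) → (bx n D).V → (Fin D → ℕ)
  | 0 => fun _ => Fin.elim0
  | D + 1 => fun v : (bx n D).V × Fin (n + 1) => Fin.cons (v.2 : ℕ) (bV n D v.1)

/-- constructor -/
def bvc {n D : ℕ} (v : (bx n D).V) (k : Fin (n + 1)) : (bx n (D + 1)).V := (v, k)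

lemma bv_cases {n D : ℕ} (v : (bx n (D + 1)).V) : ∃ (w : (bx n D).V) (k : Fin (n + 1)),
    v = bvc w k := by
  obtain ⟨v, k⟩ := v
  exact ⟨v, k, rfl⟩

lemma bV_c {n D : ℕ} (v : (bx n D).V) (k : Fin (n + 1)) :
    bV n (D + 1) (bvc v k) = Fin.cons (k : ℕ) (bV n D v) := rfl

lemma bV_le : ∀ (D : ℕ) (v : (bx n D).V) (i : Fin D), bV n D v i ≤ n
  | 0, _, i => i.elim0
  | D + 1, v, i => by
    obtain ⟨v, k⟩ := v
    refine Fin.cases ?_ (fun j => ?_) i
    · have : (k : Fin (n + 1)).val ≤ n := by have := (k : Fin (n + 1)).2; omega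
      exact this
    · exact bV_le D v j

/-- the position of a vertex -/
def pos {D : ℕ} (b : Fin D → ZMod l) (r : Fin D → ℕ) : Fin D → ZMod l := fun i => b i + (r i : ZMod l)

omit [NeZero l] [NeZero t] in
lemma pos_cons {D : ℕ} (b : Fin (D + 1) → ZMod l) (k : ℕ) (r : Fin D → ℕ) :
    pos b (Fin.cons k r) = Fin.cons (b 0 + (k : ZMod l)) (pos (Fin.tail b) r) := by
  funext i
  refine Fin.cases ?_ (fun j => ?_) i
  · simp [pos]
  · simp [pos, Fin.tail]

/-- vertices of the product with the cycle -/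
def vv {D : ℕ} (v : (bx n D).V) (τ : ZMod t) : ((bx n D).prod (cyc t)).V := (v, τ)

lemma emb_V : ∀ (D : ℕ) (b : Fin D → ZMod l) (v : (bx n D).V) (τ : ZMod t),
    cV l t D ((emb D b).V (vv v τ)) = (pos b (bV n D v), τ)
  | 0, _, _, _ => Prod.ext (Subsingleton.elim _ _) rfl
  | D + 1, b, v, τ => by
    obtain ⟨v, k, rfl⟩ := bv_cases v
    have h := emb_V D (Fin.tail b) v τ
    have h2 : cV l t (D + 1) ((emb (D + 1) b).V (vv (bvc v k) τ)) =
        cc (b 0 + ((k : ℕ) : ZMod l)) (cV l t D ((emb D (Fin.tail b)).V (vv v τ))) := rfl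
    refine h2.trans ?_
    rw [h, bV_c, pos_cons]
    rfl

lemma emb_E : ∀ (D : ℕ) (b : Fin D → ZMod l) (v : (bx n D).V) (τ : ZMod t),
    cE l t D ((emb D b).E (eR v τ)) = ((pos b (bV n D v), τ), Fin.last D)
  | 0, _, _, _ => Prod.ext (Prod.ext (Subsingleton.elim _ _) rfl) rfl
  | D + 1, b, v, τ => by
    obtain ⟨v, k, rfl⟩ := bv_cases v
    have h := emb_E D (Fin.tail b) v τ
    have h2 : cE l t (D + 1) ((emb (D + 1) b).E (eR (bvc v k) τ)) =
        (cc (b 0 + ((k : ℕ) : ZMod l)) (cE l t D ((emb D (Fin.tail b)).E (eR v τ))).1,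
          (cE l t D ((emb D (Fin.tail b)).E (eR v τ))).2.succ) := rfl
    refine h2.trans ?_
    rw [h, bV_c, pos_cons, Fin.succ_last]
    rfl

lemma bV_root : ∀ D, bV n D (bxRt n D).root = 0
  | 0 => Subsingleton.elim _ _
  | D + 1 => by
    have h : bV n (D + 1) (bxRt n (D + 1)).root = Fin.cons 0 (bV n D (bxRt n D).root) := rfl
    rw [h, bV_root D]
    funext i
    refine Fin.cases ?_ (fun j => ?_) i <;> rfl

end emb

end

end Pool.Agent.H991.DC
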