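import Mathlib
import Pool.Agent.H991.DC.Emb2
import Pool.Graph.R_pool_sql_team_seeded_63374d34.N899.BB.Sl
import Pool.Graph.R_pool_sql_team_seeded_63374d34.N899.BB.Slg
import Pool.Graph.R_pool_sql_team_seeded_63374d34.N899.BB.Open

/-!
# Upper and lower bounds for partition functions of the torus
-/

open MeasureTheory
open Pool.Agent.N899.BB Pool.Agent.N899.SB

namespace Pool.Agent.H991.DC

noncomputable section

/-! ### the lower bound -/

section low

/-- iterated products -/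
def itr (Γ : Gr) : ℕ → Cx → Cx
  | 0, X => X
  | D + 1, X => (itr Γ D X).prod Γ

lemma bx_itr (n : ℕ) : ∀ D, bx n D = itr (path n) D pt
  | 0 => rfl
  | D + 1 => by
    change (bx n D).prod (path n) = (itr (path n) D pt).prod (path n)
    rw [bx_itr n D]

lemma tors_itr (l t : ℕ) [NeZero l] [NeZero t] : ∀ D, tors l t D = itr (cyc l) D (pt.prod (cyc t))
  | 0 => rfl
  | D + 1 => by
    change (tors l t D).prod (cyc l) = (itr (cyc l) D (pt.prod (cyc t))).prod (cyc l)
    rw [tors_itr l t D]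

lemma itr_iso (Γ Γ' : Gr) (X : Cx) : ∀ D, Nonempty (Iso (itr Γ D (X.prod Γ')) ((itr Γ D X).prod Γ'))
  | 0 => ⟨⟨Equiv.refl _, Equiv.refl _, Equiv.refl _, fun _ => rfl, fun _ => rfl,
      fun _ => Or.inl ⟨rfl, rfl, rfl, rfl⟩⟩⟩
  | D + 1 => by
    obtain ⟨i⟩ := itr_iso Γ Γ' X D
    exact Tb.iso_trans ⟨Pool.Agent.N899.BB.Iso.prodIso _ _ Γ i⟩
      ⟨Pool.Agent.N899.BB.Iso.swapIso _ Γ' Γ⟩

variable (G : Type) [Group G] [TopologicalSpace G] [IsTopologicalGroup G]
    [CompactSpace G] [SecondCountableTopology G] [MeasurableSpace G] [BorelSpace G]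
    (μ : Measure G) [IsProbabilityMeasure μ] [μ.IsInvInvariant] (we : G → ℝ) (hc : Continuous we)
    (hi : ∀ g, we g⁻¹ = we g) (hcj : ∀ g h, we (h * g * h⁻¹) = we g) (h0 : ∀ g, 0 ≤ we g) (β : ℝ)
    (hβ : 0 ≤ β)

include hi in
lemma Zeq {X Y : Cx} (h : Nonempty (Iso X Y)) : X.Z μ we β = Y.Z μ we β := by
  obtain ⟨i⟩ := h
  exact Pool.Agent.N899.BB.Iso.Z_eq X Y i G μ we hi β

include hc hi hcj h0 hβ in
lemma lb_itr {R r : ℕ} [NeZero (2 * R)] (hr : 1 ≤ r) (hrR : r ≤ R) : ∀ (D : ℕ) (X : Cx),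
    ((R : ℝ) / r) ^ D * Real.log ((itr (path (2 * r)) D X).Z μ we β) ≤
      Real.log ((itr (cyc (2 * R)) D X).Z μ we β)
  | 0, X => by simp [itr]
  | D + 1, X => by
    have hq : (0 : ℝ) ≤ (R : ℝ) / r := by positivity
    have h1 := lb_itr hr hrR D (X.prod (path (2 * r)))
    rw [Zeq G μ we hi β (itr_iso (path (2 * r)) (path (2 * r)) X D),
      Zeq G μ we hi β (itr_iso (cyc (2 * R)) (path (2 * r)) X D)] at h1
    have h2 := (Tb.one_dir Sl.t_KX (Sl.t_SL Slg.t_SLG) Open.t_OPEN G μ we hc hi hcj h0 β hβ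
      (itr (cyc (2 * R)) D X)).2.1 R r hr hrR
    calc ((R : ℝ) / r) ^ (D + 1) * Real.log ((itr (path (2 * r)) (D + 1) X).Z μ we β)
        = ((R : ℝ) / r) * (((R : ℝ) / r) ^ D *
          Real.log (((itr (path (2 * r)) D X).prod (path (2 * r))).Z μ we β)) := by
          rw [pow_succ]
          change _ * _ * Real.log (((itr (path (2 * r)) D X).prod (path (2 * r))).Z μ we β) = _
          ring
      _ ≤ ((R : ℝ) / r) * Real.log (((itr (cyc (2 * R)) D X).prod (path (2 * r))).Z μ we β) :=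
          mul_le_mul_of_nonneg_left h1 hq
      _ ≤ _ := h2

lemma prt_tors {D l t : ℕ} [NeZero l] [NeZero t] (hw : ∀ g, we g⁻¹ = we g) (hc : Continuous we) :
    prt (D := D) (l := l) (t := t) μ we β = (tors l t D).Z μ we β := by
  unfold prt Cx.Z
  have h1 : Measurable fun U : (tors l t D).E → G => Real.exp (-(β * (tors l t D).S we U)) :=
    (Real.continuous_exp.comp (continuous_const.mul
      (Tree.continuous_S (X := tors l t D) hc)).neg).measurable
  rw [← int_inj μ (cE_bij (l := l) (t := t) D).1 h1]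
  refine integral_congr_ae (Filter.Eventually.of_forall fun U => ?_)
  simp only
  rw [S_tors we hw]

include hc hi hcj h0 hβ in
theorem prt_low {D R r t : ℕ} [NeZero (2 * R)] [NeZero t] (hr : 1 ≤ r) (hrR : r ≤ R) :
    ((R : ℝ) / r) ^ D * Real.log (((bx (2 * r) D).prod (cyc t)).Z μ we β) ≤
      Real.log (prt (D := D) (l := 2 * R) (t := t) μ we β) := by
  rw [prt_tors G μ we β hi hc, tors_itr, bx_itr,
    ← Zeq G μ we hi β (itr_iso (path (2 * r)) (cyc t) pt D)]
  exact lb_itr G μ we hc hi hcj h0 β hβ hr hrR D (pt.prod (cyc t))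

end low

/-! ### the upper bound -/

section up

variable {D L h t n : ℕ} [NeZero (L * (2 * h))] [NeZero t] [NeZero h]

omit [NeZero (L * (2 * h))] [NeZero h] in
lemma pos_em (B : Fin D → ZMod (2 * h)) (r : Fin D → ℕ) : pos (em L B 0) r = em L B r := by
  funext i
  simp [pos, em]

lemma em_inj {B B' : Fin D → ZMod (2 * h)} {r r' : Fin D → ℕ} (hr : ∀ i, r i < L)
    (hr' : ∀ i, r' i < L) (he : em L B r = em L B' r') : B = B' := by
  haveI : NeZero (2 * h) := ⟨by have := NeZero.ne h; omega⟩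
  funext i
  have h1 := congrFun he i
  unfold em at h1
  have h2 := congrArg ZMod.val h1
  have h3 : ∀ (B : Fin D → ZMod (2 * h)) (r : Fin D → ℕ), r i < L →
      L * (B i).val + r i < L * (2 * h) := by
    intro B r hr
    have h4 := ZMod.val_lt (B i)
    calc L * (B i).val + r i < L * (B i).val + L := by omega
      _ = L * ((B i).val + 1) := by ring
      _ ≤ L * (2 * h) := Nat.mul_le_mul_left _ h4
  rw [ZMod.val_natCast_of_lt (h3 B r (hr i)), ZMod.val_natCast_of_lt (h3 B' r' (hr' i))] at h2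
  have hL : 0 < L := by have := hr i; omega
  have h5 : (B i).val = (B' i).val := by
    have e1 : (L * (B i).val + r i) / L = (B i).val := by
      rw [add_comm, Nat.add_mul_div_left _ _ hL, Nat.div_eq_of_lt (hr i), zero_add]
    have e2 : (L * (B' i).val + r' i) / L = (B' i).val := by
      rw [add_comm, Nat.add_mul_div_left _ _ hL, Nat.div_eq_of_lt (hr' i), zero_add]
    rw [← e1, h2, e2]
  exact ZMod.val_injective _ h5

/-- the embedding of the box of the block `B` -/
def eB (n L : ℕ) {D h t : ℕ} [NeZero (L * (2 * h))] [NeZero t] (B : Fin D → ZMod (2 * h)) :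
    Mor ((bx n D).prod (cyc t)) (tors (L * (2 * h)) t D) := emb D (em L B 0)

lemma vv_cases (v : ((bx n D).prod (cyc t)).V) : ∃ (w : (bx n D).V) (τ : ZMod t), v = vv w τ := by
  obtain ⟨w, τ⟩ := v
  exact ⟨w, τ, rfl⟩

lemma eB_V (hn : n + 1 ≤ L) {B B' : Fin D → ZMod (2 * h)} {v v' : ((bx n D).prod (cyc t)).V}
    (he : (eB n L B).V v = (eB n L B').V v') : B = B' := by
  obtain ⟨w, τ, rfl⟩ := vv_cases v
  obtain ⟨w', τ', rfl⟩ := vv_cases v'
  have h1 := congrArg (cV (L * (2 * h)) t D) he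
  unfold eB at h1
  rw [emb_V, emb_V, pos_em, pos_em] at h1
  refine em_inj (fun i => ?_) (fun i => ?_) (Prod.ext_iff.1 h1).1
  · have := bV_le D w i; omega
  · have := bV_le D w' i; omega

lemma Lh (hn : n + 1 ≤ L) : n + 1 ≤ L * (2 * h) := by
  have := Nat.pos_of_ne_zero (NeZero.ne h)
  nlinarith

lemma jE_inj (hn : n + 1 ≤ L) : Function.Injective
    (fun p : (Fin D → ZMod (2 * h)) × ((bx n D).prod (cyc t)).E =>
      cE (L * (2 * h)) t D ((eB n L p.1).E p.2)) := by
  rintro ⟨B, e⟩ ⟨B', e'⟩ he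
  have h1 := (cE_bij (l := L * (2 * h)) (t := t) D).1 he
  have h2 : (eB n L B).V (((bx n D).prod (cyc t)).src e) =
      (eB n L B').V (((bx n D).prod (cyc t)).src e') := by
    rw [← (eB n L B).src, ← (eB n L B').src]
    exact congrArg _ h1
  have h3 := eB_V hn h2
  subst h3
  have h4 : e = e' := (emb_inj (t := t) (Lh (h := h) hn) D (em L B 0)).2.1 h1
  rw [h4]

lemma jF_inj (hn : n + 1 ≤ L) : Function.Injective
    (fun p : (Fin D → ZMod (2 * h)) × ((bx n D).prod (cyc t)).F => (eB n L p.1).F p.2) := by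
  rintro ⟨B, f⟩ ⟨B', f'⟩ he
  have key : ∀ (B : Fin D → ZMod (2 * h)) (f : ((bx n D).prod (cyc t)).F),
      (tors (L * (2 * h)) t D).src ((tors (L * (2 * h)) t D).f1 ((eB n L B).F f)) =
      (eB n L B).V (((bx n D).prod (cyc t)).src (((bx n D).prod (cyc t)).f1 f)) := by
    intro B f
    rcases (eB n L B).face f with ⟨a1, -, -, -⟩ | ⟨a1, -, -, -⟩
    · rw [a1, (eB n L B).src]
    · rw [a1, (eB n L B).src, ← ((bx n D).prod (cyc t)).h1]
  have h2 : (eB n L B).V (((bx n D).prod (cyc t)).src (((bx n D).prod (cyc t)).f1 f)) =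
      (eB n L B').V (((bx n D).prod (cyc t)).src (((bx n D).prod (cyc t)).f1 f')) := by
    rw [← key, ← key]
    have he' : (eB n L B).F f = (eB n L B').F f' := he
    rw [he']
  have h3 := eB_V hn h2
  subst h3
  have h4 : f = f' := (emb_inj (t := t) (Lh (h := h) hn) D (em L B 0)).2.2 he
  rw [h4]

variable {G : Type} [Group G]

lemma mor_plq {X Y : Cx} (f : Mor X Y) {we : G → ℝ} (hi : ∀ g, we g⁻¹ = we g) (U : Y.E → G)
    (p : X.F) : we (X.plq (fun e => U (f.E e)) p) = we (Y.plq U (f.F p)) := by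
  unfold Cx.plq
  rcases f.face p with ⟨a1, a2, a3, a4⟩ | ⟨a1, a2, a3, a4⟩
  · rw [a1, a2, a3, a4]
  · rw [a1, a2, a3, a4, ← hi]
    congr 1
    group

/-- the configuration of the box of the block `B` -/
def UB (n L : ℕ) {D h t : ℕ} [NeZero (L * (2 * h))] [NeZero t]
    (U : St D (L * (2 * h)) t × Fin (D + 1) → G) (B : Fin D → ZMod (2 * h)) :
    ((bx n D).prod (cyc t)).E → G := fun e => U (cE (L * (2 * h)) t D ((eB n L B).E e))

lemma S_UB (hn : n + 1 ≤ L) [NeZero (2 * h)] {we : G → ℝ} (hi : ∀ g, we g⁻¹ = we g)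
    (h0 : ∀ g, 0 ≤ we g) (U : St D (L * (2 * h)) t × Fin (D + 1) → G) :
    ∑ B : Fin D → ZMod (2 * h), ((bx n D).prod (cyc t)).S we (UB n L U B) ≤
      ac we (N899.SB.ev D (L * (2 * h)) t) U := by
  classical
  rw [← S_tors we hi]
  have h1 : ∀ B : Fin D → ZMod (2 * h), ((bx n D).prod (cyc t)).S we (UB n L U B) =
      ∑ f, we ((tors (L * (2 * h)) t D).plq (fun e => U (cE (L * (2 * h)) t D e))
        ((eB n L B).F f)) := by
    intro B
    unfold Cx.S
    refine Finset.sum_congr rfl fun f _ => ?_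
    exact mor_plq (eB n L B) hi (fun e => U (cE (L * (2 * h)) t D e)) f
  rw [Finset.sum_congr rfl fun B _ => h1 B]
  rw [← Fintype.sum_prod_type (f := fun p : (Fin D → ZMod (2 * h)) × ((bx n D).prod (cyc t)).F =>
    we ((tors (L * (2 * h)) t D).plq (fun e => U (cE (L * (2 * h)) t D e)) ((eB n L p.1).F p.2)))]
  rw [← Finset.sum_image (s := Finset.univ) (g := fun p : (Fin D → ZMod (2 * h)) ×
    ((bx n D).prod (cyc t)).F => (eB n L p.1).F p.2)
    (f := fun q => we ((tors (L * (2 * h)) t D).plq (fun e => U (cE (L * (2 * h)) t D e)) q))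
    (fun a _ b _ hab => jF_inj hn hab)]
  exact Finset.sum_le_sum_of_subset_of_nonneg (Finset.subset_univ _) fun _ _ _ => h0 _

omit [NeZero h] in
lemma pol_UB (U : St D (L * (2 * h)) t × Fin (D + 1) → G) (B : Fin D → ZMod (2 * h)) :
    polR (bxRt n D).root (UB n L U B) = Pol U (em L B 0) := by
  unfold polR Pol
  congr 1
  refine List.map_congr_left fun τ _ => ?_
  unfold UB eB
  rw [emb_E, bV_root]
  have : pos (em L B 0) 0 = em L B 0 := by
    rw [pos_em]
  rw [this]

variable [TopologicalSpace G] [IsTopologicalGroup G] [CompactSpace G] [SecondCountableTopology G]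
  [MeasurableSpace G] [BorelSpace G] (μ : Measure G) [IsProbabilityMeasure μ]

theorem all_b2 (hn : n + 1 ≤ L) [NeZero (2 * h)] {we : G → ℝ} (hw : Continuous we)
    (hi : ∀ g, we g⁻¹ = we g) (hcj : ∀ g h, we (h * g * h⁻¹) = we g)
    (h0 : ∀ g, 0 ≤ we g) {β : ℝ} (hβ : 0 ≤ β) (ε : ℝ) (q : G → Prop) (hq : MeasurableSet {g | q g})
    {F : G → ℝ} (hF : Continuous F) (hF0 : ∀ g, 0 ≤ F g) (hFq : ∀ g, q g → F g = 1) :
    Gw μ (Fb (D := D) (t := t) (L := L) (h := h) we hw.measurable hi hcj ε q hq) we β (fun _ => 2) ≤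
    (∫ U, F (polR (bxRt n D).root U) * Real.exp (-(β * ((bx n D).prod (cyc t)).S we U))
      ∂(Measure.pi fun _ => μ)) ^ ((2 * h) ^ D) := by
  classical
  obtain ⟨f, hf⟩ : ∃ f : (((bx n D).prod (cyc t)).E → G) → ℝ, f = fun U =>
    F (polR (bxRt n D).root U) * Real.exp (-(β * ((bx n D).prod (cyc t)).S we U)) := ⟨_, rfl⟩
  have hfc : Continuous f := by
    rw [hf]
    have c0 : Continuous fun U : ((bx n D).prod (cyc t)).E → G => ((bx n D).prod (cyc t)).S we U :=
      Tree.continuous_S (X := (bx n D).prod (cyc t)) hw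
    exact (hF.comp (polR_cont (bxRt n D).root)).mul
      (Real.continuous_exp.comp (continuous_const.mul c0).neg)
  have hf0 : ∀ U, 0 ≤ f U := by
    intro U
    rw [hf]
    exact mul_nonneg (hF0 _) (Real.exp_pos _).le
  have h1 := int_blocks μ (jE_inj (D := D) (h := h) (t := t) hn) hfc.measurable
  have hcard : Fintype.card (Fin D → ZMod (2 * h)) = (2 * h) ^ D := by
    rw [Fintype.card_fun, ZMod.card, Fintype.card_fin]
  rw [hcard] at h1
  rw [hf] at h1
  rw [← h1]
  unfold Gw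
  refine integral_mono_of_nonneg (Filter.Eventually.of_forall fun U => ?_) ?_
    (Filter.Eventually.of_forall fun U => ?_)
  · exact mul_nonneg (Finset.prod_nonneg fun B _ => (Fb we hw.measurable hi hcj ε q hq).nonneg _ _ _)
      (Real.exp_pos _).le
  · have c1 : Continuous fun U : St D (L * (2 * h)) t × Fin (D + 1) → G =>
        ∏ B : Fin D → ZMod (2 * h), f (UB n L U B) :=
      continuous_finsetProd _ fun B _ => hfc.comp (continuous_pi fun e => continuous_apply _)
    rw [hf] at c1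
    exact c1.integrable_of_hasCompactSupport (HasCompactSupport.of_compactSpace _)
  · change _ ≤ ∏ B : Fin D → ZMod (2 * h), (F (polR (bxRt n D).root (UB n L U B)) *
      Real.exp (-(β * ((bx n D).prod (cyc t)).S we (UB n L U B))))
    rw [Finset.prod_mul_distrib, ← Real.exp_sum]
    have e1 : Real.exp (-(β * ac we (N899.SB.ev D (L * (2 * h)) t) U)) ≤
        Real.exp (∑ B : Fin D → ZMod (2 * h),
          -(β * ((bx n D).prod (cyc t)).S we (UB n L U B))) := by
      refine Real.exp_le_exp.2 ?_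
      rw [Finset.sum_neg_distrib, ← Finset.mul_sum]
      exact neg_le_neg (mul_le_mul_of_nonneg_left (S_UB hn hi h0 U) hβ)
    refine mul_le_mul ?_ e1 (Real.exp_pos _).le (Finset.prod_nonneg fun B _ => hF0 _)
    refine Finset.prod_le_prod (fun B _ => (Fb we hw.measurable hi hcj ε q hq).nonneg _ _ _)
      fun B _ => ?_
    change (if (2 : Fin 3) = 0 then (1 : ℝ) else if (2 : Fin 3) = 1 then
      (if E1 we ε B U then 1 else 0) else (if E2 q B U then 1 else 0)) ≤ _
    rw [if_neg (by decide), if_neg (by decide)]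
    split_ifs with hE
    · rw [pol_UB, hFq _ (hE 0 (fun j => Nat.zero_le _))]
    · exact hF0 _

end up

end

end Pool.Agent.H991.DC
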