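import Mathlib
import Pool.Agent.H991.DC.Emb3

/-!
# The weights of the two kinds of bad blocks
-/

open MeasureTheory
open Pool.Agent.N899.BB Pool.Agent.N899.SB

namespace Pool.Agent.H991.DC

noncomputable section

/-! ### cardinalities of the torus -/

lemma card_torsV (l t : ℕ) [NeZero l] [NeZero t] (D : ℕ) :
    Fintype.card (tors l t D).V = l ^ D * t := by
  rw [Fintype.card_congr (Equiv.ofBijective _ (cV_bij (l := l) (t := t) D)), Fintype.card_prod,
    Fintype.card_fun, ZMod.card, ZMod.card, Fintype.card_fin]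

lemma card_torsE (l t : ℕ) [NeZero l] [NeZero t] (D : ℕ) :
    Fintype.card (tors l t D).E = l ^ D * t * (D + 1) := by
  rw [Fintype.card_congr (Equiv.ofBijective _ (cE_bij (l := l) (t := t) D)), Fintype.card_prod,
    Fintype.card_prod, Fintype.card_fun, ZMod.card, ZMod.card, Fintype.card_fin, Fintype.card_fin]

lemma card_torsF (l t : ℕ) [NeZero l] [NeZero t] (D : ℕ) :
    Fintype.card (tors l t D).F ≤ (D + 1) ^ 2 * (l ^ D * t) := by
  induction D with
  | zero =>
    have : IsEmpty (tors l t 0).F := by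
      refine ⟨?_⟩
      rintro (⟨e, -⟩ | ⟨e, -⟩) <;> exact e.elim
    rw [Fintype.card_eq_zero]
    exact Nat.zero_le _
  | succ D ih =>
    have h : Fintype.card (tors l t (D + 1)).F = Fintype.card (tors l t D).F * l +
        Fintype.card (tors l t D).E * l := by
      change Fintype.card (((tors l t D).F × ZMod l) ⊕ ((tors l t D).E × ZMod l)) = _
      rw [Fintype.card_sum, Fintype.card_prod, Fintype.card_prod, ZMod.card]
    rw [h, card_torsE]
    calc _ ≤ (D + 1) ^ 2 * (l ^ D * t) * l + l ^ D * t * (D + 1) * l :=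
          Nat.add_le_add_right (Nat.mul_le_mul_right _ ih) _
      _ = ((D + 1) ^ 2 + (D + 1)) * (l ^ (D + 1) * t) := by ring
      _ ≤ (D + 1 + 1) ^ 2 * (l ^ (D + 1) * t) := Nat.mul_le_mul_right _ (by nlinarith)

/-! ### the first kind -/

section one

variable {D L h t : ℕ} [NeZero (L * (2 * h))] [NeZero t] [NeZero h] {G : Type} [Group G]

/-- the even blocks -/
def evB (b : Fin D → Fin h) : Fin D → ZMod (2 * h) := fun i => ((2 * (b i : ℕ) : ℕ) : ZMod (2 * h))

omit [NeZero (L * (2 * h))] in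
lemma em_ev_inj {b b' : Fin D → Fin h} {r r' : Fin D → ℕ} (hL : 0 < L) (hr : ∀ i, r i ≤ L)
    (hr' : ∀ i, r' i ≤ L) (he : em L (evB b) r = em L (evB b') r') : b = b' := by
  haveI : NeZero (2 * h) := ⟨by have := NeZero.ne h; omega⟩
  funext i
  have h1 := congrFun he i
  unfold em evB at h1
  have h0 : ∀ b : Fin D → Fin h, (((2 * (b i : ℕ) : ℕ) : ZMod (2 * h))).val = 2 * (b i : ℕ) := by
    intro b
    exact ZMod.val_natCast_of_lt (by have := (b i).2; omega)
  rw [h0, h0] at h1
  have h2 := congrArg ZMod.val h1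
  have h3 : ∀ (b : Fin D → Fin h) (r : Fin D → ℕ), r i ≤ L →
      L * (2 * (b i : ℕ)) + r i < L * (2 * h) := by
    intro b r hr
    have h4 := (b i).2
    calc L * (2 * (b i : ℕ)) + r i < L * (2 * (b i : ℕ)) + (L + L) := by omega
      _ = L * (2 * ((b i : ℕ) + 1)) := by ring
      _ ≤ L * (2 * h) := Nat.mul_le_mul_left _ (by omega)
  rw [ZMod.val_natCast_of_lt (h3 b r (hr i)), ZMod.val_natCast_of_lt (h3 b' r' (hr' i))] at h2
  have e : ∀ (b : Fin D → Fin h) (r : Fin D → ℕ), r i ≤ L →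
      (L * (2 * (b i : ℕ)) + r i) / (2 * L) = (b i : ℕ) := by
    intro b r hr
    have : L * (2 * (b i : ℕ)) + r i = r i + (2 * L) * (b i : ℕ) := by ring
    rw [this, Nat.add_mul_div_left _ _ (by omega : 0 < 2 * L), Nat.div_eq_of_lt (by omega), zero_add]
  have h5 : (b i : ℕ) = (b' i : ℕ) := by
    rw [← e b r (hr i), h2, e b' r' (hr' i)]
  exact Fin.ext h5

lemma act_ge (hL : 0 < L) {we : G → ℝ} (h0 : ∀ g, 0 ≤ we g) {ε : ℝ}
    (U : St D (L * (2 * h)) t × Fin (D + 1) → G)
    (hU : ∀ B : Fin D → ZMod (2 * h), E1 we ε B U) :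
    ε * h ^ D ≤ ac we (N899.SB.ev D (L * (2 * h)) t) U := by
  classical
  choose r τ a b hab hok hlt using hU
  obtain ⟨f, hf⟩ : ∃ f : St D (L * (2 * h)) t × Fin (D + 1) × Fin (D + 1) → ℝ, f = fun p =>
    if p.2.1 < p.2.2 then we (pq (N899.SB.ev D (L * (2 * h)) t) U p.1 p.2.1 p.2.2) else 0 := ⟨_, rfl⟩
  have h1 : ac we (N899.SB.ev D (L * (2 * h)) t) U = ∑ p, f p := by
    have e1 : ∀ f : St D (L * (2 * h)) t × Fin (D + 1) × Fin (D + 1) → ℝ,
        ∑ p, f p = ∑ x, ∑ i, ∑ j, f (x, i, j) := by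
      intro f
      rw [Fintype.sum_prod_type]
      exact Finset.sum_congr rfl fun x _ => Fintype.sum_prod_type _
    rw [e1, hf]
    rfl
  have hf0 : ∀ p, 0 ≤ f p := by
    intro p
    rw [hf]
    simp only
    split_ifs
    · exact h0 _
    · exact le_rfl
  obtain ⟨ψ, hψ⟩ : ∃ ψ : (Fin D → Fin h) → St D (L * (2 * h)) t × Fin (D + 1) × Fin (D + 1),
    ψ = fun c => ((em L (evB c) (r (evB c)), τ (evB c)), a (evB c), b (evB c)) := ⟨_, rfl⟩
  have hinj : Function.Injective ψ := by
    intro c c' hc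
    rw [hψ] at hc
    have h2 := (Prod.ext_iff.1 (Prod.ext_iff.1 hc).1).1
    exact em_ev_inj hL (fun i => (hok _ i).1) (fun i => (hok _ i).1) h2
  rw [h1]
  have h2 : ∑ c : Fin D → Fin h, f (ψ c) ≤ ∑ p, f p := by
    rw [← Finset.sum_image (s := Finset.univ) (g := ψ) (f := f) (fun x _ y _ hxy => hinj hxy)]
    exact Finset.sum_le_sum_of_subset_of_nonneg (Finset.subset_univ _) fun _ _ _ => hf0 _
  refine le_trans ?_ h2
  have h3 : ∀ c : Fin D → Fin h, ε ≤ f (ψ c) := by
    intro c
    rw [hf, hψ]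
    simp only
    rw [if_pos (hab _)]
    exact (hlt _).le
  refine le_trans (le_of_eq ?_) (Finset.sum_le_sum fun c _ => h3 c)
  rw [Finset.sum_const, Finset.card_univ, Fintype.card_fun, Fintype.card_fin, Fintype.card_fin,
    nsmul_eq_mul]
  push_cast
  ring

variable [TopologicalSpace G] [IsTopologicalGroup G] [CompactSpace G] [SecondCountableTopology G]
  [MeasurableSpace G] [BorelSpace G] (μ : Measure G) [IsProbabilityMeasure μ]

theorem all_b1 (hL : 0 < L) [NeZero (2 * h)] {we : G → ℝ} (hw : Continuous we)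
    (hi : ∀ g, we g⁻¹ = we g) (hcj : ∀ g h, we (h * g * h⁻¹) = we g)
    (h0 : ∀ g, 0 ≤ we g) {β : ℝ} (hβ : 0 ≤ β) (ε : ℝ) (q : G → Prop) (hq : MeasurableSet {g | q g}) :
    Gw μ (Fb (D := D) (t := t) (L := L) (h := h) we hw.measurable hi hcj ε q hq) we β (fun _ => 1) ≤
    Real.exp (-(β / 2 * (ε * h ^ D))) := by
  classical
  unfold Gw
  have h1 : ∫ _U : St D (L * (2 * h)) t × Fin (D + 1) → G, Real.exp (-(β / 2 * (ε * h ^ D)))
      ∂(Measure.pi fun _ => μ) = Real.exp (-(β / 2 * (ε * h ^ D))) := by simp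
  rw [← h1]
  refine integral_mono_of_nonneg (Filter.Eventually.of_forall fun U => ?_) (integrable_const _)
    (Filter.Eventually.of_forall fun U => ?_)
  · exact mul_nonneg (Finset.prod_nonneg fun B _ => (Fb we hw.measurable hi hcj ε q hq).nonneg _ _ _)
      (Real.exp_pos _).le
  · simp only
    have hac := ac_nonneg we h0 U
    by_cases hE : ∀ B : Fin D → ZMod (2 * h), E1 we ε B U
    · have h2 := act_ge hL h0 U hE
      have h3 : ∏ B : Fin D → ZMod (2 * h), (Fb we hw.measurable hi hcj ε q hq).F 1 B U ≤ 1 :=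
        Finset.prod_le_one (fun B _ => (Fb we hw.measurable hi hcj ε q hq).nonneg _ _ _)
          fun B _ => (Fb we hw.measurable hi hcj ε q hq).le_one _ _ _
      calc _ ≤ 1 * Real.exp (-(β * ac we (N899.SB.ev D (L * (2 * h)) t) U)) :=
            mul_le_mul_of_nonneg_right h3 (Real.exp_pos _).le
        _ ≤ _ := by
            rw [one_mul]
            refine Real.exp_le_exp.2 ?_
            nlinarith [mul_nonneg hβ hac, mul_le_mul_of_nonneg_left h2 hβ]
    · push Not at hE
      obtain ⟨B, hB⟩ := hE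
      have h3 : (Fb we hw.measurable hi hcj ε q hq).F 1 B U = 0 := by
        change (if (1 : Fin 3) = 0 then (1 : ℝ) else if (1 : Fin 3) = 1 then
          (if E1 we ε B U then 1 else 0) else (if E2 q B U then 1 else 0)) = 0
        rw [if_neg (by decide), if_pos rfl, if_neg hB]
      rw [Finset.prod_eq_zero (Finset.mem_univ B) h3, zero_mul]
      exact (Real.exp_pos _).le

end one

end

end Pool.Agent.H991.DC
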