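import Mathlib
import Pool.Agent.H991.DC.B12
import Pool.Agent.H991.DC.BoxR

/-!
# The weights of the two kinds of bad blocks, compared with the partition function
-/

open MeasureTheory Matrix
open scoped Matrix.Norms.Frobenius
open Pool.Agent.N899.BB Pool.Agent.N899.SB
open Pool.Agent.Y14.Wilson

namespace Pool.Agent.H991.DC

noncomputable section

lemma card_pE (n D t : ℕ) [NeZero t] : Fintype.card ((bx n D).prod (cyc t)).E =
    Fintype.card (bx n D).E * t + Fintype.card (bx n D).V * t := by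
  change Fintype.card (((bx n D).E × ZMod t) ⊕ ((bx n D).V × ZMod t)) = _
  rw [Fintype.card_sum, Fintype.card_prod, Fintype.card_prod, ZMod.card]

lemma card_pF (n D t : ℕ) [NeZero t] : Fintype.card ((bx n D).prod (cyc t)).F =
    Fintype.card (bx n D).F * t + Fintype.card (bx n D).E * t := by
  change Fintype.card (((bx n D).F × ZMod t) ⊕ ((bx n D).E × ZMod t)) = _
  rw [Fintype.card_sum, Fintype.card_prod, Fintype.card_prod, ZMod.card]

lemma card_EF (n D t : ℕ) [NeZero t] : Fintype.card ((bx n D).prod (cyc t)).E +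
    Fintype.card ((bx n D).prod (cyc t)).F ≤ (D + 1) ^ 2 * (t * (n + 1) ^ D) := by
  rw [card_pE, card_pF, card_bxV]
  have h1 := card_bxE n D
  have h2 := card_bxF n D
  calc _ = t * (Fintype.card (bx n D).E + (n + 1) ^ D + (Fintype.card (bx n D).F +
        Fintype.card (bx n D).E)) := by ring
    _ ≤ t * (D * (n + 1) ^ D + (n + 1) ^ D + (D ^ 2 * (n + 1) ^ D + D * (n + 1) ^ D)) :=
        Nat.mul_le_mul_left _ (Nat.add_le_add (Nat.add_le_add_right h1 _) (Nat.add_le_add h2 h1))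
    _ = _ := by ring

lemma card_tE (l t : ℕ) [NeZero l] [NeZero t] (D : ℕ) : Fintype.card (tors l t D).E +
    Fintype.card (tors l t D).F ≤ 2 * (D + 1) ^ 2 * (l ^ D * t) := by
  rw [card_torsE]
  have h2 := card_torsF l t D
  calc _ ≤ l ^ D * t * (D + 1) + (D + 1) ^ 2 * (l ^ D * t) := Nat.add_le_add_left h2 _
    _ = ((D + 1) + (D + 1) ^ 2) * (l ^ D * t) := by ring
    _ ≤ _ := Nat.mul_le_mul_right _ (by nlinarith)

theorem prt_low' (G : Type) [Group G] [TopologicalSpace G] [IsTopologicalGroup G] [CompactSpace G]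
    [SecondCountableTopology G] [MeasurableSpace G] [BorelSpace G] (μ : Measure G)
    [IsProbabilityMeasure μ] [μ.IsInvInvariant] (we : G → ℝ) (hw : Continuous we)
    (hi : ∀ g : G, we g⁻¹ = we g) (hcj : ∀ g h : G, we (h * g * h⁻¹) = we g)
    (h0 : ∀ g : G, 0 ≤ we g) (β : ℝ) (hβ : 0 ≤ β) {D l R r t : ℕ} [NeZero l] [NeZero t]
    (hl : l = 2 * R) (h1 : 1 ≤ r) (h2 : r ≤ R) :
    ((R : ℝ) / r) ^ D * Real.log (((bx (2 * r) D).prod (cyc t)).Z μ we β) ≤
      Real.log (prt (D := D) (l := l) (t := t) μ we β) := by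
  subst hl
  exact prt_low G μ we hw hi hcj h0 β hβ h1 h2

/-- the first kind of bad blocks -/
abbrev FB {N : ℕ} {G : Subgroup (UU N)} [MeasurableSpace G] [BorelSpace G]
    [SecondCountableTopology G] (D L h t : ℕ) [NeZero (L * (2 * h))] [NeZero t] [NeZero h] (ε : ℝ)
    (q : G → Prop) (hq : MeasurableSet {g | q g}) : Fam D t L h G (Fin 3) :=
  Fb we (Low.we_cont (G := G)).measurable Gauss.we_inv (fun g h => Asm.we_conj g h) ε q hq

theorem wts {N n : ℕ} (G : Subgroup (UU N)) (hG : IsClosed (G : Set (UU N)))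
    [MeasurableSpace G] [BorelSpace G] [CompactSpace G] [SecondCountableTopology G]
    (μ : Measure G) [IsProbabilityMeasure μ] [μ.IsHaarMeasure]
    (B : LieBasis G n) : ∃ (C : ℝ) (K : ℕ), 1 ≤ C ∧ 1 ≤ K ∧
    ∀ (D L h t r : ℕ) [NeZero (L * (2 * h))] [NeZero t] [NeZero h] [NeZero (2 * h)], 2 ≤ D →
    1 ≤ r → L = 2 * r + 2 → ∀ β : ℝ, 3 ≤ β → ∀ ε δ : ℝ, 0 ≤ ε → 0 ≤ δ → ∀ F : G → ℝ, Continuous F →
    (∀ P, 0 ≤ F P ∧ F P ≤ 1) → (∀ P, F P ≠ 0 → δ ≤ n - (Ado B P).trace) →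
    ∀ (q : G → Prop) (hq : MeasurableSet {g | q g}), (∀ g, q g → F g = 1) →
    0 < prt (D := D) (l := L * (2 * h)) (t := t) μ (we (G := G)) β ∧
    Gw μ (FB D L h t ε q hq) we β (fun _ => 1) ≤
      prt (D := D) (l := L * (2 * h)) (t := t) μ (we (G := G)) β *
        Real.exp (-(β * ε / 2 ^ (D + 1) - 2 ^ (D + 1) * C * ((D + 1) ^ 2 * (t * L ^ D) : ℕ) *
          Real.log β)) ^ (2 * h) ^ D ∧
    Gw μ (FB D L h t ε q hq) we β (fun _ => 2) ≤
      prt (D := D) (l := L * (2 * h)) (t := t) μ (we (G := G)) β *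
        Real.exp (-((δ / (Real.cosh (20 * D) + 1) * ((2 * r / t : ℕ) : ℝ) ^ D) / 2 -
          C * (((D + 1) ^ 2 * (t * L ^ D) : ℕ) * Real.log β) ^ K / Real.sqrt β -
          C * Real.log (((D + 1) ^ 2 * (t * L ^ D) : ℕ) * β) -
          ((((r + 1 : ℕ) : ℝ) / r) ^ D - 1) * (C * ((D + 1) ^ 2 * (t * L ^ D) : ℕ) * Real.log β))) ^
          (2 * h) ^ D := by
  obtain ⟨C1, K, hC1, hK, h1⟩ := box_ratio G hG μ B
  obtain ⟨C2, hC2, h2⟩ := Low.t_LOW G hG μ
  refine ⟨C1 + C2, K, by linarith, hK, fun D L h t r _ _ _ _ hD hr hL β hβ ε δ hε hδ F hF hF1 hFδ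
    q hq hqF => ?_⟩
  have hri := Gauss.right_inv μ
  have hii := Gauss.inv_inv' μ
  have hcc : ∀ g h : G, we (h * g * h⁻¹) = we g := fun g h => Asm.we_conj g h
  have hβ0 : 0 < β := by linarith
  have hlb : 0 < Real.log β := Real.log_pos (by linarith)
  have ht : 0 < t := Nat.pos_of_ne_zero (NeZero.ne t)
  have hh : 0 < h := Nat.pos_of_ne_zero (NeZero.ne h)
  have hL0 : 0 < L := by omega
  obtain ⟨m, hm⟩ : ∃ m, m = (D + 1) ^ 2 * (t * L ^ D) := ⟨_, rfl⟩
  have hm1 : 1 ≤ m := by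
    rw [hm]
    exact Nat.mul_pos (by positivity) (Nat.mul_pos ht (pow_pos hL0 _))
  obtain ⟨-, -, hX⟩ := h2 β hβ
  obtain ⟨Z, hZ⟩ : ∃ Z, Z = prt (D := D) (l := L * (2 * h)) (t := t) μ (we (G := G)) β := ⟨_, rfl⟩
  have hZ0 : 0 < Z := by
    rw [hZ, prt_tors G μ we β Gauss.we_inv Low.we_cont]
    unfold Cx.Z
    refine integral_exp_pos ?_
    have c0 : Continuous fun U : (tors (L * (2 * h)) t D).E → G => (tors (L * (2 * h)) t D).S we U :=
      Pool.Agent.N899.BB.Tree.continuous_S (X := tors (L * (2 * h)) t D) (Low.we_cont (G := G))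
    have c1 : Continuous fun U : (tors (L * (2 * h)) t D).E → G =>
      Real.exp (-(β * (tors (L * (2 * h)) t D).S we U)) :=
      Real.continuous_exp.comp (continuous_const.mul c0).neg
    exact c1.integrable_of_hasCompactSupport (HasCompactSupport.of_compactSpace _)
  -- the lower bound for `log Z`
  have hZl : -(C2 * ((2 * (D + 1) ^ 2 * ((L * (2 * h)) ^ D * t) : ℕ) : ℝ) * Real.log β) ≤ Real.log Z := by
    have h3 := (hX (tors (L * (2 * h)) t D)).1
    rw [← prt_tors G μ we β Gauss.we_inv Low.we_cont, ← hZ] at h3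
    refine le_trans ?_ h3
    have h4 : ((Fintype.card (tors (L * (2 * h)) t D).E : ℝ) +
        Fintype.card (tors (L * (2 * h)) t D).F) ≤
        ((2 * (D + 1) ^ 2 * ((L * (2 * h)) ^ D * t) : ℕ) : ℝ) := by
      exact_mod_cast card_tE (L * (2 * h)) t D
    have h5 := mul_le_mul_of_nonneg_right (mul_le_mul_of_nonneg_left h4 (by linarith : (0 : ℝ) ≤ C2))
      hlb.le
    linarith
  refine ⟨hZ ▸ hZ0, ?_, ?_⟩
  · have h3 := all_b1 (D := D) (L := L) (h := h) (t := t) μ hL0 (Low.we_cont (G := G)) Gauss.we_inv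
      hcc (fun g => Low.we_nonneg g) hβ0.le ε q hq
    refine h3.trans ?_
    rw [← hZ, ← Real.exp_nat_mul]
    conv_rhs => rw [← Real.exp_log hZ0]
    rw [← Real.exp_add]
    refine Real.exp_le_exp.2 ?_
    have e1 : (2 * (D + 1) ^ 2 * ((L * (2 * h)) ^ D * t) : ℕ) = (2 * h) ^ D * (2 * m) := by
      rw [hm, mul_pow]; ring
    rw [e1] at hZl
    rw [← hm]
    push_cast at hZl ⊢
    have e2 : (2 * (h : ℝ)) ^ D * (β * ε / 2 ^ (D + 1)) = β / 2 * (ε * h ^ D) := by
      rw [mul_pow, pow_succ]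
      field_simp
    have e3 : (2 * (h : ℝ)) ^ D * (2 * m) * C2 * Real.log β ≤
        (2 * (h : ℝ)) ^ D * (2 ^ (D + 1) * (C1 + C2) * m * Real.log β) := by
      have k1 : (2 : ℝ) ≤ 2 ^ (D + 1) := by
        calc (2 : ℝ) = 2 ^ 1 := by norm_num
          _ ≤ 2 ^ (D + 1) := pow_le_pow_right₀ (by norm_num) (by omega)
      have k2 : C2 ≤ C1 + C2 := by linarith
      have k3 : (0 : ℝ) ≤ m := Nat.cast_nonneg _
      have k4 : (0 : ℝ) ≤ (2 * (h : ℝ)) ^ D := by positivity
      calc _ = (2 * (h : ℝ)) ^ D * (2 * C2 * m * Real.log β) := by ring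
        _ ≤ _ := by gcongr
    linarith [e2, e3, hZl]
  · have h3 := all_b2 (D := D) (L := L) (h := h) (t := t) (n := 2 * r) μ (by omega)
      (Low.we_cont (G := G)) Gauss.we_inv hcc (fun g => Low.we_nonneg g) hβ0.le ε q hq hF
      (fun g => (hF1 g).1) hqF
    refine h3.trans ?_
    have hcard : t * (Fintype.card (bx (2 * r) D).F + Fintype.card (bx (2 * r) D).E) ≤ m := by
      have k1 := card_EF (2 * r) D t
      rw [card_pE, card_pF] at k1
      have k2 : (2 * r + 1) ^ D ≤ L ^ D := Nat.pow_le_pow_left (by omega) _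
      calc _ ≤ Fintype.card (bx (2 * r) D).E * t + Fintype.card (bx (2 * r) D).V * t +
          (Fintype.card (bx (2 * r) D).F * t + Fintype.card (bx (2 * r) D).E * t) := by
            rw [mul_add]
            linarith [Nat.zero_le (Fintype.card (bx (2 * r) D).V * t),
              Nat.zero_le (Fintype.card (bx (2 * r) D).E * t)]
        _ ≤ _ := k1
        _ ≤ m := by rw [hm]; exact Nat.mul_le_mul_left _ (Nat.mul_le_mul_left _ k2)
    obtain ⟨hY0, h4⟩ := h1 D (2 * r) t hD β hβ δ hδ F hF hF1 hFδ m hm1 hcard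
    obtain ⟨Y, hY⟩ : ∃ Y, Y = ((bx (2 * r) D).prod (cyc t)).Z μ (we (G := G)) β := ⟨_, rfl⟩
    rw [← hY] at hY0 h4
    have h5 : Y ≤ 1 := hY ▸ (hX ((bx (2 * r) D).prod (cyc t))).2
    have h6 : -(C2 * m * Real.log β) ≤ Real.log Y := by
      have k1 := (hX ((bx (2 * r) D).prod (cyc t))).1
      rw [← hY] at k1
      refine le_trans ?_ k1
      have k2 : ((Fintype.card ((bx (2 * r) D).prod (cyc t)).E : ℝ) +
          Fintype.card ((bx (2 * r) D).prod (cyc t)).F) ≤ m := by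
        have k3 := card_EF (2 * r) D t
        have k4 : (2 * r + 1) ^ D ≤ L ^ D := Nat.pow_le_pow_left (by omega) _
        have k5 := k3.trans (Nat.mul_le_mul_left ((D + 1) ^ 2) (Nat.mul_le_mul_left t k4))
        rw [← hm] at k5
        exact_mod_cast k5
      have k6 := mul_le_mul_of_nonneg_right (mul_le_mul_of_nonneg_left k2
        (by linarith : (0 : ℝ) ≤ C2)) hlb.le
      linarith
    have h7 : Real.log Y ≤ 0 := Real.log_nonpos hY0.le h5
    have h8 := prt_low' G μ we Low.we_cont Gauss.we_inv hcc (fun g => Low.we_nonneg g) β hβ0.le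
      (D := D) (l := L * (2 * h)) (R := L * h) (r := r) (t := t) (by ring) hr
      (le_trans (by omega) (Nat.le_mul_of_pos_right L hh))
    rw [← hZ, ← hY] at h8
    have h9 : (((L * h : ℕ) : ℝ) / r) ^ D = (((2 * h) ^ D : ℕ) : ℝ) * (((r + 1 : ℕ) : ℝ) / r) ^ D := by
      have : (L : ℝ) = 2 * ((r : ℝ) + 1) := by rw [hL]; push_cast; ring
      push_cast
      rw [this, ← mul_pow]
      congr 1
      ring
    rw [h9] at h8
    obtain ⟨x, hx⟩ : ∃ x, x = (((r + 1 : ℕ) : ℝ) / r) ^ D := ⟨_, rfl⟩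
    have hx1 : 1 ≤ x := by
      rw [hx]
      refine one_le_pow₀ ?_
      rw [le_div_iff₀ (by exact_mod_cast hr)]
      push_cast
      linarith
    rw [← hx] at h8 ⊢
    have hI0 : 0 ≤ ∫ U : ((bx (2 * r) D).prod (cyc t)).E → G, F (polR (bxRt (2 * r) D).root U) *
        Real.exp (-(β * ((bx (2 * r) D).prod (cyc t)).S we U)) ∂(Measure.pi fun _ => μ) :=
      integral_nonneg fun U => mul_nonneg (hF1 _).1 (Real.exp_pos _).le
    refine (pow_le_pow_left₀ hI0 h4 _).trans ?_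
    rw [← hZ, ← hm]
    conv_lhs => rw [← Real.exp_log hY0]
    rw [← Real.exp_add, ← Real.exp_nat_mul, ← Real.exp_nat_mul]
    conv_rhs => rw [← Real.exp_log hZ0]
    rw [← Real.exp_add]
    refine Real.exp_le_exp.2 ?_
    obtain ⟨H, hH⟩ : ∃ H : ℝ, H = (((2 * h) ^ D : ℕ) : ℝ) := ⟨_, rfl⟩
    have hH0 : 0 ≤ H := by rw [hH]; positivity
    rw [← hH] at h8 ⊢
    obtain ⟨g, hg⟩ : ∃ g : ℝ, g = δ / (Real.cosh (20 * D) + 1) * ((2 * r / t : ℕ) : ℝ) ^ D := ⟨_, rfl⟩
    rw [← hg]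
    have k1 : 0 ≤ ((m : ℝ) * Real.log β) ^ K / Real.sqrt β := by positivity
    have k2 : 0 ≤ Real.log (m * β) := by
      refine Real.log_nonneg ?_
      have : (1 : ℝ) ≤ m := by exact_mod_cast hm1
      exact one_le_mul_of_one_le_of_one_le this (by linarith)
    have k3 : (0 : ℝ) ≤ m * Real.log β := by positivity
    have k4 : (x - 1) * (-Real.log Y) ≤ (x - 1) * ((C1 + C2) * m * Real.log β) := by
      refine mul_le_mul_of_nonneg_left ?_ (by linarith)
      have k5 : 0 ≤ C1 * ((m : ℝ) * Real.log β) := mul_nonneg (by linarith) k3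
      linarith
    have k5 : C1 * (m * Real.log β) ^ K / Real.sqrt β ≤
        (C1 + C2) * (m * Real.log β) ^ K / Real.sqrt β := by
      rw [mul_div_assoc, mul_div_assoc]
      exact mul_le_mul_of_nonneg_right (by linarith) k1
    have k6 : C1 * Real.log (m * β) ≤ (C1 + C2) * Real.log (m * β) :=
      mul_le_mul_of_nonneg_right (by linarith) k2
    have k7 : Real.log Y + (-g / 2 + C1 * (m * Real.log β) ^ K / Real.sqrt β +
        C1 * Real.log (m * β)) ≤ x * Real.log Y + -(g / 2 - (C1 + C2) * (m * Real.log β) ^ K /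
        Real.sqrt β - (C1 + C2) * Real.log (m * β) - (x - 1) * ((C1 + C2) * m * Real.log β)) := by
      linarith
    have k8 := mul_le_mul_of_nonneg_left k7 hH0
    linarith

end

end Pool.Agent.H991.DC
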