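import Mathlib
import Pool.Agent.H991.DC.Wt
import Pool.Agent.H991.DC.Bad

/-!
# The labels of the good blocks
-/

open MeasureTheory Matrix
open scoped Matrix.Norms.Frobenius
open Pool.Agent.N899.SB
open Pool.Agent.N899.BB (we)
open Pool.Agent.N899.BB.Low (norm_lmul norm_rmul we_eq mt_mul mt_inv)
open Pool.Agent.Y14.Wilson

namespace Pool.Agent.H991.DC

noncomputable section

section step

variable {N : ℕ} {G : Subgroup (UU N)}

lemma norm_cj (g h z : G) (hz : z ∈ Subgroup.center G) :
    ‖mt (g * h * g⁻¹) - mt z‖ = ‖mt h - mt z‖ := by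
  have h1 : g * z * g⁻¹ = z := by
    rw [Subgroup.mem_center_iff.1 hz g, mul_inv_cancel_right]
  have h2 : mt (g * h * g⁻¹) - mt z = mt g * (mt h - mt z) * mt g⁻¹ := by
    conv_lhs => rw [← h1]
    rw [mt_mul, mt_mul, mt_mul, mt_mul, mul_sub, sub_mul]
  rw [h2, norm_rmul, norm_lmul]

lemma prod_near (a b : ℕ → G) {η : ℝ} (s : List ℕ) (h : ∀ τ ∈ s, ‖mt (a τ * (b τ)⁻¹) - 1‖ ≤ η) :
    ‖mt (s.map a).prod - mt (s.map b).prod‖ ≤ s.length * η := by
  induction s with
  | nil => simp
  | cons c s ih =>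
    rw [List.map_cons, List.map_cons, List.prod_cons, List.prod_cons, List.length_cons]
    have ih' := ih fun τ hτ => h τ (List.mem_cons_of_mem _ hτ)
    have h1 := h c (List.mem_cons_self)
    have h2 : mt (a c * (s.map a).prod) - mt (b c * (s.map b).prod) =
        mt (a c) * (mt (s.map a).prod - mt (s.map b).prod) + (mt (a c) - mt (b c)) *
          mt (s.map b).prod := by
      rw [mt_mul, mt_mul]
      noncomm_ring
    have h3 : ‖mt (a c) - mt (b c)‖ = ‖mt (a c * (b c)⁻¹) - 1‖ := by
      have h4 : mt (a c) - mt (b c) = (mt (a c * (b c)⁻¹) - 1) * mt (b c) := by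
        rw [sub_mul, one_mul, ← mt_mul, inv_mul_cancel_right]
      rw [h4, norm_rmul]
    rw [h2]
    refine (norm_add_le _ _).trans ?_
    rw [norm_lmul, norm_rmul, h3]
    push_cast
    linarith

lemma prod_tel (u p : ℕ → G) (t : ℕ) :
    ((List.range t).map fun τ => u τ * p τ * (u (τ + 1))⁻¹).prod =
      u 0 * ((List.range t).map p).prod * (u t)⁻¹ := by
  induction t with
  | zero => simp
  | succ t ih =>
    rw [List.range_succ, List.map_append, List.prod_append, List.map_append, List.prod_append, ih]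
    simp only [List.map_cons, List.map_nil, List.prod_cons, List.prod_nil, mul_one]
    group

lemma Pol_step {D l t : ℕ} [NeZero l] [NeZero t] (U : St D l t × Fin (D + 1) → G)
    (x : Fin D → ZMod l) (i : Fin D) {η : ℝ}
    (h : ∀ τ, ‖mt (pq (ev D l t) U (x, τ) i.castSucc (Fin.last D)) - 1‖ ≤ η) (z : G)
    (hz : z ∈ Subgroup.center G) :
    |‖mt (Pol U (x + Pi.single i 1)) - mt z‖ - ‖mt (Pol U x) - mt z‖| ≤ t * η := by
  obtain ⟨u, hu⟩ : ∃ u : ℕ → G, u = fun τ : ℕ => U ((x, (τ : ZMod t)), i.castSucc) := ⟨_, rfl⟩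
  obtain ⟨p, hp⟩ : ∃ p : ℕ → G, p = fun τ : ℕ => U ((x, (τ : ZMod t)), Fin.last D) := ⟨_, rfl⟩
  obtain ⟨p', hp'⟩ : ∃ p' : ℕ → G,
    p' = fun τ : ℕ => U ((x + Pi.single i 1, (τ : ZMod t)), Fin.last D) := ⟨_, rfl⟩
  have h1 := prod_near (fun τ => u τ * p' τ * (u (τ + 1))⁻¹) p (η := η) (List.range t) (by
    intro τ _
    have h2 := h (τ : ZMod t)
    unfold pq at h2
    rw [ev_cast, ev_last] at h2
    have e1 : ((x, (τ : ZMod t)) : St D l t) + (Pi.single i 1, 0) =
        (x + Pi.single i 1, (τ : ZMod t)) := Prod.ext rfl (add_zero _)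
    have e2 : ((x, (τ : ZMod t)) : St D l t) + (0, 1) = (x, ((τ + 1 : ℕ) : ZMod t)) :=
      Prod.ext (add_zero _) (by push_cast; rfl)
    rw [e1, e2] at h2
    rw [hu, hp, hp']
    exact h2)
  rw [prod_tel, List.length_range] at h1
  have hut : u t = u 0 := by
    rw [hu]
    simp
  have e3 : Pol U (x + Pi.single i 1) = ((List.range t).map p').prod := by rw [hp']; rfl
  have e4 : Pol U x = ((List.range t).map p).prod := by rw [hp]; rfl
  rw [e3, e4, ← norm_cj (u 0) _ z hz]
  rw [hut] at h1
  refine (abs_norm_sub_norm_le _ _).trans ?_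
  rwa [sub_sub_sub_cancel_right]

end step

/-! ### paths in a block -/

lemma grid_one {D L : ℕ} (φ : (Fin D → ℕ) → ℝ) {η : ℝ}
    (h : ∀ i r, (∀ j, r j ≤ L) → r i < L → |φ (Function.update r i (r i + 1)) - φ r| ≤ η)
    (i : Fin D) (r : Fin D → ℕ) (hr : ∀ j, r j ≤ L) (a : ℕ) : ∀ k, a + k ≤ L →
    |φ (Function.update r i (a + k)) - φ (Function.update r i a)| ≤ k * η := by
  intro k
  induction k with
  | zero => intro _; simp
  | succ k ih =>
    intro hk
    have h1 := ih (by omega)
    have h2 := h i (Function.update r i (a + k)) (fun j => by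
      by_cases hj : j = i
      · subst hj; rw [Function.update_self]; omega
      · rw [Function.update_of_ne hj]; exact hr j) (by rw [Function.update_self]; omega)
    rw [Function.update_self, Function.update_idem] at h2
    have h3 : a + (k + 1) = a + k + 1 := by ring
    rw [h3]
    push_cast
    calc _ ≤ |φ (Function.update r i (a + k + 1)) - φ (Function.update r i (a + k))| +
        |φ (Function.update r i (a + k)) - φ (Function.update r i a)| := abs_sub_le _ _ _
      _ ≤ _ := by linarith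

lemma grid_lip {D L : ℕ} (φ : (Fin D → ℕ) → ℝ) {η : ℝ} (hη : 0 ≤ η)
    (h : ∀ i r, (∀ j, r j ≤ L) → r i < L → |φ (Function.update r i (r i + 1)) - φ r| ≤ η)
    (r r' : Fin D → ℕ) (hr : ∀ j, r j ≤ L) (hr' : ∀ j, r' j ≤ L) :
    |φ r' - φ r| ≤ D * (L * η) := by
  classical
  have h1 : ∀ (i : Fin D) (s : Fin D → ℕ) (b : ℕ), (∀ j, s j ≤ L) → b ≤ L →
      |φ (Function.update s i b) - φ s| ≤ L * η := by
    intro i s b hs hb
    rcases le_total (s i) b with hle | hle
    · have h2 := grid_one φ h i s hs (s i) (b - s i) (by omega)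
      rw [Nat.add_sub_cancel' hle, Function.update_eq_self] at h2
      refine h2.trans (mul_le_mul_of_nonneg_right ?_ hη)
      exact_mod_cast (by omega : b - s i ≤ L)
    · have h2 := grid_one φ h i s hs b (s i - b) (by have := hs i; omega)
      rw [Nat.add_sub_cancel' hle, Function.update_eq_self, abs_sub_comm] at h2
      refine h2.trans (mul_le_mul_of_nonneg_right ?_ hη)
      exact_mod_cast (by have := hs i; omega : s i - b ≤ L)
  have h2 : ∀ S : Finset (Fin D), |φ (fun j => if j ∈ S then r' j else r j) - φ r| ≤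
      S.card * (L * η) := by
    intro S
    induction S using Finset.induction_on with
    | empty => simp
    | insert i S hi ih =>
      have e : (fun j => if j ∈ insert i S then r' j else r j) =
          Function.update (fun j => if j ∈ S then r' j else r j) i (r' i) := by
        funext j
        by_cases hj : j = i
        · subst hj; simp
        · rw [Function.update_of_ne hj]; simp [hj]
      rw [e, Finset.card_insert_of_notMem hi]
      have h3 := h1 i (fun j => if j ∈ S then r' j else r j) (r' i) (fun j => by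
        split_ifs
        · exact hr' j
        · exact hr j) (hr' i)
      push_cast
      calc _ ≤ |φ (Function.update (fun j => if j ∈ S then r' j else r j) i (r' i)) -
            φ (fun j => if j ∈ S then r' j else r j)| +
            |φ (fun j => if j ∈ S then r' j else r j) - φ r| := abs_sub_le _ _ _
        _ ≤ _ := by linarith
  have h3 := h2 Finset.univ
  simpa using h3

/-! ### the labels -/

section lab

variable {N : ℕ} {G : Subgroup (UU N)} {D t L h : ℕ} [NeZero (L * (2 * h))] [NeZero t] [NeZero h]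

/-- all the Polyakov loops of the block are near to `z` -/
def Lb (ρ : ℝ) (U : St D (L * (2 * h)) t × Fin (D + 1) → G) (B : Fin D → ZMod (2 * h)) (z : G) :
    Prop := ∀ r : Fin D → ℕ, (∀ j, r j ≤ L) → ‖mt (Pol U (em L B r)) - mt z‖ ≤ ρ

/-- the Polyakov loop is far from the centre -/
def qf (ρ : ℝ) (g : G) : Prop := ∀ z ∈ Subgroup.center G, ρ ≤ ‖mt g - mt z‖

lemma em_succ (B : Fin D → ZMod (2 * h)) (r : Fin D → ℕ) (i : Fin D) :
    em L B (Function.update r i (r i + 1)) = em L B r + Pi.single i 1 := by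
  funext j
  by_cases hj : j = i
  · subst hj
    simp only [em, Function.update_self, Pi.add_apply, Pi.single_eq_same]
    push_cast
    ring
  · simp [em, hj]

lemma good_lab {ρ : ℝ} (hρ : 0 < ρ) (hL : 0 < L) (hD : 0 < D)
    (U : St D (L * (2 * h)) t × Fin (D + 1) → G) (B : Fin D → ZMod (2 * h))
    (h1 : ¬ E1 we (ρ ^ 2 / (2 * D ^ 2) / (L * t) ^ 2) B U) (h2 : ¬ E2 (qf ρ) B U) :
    ∃ z ∈ Subgroup.center G, Lb (2 * ρ) U B z := by
  unfold E2 qf at h2
  push Not at h2
  obtain ⟨r0, hr0, z, hz, hzr⟩ := h2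
  refine ⟨z, hz, fun r hr => ?_⟩
  have ht : (0 : ℝ) < t := by exact_mod_cast Nat.pos_of_ne_zero (NeZero.ne t)
  have hL' : (0 : ℝ) < L := by exact_mod_cast hL
  have hD' : (0 : ℝ) < D := by exact_mod_cast hD
  have h3 := grid_lip (L := L) (fun r => ‖mt (Pol U (em L B r)) - mt z‖) (η := ρ / (D * L))
    (by positivity) (by
      intro i r hr hri
      rw [em_succ]
      have h4 := Pol_step U (em L B r) i (η := ρ / (D * L) / t) (by
        intro τ
        have h5 : we (pq (ev D (L * (2 * h)) t) U (em L B r, τ) i.castSucc (Fin.last D)) ≤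
            ρ ^ 2 / (2 * D ^ 2) / (L * t) ^ 2 := by
          by_contra hcon
          push Not at hcon
          refine h1 ⟨r, τ, i.castSucc, Fin.last D, Fin.castSucc_lt_last i, ?_, hcon⟩
          intro j
          refine ⟨hr j, ?_⟩
          rintro (hj | hj)
          · have : i = j := Fin.castSucc_injective D hj
            rw [← this]; exact hri
          · exact absurd hj (Fin.castSucc_lt_last j).ne'
        rw [we_eq] at h5
        refine abs_le_of_sq_le_sq' ?_ (by positivity) |>.2
        have h6 : (ρ / (D * L) / t) ^ 2 = 2 * (ρ ^ 2 / (2 * D ^ 2) / ((L : ℝ) * t) ^ 2) := by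
          field_simp
        rw [h6]
        linarith) z hz
      refine h4.trans (le_of_eq ?_)
      field_simp) r0 r hr0 hr
  have h5 : (D : ℝ) * (L * (ρ / (D * L))) = ρ := by field_simp
  rw [h5] at h3
  have h6 := (abs_le.1 h3).2
  linarith [hzr.le]

lemma lab_adj {ρ : ℝ} (hρ : ∀ z ∈ Subgroup.center G, ∀ z' ∈ Subgroup.center G,
      ‖mt z - mt z'‖ ≤ 2 * ρ → z = z')
    (U : St D (L * (2 * h)) t × Fin (D + 1) → G) (B : Fin D → ZMod (2 * h)) (i : Fin D) {z z' : G}
    (hz : z ∈ Subgroup.center G) (hz' : z' ∈ Subgroup.center G)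
    (h1 : Lb ρ U B z) (h2 : Lb ρ U (Function.update B i (B i + 1)) z') : z = z' := by
  have hh : 1 < 2 * h := by have := NeZero.ne h; omega
  have : Fact (1 < 2 * h) := ⟨hh⟩
  have e : em L B (Function.update (fun _ => 0) i L) =
      em L (Function.update B i (B i + 1)) (fun _ => 0) := by
    rw [← em_add, ZMod.val_one, mul_one]
    funext j
    by_cases hj : j = i
    · subst hj
      simp [em]
    · simp [em, hj]
  have h3 := h1 (Function.update (fun _ => 0) i L) (fun j => by
    by_cases hj : j = i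
    · subst hj; simp
    · rw [Function.update_of_ne hj]; simp)
  have h4 := h2 (fun _ => 0) (fun _ => Nat.zero_le _)
  rw [e] at h3
  refine hρ z hz z' hz' ?_
  calc ‖mt z - mt z'‖ ≤ ‖mt z - mt (Pol U (em L (Function.update B i (B i + 1)) fun _ => 0))‖ +
        ‖mt (Pol U (em L (Function.update B i (B i + 1)) fun _ => 0)) - mt z'‖ :=
        norm_sub_le_norm_sub_add_norm_sub _ _ _
    _ ≤ 2 * ρ := by
        rw [norm_sub_rev]
        linarith

lemma lab_uniq {ρ : ℝ} (hρ : ∀ z ∈ Subgroup.center G, ∀ z' ∈ Subgroup.center G,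
      ‖mt z - mt z'‖ ≤ 2 * ρ → z = z')
    (U : St D (L * (2 * h)) t × Fin (D + 1) → G) (B : Fin D → ZMod (2 * h)) {z z' : G}
    (hz : z ∈ Subgroup.center G) (hz' : z' ∈ Subgroup.center G)
    (h1 : Lb ρ U B z) (h2 : Lb ρ U B z') : z = z' := by
  have h3 := h1 (fun _ => 0) (fun _ => Nat.zero_le _)
  have h4 := h2 (fun _ => 0) (fun _ => Nat.zero_le _)
  refine hρ z hz z' hz' ?_
  calc ‖mt z - mt z'‖ ≤ ‖mt z - mt (Pol U (em L B fun _ => 0))‖ +
        ‖mt (Pol U (em L B fun _ => 0)) - mt z'‖ :=
        norm_sub_le_norm_sub_add_norm_sub _ _ _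
    _ ≤ 2 * ρ := by
        rw [norm_sub_rev]
        linarith

end lab

end

end Pool.Agent.H991.DC
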