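import Mathlib
import Pool.Agent.H991.DC.Lab
import Pool.Agent.H991.DC.Grid

/-!
# The Peierls argument for the labels
-/

open MeasureTheory Matrix
open scoped Matrix.Norms.Frobenius
open Pool.Agent.N899.SB
open Pool.Agent.N899.BB (we)
open Pool.Agent.Y14.Wilson

namespace Pool.Agent.H991.DC

noncomputable section

/-- the Gibbs measure of the torus -/
def nu {N : ℕ} {G : Subgroup (UU N)} [MeasurableSpace G] (μ : Measure G) (D l t : ℕ) [NeZero l]
    [NeZero t] (β : ℝ) : Measure (St D l t × Fin (D + 1) → G) :=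
  (Measure.pi fun _ => μ).tilted fun U => -(β * ac we (ev D l t) U)

section

variable {N : ℕ} {G : Subgroup (UU N)} [MeasurableSpace G] [BorelSpace G] [CompactSpace G]
  [SecondCountableTopology G] (μ : Measure G) [IsProbabilityMeasure μ] [μ.IsHaarMeasure]

lemma exp_int (D l t : ℕ) [NeZero l] [NeZero t] (β : ℝ) (hβ : 0 ≤ β) :
    Integrable (fun U : St D l t × Fin (D + 1) → G => Real.exp (-(β * ac we (ev D l t) U)))
      (Measure.pi fun _ => μ) := by
  refine Integrable.of_bound (C := 1) ?_ (Filter.Eventually.of_forall fun U => ?_)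
  · refine Measurable.aestronglyMeasurable ?_
    exact Real.measurable_exp.comp (measurable_const.mul
      (ac_meas we (Pool.Agent.N899.BB.Low.we_cont (G := G)).measurable)).neg
  · rw [Real.norm_eq_abs, abs_of_pos (Real.exp_pos _), Real.exp_le_one_iff]
    have := ac_nonneg we (fun g : G => Pool.Agent.N899.BB.Low.we_nonneg g) U
    nlinarith [mul_nonneg hβ this]

lemma nu_prob (D l t : ℕ) [NeZero l] [NeZero t] (β : ℝ) (hβ : 0 ≤ β) :
    IsProbabilityMeasure (nu (G := G) μ D l t β) := by
  unfold nu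
  exact isProbabilityMeasure_tilted (exp_int μ D l t β hβ)

lemma nu_int (D l t : ℕ) [NeZero l] [NeZero t] (β : ℝ) (f : (St D l t × Fin (D + 1) → G) → ℝ) :
    ∫ U, f U ∂(nu μ D l t β) = (∫ U, f U * Real.exp (-(β * ac we (ev D l t) U))
      ∂(Measure.pi fun _ => μ)) / prt (D := D) (l := l) (t := t) μ (we (G := G)) β := by
  unfold nu
  rw [integral_tilted, ← integral_div]
  refine integral_congr_ae (Filter.Eventually.of_forall fun U => ?_)
  simp only [smul_eq_mul]
  unfold prt
  ring

variable {D t L h : ℕ} [NeZero (L * (2 * h))] [NeZero t] [NeZero h] [NeZero (2 * h)]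

/-- the block is bad -/
def bd (ε : ℝ) (q : G → Prop) (B : Fin D → ZMod (2 * h))
    (U : St D (L * (2 * h)) t × Fin (D + 1) → G) : Prop := E1 we ε B U ∨ E2 q B U

omit [CompactSpace G] in
lemma FB1 (ε : ℝ) (q : G → Prop) (hq : MeasurableSet {g | q g}) (B : Fin D → ZMod (2 * h))
    (U : St D (L * (2 * h)) t × Fin (D + 1) → G) (hU : E1 we ε B U) :
    (FB D L h t ε q hq).F 1 B U = 1 := by
  classical
  change (if (1 : Fin 3) = 0 then (1 : ℝ) else if (1 : Fin 3) = 1 then
    (if E1 we ε B U then 1 else 0) else (if E2 q B U then 1 else 0)) = 1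
  rw [if_neg (by decide), if_pos rfl, if_pos hU]

omit [CompactSpace G] in
lemma FB2 (ε : ℝ) (q : G → Prop) (hq : MeasurableSet {g | q g}) (B : Fin D → ZMod (2 * h))
    (U : St D (L * (2 * h)) t × Fin (D + 1) → G) (hU : E2 q B U) :
    (FB D L h t ε q hq).F 2 B U = 1 := by
  classical
  change (if (2 : Fin 3) = 0 then (1 : ℝ) else if (2 : Fin 3) = 1 then
    (if E1 we ε B U then 1 else 0) else (if E2 q B U then 1 else 0)) = 1
  rw [if_neg (by decide), if_neg (by decide), if_pos hU]

lemma nu_bad (ε : ℝ) (q : G → Prop) (hq : MeasurableSet {g | q g}) {β e : ℝ} (hβ : 0 ≤ β)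
    (he : 0 ≤ e) (hZ : 0 < prt (D := D) (l := L * (2 * h)) (t := t) μ (we (G := G)) β)
    (h1 : Gw μ (FB D L h t ε q hq) we β (fun _ => 1) ≤
      prt (D := D) (l := L * (2 * h)) (t := t) μ (we (G := G)) β * e ^ (2 * h) ^ D)
    (h2 : Gw μ (FB D L h t ε q hq) we β (fun _ => 2) ≤
      prt (D := D) (l := L * (2 * h)) (t := t) μ (we (G := G)) β * e ^ (2 * h) ^ D)
    (A : Finset (Fin D → ZMod (2 * h))) :
    (nu μ D (L * (2 * h)) t β).real {U | ∀ B ∈ A, bd ε q B U} ≤ (2 * e) ^ A.card := by
  classical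
  have hri := Pool.Agent.N899.BB.Gauss.right_inv μ
  have hii := Pool.Agent.N899.BB.Gauss.inv_inv' μ
  have := nu_prob (G := G) μ D (L * (2 * h)) t β hβ
  have hms : MeasurableSet {U : St D (L * (2 * h)) t × Fin (D + 1) → G | ∀ B ∈ A, bd ε q B U} := by
    simp only [Set.setOf_forall]
    refine MeasurableSet.iInter fun B => MeasurableSet.iInter fun _ => ?_
    exact (E1_meas we (Pool.Agent.N899.BB.Low.we_cont (G := G)).measurable ε B).union
      (E2_meas q hq B)
  have h3 := bad_prob μ (FB D L h t ε q hq) we (Pool.Agent.N899.BB.Low.we_cont (G := G)).measurable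
    Pool.Agent.N899.BB.Gauss.we_inv (fun g h => Pool.Agent.N899.BB.Asm.we_conj g h)
    (fun g => Pool.Agent.N899.BB.Low.we_nonneg g) hβ (fun B U => rfl) hZ he rfl h1 h2 A
  rw [← integral_indicator_one hms]
  refine le_trans (integral_mono_of_nonneg (g := fun U => ∏ B ∈ A, ((FB D L h t ε q hq).F 1 B U +
    (FB D L h t ε q hq).F 2 B U)) (Filter.Eventually.of_forall fun U => ?_) ?_
    (Filter.Eventually.of_forall fun U => ?_)) ?_
  · exact Set.indicator_nonneg (fun _ _ => zero_le_one) _
  · refine Integrable.of_bound (C := 2 ^ A.card) ?_ (Filter.Eventually.of_forall fun U => ?_)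
    · exact (Finset.measurable_fun_prod _ fun B _ => ((FB D L h t ε q hq).meas _ _).add
        ((FB D L h t ε q hq).meas _ _)).aestronglyMeasurable
    · rw [Real.norm_eq_abs, abs_of_nonneg (Finset.prod_nonneg fun B _ =>
        add_nonneg ((FB D L h t ε q hq).nonneg _ _ _) ((FB D L h t ε q hq).nonneg _ _ _))]
      refine (Finset.prod_le_prod (fun B _ =>
        add_nonneg ((FB D L h t ε q hq).nonneg _ _ _) ((FB D L h t ε q hq).nonneg _ _ _))
        (fun B _ => (add_le_add ((FB D L h t ε q hq).le_one _ _ _)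
          ((FB D L h t ε q hq).le_one _ _ _)).trans (by norm_num : (1 : ℝ) + 1 ≤ 2))).trans
        (le_of_eq ?_)
      rw [Finset.prod_const]
  · by_cases hU : ∀ B ∈ A, bd ε q B U
    · rw [Set.indicator_of_mem (by exact hU)]
      simp only [Pi.one_apply]
      rw [← Finset.prod_const_one (s := A)]
      refine Finset.prod_le_prod (fun _ _ => zero_le_one) fun B hB => ?_
      rcases hU B hB with h4 | h4
      · rw [FB1 ε q hq B U h4]
        have := (FB D L h t ε q hq).nonneg 2 B U
        linarith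
      · rw [FB2 ε q hq B U h4]
        have := (FB D L h t ε q hq).nonneg 1 B U
        linarith
    · rw [Set.indicator_of_notMem (by exact hU)]
      exact Finset.prod_nonneg fun B _ =>
        add_nonneg ((FB D L h t ε q hq).nonneg _ _ _) ((FB D L h t ε q hq).nonneg _ _ _)
  · rw [nu_int, div_le_iff₀ hZ]
    rwa [mul_comm (prt (D := D) (l := L * (2 * h)) (t := t) μ (we (G := G)) β)] at h3

end

end

end Pool.Agent.H991.DC
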