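import Mathlib
import Pool.Agent.H991.DC.Prob

/-!
# The symmetry under the centre
-/

open MeasureTheory Matrix
open scoped Matrix.Norms.Frobenius
open Pool.Agent.N899.SB
open Pool.Agent.N899.BB (we)
open Pool.Agent.Y14.Wilson

namespace Pool.Agent.H991.DC

noncomputable section

section

variable {D l t : ℕ} [NeZero l] [NeZero t] {G : Type*} [Group G]

/-- the centre symmetry -/
def Tz (z : G) (U : St D l t × Fin (D + 1) → G) : St D l t × Fin (D + 1) → G :=
  fun e => if e.2 = Fin.last D ∧ e.1.2 = 0 then z * U e else U e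

omit [NeZero l] [NeZero t] in
lemma pq_Tz {z : G} (hz : z ∈ Subgroup.center G) (U : St D l t × Fin (D + 1) → G) (p : St D l t)
    {a b : Fin (D + 1)} (hab : a < b) : pq (ev D l t) (Tz z U) p a b = pq (ev D l t) U p a b := by
  have ha : a ≠ Fin.last D := (lt_of_lt_of_le hab (Fin.le_last b)).ne
  by_cases hb : b = Fin.last D
  · have h1 : (p + ev D l t a).2 = p.2 := by
      obtain ⟨i, rfl⟩ : ∃ i : Fin D, a = i.castSucc := ⟨a.castPred ha, (Fin.castSucc_castPred a ha).symm⟩
      rw [ev_cast]
      simp
    subst hb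
    unfold pq Tz
    simp only [ha, false_and, if_false, true_and, h1]
    by_cases h2 : p.2 = 0
    · rw [if_pos h2, if_pos h2, _root_.mul_inv_rev]
      have hc := fun g => (Subgroup.mem_center_iff.1 hz g)
      calc U (p, a) * (z * U (p + ev D l t a, Fin.last D)) * (U (p + ev D l t (Fin.last D), a))⁻¹ *
            ((U (p, Fin.last D))⁻¹ * z⁻¹) =
          (U (p, a) * z) * U (p + ev D l t a, Fin.last D) * (U (p + ev D l t (Fin.last D), a))⁻¹ *
            (U (p, Fin.last D))⁻¹ * z⁻¹ := by group
        _ = z * (U (p, a) * U (p + ev D l t a, Fin.last D) *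
            (U (p + ev D l t (Fin.last D), a))⁻¹ * (U (p, Fin.last D))⁻¹) * z⁻¹ := by
            rw [hc (U (p, a))]; group
        _ = _ := by rw [← hc, mul_inv_cancel_right]
    · rw [if_neg h2, if_neg h2]
  · unfold pq Tz
    simp only [ha, hb, false_and, if_false]

lemma ac_Tz (we : G → ℝ) {z : G} (hz : z ∈ Subgroup.center G) (U : St D l t × Fin (D + 1) → G) :
    ac we (ev D l t) (Tz z U) = ac we (ev D l t) U := by
  unfold ac
  refine Finset.sum_congr rfl fun x _ => Finset.sum_congr rfl fun a _ =>
    Finset.sum_congr rfl fun b _ => ?_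
  split_ifs with h
  · rw [pq_Tz hz U x h]
  · rfl

lemma list_Tz (f f' : ℕ → G) (z : G) (s : ℕ) (h0 : f' 0 = z * f 0)
    (h1 : ∀ τ, 0 < τ → τ < s + 1 → f' τ = f τ) :
    ((List.range (s + 1)).map f').prod = z * ((List.range (s + 1)).map f).prod := by
  rw [List.range_succ_eq_map, List.map_cons, List.map_cons, List.prod_cons, List.prod_cons, h0,
    mul_assoc]
  congr 3
  rw [List.map_map, List.map_map]
  refine List.map_congr_left fun τ hτ => ?_
  exact h1 (τ + 1) (by omega) (by have := List.mem_range.1 hτ; omega)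

omit [NeZero l] in
lemma Pol_Tz (z : G) (U : St D l t × Fin (D + 1) → G) (x : Fin D → ZMod l) :
    Pol (Tz z U) x = z * Pol U x := by
  obtain ⟨s, hs⟩ : ∃ s, t = s + 1 := ⟨t - 1, by have := NeZero.ne t; omega⟩
  have h := list_Tz (fun τ : ℕ => U ((x, (τ : ZMod t)), Fin.last D))
    (fun τ : ℕ => Tz z U ((x, (τ : ZMod t)), Fin.last D)) z s (by unfold Tz; simp) (by
      intro τ h0 h1
      unfold Tz
      have h2 : ((τ : ℕ) : ZMod t) ≠ 0 := by
        intro h
        rw [ZMod.natCast_eq_zero_iff] at h
        have := Nat.le_of_dvd h0 h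
        omega
      simp [h2])
  rw [← hs] at h
  exact h

variable [TopologicalSpace G] [IsTopologicalGroup G] [MeasurableSpace G] [BorelSpace G]
  [SecondCountableTopology G] (μ : Measure G) [IsProbabilityMeasure μ] [μ.IsMulLeftInvariant]

lemma Tz_mp (z : G) : MeasurePreserving (Tz (D := D) (l := l) (t := t) z)
    (Measure.pi fun _ => μ) (Measure.pi fun _ => μ) := by
  have h := measurePreserving_pi (fun _ : St D l t × Fin (D + 1) => μ)
    (fun _ : St D l t × Fin (D + 1) => μ)
    (f := fun e x => if e.2 = Fin.last D ∧ e.1.2 = 0 then z * x else x) (by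
      intro e
      by_cases he : e.2 = Fin.last D ∧ e.1.2 = 0
      · simp only [he, if_true]
        exact measurePreserving_mul_left μ z
      · simp only [he, if_false]
        exact MeasurePreserving.id μ)
  exact h

end

section

variable {N : ℕ} {G : Subgroup (UU N)} [MeasurableSpace G] [BorelSpace G] [CompactSpace G]
  [SecondCountableTopology G] (μ : Measure G) [IsProbabilityMeasure μ] [μ.IsHaarMeasure]

lemma nu_Tz {D l t : ℕ} [NeZero l] [NeZero t] {β : ℝ} {z : G} (hz : z ∈ Subgroup.center G)
    {A : Set (St D l t × Fin (D + 1) → G)} (hA : MeasurableSet A) :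
    (nu μ D l t β).real (Tz z ⁻¹' A) = (nu μ D l t β).real A := by
  have hmp := Tz_mp (D := D) (l := l) (t := t) μ z
  rw [← integral_indicator_one hA, ← integral_indicator_one (hmp.measurable hA), nu_int, nu_int]
  congr 1
  have hF : Measurable fun U : St D l t × Fin (D + 1) → G =>
      A.indicator (1 : (St D l t × Fin (D + 1) → G) → ℝ) U *
        Real.exp (-(β * ac we (ev D l t) U)) := by
    refine (measurable_one.indicator hA).mul ?_
    exact Real.measurable_exp.comp (measurable_const.mul
      (ac_meas we (Pool.Agent.N899.BB.Low.we_cont (G := G)).measurable)).neg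
  have h := integral_map (μ := Measure.pi fun _ : St D l t × Fin (D + 1) => μ)
    (φ := Tz (D := D) (l := l) (t := t) z) hmp.measurable.aemeasurable
    (f := fun U : St D l t × Fin (D + 1) → G =>
      A.indicator (1 : (St D l t × Fin (D + 1) → G) → ℝ) U *
        Real.exp (-(β * ac we (ev D l t) U))) hF.aestronglyMeasurable
  rw [hmp.map_eq] at h
  rw [h]
  refine integral_congr_ae (Filter.Eventually.of_forall fun U => ?_)
  simp only
  rw [ac_Tz we hz U]
  rfl

end

end

end Pool.Agent.H991.DC
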