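import Mathlib
import Pool.Agent.H991.DC.Sym
import Pool.Agent.H991.DC.Grid2

/-!
# The phases of a torus of blocks
-/

open MeasureTheory Matrix
open scoped Matrix.Norms.Frobenius
open Pool.Agent.N899.SB
open Pool.Agent.N899.BB (we)
open Pool.Agent.Y14.Wilson

namespace Pool.Agent.H991.DC

noncomputable section

lemma site_em {D L h : ℕ} [NeZero (L * (2 * h))] [NeZero (2 * h)] (hL : 0 < L)
    (x : Fin D → ZMod (L * (2 * h))) :
    ∃ (B : Fin D → ZMod (2 * h)) (r : Fin D → ℕ), (∀ j, r j ≤ L) ∧ em L B r = x := by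
  refine ⟨fun j => (((x j).val / L : ℕ) : ZMod (2 * h)), fun j => (x j).val % L,
    fun j => (Nat.mod_lt _ hL).le, ?_⟩
  funext j
  unfold em
  have h1 : (x j).val / L < 2 * h := Nat.div_lt_of_lt_mul (ZMod.val_lt (x j))
  simp only
  rw [ZMod.val_natCast_of_lt h1, Nat.div_add_mod, ZMod.natCast_zmod_val]

section

variable {N : ℕ} {G : Subgroup (UU N)} [MeasurableSpace G] [BorelSpace G] [CompactSpace G]
  [SecondCountableTopology G] (μ : Measure G) [IsProbabilityMeasure μ] [μ.IsHaarMeasure]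

/-- all the Polyakov loops are near to `z` -/
def Ez {D l t : ℕ} (ε : ℝ) (X : Finset (Fin D → ZMod l)) (z : G) :
    Set (St D l t × Fin (D + 1) → G) := {U | ∀ x ∈ X, ‖mt (Pol U x) - mt z‖ ≤ ε}

lemma Ez_meas {D l t : ℕ} [NeZero t] (ε : ℝ) (X : Finset (Fin D → ZMod l)) (z : G) :
    MeasurableSet (Ez (t := t) ε X z) := by
  have e : Ez (t := t) ε X z = ⋂ x ∈ (X : Set (Fin D → ZMod l)),
      {U : St D l t × Fin (D + 1) → G | ‖mt (Pol U x) - mt z‖ ≤ ε} := by
    ext U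
    constructor
    · intro hU
      exact Set.mem_iInter₂.2 fun x hx => hU x hx
    · intro hU x hx
      exact Set.mem_iInter₂.1 hU x hx
  rw [e]
  refine MeasurableSet.biInter X.countable_toSet fun x _ => ?_
  have hm : Continuous (fun g : G => ‖mt g - mt z‖) :=
    ((continuous_subtype_val.comp continuous_subtype_val : Continuous (mt : G → Mt N)).sub
      continuous_const).norm
  exact measurableSet_le (hm.measurable.comp (Pol_meas x)) measurable_const

lemma nu_Ez {D l t : ℕ} [NeZero l] [NeZero t] {β : ℝ} (ε : ℝ) (X : Finset (Fin D → ZMod l)) {z : G}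
    (hz : z ∈ Subgroup.center G) :
    (nu μ D l t β).real (Ez ε X z) = (nu μ D l t β).real (Ez ε X 1) := by
  rw [← nu_Tz μ hz (Ez_meas ε X z)]
  refine congrArg (nu μ D l t β).real ?_
  ext U
  unfold Ez
  simp only [Set.mem_preimage, Set.mem_ofPred_eq]
  refine forall_congr' fun x => forall_congr' fun _ => ?_
  rw [Pol_Tz]
  have h1 : mt (z * Pol U x) - mt z = mt z * (mt (Pol U x) - mt (1 : G)) := by
    have : mt (1 : G) = 1 := rfl
    rw [mul_sub, this, mul_one]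
    rfl
  rw [h1, Pool.Agent.N899.BB.Low.norm_lmul]

variable {D t L h : ℕ} [NeZero (L * (2 * h))] [NeZero t] [NeZero h] [NeZero (2 * h)]

theorem core (hD : 2 ≤ D) (hL : 0 < L) {ρ : ℝ} (hρ : 0 < ρ)
    (hz : ∀ z ∈ Subgroup.center G, ∀ z' ∈ Subgroup.center G, ‖mt z - mt z'‖ ≤ 2 * (2 * ρ) → z = z')
    (hq : MeasurableSet {g : G | qf ρ g}) {β e : ℝ} (hβ : 0 ≤ β)
    (he : 0 ≤ e) (he' : 9 * (2 * e) ≤ 1 / 2)
    (hZ : 0 < prt (D := D) (l := L * (2 * h)) (t := t) μ (we (G := G)) β)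
    (h1 : Gw μ (FB D L h t (ρ ^ 2 / (2 * D ^ 2) / (L * t) ^ 2) (qf ρ) hq) we β (fun _ => 1) ≤
      prt (D := D) (l := L * (2 * h)) (t := t) μ (we (G := G)) β * e ^ (2 * h) ^ D)
    (h2 : Gw μ (FB D L h t (ρ ^ 2 / (2 * D ^ 2) / (L * t) ^ 2) (qf ρ) hq) we β (fun _ => 2) ≤
      prt (D := D) (l := L * (2 * h)) (t := t) μ (we (G := G)) β * e ^ (2 * h) ^ D)
    (X : Finset (Fin D → ZMod (L * (2 * h)))) :
    (nu μ D (L * (2 * h)) t β).real {U | ¬ ∃ z ∈ Subgroup.center G, U ∈ Ez (2 * ρ) X z} ≤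
      X.card * ((11 * D + 1) * (2 * e)) := by
  have := nu_prob (G := G) μ D (L * (2 * h)) t β hβ
  have hM : 2 ≤ 2 * h := by have := NeZero.ne h; omega
  choose bl r hr hx using fun x : Fin D → ZMod (L * (2 * h)) => site_em hL x
  have key := chain_all (nu (G := G) μ D (L * (2 * h)) t β) (Z := Subgroup.center G) hM hD
    (fun B => {U | bd (ρ ^ 2 / (2 * D ^ 2) / (L * t) ^ 2) (qf ρ) B U})
    (fun U B z => Lb (2 * ρ) U B z.1) (by
      intro U B hB
      have hB' : ¬ bd (ρ ^ 2 / (2 * (D : ℝ) ^ 2) / ((L : ℝ) * t) ^ 2) (qf ρ) B U := hB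
      unfold bd at hB'
      rw [not_or] at hB'
      obtain ⟨z, hz, hl⟩ := good_lab hρ hL (by omega) U B hB'.1 hB'.2
      exact ⟨⟨z, hz⟩, hl⟩)
    (fun U B z z' k1 k2 => Subtype.ext (lab_uniq hz U B z.2 z'.2 k1 k2))
    (fun U B i z z' k1 k2 => Subtype.ext (lab_adj hz U B i z.2 z'.2 k1 k2))
    (ε := 2 * e) (by positivity) he'
    (fun A => nu_bad μ _ (qf ρ) hq hβ he hZ h1 h2 A) X bl
  refine le_trans (measureReal_mono ?_) key
  intro U hU
  by_contra hcon
  apply hU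
  have hcon' : ∃ z : Subgroup.center G, ∀ x ∈ X, Lb (2 * ρ) U (bl x) z.1 := by
    by_contra h3
    exact hcon h3
  obtain ⟨z, hz3⟩ := hcon'
  refine ⟨z.1, z.2, fun x hxX => ?_⟩
  have h4 := hz3 x hxX (r x) (hr x)
  rwa [hx x] at h4

end

section

variable {N : ℕ} {G : Subgroup (UU N)} [MeasurableSpace G] [BorelSpace G] [CompactSpace G]
  [SecondCountableTopology G] (μ : Measure G) [IsProbabilityMeasure μ] [μ.IsHaarMeasure]

theorem phase [Finite (Subgroup.center G)] {D l t : ℕ} [NeZero l] [NeZero t] {β ε δ : ℝ}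
    (hβ : 0 ≤ β) (X : Finset (Fin D → ZMod l))
    (h : (nu μ D l t β).real {U | ¬ ∃ z ∈ Subgroup.center G, U ∈ Ez ε X z} ≤ δ) {z : G}
    (hz : z ∈ Subgroup.center G) :
    (1 - δ) / Nat.card (Subgroup.center G) ≤ (nu μ D l t β).real (Ez ε X z) := by
  classical
  have := nu_prob (G := G) μ D l t β hβ
  have : Fintype (Subgroup.center G) := Fintype.ofFinite _
  have hc : 0 < (Nat.card (Subgroup.center G) : ℝ) := by exact_mod_cast Nat.card_pos
  rw [nu_Ez μ ε X hz, div_le_iff₀ hc]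
  have h1 : (nu μ D l t β).real {U | ∃ z ∈ Subgroup.center G, U ∈ Ez ε X z} ≤
      (nu μ D l t β).real (Ez ε X 1) * Nat.card (Subgroup.center G) := by
    have h2 : {U | ∃ z ∈ Subgroup.center G, U ∈ Ez (t := t) ε X z} =
        ⋃ z ∈ (Finset.univ : Finset (Subgroup.center G)), Ez (t := t) ε X z.1 := by
      ext U
      constructor
      · rintro ⟨z, hz, hU⟩
        exact Set.mem_iUnion₂.2 ⟨⟨z, hz⟩, Finset.mem_univ _, hU⟩
      · intro hU
        obtain ⟨z, -, hU⟩ := Set.mem_iUnion₂.1 hU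
        exact ⟨z.1, z.2, hU⟩
    rw [h2]
    refine (measureReal_biUnion_finset_le _ _).trans (le_of_eq ?_)
    rw [Finset.sum_congr rfl fun z _ => nu_Ez μ ε X z.2, Finset.sum_const, Finset.card_univ,
      nsmul_eq_mul, Nat.card_eq_fintype_card, mul_comm]
  have h3 : (1 : ℝ) ≤ (nu μ D l t β).real {U | ∃ z ∈ Subgroup.center G, U ∈ Ez ε X z} +
      (nu μ D l t β).real {U | ¬ ∃ z ∈ Subgroup.center G, U ∈ Ez ε X z} := by
    have h4 : (nu μ D l t β).real Set.univ = 1 := by simp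
    rw [← h4]
    refine le_trans (measureReal_mono ?_) (measureReal_union_le _ _)
    intro U _
    by_cases hU : ∃ z ∈ Subgroup.center G, U ∈ Ez ε X z
    · exact Or.inl hU
    · exact Or.inr hU
  linarith

end

end

end Pool.Agent.H991.DC
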