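import Mathlib

/-!
# General lemmas: tilted measures, sources, local functions
-/

open MeasureTheory Filter Topology

namespace Pool.Agent.H991.DC

section tilt

variable {Ω : Type*} [MeasurableSpace Ω] (P : Measure Ω)

lemma tilt_change {T : Ω → Ω} (hT : MeasurePreserving T P P) {W : Ω → ℝ} (hW : Measurable W)
    {Φ : Ω → ℝ} (hΦ : Measurable Φ) :
    ∫ U, Φ U ∂(P.tilted W) = ∫ U, Φ (T U) * Real.exp (W (T U) - W U) ∂(P.tilted W) := by
  rw [integral_tilted, integral_tilted]
  have h := integral_map (μ := P) (φ := T) hT.measurable.aemeasurable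
    (f := fun U => (Real.exp (W U) / ∫ x, Real.exp (W x) ∂P) • Φ U)
    (((Real.measurable_exp.comp hW).div_const _).smul hΦ).aestronglyMeasurable
  rw [hT.map_eq] at h
  rw [h]
  refine integral_congr_ae (Eventually.of_forall fun U => ?_)
  simp only [smul_eq_mul]
  have h1 : Real.exp (W (T U)) = Real.exp (W U) * Real.exp (W (T U) - W U) := by
    rw [← Real.exp_add]; congr 1; ring
  rw [h1]
  ring

variable [IsProbabilityMeasure P]

lemma bd_int {f : Ω → ℝ} (hf : Measurable f) {C : ℝ} (h : ∀ U, |f U| ≤ C) : Integrable f P :=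
  Integrable.of_bound hf.aestronglyMeasurable C (Eventually.of_forall fun U => by
    rw [Real.norm_eq_abs]; exact h U)

/-- the derivative of the pressure -/
lemma log_le_tilt {H : Ω → ℝ} (hH : Measurable H) {M : ℝ} (hM : ∀ U, |H U| ≤ M) (h : ℝ) :
    Real.log (∫ U, Real.exp (h * H U) ∂P) ≤ h * ∫ U, H U ∂(P.tilted fun U => h * H U) := by
  obtain ⟨Z, hZ⟩ : ∃ Z, Z = ∫ U, Real.exp (h * H U) ∂P := ⟨_, rfl⟩
  have hM0 : ∀ U, 0 ≤ M := fun U => (abs_nonneg _).trans (hM U)
  have hb : ∀ U, |h * H U| ≤ |h| * M := fun U => by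
    rw [abs_mul]; exact mul_le_mul_of_nonneg_left (hM U) (abs_nonneg _)
  have hem : Measurable fun U => Real.exp (h * H U) := Real.measurable_exp.comp (hH.const_mul h)
  have heb : ∀ U, |Real.exp (h * H U)| ≤ Real.exp (|h| * M) := fun U => by
    rw [abs_of_pos (Real.exp_pos _)]
    exact Real.exp_le_exp.2 ((le_abs_self _).trans (hb U))
  have hei : Integrable (fun U => Real.exp (h * H U)) P := bd_int P hem heb
  have hHei : Integrable (fun U => H U * Real.exp (h * H U)) P := by
    refine bd_int P (hH.mul hem) (C := M * Real.exp (|h| * M)) fun U => ?_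
    rw [abs_mul]
    exact mul_le_mul (hM U) (heb U) (abs_nonneg _) (hM0 U)
  have hZ0 : 0 < Z := by rw [hZ]; exact integral_exp_pos hei
  have e1 : ∫ U, H U ∂(P.tilted fun U => h * H U) = (∫ U, H U * Real.exp (h * H U) ∂P) / Z := by
    rw [integral_tilted, ← integral_div]
    refine integral_congr_ae (Eventually.of_forall fun U => ?_)
    simp only [smul_eq_mul]
    rw [hZ]
    ring
  rw [← hZ, e1]
  obtain ⟨m, hm⟩ : ∃ m, m = h * ((∫ U, H U * Real.exp (h * H U) ∂P) / Z) := ⟨_, rfl⟩
  rw [← hm]
  have h2 : Real.exp (-m) * Z ≤ 1 := by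
    have h3 : ∫ U, Real.exp (-m) * ((1 + m) * Real.exp (h * H U) - h * (H U * Real.exp (h * H U))) ∂P
        ≤ ∫ _U, (1 : ℝ) ∂P := by
      refine integral_mono ?_ (integrable_const _) fun U => ?_
      · exact ((hei.const_mul _).sub (hHei.const_mul h)).const_mul _
      · have h4 := Real.add_one_le_exp (m - h * H U)
        have h5 : Real.exp (-m) * Real.exp (h * H U) * Real.exp (m - h * H U) = 1 := by
          rw [← Real.exp_add, ← Real.exp_add]
          have : -m + h * H U + (m - h * H U) = 0 := by ring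
          rw [this, Real.exp_zero]
        calc Real.exp (-m) * ((1 + m) * Real.exp (h * H U) - h * (H U * Real.exp (h * H U))) =
            Real.exp (-m) * Real.exp (h * H U) * (m - h * H U + 1) := by ring
          _ ≤ Real.exp (-m) * Real.exp (h * H U) * Real.exp (m - h * H U) :=
              mul_le_mul_of_nonneg_left h4 (by positivity)
          _ = 1 := h5
    rw [integral_const_mul, integral_sub (hei.const_mul _) (hHei.const_mul h), integral_const_mul,
      integral_const_mul, ← hZ, integral_const, probReal_univ, one_smul] at h3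
    have h6 : h * ∫ U, H U * Real.exp (h * H U) ∂P = m * Z := by
      rw [hm]
      field_simp
    rw [h6] at h3
    linarith
  have h3 : Z ≤ Real.exp m := by
    have h4 : Real.exp m * Real.exp (-m) = 1 := by rw [← Real.exp_add]; simp
    calc Z = Real.exp m * (Real.exp (-m) * Z) := by rw [← mul_assoc, h4, one_mul]
      _ ≤ Real.exp m * 1 := mul_le_mul_of_nonneg_left h2 (Real.exp_pos _).le
      _ = _ := mul_one _
  calc Real.log Z ≤ Real.log (Real.exp m) := Real.log_le_log hZ0 h3
    _ = m := Real.log_exp m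

/-- the pressure is large if the events are positively correlated -/
lemma exp_lower {ι : Type*} [Fintype ι] [Nonempty ι] {H : Ω → ℝ} (hH : Measurable H) {M : ℝ}
    (hM : ∀ U, |H U| ≤ M) {E0 : Set Ω} (hE0 : MeasurableSet E0) {E : ι → Set Ω}
    (hE : ∀ x, MeasurableSet (E x))
    (hHE : ∀ U, ∑ x, (E x).indicator (fun _ => (1 : ℝ)) U ≤ H U)
    {η δ h : ℝ} (hδ : 0 < δ) (hh : 0 ≤ h) (hη : ∀ x, P.real (E0 \ E x) ≤ η) :
    Real.exp (h * (Fintype.card ι * (1 - δ))) * (P.real E0 - η / δ) ≤
      ∫ U, Real.exp (h * H U) ∂P := by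
  have hc : 0 < (Fintype.card ι : ℝ) := by exact_mod_cast Fintype.card_pos
  have hem : Measurable fun U => Real.exp (h * H U) := Real.measurable_exp.comp (hH.const_mul h)
  have heb : ∀ U, |Real.exp (h * H U)| ≤ Real.exp (h * M) := fun U => by
    rw [abs_of_pos (Real.exp_pos _)]
    exact Real.exp_le_exp.2 (mul_le_mul_of_nonneg_left ((le_abs_self _).trans (hM U)) hh)
  have hei : Integrable (fun U => Real.exp (h * H U)) P := bd_int P hem heb
  obtain ⟨a, ha⟩ : ∃ a, a = Real.exp (h * (Fintype.card ι * (1 - δ))) := ⟨_, rfl⟩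
  have ha0 : 0 < a := by rw [ha]; exact Real.exp_pos _
  rw [← ha]
  have hi0 : Integrable (E0.indicator fun _ => (1 : ℝ)) P := (integrable_const _).indicator hE0
  have hix : ∀ x, Integrable ((E0 \ E x).indicator fun _ => (1 : ℝ)) P :=
    fun x => (integrable_const _).indicator (hE0.diff (hE x))
  have h1 : ∫ U, a * (E0.indicator (fun _ => (1 : ℝ)) U -
      (∑ x, (E0 \ E x).indicator (fun _ => (1 : ℝ)) U) * (1 / (Fintype.card ι * δ))) ∂P ≤
      ∫ U, Real.exp (h * H U) ∂P := by
    refine integral_mono ((hi0.sub ((integrable_finsetSum _ fun x _ => hix x).mul_const _)).const_mul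
      _) hei fun U => ?_
    by_cases hU : U ∈ E0
    · have e1 : ∑ x, (E0 \ E x).indicator (fun _ => (1 : ℝ)) U =
          Fintype.card ι - ∑ x, (E x).indicator (fun _ => (1 : ℝ)) U := by
        rw [eq_sub_iff_add_eq, ← Finset.sum_add_distrib]
        have : ∀ x, (E0 \ E x).indicator (fun _ => (1 : ℝ)) U + (E x).indicator (fun _ => (1 : ℝ)) U = 1 := by
          intro x
          by_cases hx : U ∈ E x
          · rw [Set.indicator_of_notMem (fun h' => h'.2 hx), Set.indicator_of_mem hx, zero_add]
          · rw [Set.indicator_of_mem (show U ∈ E0 \ E x from ⟨hU, hx⟩), Set.indicator_of_notMem hx, add_zero]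
        simp only [this, Finset.sum_const, Finset.card_univ, nsmul_eq_mul, mul_one]
      simp only
      rw [e1, Set.indicator_of_mem hU]
      obtain ⟨s, hs⟩ : ∃ s, s = ∑ x, (E x).indicator (fun _ => (1 : ℝ)) U := ⟨_, rfl⟩
      have hsH := hHE U
      rw [← hs] at hsH ⊢
      have hs' : s ≤ Fintype.card ι := by
        rw [hs]
        refine (Finset.sum_le_sum fun x _ => Set.indicator_le_self' (fun _ _ => zero_le_one) U).trans ?_
        simp
      by_cases hc1 : Fintype.card ι * (1 - δ) ≤ s
      · have h2 : a ≤ Real.exp (h * H U) := by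
          rw [ha]
          exact Real.exp_le_exp.2 (mul_le_mul_of_nonneg_left (hc1.trans hsH) hh)
        refine le_trans ?_ h2
        have h3 : 0 ≤ (Fintype.card ι - s) * (1 / (Fintype.card ι * δ)) :=
          mul_nonneg (by linarith) (by positivity)
        nlinarith
      · push Not at hc1
        have h3 : 1 ≤ (Fintype.card ι - s) * (1 / (Fintype.card ι * δ)) := by
          rw [mul_one_div, le_div_iff₀ (by positivity)]
          nlinarith
        have h4 : a * (1 - (Fintype.card ι - s) * (1 / (Fintype.card ι * δ))) ≤ 0 :=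
          mul_nonpos_of_nonneg_of_nonpos ha0.le (by linarith)
        exact h4.trans (Real.exp_pos _).le
    · simp only
      rw [Set.indicator_of_notMem hU]
      have : ∀ x, (E0 \ E x).indicator (fun _ => (1 : ℝ)) U = 0 :=
        fun x => Set.indicator_of_notMem (fun h' => hU h'.1) _
      simp only [this, Finset.sum_const_zero, zero_mul, sub_zero, mul_zero]
      exact (Real.exp_pos _).le
  refine le_trans ?_ h1
  rw [integral_const_mul, integral_sub hi0 ((integrable_finsetSum _ fun x _ => hix x).mul_const _),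
    integral_mul_const, integral_finsetSum _ fun x _ => hix x]
  refine mul_le_mul_of_nonneg_left ?_ ha0.le
  have e2 : ∫ U, E0.indicator (fun _ => (1 : ℝ)) U ∂P = P.real E0 := by
    rw [integral_indicator hE0, integral_const, smul_eq_mul, mul_one, measureReal_restrict_apply_univ]
  have e3 : ∀ x, ∫ U, (E0 \ E x).indicator (fun _ => (1 : ℝ)) U ∂P = P.real (E0 \ E x) := by
    intro x
    rw [integral_indicator (hE0.diff (hE x)), integral_const, smul_eq_mul, mul_one,
      measureReal_restrict_apply_univ]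
  rw [e2]
  simp only [e3]
  have h5 : (∑ x, P.real (E0 \ E x)) * (1 / (Fintype.card ι * δ)) ≤ η / δ := by
    have h6 : ∑ x, P.real (E0 \ E x) ≤ Fintype.card ι * η := by
      refine (Finset.sum_le_sum fun x _ => hη x).trans ?_
      simp
    calc (∑ x, P.real (E0 \ E x)) * (1 / (Fintype.card ι * δ)) ≤
        (Fintype.card ι * η) * (1 / (Fintype.card ι * δ)) :=
          mul_le_mul_of_nonneg_right h6 (by positivity)
      _ = η / δ := by field_simp
  linarith

end tilt

/-! ### local functions -/

lemma local_unif {L X : Type*} [TopologicalSpace X] [T2Space X] [CompactSpace X]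
    {F : (L → X) → ℝ} (hF : Continuous F) {ε : ℝ} (hε : 0 < ε) :
    ∃ Δ : Finset L, ∀ U V : L → X, (∀ e ∈ Δ, U e = V e) → |F U - F V| ≤ ε := by
  classical
  by_contra hcon
  push Not at hcon
  choose U V hUV hF' using hcon
  obtain ⟨𝒰, h𝒰⟩ : ∃ 𝒰 : Ultrafilter (Finset L), (𝒰 : Filter (Finset L)) ≤ atTop :=
    Ultrafilter.exists_le _
  obtain ⟨u, -, hu⟩ := isCompact_univ.ultrafilter_le_nhds (𝒰.map U) (by simp)
  obtain ⟨v, -, hv⟩ := isCompact_univ.ultrafilter_le_nhds (𝒰.map V) (by simp)
  have hu' : Tendsto U 𝒰 (𝓝 u) := hu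
  have hv' : Tendsto V 𝒰 (𝓝 v) := hv
  have huv : u = v := by
    funext e
    have h1 : Tendsto (fun Δ => U Δ e) 𝒰 (𝓝 (u e)) := (continuous_apply e).continuousAt.tendsto.comp hu'
    have h2 : Tendsto (fun Δ => V Δ e) 𝒰 (𝓝 (v e)) := (continuous_apply e).continuousAt.tendsto.comp hv'
    refine tendsto_nhds_unique_of_eventuallyEq h1 h2 ?_
    have h3 : ∀ᶠ Δ : Finset L in atTop, e ∈ Δ := by
      filter_upwards [eventually_ge_atTop {e}] with Δ hΔ
      exact hΔ (Finset.mem_singleton_self e)
    filter_upwards [h𝒰 h3] with Δ hΔ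
    exact hUV Δ e hΔ
  have h1 : Tendsto (fun Δ => |F (U Δ) - F (V Δ)|) 𝒰 (𝓝 |F u - F v|) :=
    (((hF.tendsto u).comp hu').sub ((hF.tendsto v).comp hv')).abs
  rw [huv, sub_self, abs_zero] at h1
  have h2 := ge_of_tendsto h1 (Eventually.of_forall fun Δ => (hF' Δ).le)
  linarith

end Pool.Agent.H991.DC
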