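import Mathlib
import Pool.Agent.H991.DC.Core
import Pool.Agent.H991.DC.Gen

/-!
# The torus with a source
-/

open MeasureTheory Matrix
open scoped Matrix.Norms.Frobenius
open Pool.Agent.N899.SB
open Pool.Agent.N899.BB (we)
open Pool.Agent.Y14.Wilson

namespace Pool.Agent.H991.DC

noncomputable section

section gen

variable {A : Type*} [AddCommGroup A] {d : ℕ} {G : Type*} [Group G]

/-- translations -/
def Tv (v : A) (U : A × Fin d → G) : A × Fin d → G := fun e => U (e.1 + v, e.2)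

lemma pq_Tv (e : Fin d → A) (v : A) (U : A × Fin d → G) (p : A) (a b : Fin d) :
    pq e (Tv v U) p a b = pq e U (p + v) a b := by
  unfold pq Tv
  simp only
  rw [add_right_comm p (e a), add_right_comm p (e b)]

lemma ac_Tv [Fintype A] (we : G → ℝ) (e : Fin d → A) (v : A) (U : A × Fin d → G) :
    ac we e (Tv v U) = ac we e U := by
  unfold ac
  conv_rhs => rw [← Equiv.sum_comp (Equiv.addRight v)]
  refine Finset.sum_congr rfl fun p _ => Finset.sum_congr rfl fun a _ =>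
    Finset.sum_congr rfl fun b _ => ?_
  rw [pq_Tv]
  rfl

lemma Tv_mp [Fintype A] [MeasurableSpace G] (μ : Measure G) [IsProbabilityMeasure μ] (v : A) :
    MeasurePreserving (Tv v : (A × Fin d → G) → _) (Measure.pi fun _ => μ)
      (Measure.pi fun _ => μ) := by
  let s : (A × Fin d) ≃ (A × Fin d) := Equiv.prodCongr (Equiv.addRight (-v)) (Equiv.refl _)
  have h := measurePreserving_piCongrLeft (fun _ : A × Fin d => μ) s
  have e : (MeasurableEquiv.piCongrLeft (fun _ : A × Fin d => G) s :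
      (A × Fin d → G) → (A × Fin d → G)) = Tv v := by
    funext U e
    obtain ⟨e', rfl⟩ := s.surjective e
    rw [MeasurableEquiv.coe_piCongrLeft, Equiv.piCongrLeft_apply_apply]
    obtain ⟨p, j⟩ := e'
    change U (p, j) = U ((p + -v) + v, j)
    rw [neg_add_cancel_right]
  rw [e] at h
  exact h

end gen

section src

variable {N : ℕ} {G : Subgroup (UU N)}

/-- the source function -/
def fz (ε : ℝ) (z g : G) : ℝ := max 0 (min 1 (2 - ‖mt g - mt z‖ / ε))

lemma fz_cont (ε : ℝ) (z : G) : Continuous (fz ε z : G → ℝ) := by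
  have hm : Continuous (fun g : G => ‖mt g - mt z‖) :=
    ((continuous_subtype_val.comp continuous_subtype_val : Continuous (mt : G → Mt N)).sub
      continuous_const).norm
  exact continuous_const.max (continuous_const.min (continuous_const.sub (hm.div_const ε)))

lemma fz_nonneg (ε : ℝ) (z g : G) : 0 ≤ fz ε z g := le_max_left _ _

lemma fz_le (ε : ℝ) (z g : G) : fz ε z g ≤ 1 := max_le zero_le_one (min_le_left _ _)

lemma fz_one {ε : ℝ} (hε : 0 < ε) {z g : G} (h : ‖mt g - mt z‖ ≤ ε) : fz ε z g = 1 := by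
  unfold fz
  rw [min_eq_left, max_eq_right zero_le_one]
  have : ‖mt g - mt z‖ / ε ≤ 1 := by rw [div_le_one hε]; exact h
  linarith

lemma fz_zero {ε : ℝ} (hε : 0 < ε) {z g : G} (h : 2 * ε ≤ ‖mt g - mt z‖) : fz ε z g = 0 := by
  unfold fz
  refine max_eq_left ((min_le_right _ _).trans ?_)
  have : 2 ≤ ‖mt g - mt z‖ / ε := by rw [le_div_iff₀ hε]; exact h
  linarith

lemma fz_cj (ε : ℝ) {z : G} (hz : z ∈ Subgroup.center G) (g h : G) :
    fz ε z (g * h * g⁻¹) = fz ε z h := by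
  unfold fz
  rw [norm_cj g h z hz]

variable {D l t : ℕ} [NeZero l] [NeZero t]

/-- the source -/
def Hs (ε : ℝ) (z : G) (U : St D l t × Fin (D + 1) → G) : ℝ :=
  ∑ x : Fin D → ZMod l, fz ε z (Pol U x)

omit [NeZero l] [NeZero t] in
lemma Pol_Tv (w : Fin D → ZMod l) (U : St D l t × Fin (D + 1) → G) (x : Fin D → ZMod l) :
    Pol (Tv (w, 0) U) x = Pol U (x + w) := by
  unfold Pol
  refine congrArg List.prod (List.map_congr_left fun τ _ => ?_)
  unfold Tv
  simp

omit [NeZero l] in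
lemma Pol_Tt (U : St D l t × Fin (D + 1) → G) (x : Fin D → ZMod l) :
    Pol (Tv (0, 1) U) x = (U ((x, 0), Fin.last D))⁻¹ * Pol U x * U ((x, 0), Fin.last D) := by
  obtain ⟨p, hp⟩ : ∃ p : ℕ → G, p = fun τ : ℕ => U ((x, (τ : ZMod t)), Fin.last D) := ⟨_, rfl⟩
  have h := prod_tel (fun τ => (p τ)⁻¹) p t
  have e1 : Pol (Tv (0, 1) U) x =
      ((List.range t).map fun τ => (p τ)⁻¹ * p τ * ((fun τ => (p τ)⁻¹) (τ + 1))⁻¹).prod := by
    unfold Pol
    refine congrArg List.prod (List.map_congr_left fun τ _ => ?_)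
    rw [hp]
    unfold Tv
    simp
  have e2 : Pol U x = ((List.range t).map p).prod := by rw [hp]; rfl
  have e3 : p t = p 0 := by rw [hp]; simp
  have e4 : U ((x, 0), Fin.last D) = p 0 := by rw [hp]; simp
  rw [e1, h, e2, e4]
  simp only [e3, inv_inv]

omit [NeZero t] in
lemma Hs_Tv (ε : ℝ) (z : G) (w : Fin D → ZMod l) (U : St D l t × Fin (D + 1) → G) :
    Hs ε z (Tv (w, 0) U) = Hs ε z U := by
  unfold Hs
  conv_rhs => rw [← Equiv.sum_comp (Equiv.addRight w)]
  refine Finset.sum_congr rfl fun x _ => ?_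
  rw [Pol_Tv]
  rfl

lemma Hs_Tt (ε : ℝ) {z : G} (hz : z ∈ Subgroup.center G) (U : St D l t × Fin (D + 1) → G) :
    Hs ε z (Tv (0, 1) U) = Hs ε z U := by
  unfold Hs
  refine Finset.sum_congr rfl fun x _ => ?_
  rw [Pol_Tt]
  have := fz_cj ε hz (U ((x, 0), Fin.last D))⁻¹ (Pol U x)
  rw [inv_inv] at this
  exact this

/-- the exponent of the density -/
def Wh (β h ε : ℝ) (z : G) (U : St D l t × Fin (D + 1) → G) : ℝ :=
  -(β * ac we (ev D l t) U) + h * Hs ε z U

lemma Wh_ev (β h ε : ℝ) {z : G} (hz : z ∈ Subgroup.center G) (i : Fin (D + 1))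
    (U : St D l t × Fin (D + 1) → G) : Wh β h ε z (Tv (ev D l t i) U) = Wh β h ε z U := by
  unfold Wh
  rw [ac_Tv]
  refine congrArg (fun x => -(β * ac we (ev D l t) U) + h * x) ?_
  refine Fin.lastCases ?_ (fun i => ?_) i
  · rw [ev_last]
    exact Hs_Tt ε hz U
  · rw [ev_cast]
    exact Hs_Tv ε z _ U

lemma Wh_sp (β h ε : ℝ) (z : G) (w : Fin D → ZMod l)
    (U : St D l t × Fin (D + 1) → G) : Wh β h ε z (Tv (w, 0) U) = Wh β h ε z U := by
  unfold Wh
  rw [ac_Tv, Hs_Tv]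

lemma Hs_bd (ε : ℝ) (z : G) (U : St D l t × Fin (D + 1) → G) : |Hs ε z U| ≤ (l : ℝ) ^ D := by
  unfold Hs
  rw [abs_of_nonneg (Finset.sum_nonneg fun x _ => fz_nonneg _ _ _)]
  refine (Finset.sum_le_sum fun x _ => fz_le _ _ _).trans ?_
  rw [Finset.sum_const, Finset.card_univ, Fintype.card_fun, ZMod.card, Fintype.card_fin,
    nsmul_eq_mul, mul_one]
  push_cast
  exact le_rfl

variable [MeasurableSpace G] [BorelSpace G] [CompactSpace G]
  [SecondCountableTopology G] (μ : Measure G) [IsProbabilityMeasure μ] [μ.IsHaarMeasure]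

omit [CompactSpace G] in
lemma Hs_meas (ε : ℝ) (z : G) : Measurable (Hs ε z : (St D l t × Fin (D + 1) → G) → ℝ) := by
  unfold Hs
  exact Finset.measurable_fun_sum _ fun x _ => (fz_cont ε z).measurable.comp (Pol_meas x)

omit [CompactSpace G] in
lemma Wh_meas (β h ε : ℝ) (z : G) :
    Measurable (Wh β h ε z : (St D l t × Fin (D + 1) → G) → ℝ) := by
  unfold Wh
  exact (measurable_const.mul (ac_meas we
    (Pool.Agent.N899.BB.Low.we_cont (G := G)).measurable)).neg.add ((Hs_meas ε z).const_mul h)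

/-- the Gibbs measure with a source -/
def nuh (D l t : ℕ) [NeZero l] [NeZero t] (β h ε : ℝ) (z : G) :
    Measure (St D l t × Fin (D + 1) → G) := (Measure.pi fun _ => μ).tilted (Wh β h ε z)

lemma nuh_eq (β h ε : ℝ) (hβ : 0 ≤ β) (z : G) :
    nuh μ D l t β h ε z = (nu μ D l t β).tilted fun U => h * Hs ε z U := by
  unfold nuh nu
  rw [tilted_tilted (exp_int μ D l t β hβ)]
  rfl

lemma nuh_prob (β h ε : ℝ) (hβ : 0 ≤ β) (z : G) : IsProbabilityMeasure (nuh μ D l t β h ε z) := by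
  have := nu_prob (G := G) μ D l t β hβ
  rw [nuh_eq μ β h ε hβ z]
  refine isProbabilityMeasure_tilted (bd_int _ (Real.measurable_exp.comp ((Hs_meas ε z).const_mul h))
    (C := Real.exp (|h| * (l : ℝ) ^ D)) fun U => ?_)
  rw [abs_of_pos (Real.exp_pos _)]
  refine Real.exp_le_exp.2 ((le_abs_self _).trans ?_)
  rw [abs_mul]
  exact mul_le_mul_of_nonneg_left (Hs_bd ε z U) (abs_nonneg _)

lemma nuh_change (β h ε : ℝ) (z : G)
    {T : (St D l t × Fin (D + 1) → G) → (St D l t × Fin (D + 1) → G)}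
    (hT : MeasurePreserving T (Measure.pi fun _ => μ) (Measure.pi fun _ => μ))
    {Φ : (St D l t × Fin (D + 1) → G) → ℝ} (hΦ : Measurable Φ) :
    ∫ U, Φ U ∂(nuh μ D l t β h ε z) =
      ∫ U, Φ (T U) * Real.exp (Wh β h ε z (T U) - Wh β h ε z U) ∂(nuh μ D l t β h ε z) :=
  tilt_change _ hT (Wh_meas β h ε z) hΦ

lemma nuh_sp (β h ε : ℝ) (z : G) (w : Fin D → ZMod l)
    {Φ : (St D l t × Fin (D + 1) → G) → ℝ} (hΦ : Measurable Φ) :
    ∫ U, Φ (Tv (w, 0) U) ∂(nuh μ D l t β h ε z) = ∫ U, Φ U ∂(nuh μ D l t β h ε z) := by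
  rw [nuh_change μ β h ε z (Tv_mp μ ((w, 0) : St D l t)) hΦ]
  simp only [Wh_sp, sub_self, Real.exp_zero, mul_one]

lemma nuh_ev (β h ε : ℝ) {z : G} (hz : z ∈ Subgroup.center G) (i : Fin (D + 1))
    {Φ : (St D l t × Fin (D + 1) → G) → ℝ} (hΦ : Measurable Φ) :
    ∫ U, Φ (Tv (ev D l t i) U) ∂(nuh μ D l t β h ε z) = ∫ U, Φ U ∂(nuh μ D l t β h ε z) := by
  rw [nuh_change μ β h ε z (Tv_mp μ (ev D l t i)) hΦ]
  simp only [Wh_ev β h ε hz, sub_self, Real.exp_zero, mul_one]

/-- the lower bound for the expectation of the source -/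
lemma src_low [Finite (Subgroup.center G)] {β h ε η δ : ℝ} (hβ : 0 ≤ β) (hε : 0 < ε) (hh : 0 < h)
    (hδ : 0 < δ)
    (hsep : ∀ z ∈ Subgroup.center G, ∀ z' ∈ Subgroup.center G, ‖mt z - mt z'‖ ≤ 2 * ε → z = z')
    (hη : ∀ X : Finset (Fin D → ZMod l), (nu μ D l t β).real
      {U | ¬ ∃ z ∈ Subgroup.center G, U ∈ Ez ε X z} ≤ X.card * η) {z : G}
    (hz : z ∈ Subgroup.center G)
    (hq : 0 < (1 - η) / Nat.card (Subgroup.center G) - 2 * η / δ) (x : Fin D → ZMod l) :
    (1 - δ) + Real.log ((1 - η) / Nat.card (Subgroup.center G) - 2 * η / δ) / (h * l ^ D) ≤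
      ∫ U, fz ε z (Pol U x) ∂(nuh μ D l t β h ε z) := by
  classical
  have := nu_prob (G := G) μ D l t β hβ
  have hV : (0 : ℝ) < (l : ℝ) ^ D := by
    have : (0 : ℝ) < l := by exact_mod_cast Nat.pos_of_ne_zero (NeZero.ne l)
    positivity
  have hcard : (Fintype.card (Fin D → ZMod l) : ℝ) = (l : ℝ) ^ D := by
    rw [Fintype.card_fun, ZMod.card, Fintype.card_fin]; push_cast; rfl
  have hPint : ∀ y : Fin D → ZMod l, Measurable fun U : St D l t × Fin (D + 1) → G =>
      fz ε z (Pol U y) := fun y => (fz_cont ε z).measurable.comp (Pol_meas y)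
  have hηx : ∀ y : Fin D → ZMod l, (nu μ D l t β).real (Ez ε {0} z \ Ez ε {y} z) ≤ 2 * η := by
    intro y
    have h1 := hη {0, y}
    have h2 : (({0, y} : Finset (Fin D → ZMod l)).card : ℝ) * η ≤ 2 * η := by
      have h3 : 0 ≤ η := by
        have h4 := hη {0}
        rw [Finset.card_singleton] at h4
        push_cast at h4
        linarith [measureReal_nonneg (μ := nu μ D l t β)
          (s := {U | ¬ ∃ z ∈ Subgroup.center G, U ∈ Ez ε {0} z})]
      refine mul_le_mul_of_nonneg_right ?_ h3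
      exact_mod_cast Finset.card_le_two
    refine (measureReal_mono ?_).trans (h1.trans h2)
    rintro U ⟨hU1, hU2⟩ ⟨z', hz', hU'⟩
    apply hU2
    have e : z = z' := by
      refine hsep z hz z' hz' ?_
      have k1 := hU1 0 (Finset.mem_singleton_self _)
      have k2 := hU' 0 (Finset.mem_insert_self _ _)
      calc ‖mt z - mt z'‖ ≤ ‖mt z - mt (Pol U 0)‖ + ‖mt (Pol U 0) - mt z'‖ :=
            norm_sub_le_norm_sub_add_norm_sub _ _ _
        _ ≤ 2 * ε := by rw [norm_sub_rev]; linarith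
    intro y' hy'
    rw [Finset.mem_singleton] at hy'
    rw [hy', e]
    exact hU' y (Finset.mem_insert_of_mem (Finset.mem_singleton_self _))
  have h0 : (1 - η) / Nat.card (Subgroup.center G) ≤ (nu μ D l t β).real (Ez ε {0} z) := by
    have h1 := hη {0}
    rw [Finset.card_singleton, Nat.cast_one, one_mul] at h1
    exact phase μ hβ {0} h1 hz
  have hHE : ∀ U : St D l t × Fin (D + 1) → G,
      ∑ y : Fin D → ZMod l, (Ez ε {y} z).indicator (fun _ => (1 : ℝ)) U ≤ Hs ε z U := by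
    intro U
    unfold Hs
    refine Finset.sum_le_sum fun y _ => ?_
    by_cases hy : U ∈ Ez ε {y} z
    · rw [Set.indicator_of_mem hy, fz_one hε (hy y (Finset.mem_singleton_self _))]
    · rw [Set.indicator_of_notMem hy]
      exact fz_nonneg _ _ _
  have key := exp_lower (nu μ D l t β) (Hs_meas ε z) (Hs_bd ε z) (Ez_meas ε {0} z)
    (fun y => Ez_meas ε {y} z) hHE hδ hh.le hηx
  have hlog := log_le_tilt (nu μ D l t β) (Hs_meas (D := D) (l := l) (t := t) ε z) (Hs_bd ε z) h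
  rw [← nuh_eq μ β h ε hβ z] at hlog
  rw [hcard] at key
  have e1 : ∫ U, Hs ε z U ∂(nuh μ D l t β h ε z) =
      (l : ℝ) ^ D * ∫ U, fz ε z (Pol U x) ∂(nuh μ D l t β h ε z) := by
    have := nuh_prob (D := D) (l := l) (t := t) μ β h ε hβ z
    unfold Hs
    rw [integral_finsetSum _ fun y _ => bd_int _ (hPint y) (C := 1) fun U => by
      rw [abs_of_nonneg (fz_nonneg _ _ _)]; exact fz_le _ _ _]
    have e2 : ∀ y : Fin D → ZMod l, ∫ U, fz ε z (Pol U y) ∂(nuh μ D l t β h ε z) =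
        ∫ U, fz ε z (Pol U x) ∂(nuh μ D l t β h ε z) := by
      intro y
      have h3 := nuh_sp μ β h ε z (y - x) (hPint x) (t := t)
      simp only [Pol_Tv, add_sub_cancel] at h3
      exact h3
    simp only [e2, Finset.sum_const, Finset.card_univ, nsmul_eq_mul, hcard]
  rw [e1] at hlog
  obtain ⟨q0, hq0⟩ : ∃ q0, q0 = (1 - η) / Nat.card (Subgroup.center G) - 2 * η / δ := ⟨_, rfl⟩
  rw [← hq0] at hq ⊢
  have h1 : Real.exp (h * (l ^ D * (1 - δ))) * q0 ≤ ∫ U, Real.exp (h * Hs ε z U) ∂(nu μ D l t β) := by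
    refine le_trans ?_ key
    refine mul_le_mul_of_nonneg_left ?_ (Real.exp_pos _).le
    linarith
  have h2 : h * (l ^ D * (1 - δ)) + Real.log q0 ≤
      Real.log (∫ U, Real.exp (h * Hs ε z U) ∂(nu μ D l t β)) := by
    have h3 := Real.log_le_log (by positivity) h1
    rwa [Real.log_mul (Real.exp_pos _).ne' hq.ne', Real.log_exp] at h3
  have h3 : h * (l ^ D * (1 - δ)) + Real.log q0 ≤
      h * (l ^ D * ∫ U, fz ε z (Pol U x) ∂(nuh μ D l t β h ε z)) := h2.trans hlog
  have hhV : 0 < h * (l : ℝ) ^ D := by positivity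
  have h4 : (1 - δ) + Real.log q0 / (h * l ^ D) =
      (h * (l ^ D * (1 - δ)) + Real.log q0) / (h * l ^ D) := by field_simp
  rw [h4, div_le_iff₀ hhV]
  linarith

end src

end

end Pool.Agent.H991.DC
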