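import Mathlib
import Pool.Agent.H991.DC.Src

/-!
# Periodic extension; one link
-/

open MeasureTheory Matrix
open scoped Matrix.Norms.Frobenius
open Pool.Agent.N899.SB
open Pool.Agent.N899.BB (we)
open Pool.Agent.Y14.Wilson

namespace Pool.Agent.H991.DC

noncomputable section

/-- sites of the infinite lattice -/
abbrev SZ (D t : ℕ) := (Fin D → ℤ) × ZMod t

/-- links of the infinite lattice -/
abbrev LZ (D t : ℕ) := SZ D t × Fin (D + 1)

/-- unit vectors -/
def evZ (D t : ℕ) : Fin (D + 1) → SZ D t := Fin.lastCases (0, 1) fun i => (Pi.single i 1, 0)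

lemma evZ_cast (D t : ℕ) (i : Fin D) : evZ D t i.castSucc = (Pi.single i 1, 0) := by
  unfold evZ
  rw [Fin.lastCases_castSucc]

lemma evZ_last (D t : ℕ) : evZ D t (Fin.last D) = (0, 1) := by
  unfold evZ
  rw [Fin.lastCases_last]

lemma evZ_bd (D t : ℕ) (m : Fin (D + 1)) (i : Fin D) :
    0 ≤ (evZ D t m).1 i ∧ (evZ D t m).1 i ≤ 1 := by
  refine Fin.lastCases ?_ (fun j => ?_) m
  · rw [evZ_last]; simp
  · rw [evZ_cast]
    by_cases h : i = j
    · subst h; simp
    · simp [Pi.single_eq_of_ne h]

/-- reduction of the sites -/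
def red {D t : ℕ} (l : ℕ) (x : SZ D t) : St D l t := (fun i => (x.1 i : ZMod l), x.2)

/-- reduction of the links -/
def redL {D t : ℕ} (l : ℕ) (e : LZ D t) : St D l t × Fin (D + 1) := (red l e.1, e.2)

lemma red_add {D t : ℕ} (l : ℕ) (x y : SZ D t) : red l (x + y) = red l x + red l y := by
  refine Prod.ext ?_ rfl
  funext i
  simp [red]

lemma red_sub {D t : ℕ} (l : ℕ) (x y : SZ D t) : red l (x - y) = red l x - red l y := by
  refine Prod.ext ?_ rfl
  funext i
  simp [red]

lemma red_evZ {D t : ℕ} (l : ℕ) (m : Fin (D + 1)) : red l (evZ D t m) = ev D l t m := by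
  refine Fin.lastCases ?_ (fun j => ?_) m
  · rw [evZ_last, ev_last]
    refine Prod.ext ?_ rfl
    funext i
    simp [red]
  · rw [evZ_cast, ev_cast]
    refine Prod.ext ?_ rfl
    funext i
    by_cases h : i = j
    · subst h; simp [red]
    · simp [red, Pi.single_eq_of_ne h]

lemma close_eq {D t l : ℕ} {x y : SZ D t} (h : ∀ i, |x.1 i - y.1 i| < l) (hr : red l x = red l y) :
    x = y := by
  refine Prod.ext ?_ (Prod.ext_iff.1 hr).2
  funext i
  have h1 : ((x.1 i : ℤ) : ZMod l) = ((y.1 i : ℤ) : ZMod l) := congrFun (Prod.ext_iff.1 hr).1 i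
  rw [ZMod.intCast_eq_intCast_iff_dvd_sub] at h1
  have h2 := Int.eq_zero_of_abs_lt_dvd h1 (by rw [abs_sub_comm]; exact h i)
  omega

section

variable {D l t : ℕ} {G : Type*}

/-- periodic extension -/
def per (U : St D l t × Fin (D + 1) → G) : LZ D t → G := fun e => U (redL l e)

lemma per_Tv (v : SZ D t) (U : St D l t × Fin (D + 1) → G) :
    Tv v (per U) = per (Tv (red l v) U) := by
  funext e
  unfold Tv per redL
  simp only
  rw [red_add]

variable [Group G]

lemma pq_per (U : St D l t × Fin (D + 1) → G) (x : SZ D t) (i j : Fin (D + 1)) :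
    pq (evZ D t) (per U) x i j = pq (ev D l t) U (red l x) i j := by
  unfold pq per redL
  simp only
  rw [red_add, red_add, red_evZ, red_evZ]

/-- Polyakov loops of the infinite lattice -/
def PolZ (U : LZ D t → G) (x : Fin D → ℤ) : G :=
  ((List.range t).map fun τ : ℕ => U ((x, (τ : ZMod t)), Fin.last D)).prod

lemma PolZ_per (U : St D l t × Fin (D + 1) → G) (x : Fin D → ℤ) :
    PolZ (per U) x = Pol U (fun i => (x i : ZMod l)) := rfl

/-- change of one link -/
def mv {ι : Type*} [DecidableEq ι] (b : ι) (g : G) (U : ι → G) : ι → G :=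
  Function.update U b (g * U b)

lemma per_mv (hl : 0 < l) (b : LZ D t) (g : G) (U : St D l t × Fin (D + 1) → G) (e : LZ D t)
    (h : ∀ i, |e.1.1 i - b.1.1 i| < l) : per (mv (redL l b) g U) e = mv b g (per U) e := by
  unfold mv per
  by_cases heb : e = b
  · subst heb; simp
  · rw [Function.update_of_ne heb, Function.update_of_ne]
    intro hr
    apply heb
    exact Prod.ext (close_eq h (Prod.ext_iff.1 hr).1) (Prod.ext_iff.1 hr).2

/-- the sites near a link -/
def nbs (b : LZ D t) : Finset (SZ D t) :=
  insert b.1 (Finset.univ.image fun m : Fin (D + 1) => b.1 - evZ D t m)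

lemma nbs_bd (b : LZ D t) {x : SZ D t} (hx : x ∈ nbs b) (i : Fin D) :
    b.1.1 i - 1 ≤ x.1 i ∧ x.1 i ≤ b.1.1 i := by
  unfold nbs at hx
  rw [Finset.mem_insert, Finset.mem_image] at hx
  rcases hx with rfl | ⟨m, -, rfl⟩
  · constructor <;> omega
  · have := evZ_bd D t m i
    have e : (b.1 - evZ D t m).1 i = b.1.1 i - (evZ D t m).1 i := rfl
    rw [e]
    constructor <;> omega

/-- the change of the energy -/
def DZ (we : G → ℝ) (b : LZ D t) (g : G) (U : LZ D t → G) : ℝ :=
  ∑ x ∈ nbs b, ∑ i, ∑ j, if i < j then we (pq (evZ D t) (mv b g U) x i j) -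
    we (pq (evZ D t) U x i j) else 0

lemma ac_diff [NeZero l] [NeZero t] (hl : 2 ≤ l) (we : G → ℝ) (b : LZ D t) (g : G)
    (U : St D l t × Fin (D + 1) → G) :
    ac we (ev D l t) (mv (redL l b) g U) - ac we (ev D l t) U = DZ we b g (per U) := by
  classical
  obtain ⟨T, hT⟩ : ∃ T : St D l t → ℝ, T = fun x => ∑ i, ∑ j, if i < j then
    we (pq (ev D l t) (mv (redL l b) g U) x i j) - we (pq (ev D l t) U x i j) else 0 := ⟨_, rfl⟩
  have e1 : ac we (ev D l t) (mv (redL l b) g U) - ac we (ev D l t) U = ∑ x, T x := by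
    unfold ac
    rw [← Finset.sum_sub_distrib, hT]
    refine Finset.sum_congr rfl fun x _ => ?_
    rw [← Finset.sum_sub_distrib]
    refine Finset.sum_congr rfl fun i _ => ?_
    rw [← Finset.sum_sub_distrib]
    refine Finset.sum_congr rfl fun j _ => ?_
    split_ifs <;> ring
  have e2 : ∑ x, T x = ∑ x ∈ (nbs b).image (red l), T x := by
    symm
    refine Finset.sum_subset (Finset.subset_univ _) fun x _ hx => ?_
    rw [hT]
    refine Finset.sum_eq_zero fun i _ => Finset.sum_eq_zero fun j _ => ?_
    split_ifs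
    · have n1 : ∀ k, (x, k) ≠ redL l b := by
        intro k hk
        apply hx
        rw [Finset.mem_image]
        exact ⟨b.1, Finset.mem_insert_self _ _, (Prod.ext_iff.1 hk).1.symm⟩
      have n2 : ∀ m k, (x + ev D l t m, k) ≠ redL l b := by
        intro m k hk
        apply hx
        rw [Finset.mem_image]
        refine ⟨b.1 - evZ D t m, Finset.mem_insert_of_mem (Finset.mem_image_of_mem _
          (Finset.mem_univ _)), ?_⟩
        rw [red_sub, red_evZ]
        have h1 : x + ev D l t m = red l b.1 := (Prod.ext_iff.1 hk).1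
        rw [← h1, add_sub_cancel_right]
      unfold pq mv
      rw [Function.update_of_ne (n1 _), Function.update_of_ne (n2 _ _),
        Function.update_of_ne (n2 _ _), Function.update_of_ne (n1 _), sub_self]
    · rfl
  have hl' : (2 : ℤ) ≤ l := by exact_mod_cast hl
  have e3 : ∑ x ∈ (nbs b).image (red l), T x = ∑ x ∈ nbs b, T (red l x) := by
    refine Finset.sum_image fun x hx y hy hxy => ?_
    refine close_eq (fun i => ?_) hxy
    have h1 := nbs_bd b hx i
    have h2 := nbs_bd b hy i
    rw [abs_lt]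
    constructor <;> omega
  rw [e1, e2, e3]
  unfold DZ
  refine Finset.sum_congr rfl fun x hx => ?_
  rw [hT]
  refine Finset.sum_congr rfl fun i _ => Finset.sum_congr rfl fun j _ => ?_
  have c0 : ∀ k, per (mv (redL l b) g U) (x, k) = mv b g (per U) (x, k) := by
    intro k
    refine per_mv (by omega) b g U _ fun i => ?_
    have h1 := nbs_bd b hx i
    change |x.1 i - b.1.1 i| < l
    rw [abs_lt]
    constructor <;> omega
  have c1 : ∀ m k, per (mv (redL l b) g U) (x + evZ D t m, k) = mv b g (per U) (x + evZ D t m, k) := by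
    intro m k
    refine per_mv (by omega) b g U _ fun i => ?_
    have h1 := nbs_bd b hx i
    have h2 := evZ_bd D t m i
    change |x.1 i + (evZ D t m).1 i - b.1.1 i| < l
    rw [abs_lt]
    constructor <;> omega
  have e4 : pq (ev D l t) (mv (redL l b) g U) (red l x) i j = pq (evZ D t) (mv b g (per U)) x i j := by
    rw [← pq_per]
    unfold pq
    rw [c0, c1, c1, c0]
  rw [e4, ← pq_per]

variable [MeasurableSpace G] [TopologicalSpace G] [IsTopologicalGroup G] [BorelSpace G]
  [SecondCountableTopology G] (μ : Measure G) [IsProbabilityMeasure μ] [μ.IsMulLeftInvariant]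

lemma mv_mp {ι : Type*} [Fintype ι] [DecidableEq ι] (b : ι) (g : G) :
    MeasurePreserving (mv b g) (Measure.pi fun _ => μ) (Measure.pi fun _ => μ) := by
  have h := measurePreserving_pi (fun _ : ι => μ) (fun _ : ι => μ)
    (f := fun e x => if e = b then g * x else x) (by
      intro e
      by_cases he : e = b
      · simp only [he, if_true]
        exact measurePreserving_mul_left μ g
      · simp only [he, if_false]
        exact MeasurePreserving.id μ)
  have e : (fun (a : ι → G) (i : ι) => if i = b then g * a i else a i) = mv b g := by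
    funext U i
    unfold mv
    by_cases hi : i = b
    · subst hi; simp
    · simp [hi]
  rw [e] at h
  exact h

end

section

variable {N : ℕ} {G : Subgroup (UU N)} {D l t : ℕ} [NeZero l] [NeZero t]

lemma Hs_mv (ε : ℝ) (z : G) (b : St D l t × Fin (D + 1)) (g : G)
    (U : St D l t × Fin (D + 1) → G) : |Hs ε z (mv b g U) - Hs ε z U| ≤ 1 := by
  classical
  unfold Hs
  rw [← Finset.sum_sub_distrib]
  have h1 : ∀ x : Fin D → ZMod l, x ≠ b.1.1 → fz ε z (Pol (mv b g U) x) - fz ε z (Pol U x) = 0 := by
    intro x hx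
    have e : Pol (mv b g U) x = Pol U x := by
      unfold Pol
      congr 1
      refine List.map_congr_left fun τ _ => ?_
      unfold mv
      rw [Function.update_of_ne]
      intro h
      apply hx
      exact (Prod.ext_iff.1 (Prod.ext_iff.1 h).1).1
    rw [e, sub_self]
  rw [Finset.sum_eq_single b.1.1 (fun x _ hx => h1 x hx) (fun h => absurd (Finset.mem_univ _) h)]
  have h2 := fz_nonneg ε z (Pol (mv b g U) b.1.1)
  have h3 := fz_le ε z (Pol (mv b g U) b.1.1)
  have h4 := fz_nonneg ε z (Pol U b.1.1)
  have h5 := fz_le ε z (Pol U b.1.1)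
  rw [abs_le]
  constructor <;> linarith

end

end

end Pool.Agent.H991.DC
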