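import Mathlib
import Pool.Agent.H991.DC.Per

/-!
# The infinite volume limit of the torus with a source
-/

open MeasureTheory Matrix Filter
open scoped Matrix.Norms.Frobenius Topology
open Pool.Agent.N899.SB
open Pool.Agent.N899.BB (we)
open Pool.Agent.Y14.Wilson

namespace Pool.Agent.H991.DC

noncomputable section

variable {N : ℕ} {G : Subgroup (UU N)}

section cont

variable {D l t : ℕ}

lemma per_cont : Continuous (per : (St D l t × Fin (D + 1) → G) → (LZ D t → G)) :=
  continuous_pi fun e => continuous_apply (redL l e)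

lemma Tv_cont {A : Type*} [AddCommGroup A] {d : ℕ} (v : A) :
    Continuous (Tv v : (A × Fin d → G) → (A × Fin d → G)) :=
  continuous_pi fun e => continuous_apply (e.1 + v, e.2)

lemma mv_cont {ι : Type*} [DecidableEq ι] (b : ι) (g : G) : Continuous (mv b g : (ι → G) → (ι → G)) := by
  refine continuous_pi fun e => ?_
  unfold mv
  by_cases he : e = b
  · subst he
    simp only [Function.update_self]
    exact continuous_const.mul (continuous_apply e)
  · simp only [Function.update_of_ne he]
    exact continuous_apply e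

lemma pqZ_cont {A : Type*} [AddCommGroup A] {d : ℕ} (e : Fin d → A) (x : A) (i j : Fin d) :
    Continuous fun U : A × Fin d → G => pq e U x i j := by
  unfold pq
  exact (((continuous_apply (x, i)).mul (continuous_apply (x + e i, j))).mul
    (continuous_apply (x + e j, i)).inv).mul (continuous_apply (x, j)).inv

lemma DZ_cont (b : LZ D t) (g : G) : Continuous fun U : LZ D t → G => DZ we b g U := by
  unfold DZ
  refine continuous_finsetSum _ fun x _ => continuous_finsetSum _ fun i _ =>
    continuous_finsetSum _ fun j _ => ?_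
  split_ifs
  · exact (Pool.Agent.N899.BB.Low.we_cont.comp ((pqZ_cont _ x i j).comp (mv_cont b g))).sub
      (Pool.Agent.N899.BB.Low.we_cont.comp (pqZ_cont _ x i j))
  · exact continuous_const

lemma PolZ_cont (x : Fin D → ℤ) : Continuous fun U : LZ D t → G => PolZ U x := by
  unfold PolZ
  exact continuous_list_prod _ fun τ _ => continuous_apply _

end cont

lemma bound_of_compact {X : Type*} [TopologicalSpace X] [CompactSpace X] {F : X → ℝ}
    (hF : Continuous F) : ∃ C : ℝ, 0 ≤ C ∧ ∀ x, |F x| ≤ C := by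
  obtain ⟨C, hC⟩ := isCompact_univ.exists_bound_of_continuousOn hF.continuousOn
  exact ⟨max C 0, le_max_right _ _, fun x => (hC x (Set.mem_univ _)).trans (le_max_left _ _)⟩

variable [MeasurableSpace G] [BorelSpace G] [CompactSpace G]
  [SecondCountableTopology G] (μ : Measure G) [IsProbabilityMeasure μ] [μ.IsHaarMeasure]

/-- the periodic extension of the torus measure -/
def Qm (D l t : ℕ) [NeZero l] [NeZero t] (β h ε : ℝ) (z : G) : Measure (LZ D t → G) :=
  (nuh μ D l t β h ε z).map per

section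

variable {D l t : ℕ} [NeZero l] [NeZero t]

lemma Qm_prob (β h ε : ℝ) (hβ : 0 ≤ β) (z : G) : IsProbabilityMeasure (Qm μ D l t β h ε z) := by
  have := nuh_prob (D := D) (l := l) (t := t) μ β h ε hβ z
  exact Measure.isProbabilityMeasure_map per_cont.measurable.aemeasurable

lemma Qm_int (β h ε : ℝ) (z : G) {F : (LZ D t → G) → ℝ} (hF : Continuous F) :
    ∫ U, F U ∂(Qm μ D l t β h ε z) = ∫ U, F (per U) ∂(nuh μ D l t β h ε z) := by
  unfold Qm
  rw [integral_map per_cont.measurable.aemeasurable hF.measurable.aestronglyMeasurable]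

lemma Qm_shift (β h ε : ℝ) {z : G} (hz : z ∈ Subgroup.center G) (i : Fin (D + 1))
    {F : (LZ D t → G) → ℝ} (hF : Continuous F) :
    ∫ U, F (Tv (evZ D t i) U) ∂(Qm μ D l t β h ε z) = ∫ U, F U ∂(Qm μ D l t β h ε z) := by
  have h1 := Qm_int (D := D) (l := l) (t := t) μ β h ε z
    (F := fun U => F (Tv (evZ D t i) U)) (hF.comp (Tv_cont _))
  rw [h1, Qm_int μ β h ε z hF]
  simp only [per_Tv, red_evZ]
  exact nuh_ev μ β h ε hz i (hF.comp per_cont).measurable

lemma Qm_mv (hl : 2 ≤ l) {β h ε : ℝ} (hβ : 0 ≤ β) (hh : 0 ≤ h) (z : G) (b : LZ D t) (g : G)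
    {F : (LZ D t → G) → ℝ} (hF : Continuous F) {C1 C2 τ : ℝ} (hC1 : 0 ≤ C1) (hC2 : 0 ≤ C2)
    (hτ : 0 ≤ τ)
    (h1 : ∀ U : LZ D t → G, Real.exp (-(β * DZ we b g U)) ≤ C1) (h2 : ∀ U, |F U| ≤ C2)
    (h3 : ∀ U : St D l t × Fin (D + 1) → G,
      |F (per (mv (redL l b) g U)) - F (mv b g (per U))| ≤ τ) :
    |∫ U, F U ∂(Qm μ D l t β h ε z) -
      ∫ U, F (mv b g U) * Real.exp (-(β * DZ we b g U)) ∂(Qm μ D l t β h ε z)| ≤
      τ * C1 * Real.exp h + C2 * C1 * (Real.exp h - 1) := by
  have := nuh_prob (D := D) (l := l) (t := t) μ β h ε hβ z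
  have hΨ : Continuous fun U : LZ D t → G => F (mv b g U) * Real.exp (-(β * DZ we b g U)) :=
    (hF.comp (mv_cont b g)).mul (Real.continuous_exp.comp (continuous_const.mul (DZ_cont b g)).neg)
  rw [Qm_int μ β h ε z hF, Qm_int μ β h ε z hΨ]
  have e1 := nuh_change μ β h ε z (mv_mp μ (redL l b) g) (Φ := fun U => F (per U))
    (hF.comp per_cont).measurable
  rw [e1]
  have hm : Measurable fun U : St D l t × Fin (D + 1) → G => mv (redL l b) g U :=
    (mv_mp μ (redL l b) g).measurable
  have e2 : ∀ U : St D l t × Fin (D + 1) → G, Wh β h ε z (mv (redL l b) g U) - Wh β h ε z U =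
      -(β * DZ we b g (per U)) + h * (Hs ε z (mv (redL l b) g U) - Hs ε z U) := by
    intro U
    rw [← ac_diff hl]
    unfold Wh
    ring
  have b1 : ∀ U : St D l t × Fin (D + 1) → G,
      Real.exp (h * (Hs ε z (mv (redL l b) g U) - Hs ε z U)) ≤ Real.exp h := by
    intro U
    refine Real.exp_le_exp.2 ?_
    have := (abs_le.1 (Hs_mv ε z (redL l b) g U)).2
    nlinarith
  have b2 : ∀ U : St D l t × Fin (D + 1) → G,
      |Real.exp (h * (Hs ε z (mv (redL l b) g U) - Hs ε z U)) - 1| ≤ Real.exp h - 1 := by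
    intro U
    rw [abs_le]
    have k1 := b1 U
    have k2 : 2 - Real.exp h ≤ Real.exp (h * (Hs ε z (mv (redL l b) g U) - Hs ε z U)) := by
      have k3 : Real.exp (-h) ≤ Real.exp (h * (Hs ε z (mv (redL l b) g U) - Hs ε z U)) := by
        refine Real.exp_le_exp.2 ?_
        have := (abs_le.1 (Hs_mv ε z (redL l b) g U)).1
        nlinarith
      have k4 : 2 - Real.exp h ≤ Real.exp (-h) := by
        have k5 : Real.exp h * Real.exp (-h) = 1 := by rw [← Real.exp_add]; simp
        have k6 := Real.exp_pos h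
        have k7 := Real.exp_pos (-h)
        nlinarith [sq_nonneg (Real.exp h - 1), sq_nonneg (Real.exp (-h) - 1),
          mul_nonneg k7.le (sq_nonneg (Real.exp h - 1))]
      exact k4.trans k3
    constructor <;> linarith
  have b3 : ∀ U : St D l t × Fin (D + 1) → G,
      |F (per (mv (redL l b) g U)) * Real.exp (Wh β h ε z (mv (redL l b) g U) - Wh β h ε z U) -
        F (mv b g (per U)) * Real.exp (-(β * DZ we b g (per U)))| ≤
      τ * C1 * Real.exp h + C2 * C1 * (Real.exp h - 1) := by
    intro U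
    rw [e2, Real.exp_add]
    obtain ⟨e, he⟩ : ∃ e, e = Real.exp (-(β * DZ we b g (per U))) := ⟨_, rfl⟩
    obtain ⟨s, hs⟩ : ∃ s, s = Real.exp (h * (Hs ε z (mv (redL l b) g U) - Hs ε z U)) := ⟨_, rfl⟩
    have k1 := b1 U
    have k2 := b2 U
    have k3 := h1 (per U)
    rw [← hs] at k1 k2
    rw [← he] at k3
    rw [← he, ← hs]
    have he0 : 0 ≤ e := by rw [he]; exact (Real.exp_pos _).le
    have hs0 : 0 ≤ s := by rw [hs]; exact (Real.exp_pos _).le
    have k4 : F (per (mv (redL l b) g U)) * (e * s) - F (mv b g (per U)) * e =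
        (F (per (mv (redL l b) g U)) - F (mv b g (per U))) * (e * s) +
          F (mv b g (per U)) * e * (s - 1) := by ring
    rw [k4]
    refine (abs_add_le _ _).trans (add_le_add ?_ ?_)
    · rw [abs_mul, abs_of_nonneg (mul_nonneg he0 hs0), mul_assoc]
      exact mul_le_mul (h3 U) (mul_le_mul k3 k1 hs0 hC1) (mul_nonneg he0 hs0) hτ
    · rw [abs_mul, abs_mul, abs_of_nonneg he0]
      exact mul_le_mul (mul_le_mul (h2 _) k3 he0 hC2) k2 (abs_nonneg _) (mul_nonneg hC2 hC1)
  rw [← integral_sub]
  · rw [← Real.norm_eq_abs]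
    have h5 := norm_integral_le_of_norm_le_const (μ := nuh μ D l t β h ε z)
      (f := fun U => F (per (mv (redL l b) g U)) *
        Real.exp (Wh β h ε z (mv (redL l b) g U) - Wh β h ε z U) -
        F (mv b g (per U)) * Real.exp (-(β * DZ we b g (per U))))
      (C := τ * C1 * Real.exp h + C2 * C1 * (Real.exp h - 1))
      (Eventually.of_forall fun U => by rw [Real.norm_eq_abs]; exact b3 U)
    rwa [probReal_univ, mul_one] at h5
  · refine bd_int _ (C := C2 * (C1 * Real.exp h)) ?_ fun U => ?_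
    · exact ((hF.comp per_cont).measurable.comp hm).mul (Real.measurable_exp.comp
        (((Wh_meas β h ε z).comp hm).sub (Wh_meas β h ε z)))
    · rw [abs_mul, e2, Real.exp_add, abs_mul, abs_of_pos (Real.exp_pos _),
        abs_of_pos (Real.exp_pos _)]
      exact mul_le_mul (h2 _) (mul_le_mul (h1 _) (b1 U) (Real.exp_pos _).le hC1)
        (by positivity) hC2
  · refine bd_int _ (C := C2 * C1) (hΨ.comp per_cont).measurable fun U => ?_
    rw [abs_mul, abs_of_pos (Real.exp_pos _)]
    exact mul_le_mul (h2 _) (h1 _) (Real.exp_pos _).le hC2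

end

end

end Pool.Agent.H991.DC
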