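import Mathlib
import Pool.Agent.H991.DC.Lim

/-!
# Quasi-invariance implies the DLR equations
-/

open MeasureTheory Matrix Filter
open scoped Matrix.Norms.Frobenius Topology
open Pool.Agent.N899.SB
open Pool.Agent.N899.BB (we)
open Pool.Agent.Y14.Wilson

namespace Pool.Agent.H991.DC

noncomputable section

section abs

variable {L : Type} [DecidableEq L] [Countable L] {G : Type} [Group G] [TopologicalSpace G]
  [IsTopologicalGroup G] [CompactSpace G] [SecondCountableTopology G] [T2Space G]
  [MeasurableSpace G] [BorelSpace G]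
  (μ : Measure G) [IsProbabilityMeasure μ] [μ.IsMulLeftInvariant] [μ.IsMulRightInvariant]

/-- multiply the links of `S` -/
def actS (S : Finset L) (v U : L → G) : L → G := fun e => if e ∈ S then v e * U e else U e

/-- replace the links of `Λ` -/
def gl (Λ : Finset L) (V : Λ → G) (U : L → G) : L → G := fun e => if h : e ∈ Λ then V ⟨e, h⟩ else U e

omit [Countable L] [TopologicalSpace G] [IsTopologicalGroup G] [CompactSpace G]
  [SecondCountableTopology G] [T2Space G] [MeasurableSpace G] [BorelSpace G] in
lemma actS_insert (S : Finset L) (b : L) (hb : b ∉ S) (v U : L → G) :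
    actS (insert b S) v U = actS S v (mv b (v b) U) := by
  funext e
  unfold actS mv
  by_cases he : e = b
  · subst he
    simp [hb]
  · simp [he]

omit [DecidableEq L] [Countable L] [CompactSpace G]
  [SecondCountableTopology G] [T2Space G] [MeasurableSpace G] [BorelSpace G] in
lemma actS_cont [DecidableEq L] (S : Finset L) (v : L → G) :
    Continuous (actS S v : (L → G) → (L → G)) := by
  refine continuous_pi fun e => ?_
  unfold actS
  by_cases he : e ∈ S
  · simp only [he, if_true]
    exact continuous_const.mul (continuous_apply e)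
  · simp only [he, if_false]
    exact continuous_apply e

lemma mv_cont' (b : L) (g : G) : Continuous (mv b g : (L → G) → (L → G)) := by
  refine continuous_pi fun e => ?_
  unfold mv
  by_cases he : e = b
  · subst he
    simp only [Function.update_self]
    exact continuous_const.mul (continuous_apply e)
  · simp only [Function.update_of_ne he]
    exact continuous_apply e

/-- the quasi-invariance -/
def QI (ω : Measure (L → G)) (w : (L → G) → ℝ) (Λ : Finset L) : Prop :=
  ∀ b ∈ Λ, ∀ (g : G) (F : (L → G) → ℝ), Continuous F →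
    ∫ U, F U ∂ω = ∫ U, F (mv b g U) * Real.exp (w (mv b g U) - w U) ∂ω

lemma QI_act {ω : Measure (L → G)} {w : (L → G) → ℝ} (hw : Continuous w) {Λ : Finset L}
    (h : QI ω w Λ) (v : L → G) (S : Finset L) : S ⊆ Λ → ∀ F : (L → G) → ℝ, Continuous F →
    ∫ U, F U ∂ω = ∫ U, F (actS S v U) * Real.exp (w (actS S v U) - w U) ∂ω := by
  induction S using Finset.induction_on with
  | empty =>
    intro _ F _
    have : ∀ U : L → G, actS ∅ v U = U := fun U => by unfold actS; simp
    simp [this]
  | insert b S hb ih =>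
    intro hS F hF
    have h1 := ih (fun x hx => hS (Finset.mem_insert_of_mem hx)) F hF
    have hF' : Continuous fun U => F (actS S v U) * Real.exp (w (actS S v U) - w U) :=
      (hF.comp (actS_cont S v)).mul (Real.continuous_exp.comp ((hw.comp (actS_cont S v)).sub hw))
    rw [h1, h b (hS (Finset.mem_insert_self _ _)) (v b) _ hF']
    refine integral_congr_ae (Eventually.of_forall fun U => ?_)
    simp only
    rw [actS_insert S b hb v U, mul_assoc, ← Real.exp_add]
    congr 2
    ring

lemma gl_cont (Λ : Finset L) : Continuous fun p : (Λ → G) × (L → G) => gl Λ p.1 p.2 := by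
  refine continuous_pi fun e => ?_
  unfold gl
  by_cases he : e ∈ Λ
  · simp only [he, dif_pos]
    exact (continuous_apply (⟨e, he⟩ : Λ)).comp continuous_fst
  · simp only [he, dif_neg, not_false_eq_true]
    exact (continuous_apply e).comp continuous_snd

/-- the unnormalized conditional expectation -/
def AF (Λ : Finset L) (w F : (L → G) → ℝ) (U : L → G) : ℝ :=
  ∫ V : Λ → G, F (gl Λ V U) * Real.exp (w (gl Λ V U)) ∂(Measure.pi fun _ => μ)

lemma AF_cont (Λ : Finset L) {w F : (L → G) → ℝ} (hw : Continuous w) (hF : Continuous F) :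
    Continuous (AF μ Λ w F) := by
  have h1 : Continuous fun p : (Λ → G) × (L → G) => F (gl Λ p.1 p.2) * Real.exp (w (gl Λ p.1 p.2)) :=
    (hF.comp (gl_cont Λ)).mul (Real.continuous_exp.comp (hw.comp (gl_cont Λ)))
  obtain ⟨C, -, hC⟩ := bound_of_compact h1
  unfold AF
  refine continuous_of_dominated (bound := fun _ => C) (fun U => ?_) (fun U => ?_)
    (integrable_const _) ?_
  · exact (h1.comp (Continuous.prodMk_left U)).measurable.aestronglyMeasurable
  · exact Eventually.of_forall fun V => by
      rw [Real.norm_eq_abs]; exact hC (V, U)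
  · exact Eventually.of_forall fun V => h1.comp (Continuous.prodMk_right V)

lemma star_eq {ω : Measure (L → G)} [IsProbabilityMeasure ω] {w : (L → G) → ℝ} (hw : Continuous w)
    {Λ : Finset L} (h : QI ω w Λ) {F : (L → G) → ℝ} (hF : Continuous F) :
    ∫ U, F U ∂ω = ∫ U, Real.exp (-w U) * AF μ Λ w F U ∂ω := by
  obtain ⟨ex, hex⟩ : ∃ ex : (Λ → G) → (L → G), ex = fun V e => if h : e ∈ Λ then V ⟨e, h⟩ else 1 :=
    ⟨_, rfl⟩
  have e1 : ∀ (V : Λ → G) (U : L → G), actS Λ (ex V) U = gl Λ (V * fun e => U e.1) U := by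
    intro V U
    funext e
    rw [hex]
    unfold actS gl
    by_cases he : e ∈ Λ
    · simp [he]
    · simp [he]
  have h1 : ∀ V : Λ → G, ∫ U, F U ∂ω =
      ∫ U, F (gl Λ (V * fun e => U e.1) U) * Real.exp (w (gl Λ (V * fun e => U e.1) U) - w U) ∂ω := by
    intro V
    rw [QI_act hw h (ex V) Λ (Finset.Subset.refl _) F hF]
    simp only [e1]
  have h2 : ∫ U, F U ∂ω = ∫ V : Λ → G, ∫ U, F (gl Λ (V * fun e => U e.1) U) *
      Real.exp (w (gl Λ (V * fun e => U e.1) U) - w U) ∂ω ∂(Measure.pi fun _ => μ) := by
    simp only [← h1]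
    simp
  have hcg : Continuous fun p : (Λ → G) × (L → G) => gl Λ (p.1 * fun e => p.2 e.1) p.2 := by
    refine (gl_cont Λ).comp (Continuous.prodMk ?_ continuous_snd)
    exact continuous_fst.mul (continuous_pi fun e => (continuous_apply e.1).comp continuous_snd)
  have hc : Continuous fun p : (Λ → G) × (L → G) => F (gl Λ (p.1 * fun e => p.2 e.1) p.2) *
      Real.exp (w (gl Λ (p.1 * fun e => p.2 e.1) p.2) - w p.2) :=
    (hF.comp hcg).mul (Real.continuous_exp.comp ((hw.comp hcg).sub (hw.comp continuous_snd)))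
  obtain ⟨C, -, hC⟩ := bound_of_compact hc
  rw [h2, integral_integral_swap (bd_int _ hc.measurable hC)]
  refine integral_congr_ae (Eventually.of_forall fun U => ?_)
  simp only
  unfold AF
  rw [← integral_const_mul]
  have h3 := integral_mul_right_eq_self (μ := Measure.pi fun _ : Λ => μ)
    (fun V : Λ → G => Real.exp (-w U) * (F (gl Λ V U) * Real.exp (w (gl Λ V U)))) (fun e => U e.1)
  rw [← h3]
  refine integral_congr_ae (Eventually.of_forall fun V => ?_)
  simp only
  rw [sub_eq_add_neg, Real.exp_add]
  ring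

lemma gl_gl (Λ : Finset L) (V V' : Λ → G) (U : L → G) : gl Λ V (gl Λ V' U) = gl Λ V U := by
  funext e
  unfold gl
  by_cases he : e ∈ Λ
  · simp [he]
  · simp [he]

/-- THE DLR EQUATION -/
theorem dlr {ω : Measure (L → G)} [IsProbabilityMeasure ω] {w : (L → G) → ℝ} (hw : Continuous w)
    {Λ : Finset L} (h : QI ω w Λ) {F : (L → G) → ℝ} (hF : Continuous F) :
    ∫ U, (∫ V : Λ → G, F (gl Λ V U) * Real.exp (w (gl Λ V U)) ∂(Measure.pi fun _ => μ)) /
      (∫ V : Λ → G, Real.exp (w (gl Λ V U)) ∂(Measure.pi fun _ => μ)) ∂ω = ∫ U, F U ∂ω := by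
  have hA : Continuous (AF μ Λ w F) := AF_cont μ Λ hw hF
  have hB : Continuous (AF μ Λ w fun _ => 1) := AF_cont μ Λ hw continuous_const
  have hBpos : ∀ U : L → G, 0 < AF μ Λ w (fun _ => 1) U := by
    intro U
    unfold AF
    simp only [one_mul]
    refine integral_exp_pos ?_
    have h1 : Continuous fun V : Λ → G => Real.exp (w (gl Λ V U)) :=
      Real.continuous_exp.comp (hw.comp ((gl_cont Λ).comp (Continuous.prodMk_left U)))
    obtain ⟨C, -, hC⟩ := bound_of_compact h1
    exact bd_int _ h1.measurable hC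
  have hK : Continuous fun U => AF μ Λ w F U / AF μ Λ w (fun _ => 1) U :=
    hA.div hB fun U => (hBpos U).ne'
  have inv : ∀ (Φ : (L → G) → ℝ) (V : Λ → G) (U : L → G), AF μ Λ w Φ (gl Λ V U) = AF μ Λ w Φ U := by
    intro Φ V U
    unfold AF
    simp only [gl_gl]
  have e1 : ∀ U, AF μ Λ w (fun U => AF μ Λ w F U / AF μ Λ w (fun _ => 1) U) U = AF μ Λ w F U := by
    intro U
    have e2 : AF μ Λ w (fun U => AF μ Λ w F U / AF μ Λ w (fun _ => 1) U) U =
        AF μ Λ w F U / AF μ Λ w (fun _ => 1) U * AF μ Λ w (fun _ => 1) U := by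
      conv_lhs => unfold AF
      change ∫ V : Λ → G, AF μ Λ w F (gl Λ V U) / AF μ Λ w (fun _ => 1) (gl Λ V U) *
        Real.exp (w (gl Λ V U)) ∂(Measure.pi fun _ => μ) = _
      simp only [inv]
      rw [integral_const_mul]
      congr 1
      unfold AF
      simp only [one_mul]
    rw [e2, div_mul_cancel₀ _ (hBpos U).ne']
  have h1 := star_eq μ hw h hK
  simp only [e1] at h1
  rw [← star_eq μ hw h hF] at h1
  rw [← h1]
  refine integral_congr_ae (Eventually.of_forall fun U => ?_)
  simp only
  unfold AF
  simp only [one_mul]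

end abs

end

end Pool.Agent.H991.DC
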