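import Mathlib
import Pool.Agent.H991.DC.Dlr

/-!
# The energy of a finite set of links
-/

open MeasureTheory Matrix Filter
open scoped Matrix.Norms.Frobenius Topology
open Pool.Agent.N899.SB
open Pool.Agent.N899.BB (we)
open Pool.Agent.Y14.Wilson

namespace Pool.Agent.H991.DC

noncomputable section

variable {N : ℕ} {G : Subgroup (UU N)} {D t : ℕ}

/-- the plaquette contains a link of `Λ` -/
def touch (Λ : Finset (LZ D t)) (p : SZ D t × Fin (D + 1) × Fin (D + 1)) : Prop :=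
  p.2.1 < p.2.2 ∧ ((p.1, p.2.1) ∈ Λ ∨ (p.1 + evZ D t p.2.1, p.2.2) ∈ Λ ∨
    (p.1 + evZ D t p.2.2, p.2.1) ∈ Λ ∨ (p.1, p.2.2) ∈ Λ)

/-- the energy of `Λ` -/
def eng (Λ : Finset (LZ D t)) (U : LZ D t → G) : ℝ :=
  ∑ᶠ (p : SZ D t × Fin (D + 1) × Fin (D + 1)) (_ : touch Λ p), we (pq (evZ D t) U p.1 p.2.1 p.2.2)

lemma touch_nbs {Λ : Finset (LZ D t)} {p : SZ D t × Fin (D + 1) × Fin (D + 1)} (h : touch Λ p) :
    ∃ b ∈ Λ, p.1 ∈ nbs b := by
  have k1 : ∀ x i, ((x, i) : LZ D t) ∈ Λ → ∃ b ∈ Λ, x ∈ nbs b := by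
    intro x i hx
    exact ⟨_, hx, Finset.mem_insert_self _ _⟩
  have k2 : ∀ x m i, ((x + evZ D t m, i) : LZ D t) ∈ Λ → ∃ b ∈ Λ, x ∈ nbs b := by
    intro x m i hx
    refine ⟨_, hx, ?_⟩
    unfold nbs
    refine Finset.mem_insert_of_mem (Finset.mem_image.2 ⟨m, Finset.mem_univ _, ?_⟩)
    simp
  rcases h.2 with h1 | h1 | h1 | h1
  · exact k1 _ _ h1
  · exact k2 _ _ _ h1
  · exact k2 _ _ _ h1
  · exact k1 _ _ h1

open Classical in
lemma eng_eq (Λ : Finset (LZ D t)) (U : LZ D t → G) :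
    eng Λ U = ∑ x ∈ Λ.biUnion nbs, ∑ i, ∑ j, if touch Λ (x, i, j) then
      we (pq (evZ D t) U x i j) else 0 := by
  unfold eng
  have h1 : ∀ p : SZ D t × Fin (D + 1) × Fin (D + 1),
      (∑ᶠ (_ : touch Λ p), we (pq (evZ D t) U p.1 p.2.1 p.2.2)) =
      if touch Λ p then we (pq (evZ D t) U p.1 p.2.1 p.2.2) else 0 := fun p => finsum_eq_if
  simp only [h1]
  rw [finsum_eq_sum_of_support_subset (s := (Λ.biUnion nbs) ×ˢ (Finset.univ ×ˢ Finset.univ))]
  · rw [Finset.sum_product]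
    refine Finset.sum_congr rfl fun x _ => ?_
    rw [Finset.sum_product]
  · intro p hp
    rw [Function.mem_support] at hp
    have ht : touch Λ p := by
      by_contra hcon
      exact hp (if_neg hcon)
    obtain ⟨b, hb, hpb⟩ := touch_nbs ht
    rw [Finset.mem_coe, Finset.mem_product, Finset.mem_product]
    exact ⟨Finset.mem_biUnion.2 ⟨b, hb, hpb⟩, Finset.mem_univ _, Finset.mem_univ _⟩

lemma eng_cont (Λ : Finset (LZ D t)) : Continuous (eng Λ : (LZ D t → G) → ℝ) := by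
  classical
  have h : (eng Λ : (LZ D t → G) → ℝ) = fun U => ∑ x ∈ Λ.biUnion nbs, ∑ i, ∑ j,
      if touch Λ (x, i, j) then we (pq (evZ D t) U x i j) else 0 := by
    funext U
    exact eng_eq Λ U
  rw [h]
  refine continuous_finsetSum _ fun x _ => continuous_finsetSum _ fun i _ =>
    continuous_finsetSum _ fun j _ => ?_
  split_ifs
  · exact Pool.Agent.N899.BB.Low.we_cont.comp (pqZ_cont _ x i j)
  · exact continuous_const

lemma eng_diff {Λ : Finset (LZ D t)} {b : LZ D t} (hb : b ∈ Λ) (g : G) (U : LZ D t → G) :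
    eng Λ (mv b g U) - eng Λ U = DZ we b g U := by
  classical
  rw [eng_eq, eng_eq, ← Finset.sum_sub_distrib]
  unfold DZ
  -- plaquettes without the link do not change
  have k0 : ∀ x i j, ((x, i) : LZ D t) ≠ b → (x + evZ D t i, j) ≠ b → (x + evZ D t j, i) ≠ b →
      (x, j) ≠ b → pq (evZ D t) (mv b g U) x i j = pq (evZ D t) U x i j := by
    intro x i j h1 h2 h3 h4
    unfold pq mv
    rw [Function.update_of_ne h1, Function.update_of_ne h2, Function.update_of_ne h3,
      Function.update_of_ne h4]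
  have k1 : ∀ x i j, ((if touch Λ (x, i, j) then we (pq (evZ D t) (mv b g U) x i j) else 0) -
      if touch Λ (x, i, j) then we (pq (evZ D t) U x i j) else 0) =
      if i < j then we (pq (evZ D t) (mv b g U) x i j) - we (pq (evZ D t) U x i j) else 0 := by
    intro x i j
    by_cases hij : i < j
    · by_cases ht : touch Λ (x, i, j)
      · rw [if_pos ht, if_pos ht, if_pos hij]
      · rw [if_neg ht, if_neg ht, if_pos hij, sub_zero]
        have hn : ¬ (((x, i) : LZ D t) ∈ Λ ∨ (x + evZ D t i, j) ∈ Λ ∨ (x + evZ D t j, i) ∈ Λ ∨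
            (x, j) ∈ Λ) := fun h => ht ⟨hij, h⟩
        push Not at hn
        rw [k0 x i j (fun h => hn.1 (h ▸ hb)) (fun h => hn.2.1 (h ▸ hb)) (fun h => hn.2.2.1 (h ▸ hb))
          (fun h => hn.2.2.2 (h ▸ hb)), sub_self]
    · rw [if_neg (fun ht => hij ht.1), if_neg (fun ht => hij ht.1), if_neg hij, sub_zero]
  have k2 : ∀ x ∈ Λ.biUnion nbs, x ∉ nbs b → ∑ i, ∑ j, (if i < j then
      we (pq (evZ D t) (mv b g U) x i j) - we (pq (evZ D t) U x i j) else 0) = 0 := by
    intro x _ hx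
    refine Finset.sum_eq_zero fun i _ => Finset.sum_eq_zero fun j _ => ?_
    have n1 : ∀ i, ((x, i) : LZ D t) ≠ b := by
      intro i hi
      apply hx
      rw [← hi]
      exact Finset.mem_insert_self _ _
    have n2 : ∀ m i, ((x + evZ D t m, i) : LZ D t) ≠ b := by
      intro m i hi
      apply hx
      rw [← hi]
      unfold nbs
      refine Finset.mem_insert_of_mem (Finset.mem_image.2 ⟨m, Finset.mem_univ _, ?_⟩)
      simp
    rw [k0 x i j (n1 _) (n2 _ _) (n2 _ _) (n1 _), sub_self, ite_self]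
  have hsub : nbs b ⊆ Λ.biUnion nbs := Finset.subset_biUnion_of_mem nbs hb
  rw [Finset.sum_subset hsub k2]
  refine Finset.sum_congr rfl fun x _ => ?_
  rw [← Finset.sum_sub_distrib]
  refine Finset.sum_congr rfl fun i _ => ?_
  rw [← Finset.sum_sub_distrib]
  exact Finset.sum_congr rfl fun j _ => k1 x i j

end

end Pool.Agent.H991.DC
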