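import Mathlib
import Pool.Agent.H991.DC.Lim

/-!
# Existence of the phases in infinite volume
-/

open MeasureTheory Matrix Filter
open scoped Matrix.Norms.Frobenius Topology
open Pool.Agent.N899.SB
open Pool.Agent.N899.BB (we)
open Pool.Agent.Y14.Wilson

namespace Pool.Agent.H991.DC

noncomputable section

variable {N : ℕ} {G : Subgroup (UU N)}
variable [MeasurableSpace G] [BorelSpace G] [CompactSpace G]
  [SecondCountableTopology G] (μ : Measure G) [IsProbabilityMeasure μ] [μ.IsHaarMeasure]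

theorem exists_phase {D t : ℕ} (hD : 2 ≤ D) [NeZero t] [Finite (Subgroup.center G)]
    {β ε η δ : ℝ} (hβ : 0 ≤ β) (hε : 0 < ε) (hδ : 0 < δ)
    (hsep : ∀ z ∈ Subgroup.center G, ∀ z' ∈ Subgroup.center G, ‖mt z - mt z'‖ ≤ 2 * ε → z = z')
    (k0 : ℕ) (hη : ∀ (k : ℕ) (X : Finset (Fin D → ZMod (2 ^ (k0 + k + 1)))),
      (nu μ D (2 ^ (k0 + k + 1)) t β).real {U | ¬ ∃ z ∈ Subgroup.center G, U ∈ Ez ε X z} ≤
        X.card * η) {z : G} (hz : z ∈ Subgroup.center G)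
    (hq : 0 < (1 - η) / Nat.card (Subgroup.center G) - 2 * η / δ) :
    ∃ ω : Measure (LZ D t → G), IsProbabilityMeasure ω ∧
      (∀ (i : Fin (D + 1)) (F : (LZ D t → G) → ℝ), Continuous F →
        ∫ U, F (Tv (evZ D t i) U) ∂ω = ∫ U, F U ∂ω) ∧
      (∀ (b : LZ D t) (g : G) (F : (LZ D t → G) → ℝ), Continuous F →
        ∫ U, F U ∂ω = ∫ U, F (mv b g U) * Real.exp (-(β * DZ we b g U)) ∂ω) ∧
      ∀ x : Fin D → ℤ, 1 - δ ≤ ∫ U, fz ε z (PolZ U x) ∂ω := by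
  obtain ⟨ll, hll⟩ : ∃ ll : ℕ → ℕ, ll = fun k => 2 ^ (k0 + k + 1) := ⟨_, rfl⟩
  have hne : ∀ k, NeZero (2 ^ (k0 + k + 1)) := fun k => ⟨by positivity⟩
  have hP : ∀ k : ℕ, IsProbabilityMeasure
      (Qm μ D (2 ^ (k0 + k + 1)) t β (1 / ((2 ^ (k0 + k + 1) : ℕ) : ℝ)) ε z) :=
    fun k => Qm_prob μ β _ ε hβ z
  obtain ⟨Q, hQ⟩ : ∃ Q : ℕ → ProbabilityMeasure (LZ D t → G), Q = fun k =>
    ⟨Qm μ D (2 ^ (k0 + k + 1)) t β (1 / ((2 ^ (k0 + k + 1) : ℕ) : ℝ)) ε z, hP k⟩ := ⟨_, rfl⟩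
  obtain ⟨ν, s, hs, hlim⟩ := CompactSpace.tendsto_subseq Q
  have hF : ∀ F : (LZ D t → G) → ℝ, Continuous F →
      Tendsto (fun j => ∫ U, F U ∂(Qm μ D (2 ^ (k0 + s j + 1)) t β
        (1 / ((2 ^ (k0 + s j + 1) : ℕ) : ℝ)) ε z)) atTop (𝓝 (∫ U, F U ∂(ν : Measure (LZ D t → G)))) := by
    intro F hF
    have h1 := (ProbabilityMeasure.tendsto_iff_forall_integral_tendsto.1 hlim)
      (BoundedContinuousFunction.mkOfCompact ⟨F, hF⟩)
    rw [hQ] at h1
    exact h1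
  -- the side tends to infinity
  have hl1 : Tendsto (fun j => ((2 ^ (k0 + s j + 1) : ℕ) : ℝ)) atTop atTop := by
    refine tendsto_natCast_atTop_atTop.comp ?_
    refine tendsto_atTop_mono (fun j => ?_) hs.tendsto_atTop
    have : k0 + s j + 1 < 2 ^ (k0 + s j + 1) := Nat.lt_two_pow_self
    omega
  have hl2 : ∀ j, 2 ≤ 2 ^ (k0 + s j + 1) := fun j => by
    calc 2 = 2 ^ 1 := by norm_num
      _ ≤ 2 ^ (k0 + s j + 1) := Nat.pow_le_pow_right (by norm_num) (by omega)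
  have hl0 : ∀ j, (0 : ℝ) < ((2 ^ (k0 + s j + 1) : ℕ) : ℝ) := fun j => by positivity
  have hinv : Tendsto (fun j => 1 / ((2 ^ (k0 + s j + 1) : ℕ) : ℝ)) atTop (𝓝 0) := by
    simp only [one_div]
    exact tendsto_inv_atTop_zero.comp hl1
  refine ⟨ν, inferInstance, fun i F hFc => ?_, fun b g F hFc => ?_, fun x => ?_⟩
  · have h1 := hF F hFc
    have h2 := hF (fun U => F (Tv (evZ D t i) U)) (hFc.comp (Tv_cont _))
    refine tendsto_nhds_unique h2 (h1.congr fun j => ?_)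
    exact (Qm_shift μ β _ ε hz i hFc).symm
  · have hΨ : Continuous fun U : LZ D t → G => F (mv b g U) * Real.exp (-(β * DZ we b g U)) :=
      (hFc.comp (mv_cont b g)).mul (Real.continuous_exp.comp (continuous_const.mul (DZ_cont b g)).neg)
    have hEc : Continuous fun U : LZ D t → G => Real.exp (-(β * DZ we b g U)) :=
      Real.continuous_exp.comp (continuous_const.mul (DZ_cont b g)).neg
    obtain ⟨C1, hC1, h1⟩ := bound_of_compact hEc
    obtain ⟨C2, hC2, h2⟩ := bound_of_compact hFc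
    have h1' : ∀ U : LZ D t → G, Real.exp (-(β * DZ we b g U)) ≤ C1 :=
      fun U => (le_abs_self _).trans (h1 U)
    have hlimF := ((hF F hFc).sub (hF _ hΨ)).abs
    refine eq_of_abs_sub_le_all fun τ hτ => ?_
    obtain ⟨τ1, hτ1⟩ : ∃ τ1, τ1 = τ / (2 * (C1 * Real.exp 1 + 1)) := ⟨_, rfl⟩
    have hτ10 : 0 < τ1 := by rw [hτ1]; positivity
    obtain ⟨Δ, hΔ⟩ := local_unif hFc hτ10
    -- a bound for the distances
    obtain ⟨M, hM⟩ : ∃ M : ℕ, ∀ e ∈ Δ, ∀ i, |e.1.1 i - b.1.1 i| < (M : ℤ) := by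
      refine ⟨(Δ ×ˢ Finset.univ).sup (fun p : LZ D t × Fin D => (p.1.1.1 p.2 - b.1.1 p.2).natAbs) + 1,
        fun e he i => ?_⟩
      have hmem : ((e, i) : LZ D t × Fin D) ∈ Δ ×ˢ (Finset.univ : Finset (Fin D)) :=
        Finset.mem_product.2 ⟨he, Finset.mem_univ i⟩
      have h3 := Finset.le_sup (f := fun p : LZ D t × Fin D => (p.1.1.1 p.2 - b.1.1 p.2).natAbs) hmem
      simp only at h3
      rw [Int.abs_eq_natAbs]
      exact_mod_cast Nat.lt_succ_of_le h3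
    refine le_of_tendsto hlimF ?_
    have h4 : Tendsto (fun j => C2 * C1 * (Real.exp (1 / ((2 ^ (k0 + s j + 1) : ℕ) : ℝ)) - 1)) atTop
        (𝓝 (C2 * C1 * (Real.exp 0 - 1))) :=
      (((Real.continuous_exp.tendsto 0).comp hinv).sub_const 1).const_mul _
    rw [Real.exp_zero, sub_self, mul_zero] at h4
    filter_upwards [hl1.eventually_ge_atTop (M : ℝ), h4.eventually_le_const (by positivity : 0 < τ / 2)]
      with j hj1 hj2
    have hj1' : M ≤ 2 ^ (k0 + s j + 1) := by exact_mod_cast hj1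
    have h5 := Qm_mv (D := D) (t := t) μ (hl2 j) hβ (one_div_nonneg.2 (hl0 j).le) (ε := ε) z b g hFc
      hC1 hC2 hτ10.le h1' h2 (fun U => by
        refine hΔ _ _ fun e he => ?_
        refine per_mv (by positivity) b g U e fun i => ?_
        have := hM e he i
        have h6 : (M : ℤ) ≤ ((2 ^ (k0 + s j + 1) : ℕ) : ℤ) := by exact_mod_cast hj1'
        linarith)
    refine h5.trans ?_
    have h7 : Real.exp (1 / ((2 ^ (k0 + s j + 1) : ℕ) : ℝ)) ≤ Real.exp 1 := by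
      refine Real.exp_le_exp.2 ?_
      rw [div_le_one (hl0 j)]
      have : (2 : ℝ) ≤ ((2 ^ (k0 + s j + 1) : ℕ) : ℝ) := by exact_mod_cast hl2 j
      linarith
    have h8 : τ1 * C1 * Real.exp (1 / ((2 ^ (k0 + s j + 1) : ℕ) : ℝ)) ≤ τ / 2 := by
      calc τ1 * C1 * Real.exp (1 / ((2 ^ (k0 + s j + 1) : ℕ) : ℝ)) ≤ τ1 * C1 * Real.exp 1 :=
            mul_le_mul_of_nonneg_left h7 (by positivity)
        _ ≤ τ1 * (C1 * Real.exp 1 + 1) := by nlinarith
        _ = τ / 2 := by rw [hτ1]; field_simp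
    linarith
  · have hfc : Continuous fun U : LZ D t → G => fz ε z (PolZ U x) := (fz_cont ε z).comp (PolZ_cont x)
    have h1 := hF _ hfc
    obtain ⟨q0, hq0⟩ : ∃ q0, q0 = (1 - η) / Nat.card (Subgroup.center G) - 2 * η / δ := ⟨_, rfl⟩
    have h2 : Tendsto (fun j => (1 - δ) + Real.log q0 / (1 / ((2 ^ (k0 + s j + 1) : ℕ) : ℝ) *
        ((2 ^ (k0 + s j + 1) : ℕ) : ℝ) ^ D)) atTop (𝓝 ((1 - δ) + 0)) := by
      refine tendsto_const_nhds.add ?_
      have h3 : Tendsto (fun j => 1 / ((2 ^ (k0 + s j + 1) : ℕ) : ℝ) *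
          ((2 ^ (k0 + s j + 1) : ℕ) : ℝ) ^ D) atTop atTop := by
        refine tendsto_atTop_mono (fun j => ?_) hl1
        obtain ⟨a, ha⟩ : ∃ a : ℝ, a = ((2 ^ (k0 + s j + 1) : ℕ) : ℝ) := ⟨_, rfl⟩
        have ha1 : (2 : ℝ) ≤ a := by rw [ha]; exact_mod_cast hl2 j
        rw [← ha]
        have h4 : a ^ D = a * (a * a ^ (D - 2)) := by
          rw [← pow_succ', ← pow_succ']
          congr 1
          omega
        rw [h4, ← mul_assoc, one_div, inv_mul_cancel₀ (by linarith), one_mul]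
        have : (1 : ℝ) ≤ a ^ (D - 2) := one_le_pow₀ (by linarith)
        nlinarith
      exact tendsto_const_nhds.div_atTop h3
    rw [add_zero] at h2
    refine le_of_tendsto_of_tendsto' h2 h1 fun j => ?_
    have h3 := src_low (D := D) (t := t) μ hβ hε (one_div_pos.2 (hl0 j)) hδ hsep (hη (s j)) hz hq
      (fun i => (x i : ZMod (2 ^ (k0 + s j + 1))))
    rw [hq0, Qm_int μ β _ ε z hfc]
    simp only [PolZ_per]
    exact h3

end

end Pool.Agent.H991.DC
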