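import Mathlib
import Pool.Agent.H991.DC.Ad
import Pool.Graph.R_seed8.TH618.YM.Cartan
import Pool.Graph.R_pool_sql_team_seeded_63374d34.N899.BB.Low
import Pool.Graph.R_pool_sql_team_seeded_63374d34.N899.BB.Est

/-!
# The centre and the adjoint representation
-/

open MeasureTheory Matrix
open scoped Matrix.Norms.Frobenius
open Pool.Agent.Y14.Wilson Pool.Agent.N899.BB Pool.Agent.N899.BB.Tay

namespace Pool.Agent.H991.DC

noncomputable section

theorem exists_basis {N : ℕ} {G : Subgroup (UU N)} (hG : IsClosed (G : Set (UU N))) :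
    ∃ n, Nonempty (LieBasis G n) := by
  obtain ⟨n, ⟨F⟩⟩ := Pool.Agent.TH618.YM.exists_frame hG
  exact ⟨n, ⟨⟨F.X, F.ex, F.ex_eq, F.orth, F.full⟩⟩⟩

variable {N n : ℕ} {G : Subgroup (UU N)}

/-- the distance of the adjoint representation from the identity -/
def ad (B : LieBasis G n) (P : G) : ℝ := n - (Ado B P).trace

lemma ad_eq (B : LieBasis G n) (P : G) :
    2 * ad B P = ∑ a, ∑ b, (Ado B P a b - if a = b then 1 else 0) ^ 2 := by
  have h1 : ∑ a, ∑ b, Ado B P a b ^ 2 = n := by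
    have h := congrArg Matrix.trace (Ado_orth' B P)
    rw [Matrix.trace_one, Fintype.card_fin] at h
    rw [← h, Matrix.trace]
    refine Finset.sum_congr rfl fun a _ => ?_
    rw [Matrix.diag_apply, Matrix.mul_apply]
    exact Finset.sum_congr rfl fun b _ => by rw [Matrix.transpose_apply]; ring
  have h2 : ∀ a b, (Ado B P a b - if a = b then 1 else 0) ^ 2 =
      Ado B P a b ^ 2 - 2 * (if a = b then Ado B P a b else 0) + (if a = b then 1 else 0) := by
    intro a b
    split_ifs <;> ring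
  simp only [h2, Finset.sum_add_distrib, Finset.sum_sub_distrib, ← Finset.mul_sum, h1,
    Finset.sum_ite_eq, Finset.mem_univ, if_true, Finset.sum_const, Finset.card_univ,
    Fintype.card_fin, nsmul_eq_mul, mul_one]
  unfold ad Matrix.trace
  simp only [Matrix.diag_apply]
  ring

lemma ad_nonneg (B : LieBasis G n) (P : G) : 0 ≤ ad B P := by
  have h := ad_eq B P
  have : 0 ≤ ∑ a, ∑ b, (Ado B P a b - if a = b then 1 else 0) ^ 2 :=
    Finset.sum_nonneg fun a _ => Finset.sum_nonneg fun b _ => sq_nonneg _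
  linarith

lemma ad_zero (B : LieBasis G n) (P : G) (h : ad B P = 0) : Ado B P = 1 := by
  have h1 := ad_eq B P
  rw [h, mul_zero] at h1
  have h2 := (Finset.sum_eq_zero_iff_of_nonneg fun a _ =>
    Finset.sum_nonneg fun b _ => sq_nonneg _).1 h1.symm
  ext a b
  have h3 := (Finset.sum_eq_zero_iff_of_nonneg fun b _ => sq_nonneg _).1
    (h2 a (Finset.mem_univ _)) b (Finset.mem_univ _)
  rw [Matrix.one_apply]
  have h4 := pow_eq_zero_iff (two_ne_zero) |>.1 h3
  linarith

lemma comm_of_ad (B : LieBasis G n) (P : G) (h : Ado B P = 1) (a : Fin n) (t : ℝ) :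
    P * B.ex a t = B.ex a t * P := by
  have h1 := conj_X B P a
  rw [h] at h1
  simp only [Matrix.one_apply, ite_smul, one_smul, zero_smul, Finset.sum_ite_eq', Finset.mem_univ,
    if_true] at h1
  have h2 : Commute (mt P) (B.X a) := by
    have h3 : mt P * B.X a * (mt P)ᴴ * mt P = B.X a * mt P := by rw [h1]
    rwa [mul_assoc, Low.mt_unit, mul_one] at h3
  have h4 : Commute (mt P) (NormedSpace.exp (t • B.X a)) := (h2.smul_right t).exp_right
  refine Subtype.ext (Subtype.ext ?_)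
  change mt P * mt (B.ex a t) = mt (B.ex a t) * mt P
  rw [B.ex_eq]
  exact h4

/-- the real part of the trace -/
def ret (N : ℕ) : Mt N →L[ℝ] ℝ :=
  LinearMap.toContinuousLinearMap (Complex.reLm.comp (Matrix.traceLinearMap (Fin N) ℝ ℂ))

lemma ret_apply (A : Mt N) : ret N A = (trace A).re := rfl

lemma crd_zero (B : LieBasis G n) (g : G) (a : Fin n)
    (h : ∀ s, ‖mt g - 1‖ ≤ ‖mt g - mt (B.ex a s)‖) : crd B g a = 0 := by
  have h1 : HasDerivAt (fun s : ℝ => NormedSpace.exp (s • B.X a))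
      (NormedSpace.exp ((0 : ℝ) • B.X a) * B.X a) 0 := hasDerivAt_exp_smul_const (𝕂 := ℝ) (B.X a) 0
  have h2 := (ret N).hasFDerivAt.comp_hasDerivAt (0 : ℝ) (h1.const_mul ((mt g)ᴴ))
  rw [zero_smul, NormedSpace.exp_zero, one_mul] at h2
  have h3 : ∀ s, ‖mt g - mt (B.ex a s)‖ ^ 2 =
      2 * N - 2 * ret N ((mt g)ᴴ * NormedSpace.exp (s • B.X a)) := by
    intro s
    have h4 : ‖mt g - mt (B.ex a s)‖ = ‖mt (g⁻¹ * B.ex a s) - 1‖ := by
      have h5 : mt g - mt (B.ex a s) = -(mt g * (mt (g⁻¹ * B.ex a s) - 1)) := by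
        rw [mul_sub, ← Tay.mt_mul, mul_inv_cancel_left, mul_one]
        abel
      rw [h5, norm_neg, Low.norm_lmul]
    have h6 := Low.we_eq (g⁻¹ * B.ex a s)
    rw [h4]
    have h7 : we (g⁻¹ * B.ex a s) = N - ret N ((mt g)ᴴ * NormedSpace.exp (s • B.X a)) := by
      rw [ret_apply, ← B.ex_eq]
      unfold we
      rw [trace_sub, trace_one, Fintype.card_fin, Complex.sub_re, Complex.natCast_re]
      rfl
    linarith
  have h4 : IsLocalMax (fun s : ℝ => ret N ((mt g)ᴴ * NormedSpace.exp (s • B.X a))) 0 := by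
    refine Filter.Eventually.of_forall fun s => ?_
    have h5 := h s
    have h6 := h3 s
    have h7 := h3 0
    have h8 : mt (B.ex a 0) = 1 := by rw [B.ex_eq, zero_smul, NormedSpace.exp_zero]
    rw [h8] at h7
    have h9 : ‖mt g - 1‖ ^ 2 ≤ ‖mt g - mt (B.ex a s)‖ ^ 2 := pow_le_pow_left₀ (norm_nonneg _) h5 2
    change ret N ((mt g)ᴴ * NormedSpace.exp (s • B.X a)) ≤
      ret N ((mt g)ᴴ * NormedSpace.exp ((0 : ℝ) • B.X a))
    linarith
  have h5 := h4.hasDerivAt_eq_zero h2
  have h6 : (trace ((mt g)ᴴ * B.X a)).re = crd B g a := by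
    change _ = (trace ((B.X a)ᴴ * mt g)).re
    rw [← Complex.conj_re, ← Complex.star_def, ← trace_conjTranspose, conjTranspose_mul,
      conjTranspose_conjTranspose]
  rw [← h6]
  exact h5

lemma near_comm (hG : IsClosed (G : Set (UU N))) (B : LieBasis G n) (P : G)
    (h : ∀ a t, P * B.ex a t = B.ex a t * P) :
    ∃ ρ : ℝ, 0 < ρ ∧ ∀ g : G, ‖mt g - 1‖ < ρ → P * g = g * P := by
  obtain ⟨C, hC, hT⟩ := Pool.Agent.Y274.YMTan.tangent G hG B.X B.orth
    (fun a t => ⟨B.ex a t, B.ex_eq a t⟩) B.full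
  have hT' : ∀ g : G, ‖mt g - 1 - ∑ a, crd B g a • B.X a‖ ≤ C * ‖mt g - 1‖ ^ 2 := hT
  have hc := Est.compactG hG
  have hm : Continuous (mt : G → Mt N) := continuous_subtype_val.comp continuous_subtype_val
  refine ⟨1 / (C + 1), by positivity, fun g hg => ?_⟩
  obtain ⟨H, hH⟩ : ∃ H : Set G, H = {x | P * x = x * P} := ⟨_, rfl⟩
  have hHc : IsCompact H := by
    rw [hH]
    exact (isClosed_eq (continuous_const.mul continuous_id) (continuous_id.mul continuous_const)).isCompact
  obtain ⟨h0, hh0, hmin⟩ := hHc.exists_isMinOn (f := fun x : G => ‖mt g - mt x‖)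
    ⟨1, by rw [hH]; change P * 1 = 1 * P; rw [mul_one, one_mul]⟩
    (continuous_const.sub hm).norm.continuousOn
  have e : ∀ x : G, ‖mt g - mt (h0 * x)‖ = ‖mt (h0⁻¹ * g) - mt x‖ := by
    intro x
    have h5 : mt g - mt (h0 * x) = mt h0 * (mt (h0⁻¹ * g) - mt x) := by
      rw [mul_sub, ← Tay.mt_mul, ← Tay.mt_mul, mul_inv_cancel_left]
    rw [h5, Low.norm_lmul]
  have mt1 : mt (1 : G) = 1 := rfl
  have hd : ‖mt (h0⁻¹ * g) - 1‖ ≤ ‖mt g - 1‖ := by
    have h5 := e 1
    rw [mul_one, mt1] at h5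
    rw [← h5, ← mt1]
    exact hmin (by rw [hH]; change P * 1 = 1 * P; rw [mul_one, one_mul])
  have hcz : ∀ a, crd B (h0⁻¹ * g) a = 0 := by
    intro a
    refine crd_zero B _ a fun s => ?_
    have h5 := e 1
    rw [mul_one, mt1] at h5
    rw [← h5, ← e]
    refine hmin ?_
    rw [hH] at hh0 ⊢
    change P * (h0 * B.ex a s) = h0 * B.ex a s * P
    rw [← mul_assoc, hh0, mul_assoc, h a s, mul_assoc]
  have h6 := hT' (h0⁻¹ * g)
  simp only [hcz, zero_smul, Finset.sum_const_zero, sub_zero] at h6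
  have h7 : ‖mt (h0⁻¹ * g) - 1‖ = 0 := by
    by_contra hne
    have h8 : 0 < ‖mt (h0⁻¹ * g) - 1‖ := lt_of_le_of_ne (norm_nonneg _) (Ne.symm hne)
    have h9 : 1 ≤ C * ‖mt (h0⁻¹ * g) - 1‖ := by
      by_contra hlt
      push Not at hlt
      nlinarith
    have h10 : ‖mt (h0⁻¹ * g) - 1‖ < 1 / (C + 1) := hd.trans_lt hg
    rw [lt_div_iff₀ (by positivity)] at h10
    nlinarith
  have h8 : h0⁻¹ * g = 1 := by
    refine Subtype.ext (Subtype.ext ?_)
    change mt (h0⁻¹ * g) = mt 1
    rw [mt1]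
    exact sub_eq_zero.1 (norm_eq_zero.1 h7)
  have h9 : g = h0 := by
    rw [← mul_inv_cancel_left h0 g, h8, mul_one]
  rw [h9]
  rw [hH] at hh0
  exact hh0

lemma central_of_ad (hG : IsClosed (G : Set (UU N))) [PreconnectedSpace G] (B : LieBasis G n) (P : G)
    (h : ad B P = 0) : P ∈ Subgroup.center G := by
  have h1 := ad_zero B P h
  obtain ⟨ρ, hρ, h2⟩ := near_comm hG B P fun a t => comm_of_ad B P h1 a t
  have hm : Continuous (mt : G → Mt N) := continuous_subtype_val.comp continuous_subtype_val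
  have h3 : IsClosed {x : G | P * x = x * P} :=
    isClosed_eq (continuous_const.mul continuous_id) (continuous_id.mul continuous_const)
  have h4 : IsOpen {x : G | P * x = x * P} := by
    rw [isOpen_iff_mem_nhds]
    intro x hx
    have h5 : {y : G | ‖mt (x⁻¹ * y) - 1‖ < ρ} ∈ nhds x := by
      have h6 : IsOpen {y : G | ‖mt (x⁻¹ * y) - 1‖ < ρ} :=
        isOpen_lt ((hm.comp (continuous_const.mul continuous_id)).sub continuous_const).norm
          continuous_const
      refine h6.mem_nhds ?_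
      change ‖mt (x⁻¹ * x) - 1‖ < ρ
      rw [inv_mul_cancel]
      have : mt (1 : G) = 1 := rfl
      rw [this, sub_self, norm_zero]
      exact hρ
    refine Filter.mem_of_superset h5 fun y hy => ?_
    have h6 := h2 (x⁻¹ * y) hy
    have hx' : P * x = x * P := hx
    change P * y = y * P
    calc P * y = P * (x * (x⁻¹ * y)) := by rw [mul_inv_cancel_left]
      _ = x * (P * (x⁻¹ * y)) := by rw [← mul_assoc, hx', mul_assoc]
      _ = y * P := by rw [h6, ← mul_assoc, mul_inv_cancel_left]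
  have h5 : {x : G | P * x = x * P} = Set.univ := IsClopen.eq_univ ⟨h3, h4⟩ ⟨1, by
    change P * 1 = 1 * P
    rw [mul_one, one_mul]⟩
  rw [Subgroup.mem_center_iff]
  intro g
  have h6 : g ∈ {x : G | P * x = x * P} := by rw [h5]; trivial
  exact h6.symm

lemma ad_cont (B : LieBasis G n) : Continuous (ad B : G → ℝ) := by
  unfold ad
  exact continuous_const.sub (Ado_cont B).matrix_trace

lemma ad_low (hG : IsClosed (G : Set (UU N))) [PreconnectedSpace G] (B : LieBasis G n) {ρ : ℝ}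
    (hρ : 0 < ρ) : ∃ c : ℝ, 0 < c ∧ ∀ P : G, (∀ z ∈ Subgroup.center G, ρ ≤ ‖mt P - mt z‖) →
      c ≤ ad B P := by
  have hc := Est.compactG hG
  have hm : Continuous (mt : G → Mt N) := continuous_subtype_val.comp continuous_subtype_val
  obtain ⟨S, hS⟩ : ∃ S : Set G, S = {P | ∀ z ∈ Subgroup.center G, ρ ≤ ‖mt P - mt z‖} := ⟨_, rfl⟩
  have hSc : IsCompact S := by
    rw [hS]
    refine IsClosed.isCompact ?_
    simp only [Set.setOf_forall]
    exact isClosed_iInter fun z => isClosed_iInter fun _ =>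
      isClosed_le continuous_const (hm.sub continuous_const).norm
  rcases S.eq_empty_or_nonempty with he | hne
  · refine ⟨1, one_pos, fun P hP => ?_⟩
    have : P ∈ S := by rw [hS]; exact hP
    rw [he] at this
    exact this.elim
  · obtain ⟨P0, hP0, hmin⟩ := hSc.exists_isMinOn hne (ad_cont B).continuousOn
    refine ⟨ad B P0, ?_, fun P hP => hmin (by rw [hS]; exact hP)⟩
    refine lt_of_le_of_ne (ad_nonneg B P0) fun h0 => ?_
    have h1 := central_of_ad hG B P0 h0.symm
    rw [hS] at hP0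
    have h2 := hP0 P0 h1
    rw [sub_self, norm_zero] at h2
    linarith

end

end Pool.Agent.H991.DC
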