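import Mathlib

/-!
# The choice of the parameters
-/

namespace Pool.Agent.H991.DC

lemma log_le_div {k : ℕ} {u : ℝ} (hu : (4 : ℝ) * (k + 1) ^ 2 ≤ u) : k * Real.log u ≤ u := by
  have hu0 : 0 < u := lt_of_lt_of_le (by positivity) hu
  have h1 : Real.log u ≤ 2 * Real.sqrt u := by
    have h2 : Real.log (Real.sqrt u) ≤ Real.sqrt u - 1 :=
      Real.log_le_sub_one_of_pos (Real.sqrt_pos.2 hu0)
    rw [Real.log_sqrt hu0.le] at h2
    linarith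
  have h3 : (2 : ℝ) * (k + 1) ≤ Real.sqrt u := by
    refine Real.le_sqrt_of_sq_le ?_
    calc ((2 : ℝ) * (k + 1)) ^ 2 = 4 * (k + 1) ^ 2 := by ring
      _ ≤ u := hu
  have h4 : Real.sqrt u * Real.sqrt u = u := Real.mul_self_sqrt hu0.le
  have h5 : 0 ≤ Real.sqrt u := Real.sqrt_nonneg _
  have hk : (0 : ℝ) ≤ k := Nat.cast_nonneg _
  have h6 : 2 * (k : ℝ) ≤ Real.sqrt u := by linarith
  calc k * Real.log u ≤ k * (2 * Real.sqrt u) := mul_le_mul_of_nonneg_left h1 hk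
    _ = (2 * k) * Real.sqrt u := by ring
    _ ≤ Real.sqrt u * Real.sqrt u := mul_le_mul_of_nonneg_right h6 h5
    _ = u := h4

lemma pow_sub_one_le (D : ℕ) {x : ℝ} (h0 : 0 ≤ x) (h1 : x ≤ 1) : (1 + x) ^ D - 1 ≤ D * 2 ^ D * x := by
  induction D with
  | zero => simp
  | succ D ih =>
    have h2 : (1 + x) ^ D ≤ 2 ^ D := pow_le_pow_left₀ (by linarith) (by linarith) _
    have h5 : (1 + x) ^ D * x ≤ 2 ^ D * x := mul_le_mul_of_nonneg_right h2 h0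
    have h6 : (0 : ℝ) ≤ (D + 1) * 2 ^ D * x := by positivity
    calc (1 + x) ^ (D + 1) - 1 = ((1 + x) ^ D - 1) + (1 + x) ^ D * x := by ring
      _ ≤ D * 2 ^ D * x + 2 ^ D * x := by linarith
      _ = (D + 1) * 2 ^ D * x := by ring
      _ ≤ (D + 1) * 2 ^ D * x + (D + 1) * 2 ^ D * x := by linarith
      _ = ((D + 1 : ℕ) : ℝ) * 2 ^ (D + 1) * x := by push_cast; ring

lemma par_first {C c u A : ℝ} {D p K q' L t m : ℕ} (hC : 0 ≤ C) (hc : 0 < c) (hA : 0 ≤ A)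
    (hu4 : 4 ≤ u) (hp : p = D + 3) (hD : 1 ≤ D)
    (hq' : q' = (p * D + 2) * K + p * D + 2 * p + 5) (htu : (t : ℝ) ≤ u) (ht : 1 ≤ t)
    (hL0 : (0 : ℝ) < L) (hL2 : (L : ℝ) ≤ 2 * u ^ p) (hmA : (m : ℝ) ≤ A * u ^ (p * D + 1))
    (b1 : 2 ^ (D + 1) * C * A + 1 ≤ c / 2 ^ (D + 3) * u) (b5 : Real.log (u ^ (2 * q')) ≤ u)
    (b6 : 0 ≤ Real.log (u ^ (2 * q'))) :
    2 * u * (L : ℝ) ^ (D - 1) ≤ u ^ (2 * q') * (c / (L * t) ^ 2) / 2 ^ (D + 1) -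
      2 ^ (D + 1) * C * m * Real.log (u ^ (2 * q')) := by
  obtain ⟨c1, hc1⟩ : ∃ c1 : ℝ, c1 = c / 2 ^ (D + 3) := ⟨_, rfl⟩
  obtain ⟨C1, hC1⟩ : ∃ C1 : ℝ, C1 = 2 ^ (D + 1) * C * A := ⟨_, rfl⟩
  rw [← hc1, ← hC1] at b1
  have hu0' : 0 < u := by linarith
  have hu1 : 1 ≤ u := by linarith
  have ht0 : (1 : ℝ) ≤ t := by exact_mod_cast ht
  have h1 : c1 * u ^ (p * D + 3) ≤ u ^ (2 * q') * (c / (L * t) ^ 2) / 2 ^ (D + 1) := by
    have h2 : ((L : ℝ) * t) ^ 2 ≤ (2 * u ^ p * u) ^ 2 := by gcongr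
    have h3 : u ^ (p * D + 3) * (2 * u ^ p * u) ^ 2 ≤ 4 * u ^ (2 * q') := by
      have : u ^ (p * D + 3) * (2 * u ^ p * u) ^ 2 = 4 * u ^ (p * D + 3 + (2 * p + 2)) := by ring
      rw [this]
      refine mul_le_mul_of_nonneg_left (pow_le_pow_right₀ hu1 ?_) (by norm_num)
      rw [hq']
      generalize (p * D + 2) * K = X
      generalize p * D = Y
      omega
    have h4 : (0 : ℝ) < ((L : ℝ) * t) ^ 2 := by positivity
    rw [hc1, ← mul_div_assoc, div_div, le_div_iff₀ (by positivity), div_mul_eq_mul_div,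
      div_mul_eq_mul_div, div_le_iff₀ (by positivity)]
    have h5 : (2 : ℝ) ^ (D + 3) = 2 ^ (D + 1) * 4 := by ring
    rw [h5]
    calc c * u ^ (p * D + 3) * (((L : ℝ) * t) ^ 2 * 2 ^ (D + 1)) =
        c * 2 ^ (D + 1) * (u ^ (p * D + 3) * ((L : ℝ) * t) ^ 2) := by ring
      _ ≤ c * 2 ^ (D + 1) * (u ^ (p * D + 3) * (2 * u ^ p * u) ^ 2) := by gcongr
      _ ≤ c * 2 ^ (D + 1) * (4 * u ^ (2 * q')) := by gcongr
      _ = _ := by ring
  have h2 : 2 ^ (D + 1) * C * m * Real.log (u ^ (2 * q')) ≤ C1 * u ^ (p * D + 2) := by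
    calc 2 ^ (D + 1) * C * m * Real.log (u ^ (2 * q')) ≤
        2 ^ (D + 1) * C * (A * u ^ (p * D + 1)) * u := by gcongr
      _ = _ := by rw [hC1]; ring
  have h4 : 2 * u * (L : ℝ) ^ (D - 1) ≤ u ^ (p * D + 2) := by
    have h7 : (2 : ℝ) ^ D = 2 * 2 ^ (D - 1) := by
      rw [← pow_succ']
      congr 1
      omega
    calc 2 * u * (L : ℝ) ^ (D - 1) ≤ 2 * u * (2 * u ^ p) ^ (D - 1) := by gcongr
      _ = 2 ^ D * (u * (u ^ p) ^ (D - 1)) := by rw [mul_pow, h7]; ring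
      _ ≤ u ^ D * (u * (u ^ p) ^ (D - 1)) := by
          have h6 : (2 : ℝ) ^ D ≤ u ^ D := pow_le_pow_left₀ (by norm_num) (by linarith) _
          exact mul_le_mul_of_nonneg_right h6 (by positivity)
      _ = u ^ (D + 1 + p * (D - 1)) := by rw [← pow_mul]; ring
      _ ≤ _ := by
          refine pow_le_pow_right₀ hu1 ?_
          obtain ⟨D', hD'⟩ : ∃ D', D = D' + 1 := ⟨D - 1, by omega⟩
          have h8 : p * D = p * (D - 1) + p := by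
            rw [hD', Nat.add_sub_cancel]; ring
          rw [h8]
          omega
  have h3 : c1 * u ^ (p * D + 3) = u ^ (p * D + 2) * (c1 * u) := by ring
  rw [h3] at h1
  have h5 := mul_le_mul_of_nonneg_left b1 (by positivity : (0 : ℝ) ≤ u ^ (p * D + 2))
  have h6 : u ^ (p * D + 2) * (C1 + 1) = C1 * u ^ (p * D + 2) + u ^ (p * D + 2) := by ring
  linarith

lemma par_e1 {u : ℝ} {L t r : ℕ} (hu4 : 4 ≤ u) (ht : 1 ≤ t) (htu : (t : ℝ) ≤ u)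
    (hL4 : 4 * u ≤ L) (hr : L = 2 * r + 2) : (L : ℝ) / (2 * t) ≤ ((2 * r / t : ℕ) : ℝ) := by
  have ht0 : (1 : ℝ) ≤ t := by exact_mod_cast ht
  have hLr : (L : ℝ) = 2 * r + 2 := by rw [hr]; push_cast; ring
  have h1 : ((2 * r : ℕ) : ℝ) / t - 1 ≤ ((2 * r / t : ℕ) : ℝ) := by
    have h2 := Nat.lt_div_mul_add (a := 2 * r) (b := t) (by omega)
    have h3 : ((2 * r : ℕ) : ℝ) < ((2 * r / t : ℕ) : ℝ) * t + t := by exact_mod_cast h2
    rw [sub_le_iff_le_add, div_le_iff₀ (by linarith)]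
    calc ((2 * r : ℕ) : ℝ) ≤ ((2 * r / t : ℕ) : ℝ) * t + t := h3.le
      _ = _ := by ring
  refine le_trans ?_ h1
  rw [div_sub_one (by linarith), div_le_div_iff₀ (by linarith) (by linarith)]
  have h5 : (L : ℝ) ≤ (((2 * r : ℕ) : ℝ) - t) * 2 := by
    push_cast
    linarith
  calc (L : ℝ) * t ≤ ((((2 * r : ℕ) : ℝ) - t) * 2) * t := mul_le_mul_of_nonneg_right h5 (by linarith)
    _ = _ := by ring

lemma par_e2 {u : ℝ} {D p L t r : ℕ} (hu1 : 1 ≤ u) (hD : 1 ≤ D) (hp : p = D + 3)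
    (hL0 : (0 : ℝ) < L) (hL1 : u ^ p ≤ L) (ht0 : (1 : ℝ) ≤ t) (htu : (t : ℝ) ≤ u)
    (e1 : (L : ℝ) / (2 * t) ≤ ((2 * r / t : ℕ) : ℝ)) :
    (L : ℝ) ^ (D - 1) * u ^ 3 / 2 ^ D ≤ ((2 * r / t : ℕ) : ℝ) ^ D := by
  have h1 : (L : ℝ) / (2 * u) ≤ ((2 * r / t : ℕ) : ℝ) := by
    refine le_trans ?_ e1
    gcongr
  refine le_trans ?_ (pow_le_pow_left₀ (by positivity) h1 D)
  rw [div_pow, mul_pow, div_le_div_iff₀ (by positivity) (by positivity)]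
  have h2 : (L : ℝ) ^ D = L ^ (D - 1) * L := by
    rw [← pow_succ]
    congr 1
    omega
  rw [h2]
  have h3 : u ^ 3 * u ^ D ≤ L := by
    refine le_trans (le_of_eq ?_) hL1
    rw [hp]; ring
  calc (L : ℝ) ^ (D - 1) * u ^ 3 * (2 ^ D * u ^ D) = L ^ (D - 1) * (u ^ 3 * u ^ D) * 2 ^ D := by ring
    _ ≤ (L : ℝ) ^ (D - 1) * L * 2 ^ D := by gcongr

lemma par_e3 {D L r : ℕ} (hr1 : 1 ≤ r) (hL0 : (0 : ℝ) < L) (hLr : (L : ℝ) = 2 * r + 2) :
    ((((r + 1 : ℕ) : ℝ) / r) ^ D - 1) ≤ D * 2 ^ D * (4 / L) := by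
  have hr0 : (0 : ℝ) < r := by exact_mod_cast hr1
  have h1 : (((r + 1 : ℕ) : ℝ) / r) = 1 + 1 / r := by
    push_cast
    field_simp
  rw [h1]
  have h2 : 1 / (r : ℝ) ≤ 1 := by
    rw [div_le_one hr0]
    exact_mod_cast hr1
  refine (pow_sub_one_le D (by positivity) h2).trans ?_
  have h3 : 1 / (r : ℝ) ≤ 4 / L := by
    rw [div_le_div_iff₀ hr0 hL0, hLr]
    have : (1 : ℝ) ≤ r := by exact_mod_cast hr1
    linarith
  gcongr

/-- the parameters for the interface -/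
lemma par3 (C : ℝ) (K : ℕ) (hC : 1 ≤ C) (D : ℕ) (hD : 1 ≤ D) : ∃ p q : ℕ, 1 ≤ p ∧ 1 ≤ q ∧
    ∀ c δ : ℝ, 0 < c → 0 < δ → ∃ u0 : ℝ, 4 ≤ u0 ∧ ∀ u : ℝ, u0 ≤ u → ∀ L t r : ℕ, 1 ≤ t →
    (t : ℝ) ≤ u → u ^ p ≤ L → (L : ℝ) ≤ 2 * u ^ p → L = 2 * r + 2 → 1 ≤ r ∧ 3 ≤ u ^ q ∧
    2 * (L : ℝ) ≤ u ^ q ∧
    2 * u * (L : ℝ) ^ (D - 1) ≤ u ^ q * (c / (L * t) ^ 2) / 2 ^ (D + 1) - 2 ^ (D + 1) * C *
      ((D + 1) ^ 2 * (t * L ^ D) : ℕ) * Real.log (u ^ q) ∧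
    2 * u * (L : ℝ) ^ (D - 1) ≤ (δ * ((2 * r / t : ℕ) : ℝ) ^ D) / 2 -
          C * (((D + 1) ^ 2 * (t * L ^ D) : ℕ) * Real.log (u ^ q)) ^ K / Real.sqrt (u ^ q) -
          C * Real.log (((D + 1) ^ 2 * (t * L ^ D) : ℕ) * u ^ q) -
          ((((r + 1 : ℕ) : ℝ) / r) ^ D - 1) * (C * ((D + 1) ^ 2 * (t * L ^ D) : ℕ) *
            Real.log (u ^ q)) := by
  obtain ⟨p, hp⟩ : ∃ p, p = D + 3 := ⟨_, rfl⟩
  obtain ⟨q', hq'⟩ : ∃ q', q' = (p * D + 2) * K + p * D + 2 * p + 5 := ⟨_, rfl⟩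
  obtain ⟨A, hA⟩ : ∃ A : ℝ, A = (D + 1) ^ 2 * 2 ^ D := ⟨_, rfl⟩
  have hA1 : 1 ≤ A := by
    rw [hA]
    have h0 : (0 : ℝ) ≤ D := Nat.cast_nonneg _
    have h1 : (1 : ℝ) ≤ (D + 1) ^ 2 := one_le_pow₀ (by linarith)
    have h2 : (1 : ℝ) ≤ 2 ^ D := one_le_pow₀ (by norm_num)
    exact one_le_mul_of_one_le_of_one_le h1 h2
  refine ⟨p, 2 * q', by omega, by omega, fun c δ hc hδ => ?_⟩
  -- the constants
  obtain ⟨c1, hc1⟩ : ∃ c1 : ℝ, c1 = c / 2 ^ (D + 3) := ⟨_, rfl⟩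
  have hc10 : 0 < c1 := by rw [hc1]; positivity
  obtain ⟨C1, hC1⟩ : ∃ C1 : ℝ, C1 = 2 ^ (D + 1) * C * A := ⟨_, rfl⟩
  obtain ⟨c2, hc2⟩ : ∃ c2 : ℝ, c2 = δ / 2 ^ (D + 1) := ⟨_, rfl⟩
  have hc20 : 0 < c2 := by rw [hc2]; positivity
  obtain ⟨C2, hC2⟩ : ∃ C2 : ℝ, C2 = D * 2 ^ D * 4 * (C * (D + 1) ^ 2) := ⟨_, rfl⟩
  obtain ⟨C3, hC3⟩ : ∃ C3 : ℝ, C3 = C * A ^ K + C * Real.log A + C + 2 := ⟨_, rfl⟩
  have hlA : 0 ≤ Real.log A := Real.log_nonneg hA1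
  obtain ⟨u0, hu0⟩ : ∃ u0 : ℝ, u0 = 4 + 4 * (((p * D + 1 + 2 * q' : ℕ) : ℝ) + 1) ^ 2 +
    (C1 + 1) / c1 + (2 * C2) / c2 + 2 * C3 / c2 := ⟨_, rfl⟩
  have hC10 : 0 ≤ C1 := by rw [hC1]; positivity
  have hC20 : 0 ≤ C2 := by rw [hC2]; positivity
  have hC30 : 0 ≤ C3 := by rw [hC3]; positivity
  have t1 : 0 ≤ (C1 + 1) / c1 := by positivity
  have t2 : 0 ≤ (2 * C2) / c2 := by positivity
  have t3 : 0 ≤ 2 * C3 / c2 := by positivity
  have t4 : 0 ≤ 4 * (((p * D + 1 + 2 * q' : ℕ) : ℝ) + 1) ^ 2 := by positivity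
  refine ⟨u0, by rw [hu0]; linarith, fun u hu L t r ht htu hL1 hL2 hr => ?_⟩
  have hu4 : 4 ≤ u := by rw [hu0] at hu; linarith
  have hu0' : 0 < u := by linarith
  have hu1 : 1 ≤ u := by linarith
  have b1 : C1 + 1 ≤ c1 * u := by
    have : (C1 + 1) / c1 ≤ u := by rw [hu0] at hu; linarith
    rw [div_le_iff₀ hc10, mul_comm] at this
    exact this
  have b2 : 2 * C2 ≤ c2 * u := by
    have : (2 * C2) / c2 ≤ u := by rw [hu0] at hu; linarith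
    rw [div_le_iff₀ hc20, mul_comm u] at this
    exact this
  have b3 : 2 * C3 ≤ c2 * u := by
    have : 2 * C3 / c2 ≤ u := by rw [hu0] at hu; linarith
    rw [div_le_iff₀ hc20, mul_comm u] at this
    exact this
  have b4 : ((p * D + 1 + 2 * q' : ℕ) : ℝ) * Real.log u ≤ u :=
    log_le_div (by rw [hu0] at hu; linarith)
  have hlu : 0 ≤ Real.log u := Real.log_nonneg hu1
  have b5 : Real.log (u ^ (2 * q')) ≤ u := by
    rw [Real.log_pow]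
    refine le_trans ?_ b4
    refine mul_le_mul_of_nonneg_right ?_ hlu
    exact_mod_cast Nat.le_add_left _ _
  have b6 : 0 ≤ Real.log (u ^ (2 * q')) := by
    rw [Real.log_pow]; positivity
  have ht0 : (1 : ℝ) ≤ t := by exact_mod_cast ht
  have hup : u ^ 3 ≤ u ^ p := pow_le_pow_right₀ hu1 (by omega)
  have hL4 : 4 * u ≤ L := by
    have h1 : (4 : ℝ) ≤ u ^ 2 := by
      calc (4 : ℝ) ≤ u := hu4
        _ ≤ u ^ 2 := by rw [sq]; exact le_mul_of_one_le_right hu0'.le hu1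
    calc 4 * u ≤ u ^ 2 * u := by gcongr
      _ = u ^ 3 := by ring
      _ ≤ L := hup.trans hL1
  have hL0 : (0 : ℝ) < L := by linarith
  have hr1 : 1 ≤ r := by
    have : (16 : ℝ) ≤ L := by linarith
    have : (16 : ℕ) ≤ L := by exact_mod_cast this
    omega
  have hLr : (L : ℝ) = 2 * r + 2 := by rw [hr]; push_cast; ring
  obtain ⟨m, hm⟩ : ∃ m : ℕ, m = (D + 1) ^ 2 * (t * L ^ D) := ⟨_, rfl⟩
  have hm' : (m : ℝ) = (D + 1) ^ 2 * (t * L ^ D) := by rw [hm]; push_cast; ring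
  have hm0 : (0 : ℝ) < m := by rw [hm']; positivity
  have hmA : (m : ℝ) ≤ A * u ^ (p * D + 1) := by
    rw [hm', hA]
    have h1 : (L : ℝ) ^ D ≤ (2 * u ^ p) ^ D := pow_le_pow_left₀ hL0.le hL2 _
    calc ((D : ℝ) + 1) ^ 2 * (t * L ^ D) ≤ (D + 1) ^ 2 * (u * (2 * u ^ p) ^ D) := by gcongr
      _ = _ := by rw [mul_pow, ← pow_mul]; ring
  rw [← hm]
  have q1 : 1 ≤ 2 * q' := by omega
  have q2 : p + 1 ≤ 2 * q' := by omega
  refine ⟨hr1, ?_, ?_, ?_, ?_⟩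
  · calc (3 : ℝ) ≤ u := by linarith
      _ = u ^ 1 := (pow_one u).symm
      _ ≤ _ := pow_le_pow_right₀ hu1 q1
  · calc 2 * (L : ℝ) ≤ 4 * u ^ p := by linarith
      _ ≤ u * u ^ p := by gcongr
      _ = u ^ (p + 1) := by ring
      _ ≤ _ := pow_le_pow_right₀ hu1 q2
  · rw [hC1, hc1] at b1
    exact par_first (by linarith) hc (by linarith) hu4 hp hD hq' htu ht hL0 hL2 hmA b1 b5 b6
  · -- the second
    have e1 := par_e1 hu4 ht htu hL4 hr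
    have e2 := par_e2 hu1 hD hp hL0 hL1 ht0 htu e1
    have e3 := par_e3 (D := D) hr1 hL0 hLr
    have e4 : ((((r + 1 : ℕ) : ℝ) / r) ^ D - 1) * (C * m * Real.log (u ^ (2 * q'))) ≤
        C2 * (L ^ (D - 1) * u ^ 2) := by
      have h2 : (L : ℝ) ^ D = L ^ (D - 1) * L := by
        rw [← pow_succ]
        congr 1
        omega
      have h3 : 0 ≤ C * ((D + 1) ^ 2 * ((t : ℝ) * L ^ D)) * Real.log (u ^ (2 * q')) := by
        positivity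
      have h4 : C * ((D + 1) ^ 2 * ((t : ℝ) * L ^ D)) * Real.log (u ^ (2 * q')) ≤
          C * ((D + 1) ^ 2 * (u * L ^ D)) * u := by
        have h5 : (0 : ℝ) ≤ C * ((D + 1) ^ 2 * (u * L ^ D)) := by positivity
        refine mul_le_mul ?_ b5 b6 h5
        refine mul_le_mul_of_nonneg_left ?_ (by linarith)
        refine mul_le_mul_of_nonneg_left ?_ (by positivity)
        exact mul_le_mul_of_nonneg_right htu (by positivity)
      calc ((((r + 1 : ℕ) : ℝ) / r) ^ D - 1) * (C * m * Real.log (u ^ (2 * q'))) ≤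
          (D * 2 ^ D * (4 / L)) * (C * ((D + 1) ^ 2 * (u * L ^ D)) * u) := by
            rw [hm']
            exact mul_le_mul e3 h4 h3 (by positivity)
        _ = _ := by
            rw [hC2, h2]
            field_simp
    have e5 : C * (m * Real.log (u ^ (2 * q'))) ^ K / Real.sqrt (u ^ (2 * q')) ≤ C * A ^ K := by
      have h1 : Real.sqrt (u ^ (2 * q')) = u ^ q' := by
        rw [mul_comm 2 q', pow_mul, Real.sqrt_sq (by positivity)]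
      rw [h1, div_le_iff₀ (by positivity)]
      have h2 : m * Real.log (u ^ (2 * q')) ≤ A * u ^ (p * D + 2) := by
        calc m * Real.log (u ^ (2 * q')) ≤ (A * u ^ (p * D + 1)) * u :=
              mul_le_mul hmA b5 b6 (by positivity)
          _ = _ := by ring
      have h3 : (m * Real.log (u ^ (2 * q'))) ^ K ≤ (A * u ^ (p * D + 2)) ^ K :=
        pow_le_pow_left₀ (mul_nonneg hm0.le b6) h2 K
      have h4 : (p * D + 2) * K ≤ q' := by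
        rw [hq']
        generalize (p * D + 2) * K = X
        generalize p * D = Y
        omega
      calc C * (m * Real.log (u ^ (2 * q'))) ^ K ≤ C * (A * u ^ (p * D + 2)) ^ K :=
            mul_le_mul_of_nonneg_left h3 (by linarith)
        _ = C * A ^ K * u ^ ((p * D + 2) * K) := by rw [mul_pow, ← pow_mul]; ring
        _ ≤ C * A ^ K * u ^ q' :=
            mul_le_mul_of_nonneg_left (pow_le_pow_right₀ hu1 h4) (by positivity)
    have e6 : C * Real.log (m * u ^ (2 * q')) ≤ C * Real.log A + C * u := by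
      have h1 : Real.log (m * u ^ (2 * q')) ≤ Real.log A + u := by
        have h2 : (m : ℝ) * u ^ (2 * q') ≤ A * u ^ (p * D + 1 + 2 * q') := by
          rw [pow_add u (p * D + 1), ← mul_assoc]
          exact mul_le_mul_of_nonneg_right hmA (by positivity)
        calc Real.log (m * u ^ (2 * q')) ≤ Real.log (A * u ^ (p * D + 1 + 2 * q')) :=
              Real.log_le_log (by positivity) h2
          _ = Real.log A + ((p * D + 1 + 2 * q' : ℕ) : ℝ) * Real.log u := by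
              rw [Real.log_mul (by positivity) (by positivity), Real.log_pow]
          _ ≤ _ := by linarith
      calc C * Real.log (m * u ^ (2 * q')) ≤ C * (Real.log A + u) :=
            mul_le_mul_of_nonneg_left h1 (by linarith)
        _ = _ := by ring
    have e7 : c2 * (L ^ (D - 1) * u ^ 2) * u ≤ (δ * ((2 * r / t : ℕ) : ℝ) ^ D) / 2 := by
      have h1 := mul_le_mul_of_nonneg_left e2 hδ.le
      have h2 : c2 * (L ^ (D - 1) * u ^ 2) * u = (δ * ((L : ℝ) ^ (D - 1) * u ^ 3 / 2 ^ D)) / 2 := by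
        rw [hc2, pow_succ]
        field_simp
      rw [h2]
      linarith
    clear e1 e2 e3 hm hm' hm0 hmA b4 b5 b6 hL4 hup t1 t2 t3 t4 hL1 hL2 b1 hlu
    obtain ⟨Y1, hY1⟩ : ∃ Y1 : ℝ, Y1 = (δ * ((2 * r / t : ℕ) : ℝ) ^ D) / 2 := ⟨_, rfl⟩
    obtain ⟨Y2, hY2⟩ : ∃ Y2 : ℝ, Y2 = C * (m * Real.log (u ^ (2 * q'))) ^ K /
      Real.sqrt (u ^ (2 * q')) := ⟨_, rfl⟩
    obtain ⟨Y3, hY3⟩ : ∃ Y3 : ℝ, Y3 = C * Real.log (m * u ^ (2 * q')) := ⟨_, rfl⟩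
    obtain ⟨Y4, hY4⟩ : ∃ Y4 : ℝ, Y4 = ((((r + 1 : ℕ) : ℝ) / r) ^ D - 1) *
      (C * m * Real.log (u ^ (2 * q'))) := ⟨_, rfl⟩
    rw [← hY4] at e4
    rw [← hY2] at e5
    rw [← hY3] at e6
    rw [← hY1] at e7
    rw [← hY1, ← hY2, ← hY3, ← hY4]
    clear hY1 hY2 hY3 hY4
    obtain ⟨X, hX⟩ : ∃ X : ℝ, X = L ^ (D - 1) * u ^ 2 := ⟨_, rfl⟩
    have hL1 : (1 : ℝ) ≤ L := by
      have : (1 : ℝ) ≤ r := by exact_mod_cast hr1
      rw [hLr]; linarith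
    have hLD : (1 : ℝ) ≤ L ^ (D - 1) := one_le_pow₀ hL1
    have huX : u ≤ X := by
      calc u ≤ u ^ 2 := by rw [sq]; exact le_mul_of_one_le_right hu0'.le hu1
        _ ≤ L ^ (D - 1) * u ^ 2 := le_mul_of_one_le_left (by positivity) hLD
        _ = X := hX.symm
    have hX0 : 0 ≤ X := by linarith
    have f4 : u * (L : ℝ) ^ (D - 1) ≤ X := by
      calc u * (L : ℝ) ^ (D - 1) ≤ u * (L : ℝ) ^ (D - 1) * u :=
            le_mul_of_one_le_right (by positivity) hu1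
        _ = X := by rw [hX]; ring
    rw [← hX] at e4 e7
    have f1 : C2 * X ≤ c2 * X * u / 2 := by
      have h1 := mul_le_mul_of_nonneg_right b2 hX0
      have h2 : c2 * u * X = c2 * X * u := by ring
      linarith
    have f2 : C3 * X ≤ c2 * X * u / 2 := by
      have h1 := mul_le_mul_of_nonneg_right b3 hX0
      have h2 : c2 * u * X = c2 * X * u := by ring
      linarith
    have f3 : C * A ^ K + (C * Real.log A + C * u) + 2 * u * (L : ℝ) ^ (D - 1) ≤ C3 * X := by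
      rw [hC3]
      have h1 : 0 ≤ C * A ^ K := by positivity
      have h2 : 0 ≤ C * Real.log A := by positivity
      have h4 : 1 ≤ X := by linarith
      have h5 : C * A ^ K ≤ C * A ^ K * X := le_mul_of_one_le_right h1 h4
      have h6 : C * Real.log A ≤ C * Real.log A * X := le_mul_of_one_le_right h2 h4
      have h7 : C * u ≤ C * X := mul_le_mul_of_nonneg_left huX (by linarith)
      calc _ ≤ C * A ^ K * X + (C * Real.log A * X + C * X) + 2 * X := by linarith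
        _ = _ := by ring
    linarith

lemma par (C : ℝ) (K : ℕ) (hC : 1 ≤ C) (D : ℕ) (hD : 1 ≤ D) : ∃ p q : ℕ, 1 ≤ p ∧ 1 ≤ q ∧
    ∀ c δ : ℝ, 0 < c → 0 < δ → ∃ u0 : ℝ, 4 ≤ u0 ∧ ∀ u : ℝ, u0 ≤ u → ∀ L t r : ℕ, 1 ≤ t →
    (t : ℝ) ≤ u → u ^ p ≤ L → (L : ℝ) ≤ 2 * u ^ p → L = 2 * r + 2 → 1 ≤ r ∧ 3 ≤ u ^ q ∧
    2 * (L : ℝ) ≤ u ^ q ∧
    2 * u ≤ u ^ q * (c / (L * t) ^ 2) / 2 ^ (D + 1) - 2 ^ (D + 1) * C *
      ((D + 1) ^ 2 * (t * L ^ D) : ℕ) * Real.log (u ^ q) ∧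
    2 * u ≤ (δ * ((2 * r / t : ℕ) : ℝ) ^ D) / 2 -
          C * (((D + 1) ^ 2 * (t * L ^ D) : ℕ) * Real.log (u ^ q)) ^ K / Real.sqrt (u ^ q) -
          C * Real.log (((D + 1) ^ 2 * (t * L ^ D) : ℕ) * u ^ q) -
          ((((r + 1 : ℕ) : ℝ) / r) ^ D - 1) * (C * ((D + 1) ^ 2 * (t * L ^ D) : ℕ) *
            Real.log (u ^ q)) := by
  obtain ⟨p, q, hp, hq, h⟩ := par3 C K hC D hD
  refine ⟨p, q, hp, hq, fun c δ hc hδ => ?_⟩
  obtain ⟨u0, hu0, h1⟩ := h c δ hc hδ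
  refine ⟨u0, hu0, fun u hu L t r ht htu hL1 hL2 hr => ?_⟩
  obtain ⟨k1, k2, k3, k4, k5⟩ := h1 u hu L t r ht htu hL1 hL2 hr
  have hL : (1 : ℝ) ≤ L := by
    have : 1 ≤ L := by omega
    exact_mod_cast this
  have hLD : (1 : ℝ) ≤ (L : ℝ) ^ (D - 1) := one_le_pow₀ hL
  have h2 : 2 * u ≤ 2 * u * (L : ℝ) ^ (D - 1) := le_mul_of_one_le_right (by linarith) hLD
  exact ⟨k1, k2, k3, h2.trans k4, h2.trans k5⟩

end Pool.Agent.H991.DC
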