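import Mathlib
import Pool.Agent.H991.DC.Core
import Pool.Agent.H991.DC.Cen
import Pool.Agent.H991.DC.Par

/-!
# The breaking of the centre symmetry
-/

open MeasureTheory Matrix
open scoped Matrix.Norms.Frobenius
open Pool.Agent.N899.SB
open Pool.Agent.N899.BB (we)
open Pool.Agent.Y14.Wilson

namespace Pool.Agent.H991.DC

noncomputable section

/-- different elements of a finite centre are at a positive distance -/
lemma center_sep {N : ℕ} (G : Subgroup (UU N)) [Finite (Subgroup.center G)] :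
    ∃ d : ℝ, 0 < d ∧ ∀ z ∈ Subgroup.center G, ∀ z' ∈ Subgroup.center G, ‖mt z - mt z'‖ ≤ d → z = z' := by
  classical
  have : Fintype (Subgroup.center G) := Fintype.ofFinite _
  obtain ⟨S, hS⟩ : ∃ S : Finset (Subgroup.center G × Subgroup.center G),
    S = Finset.univ.filter fun p => p.1 ≠ p.2 := ⟨_, rfl⟩
  rcases S.eq_empty_or_nonempty with he | hne
  · refine ⟨1, one_pos, fun z hz z' hz' _ => ?_⟩
    by_contra hcon
    have : ((⟨z, hz⟩, ⟨z', hz'⟩) : Subgroup.center G × Subgroup.center G) ∈ S := by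
      rw [hS, Finset.mem_filter]
      exact ⟨Finset.mem_univ _, fun h => hcon (congrArg Subtype.val h)⟩
    rw [he] at this
    exact absurd this (Finset.notMem_empty _)
  · obtain ⟨p, hp, hmin⟩ := S.exists_min_image (fun p => ‖mt p.1.1 - mt p.2.1‖) hne
    have hpos : 0 < ‖mt p.1.1 - mt p.2.1‖ := by
      rw [norm_pos_iff]
      intro h0
      rw [hS, Finset.mem_filter] at hp
      apply hp.2
      refine Subtype.ext (Subtype.ext (Subtype.ext ?_))
      exact sub_eq_zero.1 h0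
    refine ⟨‖mt p.1.1 - mt p.2.1‖ / 2, by positivity, fun z hz z' hz' hle => ?_⟩
    by_contra hcon
    have h1 : ((⟨z, hz⟩, ⟨z', hz'⟩) : Subgroup.center G × Subgroup.center G) ∈ S := by
      rw [hS, Finset.mem_filter]
      exact ⟨Finset.mem_univ _, fun h => hcon (congrArg Subtype.val h)⟩
    have h2 := hmin _ h1
    simp only at h2
    linarith

theorem main_dc {N : ℕ} (G : Subgroup (UU N)) (hG : IsClosed (G : Set (UU N))) [PreconnectedSpace G]
    [Finite (Subgroup.center G)] [MeasurableSpace G] [BorelSpace G] (μ : Measure G)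
    [IsProbabilityMeasure μ] [μ.IsHaarMeasure] (D : ℕ) (hD : 2 ≤ D) :
    ∃ κ : ℝ, 0 < κ ∧ ∀ ε : ℝ, 0 < ε → ∃ β0 : ℝ, 1 ≤ β0 ∧ ∀ β : ℝ, β0 ≤ β → ∀ (t : ℕ) [NeZero t],
    (t : ℝ) ≤ β ^ κ → ∀ (k l : ℕ) [NeZero l], β ≤ 2 ^ k → 2 ^ k ∣ l →
    ∀ X : Finset (Fin D → ZMod l),
    (nu μ D l t β).real {U | ¬ ∃ z ∈ Subgroup.center G, U ∈ Ez ε X z} ≤
      X.card * Real.exp (-β ^ κ) := by
  have hcG := Pool.Agent.N899.BB.Est.compactG hG
  have hsG : SecondCountableTopology G := Pool.Agent.N899.BB.Est.scG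
  obtain ⟨n, ⟨B⟩⟩ := exists_basis hG
  obtain ⟨C, K, hC, hK, hw⟩ := wts G hG μ B
  obtain ⟨p, q, hp, hq, hpar⟩ := par C K hC D (by omega)
  have hq0 : (0 : ℝ) < q := by exact_mod_cast hq
  refine ⟨1 / q, by positivity, fun ε hε => ?_⟩
  obtain ⟨d, hd, hsep⟩ := center_sep G
  obtain ⟨ρ, hρ⟩ : ∃ ρ, ρ = min (ε / 2) (d / 4) := ⟨_, rfl⟩
  have hρ0 : 0 < ρ := by rw [hρ]; exact lt_min (by positivity) (by positivity)
  have hρε : 2 * ρ ≤ ε := by
    have : ρ ≤ ε / 2 := by rw [hρ]; exact min_le_left _ _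
    linarith
  have hρd : 2 * (2 * ρ) ≤ d := by
    have : ρ ≤ d / 4 := by rw [hρ]; exact min_le_right _ _
    linarith
  obtain ⟨c, hc, hlow⟩ := ad_low hG B hρ0
  have hD0 : (0 : ℝ) < D := by exact_mod_cast (by omega : 0 < D)
  have hcosh : 0 < Real.cosh (20 * D) + 1 := by
    have := Real.cosh_pos (20 * D)
    linarith
  obtain ⟨u0, hu0, hu⟩ := hpar (ρ ^ 2 / (2 * D ^ 2)) (c / 2 / (Real.cosh (20 * D) + 1))
    (by positivity) (by positivity)
  obtain ⟨v, hv⟩ : ∃ v : ℝ, v = u0 + (22 * D + 2) := ⟨_, rfl⟩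
  have hv4 : 4 ≤ v := by rw [hv]; linarith
  refine ⟨v ^ q, one_le_pow₀ (by linarith), fun β hβ t _ ht k l _ hk hkl X => ?_⟩
  obtain ⟨u, hudef⟩ : ∃ u : ℝ, u = β ^ (1 / (q : ℝ)) := ⟨_, rfl⟩
  have hβ0 : 0 < β := lt_of_lt_of_le (by positivity) hβ
  have huq : u ^ q = β := by
    rw [hudef, one_div, Real.rpow_inv_natCast_pow hβ0.le (by omega)]
  have huv : v ≤ u := by
    have : (0 : ℝ) ≤ u := by rw [hudef]; positivity
    refine (pow_le_pow_iff_left₀ (by linarith) this (by omega : q ≠ 0)).1 ?_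
    rw [huq]
    exact hβ
  have hu1 : 1 ≤ u := by linarith
  rw [← hudef] at ht ⊢
  -- the side of the blocks
  obtain ⟨j, hj1, hj2⟩ := exists_nat_pow_near (x := u ^ p) (y := 2) (one_le_pow₀ hu1) (by norm_num)
  obtain ⟨L, hL⟩ : ∃ L : ℕ, L = 2 ^ (j + 1) := ⟨_, rfl⟩
  have hL1 : u ^ p ≤ L := by rw [hL]; push_cast; exact hj2.le
  have hL2 : (L : ℝ) ≤ 2 * u ^ p := by
    rw [hL]; push_cast; rw [pow_succ]; linarith
  obtain ⟨r, hr⟩ : ∃ r : ℕ, r = 2 ^ j - 1 := ⟨_, rfl⟩
  have hLr : L = 2 * r + 2 := by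
    have : 1 ≤ 2 ^ j := Nat.one_le_two_pow
    rw [hL, hr, pow_succ]
    omega
  have ht1 : 1 ≤ t := Nat.pos_of_ne_zero (NeZero.ne t)
  obtain ⟨hr1, h3, h2L, hs1, hs2⟩ := hu u (by rw [hv] at huv; linarith) L t r ht1 ht hL1 hL2 hLr
  have hLpos : 0 < L := by omega
  -- the number of blocks
  have hdvd : L * 2 ∣ l := by
    refine dvd_trans ?_ hkl
    have h4 : ((2 ^ (j + 2) : ℕ) : ℝ) ≤ ((2 ^ k : ℕ) : ℝ) := by
      have : ((2 ^ (j + 2) : ℕ) : ℝ) = 2 * (L : ℝ) := by rw [hL]; push_cast; ring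
      rw [this]
      push_cast
      rw [huq] at h2L
      linarith
    have h5 : 2 ^ (j + 2) ≤ 2 ^ k := by exact_mod_cast h4
    have h6 : j + 2 ≤ k := (Nat.pow_le_pow_iff_right (by norm_num)).1 h5
    have h7 : L * 2 = 2 ^ (j + 2) := by rw [hL]; ring
    rw [h7]
    exact pow_dvd_pow 2 h6
  obtain ⟨h, hh⟩ := hdvd
  have hh' : l = L * (2 * h) := by rw [hh]; ring
  subst hh'
  have hh0 : h ≠ 0 := by
    intro h0
    have := NeZero.ne (L * (2 * h))
    apply this
    rw [h0]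
    rfl
  have : NeZero h := ⟨hh0⟩
  have : NeZero (2 * h) := ⟨by omega⟩
  -- the cutoff
  obtain ⟨F, hF⟩ : ∃ F : G → ℝ, F = fun P => max 0 (min 1 ((2 * ad B P - c) / c)) := ⟨_, rfl⟩
  have hFc : Continuous F := by
    rw [hF]
    exact continuous_const.max (continuous_const.min
      (((continuous_const.mul (ad_cont B)).sub continuous_const).div_const c))
  have hF1 : ∀ P, 0 ≤ F P ∧ F P ≤ 1 := by
    intro P
    rw [hF]
    exact ⟨le_max_left _ _, max_le zero_le_one (min_le_left _ _)⟩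
  have hFδ : ∀ P, F P ≠ 0 → c / 2 ≤ n - (Ado B P).trace := by
    intro P hP
    by_contra hcon
    push Not at hcon
    apply hP
    have h4 : ad B P < c / 2 := hcon
    rw [hF]
    simp only
    refine max_eq_left ((min_le_right _ _).trans ?_)
    exact div_nonpos_of_nonpos_of_nonneg (by linarith) hc.le
  have hqm : MeasurableSet {g : G | qf ρ g} := by
    unfold qf
    have hcl : IsClosed {g : G | ∀ z ∈ Subgroup.center G, ρ ≤ ‖mt g - mt z‖} := by
      simp only [Set.setOf_forall]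
      exact isClosed_iInter fun z => isClosed_iInter fun _ => isClosed_le continuous_const
        ((continuous_subtype_val.comp continuous_subtype_val : Continuous (mt : G → Mt N)).sub
          continuous_const).norm
    exact hcl.measurableSet
  have hqF : ∀ g : G, qf ρ g → F g = 1 := by
    intro g hg
    have h4 := hlow g hg
    rw [hF]
    simp only
    rw [min_eq_left, max_eq_right zero_le_one]
    rw [le_div_iff₀ hc]
    linarith
  have hβ3 : 3 ≤ β := by rw [← huq]; exact h3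
  obtain ⟨hZ, w1, w2⟩ := hw D L h t r hD hr1 hLr β hβ3 (ρ ^ 2 / (2 * D ^ 2) / (L * t) ^ 2) (c / 2)
    (by positivity) (by positivity) F hFc hF1 hFδ (qf ρ) hqm hqF
  rw [huq] at hs1 hs2
  obtain ⟨e, he⟩ : ∃ e : ℝ, e = Real.exp (-(2 * u)) := ⟨_, rfl⟩
  have he0 : 0 < e := by rw [he]; exact Real.exp_pos _
  have g1 := w1.trans (mul_le_mul_of_nonneg_left (pow_le_pow_left₀ (Real.exp_pos _).le
    (Real.exp_le_exp.2 (neg_le_neg hs1)) _) hZ.le)
  have g2 := w2.trans (mul_le_mul_of_nonneg_left (pow_le_pow_left₀ (Real.exp_pos _).le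
    (Real.exp_le_exp.2 (neg_le_neg (by
      refine hs2.trans (le_of_eq ?_)
      ring))) _) hZ.le)
  rw [← he] at g1 g2
  have heu : 2 * (11 * (D : ℝ) + 1) * e ≤ Real.exp (-u) := by
    have h4 : 22 * (D : ℝ) + 2 ≤ Real.exp u := by
      have := Real.add_one_le_exp u
      rw [hv] at huv
      linarith
    have h5 : e = Real.exp (-u) * Real.exp (-u) := by rw [he, ← Real.exp_add]; congr 1; ring
    have h6 : Real.exp u * Real.exp (-u) = 1 := by rw [← Real.exp_add]; simp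
    rw [h5]
    have h7 := Real.exp_pos (-u)
    calc 2 * (11 * (D : ℝ) + 1) * (Real.exp (-u) * Real.exp (-u)) =
        (22 * D + 2) * Real.exp (-u) * Real.exp (-u) := by ring
      _ ≤ Real.exp u * Real.exp (-u) * Real.exp (-u) := by gcongr
      _ = _ := by rw [h6, one_mul]
  have he9 : 9 * (2 * e) ≤ 1 / 2 := by
    have h4 : Real.exp (-u) ≤ 1 / 4 := by
      rw [Real.exp_neg, inv_eq_one_div, div_le_div_iff₀ (Real.exp_pos _) (by norm_num)]
      have := Real.add_one_le_exp u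
      linarith
    have hD2 : (2 : ℝ) ≤ D := by exact_mod_cast hD
    have h5 : 0 ≤ ((D : ℝ) - 2) * e := mul_nonneg (by linarith) he0.le
    linarith
  have key := core μ hD hLpos hρ0 (fun z hz z' hz' hle => hsep z hz z' hz' (hle.trans hρd)) hqm
    hβ0.le he0.le he9 hZ g1 g2 X
  have := nu_prob (G := G) μ D (L * (2 * h)) t β hβ0.le
  refine le_trans (measureReal_mono ?_) (key.trans ?_)
  · intro U hU hcon
    apply hU
    obtain ⟨z, hz, hU'⟩ := hcon
    exact ⟨z, hz, fun x hx => (hU' x hx).trans hρε⟩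
  · refine mul_le_mul_of_nonneg_left ?_ (Nat.cast_nonneg _)
    linarith

end

end Pool.Agent.H991.DC
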