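import Mathlib
import Pool.Agent.H991.DC.Main
import Pool.Agent.H991.DC.Lim2
import Pool.Agent.H991.DC.Eng

/-!
# The phases in infinite volume
-/

open MeasureTheory Matrix Filter
open scoped Matrix.Norms.Frobenius Topology
open Pool.Agent.N899.SB
open Pool.Agent.N899.BB (we)
open Pool.Agent.Y14.Wilson

namespace Pool.Agent.H991.DC

noncomputable section

theorem main_inf {N : ℕ} (G : Subgroup (UU N)) (hG : IsClosed (G : Set (UU N)))
    [PreconnectedSpace G] [Finite (Subgroup.center G)] [MeasurableSpace G] [BorelSpace G]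
    (μ : Measure G) [IsProbabilityMeasure μ] [μ.IsHaarMeasure] (D : ℕ) (hD : 2 ≤ D) :
    ∃ κ : ℝ, 0 < κ ∧ ∀ ε : ℝ, 0 < ε → ∃ β0 : ℝ, 1 ≤ β0 ∧ ∀ β : ℝ, β0 ≤ β → ∀ (t : ℕ) [NeZero t],
    (t : ℝ) ≤ β ^ κ → ∀ z ∈ Subgroup.center G, ∃ ω : Measure (LZ D t → G),
    IsProbabilityMeasure ω ∧ (∀ i, ω.map (Tv (evZ D t i)) = ω) ∧
    (∀ (Λ : Finset (LZ D t)) (F : (LZ D t → G) → ℝ), Continuous F →
      ∫ U, (∫ V : Λ → G, F (gl Λ V U) * Real.exp (-(β * eng Λ (gl Λ V U)))
        ∂(Measure.pi fun _ => μ)) /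
        (∫ V : Λ → G, Real.exp (-(β * eng Λ (gl Λ V U))) ∂(Measure.pi fun _ => μ)) ∂ω =
        ∫ U, F U ∂ω) ∧
    ∀ x : Fin D → ℤ, 1 - Real.exp (-β ^ κ) ≤ ω.real {U | ‖mt (PolZ U x) - mt z‖ ≤ ε} := by
  have hcG := Pool.Agent.N899.BB.Est.compactG hG
  have hsG : SecondCountableTopology G := Pool.Agent.N899.BB.Est.scG
  have hri := Pool.Agent.N899.BB.Gauss.right_inv μ
  obtain ⟨κ1, hκ1, hmain⟩ := main_dc G hG μ D hD
  obtain ⟨κ, hκ⟩ : ∃ κ, κ = κ1 / 2 := ⟨_, rfl⟩
  have hκ0 : 0 < κ := by rw [hκ]; positivity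
  have hκκ : κ1 = κ + κ := by rw [hκ]; ring
  refine ⟨κ, hκ0, fun ε hε => ?_⟩
  obtain ⟨d, hd, hsep⟩ := center_sep G
  obtain ⟨ε1, hε1⟩ : ∃ ε1, ε1 = min (ε / 2) (d / 2) := ⟨_, rfl⟩
  have hε10 : 0 < ε1 := by rw [hε1]; exact lt_min (by positivity) (by positivity)
  have hε1ε : 2 * ε1 ≤ ε := by
    have : ε1 ≤ ε / 2 := by rw [hε1]; exact min_le_left _ _
    linarith
  have hε1d : 2 * ε1 ≤ d := by
    have : ε1 ≤ d / 2 := by rw [hε1]; exact min_le_right _ _
    linarith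
  obtain ⟨β1, hβ1, hm⟩ := hmain ε1 hε10
  obtain ⟨c, hc⟩ : ∃ c : ℝ, c = Nat.card (Subgroup.center G) := ⟨_, rfl⟩
  have hc1 : 1 ≤ c := by rw [hc]; exact_mod_cast Nat.card_pos
  have hlc : 0 ≤ Real.log (8 * c) := Real.log_nonneg (by linarith)
  obtain ⟨β2, hβ2⟩ : ∃ β2 : ℝ, β2 = (1 + Real.log (8 * c)) ^ (1 / κ) := ⟨_, rfl⟩
  have hβ20 : 0 ≤ β2 := by rw [hβ2]; positivity
  refine ⟨β1 + β2, by linarith, fun β hβ t _ ht z hz => ?_⟩
  have hββ1 : β1 ≤ β := by linarith
  have hβ11 : 1 ≤ β := by linarith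
  have hβ0 : 0 ≤ β := by linarith
  obtain ⟨y, hy⟩ : ∃ y : ℝ, y = β ^ κ := ⟨_, rfl⟩
  have hy1 : 1 + Real.log (8 * c) ≤ y := by
    have h1 : β2 ^ κ ≤ β ^ κ := Real.rpow_le_rpow hβ20 (by linarith) hκ0.le
    rw [hβ2, ← Real.rpow_mul (by positivity), one_div, inv_mul_cancel₀ hκ0.ne', Real.rpow_one] at h1
    rw [hy]
    exact h1
  have hyy : β ^ κ1 = y * y := by rw [hκκ, Real.rpow_add (by linarith), ← hy]
  have ht' : (t : ℝ) ≤ β ^ κ1 :=
    ht.trans (Real.rpow_le_rpow_of_exponent_le hβ11 (by rw [hκ]; linarith))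
  obtain ⟨k0, hk0⟩ := pow_unbounded_of_one_lt β (by norm_num : (1 : ℝ) < 2)
  obtain ⟨η, hη⟩ : ∃ η : ℝ, η = Real.exp (-β ^ κ1) := ⟨_, rfl⟩
  obtain ⟨δ, hδ⟩ : ∃ δ : ℝ, δ = Real.exp (-β ^ κ) := ⟨_, rfl⟩
  have hδ0 : 0 < δ := by rw [hδ]; exact Real.exp_pos _
  have hηδ : η / δ ≤ 1 / (8 * c) := by
    rw [hη, hδ, ← Real.exp_sub, hyy, ← hy]
    have h1 : Real.log (8 * c) ≤ y * y - y := by
      have k1 : 0 ≤ y * (y - (1 + Real.log (8 * c))) :=
        mul_nonneg (by linarith) (sub_nonneg.2 hy1)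
      have k2 : 0 ≤ Real.log (8 * c) * (y - 1) := mul_nonneg hlc (by linarith)
      linarith
    calc Real.exp (-(y * y) - -y) ≤ Real.exp (-Real.log (8 * c)) :=
          Real.exp_le_exp.2 (by linarith)
      _ = 1 / (8 * c) := by rw [Real.exp_neg, Real.exp_log (by positivity), one_div]
  have hη1 : η ≤ 1 / 8 := by
    have h1 : δ ≤ 1 := by
      rw [hδ, Real.exp_le_one_iff, ← hy]
      linarith
    have h2 : η ≤ η / δ := by
      rw [le_div_iff₀ hδ0]
      have : 0 ≤ η := by rw [hη]; exact (Real.exp_pos _).le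
      exact mul_le_of_le_one_right this h1
    have h3 : 1 / (8 * c) ≤ 1 / 8 := one_div_le_one_div_of_le (by norm_num) (by linarith)
    linarith
  have hq : 0 < (1 - η) / Nat.card (Subgroup.center G) - 2 * η / δ := by
    rw [← hc]
    have h1 : 7 / 8 * (1 / c) ≤ (1 - η) / c := by
      rw [mul_one_div]
      exact div_le_div_of_nonneg_right (by linarith) (by linarith)
    have h2 : 2 * η / δ ≤ 2 / 8 * (1 / c) := by
      have h3 : 2 * η / δ = 2 * (η / δ) := by ring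
      have h4 : 1 / (8 * c) = 1 / 8 * (1 / c) := by field_simp
      rw [h3]
      rw [h4] at hηδ
      linarith
    have h5 : 0 < 1 / c := by positivity
    linarith
  obtain ⟨ω, hω, hshift, hmv, hlow⟩ := exists_phase μ hD (t := t) hβ0 hε10 hδ0
    (fun z hz z' hz' hle => hsep z hz z' hz' (hle.trans hε1d)) k0 (fun k X => by
      have hne : NeZero (2 ^ (k0 + k + 1)) := ⟨by positivity⟩
      rw [hη]
      refine hm β hββ1 t ht' (k0 + k + 1) (2 ^ (k0 + k + 1)) ?_ (dvd_refl _) X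
      exact hk0.le.trans (pow_le_pow_right₀ (by norm_num) (by omega))) hz hq
  refine ⟨ω, hω, fun i => ?_, fun Λ F hF => ?_, fun x => ?_⟩
  · have hTm : Measurable (Tv (evZ D t i) : (LZ D t → G) → (LZ D t → G)) := (Tv_cont _).measurable
    have hpm : IsProbabilityMeasure (ω.map (Tv (evZ D t i))) :=
      Measure.isProbabilityMeasure_map hTm.aemeasurable
    refine ext_of_forall_integral_eq_of_IsFiniteMeasure fun f => ?_
    rw [integral_map hTm.aemeasurable f.continuous.measurable.aestronglyMeasurable]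
    exact hshift i f f.continuous
  · refine dlr μ (w := fun U => -(β * eng Λ U)) (continuous_const.mul (eng_cont Λ)).neg ?_ hF
    intro b hb g F' hF'
    rw [hmv b g F' hF']
    refine integral_congr_ae (Eventually.of_forall fun U => ?_)
    simp only
    rw [← eng_diff hb]
    congr 2
    ring
  · have hS : MeasurableSet {U : LZ D t → G | ‖mt (PolZ U x) - mt z‖ ≤ ε} := by
      have hm : Continuous (fun U : LZ D t → G => ‖mt (PolZ U x) - mt z‖) := by
        have h1 : Continuous (fun g : G => ‖mt g - mt z‖) :=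
          ((continuous_subtype_val.comp continuous_subtype_val : Continuous (mt : G → Mt N)).sub
            continuous_const).norm
        exact h1.comp (PolZ_cont x)
      exact measurableSet_le hm.measurable measurable_const
    have h1 := hlow x
    rw [hδ] at h1
    refine h1.trans ?_
    rw [← integral_indicator_one hS]
    have hfc : Continuous fun U : LZ D t → G => fz ε1 z (PolZ U x) := (fz_cont ε1 z).comp (PolZ_cont x)
    refine integral_mono (bd_int _ hfc.measurable (C := 1) fun U => by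
      rw [abs_of_nonneg (fz_nonneg _ _ _)]; exact fz_le _ _ _) ((integrable_const _).indicator hS)
      fun U => ?_
    by_cases hU : U ∈ {U : LZ D t → G | ‖mt (PolZ U x) - mt z‖ ≤ ε}
    · rw [Set.indicator_of_mem hU]
      exact fz_le _ _ _
    · rw [Set.indicator_of_notMem hU]
      have h2 : ε < ‖mt (PolZ U x) - mt z‖ := not_le.1 hU
      simp only
      rw [fz_zero hε10 (by linarith)]

end

end Pool.Agent.H991.DC
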